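import Pool.Agent.Lib.OrlovNef.Star

/-!
# A second Lefschetz operator and its adjoint
-/

set_option autoImplicit false

namespace Pool.Agent.Lib.OrlovNef

namespace Lefs

variable {K E : Type*} [Field K] [LinearOrder K] [IsStrictOrderedRing K] [AddCommGroup E]
  [Module K E] {d : ℕ} (X : Lefs K E d)

/-- A second operator of degree `2` which commutes with `L`. -/
structure IsNef (N : Module.End K E) : Prop where
  N_pr : ∀ j, N * X.pr j = X.pr (j + 2) * N
  N_b : ∀ x y, X.b (N x) y = X.b x (N y)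
  N_L : N * X.L = X.L * N

variable {X} {N : Module.End K E}

omit [IsStrictOrderedRing K] in
theorem IsNef.deg (hN : X.IsNef N) {j : ℕ} {x : E} (hx : X.pr j x = x) :
    X.pr (j + 2) (N x) = N x := by
  have h := LinearMap.congr_fun (hN.N_pr j) x
  rw [Module.End.mul_apply, Module.End.mul_apply, hx] at h
  exact h.symm

omit [IsStrictOrderedRing K] in
theorem IsNef.N_L_pow (hN : X.IsNef N) (k : ℕ) (x : E) : N ((X.L ^ k) x) = (X.L ^ k) (N x) := by
  have h : Commute N (X.L ^ k) := Commute.pow_right hN.N_L k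
  exact LinearMap.congr_fun h x

omit [IsStrictOrderedRing K] in
theorem IsNef.b_pow (hN : X.IsNef N) {p q n : ℕ} (x y : E) (h : p + q = n) :
    X.b ((X.L ^ p) x) (N ((X.L ^ q) y)) = X.b x (N ((X.L ^ n) y)) := by
  rw [X.b_L_pow, ← hN.N_L_pow, ← Module.End.mul_apply (X.L ^ p), ← pow_add, h]

variable [FiniteDimensional K E]

/-- The adjoint of the operator `N`. -/
noncomputable def Ns (X : Lefs K E d) (N : Module.End K E) : Module.End K E := X.S * N * X.S

theorem coef (i j a c n : ℕ) (hi : i ≤ d) (hj : j ≤ d) (hn : a + c = n)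
    (hk : d - i + (d - j) = 2 * n + 2) (h1 : n ≤ d - i) (h2 : n ≤ d - j) :
    (sgn K i * fr K (d - i) (a + 2)) * (sgn K j * fr K (d - j) c) -
      2 * ((sgn K i * fr K (d - i) (a + 1)) * (sgn K j * fr K (d - j) (c + 1))) +
      (sgn K i * fr K (d - i) a) * (sgn K j * fr K (d - j) (c + 2)) + 2 = 0 := by
  obtain h | h | h : (d - i = n ∧ d - j = n + 2) ∨ (d - i = n + 1 ∧ d - j = n + 1) ∨
    (d - i = n + 2 ∧ d - j = n) := by omega
  · obtain rfl : i = j + 2 := by omega
    have hs : sgn K (j + 2) * sgn K j = -1 := by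
      rw [sgn_add_two]
      have := sgn_sq K j
      linear_combination -this
    have e1 := fr_mul_two K n (a + 2) (by omega)
    have e2 := fr_mul_two K n (a + 1) (by omega)
    have e3 := fr_mul_two K n a (by omega)
    rw [show n + 2 - (a + 2) = c by omega] at e1
    rw [show n + 2 - (a + 1) = c + 1 by omega] at e2
    rw [show n + 2 - a = c + 2 by omega] at e3
    rw [h.1, h.2]
    push_cast at e1 e2 e3 ⊢
    linear_combination (sgn K (j + 2) * sgn K j) * (e1 - 2 * e2 + e3) + 2 * hs
  · obtain rfl : i = j := by omega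
    have hs := sgn_sq K i
    have f1 := fr_mul K (n + 1) (a + 1) (by omega)
    have f2 := fr_mul K (n + 1) a (by omega)
    rw [show n + 1 - (a + 1) = c by omega] at f1
    rw [show n + 1 - a = c + 1 by omega] at f2
    have e1 := fr_succ K (n + 1) (a + 1) (by omega)
    have e2 := fr_succ K (n + 1) c (by omega)
    have e3 := fr_succ K (n + 1) (c + 1) (by omega)
    have hn' : (n : K) = a + c := by rw [← hn]; push_cast; ring
    rw [h.1, show a + 2 = a + 1 + 1 by ring, show c + 2 = c + 1 + 1 by ring, e1, e3]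
    conv_lhs => enter [1, 1, 2, 2, 2]; rw [e2]
    push_cast
    rw [hn']
    linear_combination (sgn K i * sgn K i) * (((a : K) + 1 + 1) * (a + c + 1 - (a + 1))) * f1 -
      2 * (sgn K i * sgn K i) * (((c : K) + 1) * (a + c + 1 - c)) * f1 +
      (sgn K i * sgn K i) * (((c : K) + 1 + 1) * (a + c + 1 - (c + 1))) * f2 +
      (((a : K) + 1 + 1) * (a + c + 1 - (a + 1)) - 2 * (((c : K) + 1) * (a + c + 1 - c)) +
        (((c : K) + 1 + 1) * (a + c + 1 - (c + 1)))) * hs
  · obtain rfl : j = i + 2 := by omega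
    have hs : sgn K i * sgn K (i + 2) = -1 := by
      rw [sgn_add_two]
      have := sgn_sq K i
      linear_combination -this
    have e1 := fr_mul_two K n (c + 2) (by omega)
    have e2 := fr_mul_two K n (c + 1) (by omega)
    have e3 := fr_mul_two K n c (by omega)
    rw [show n + 2 - (c + 2) = a by omega] at e1
    rw [show n + 2 - (c + 1) = a + 1 by omega] at e2
    rw [show n + 2 - c = a + 2 by omega] at e3
    rw [h.1, h.2]
    push_cast at e1 e2 e3 ⊢
    linear_combination (sgn K i * sgn K (i + 2)) * (e1 - 2 * e2 + e3) + 2 * hs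

omit [IsStrictOrderedRing K] in
theorem S_deg' {i : ℕ} {x : E} (hx : X.pr i x = x) : X.pr (2 * d - i) (X.S x) = X.S x := by
  by_cases hi : i ≤ 2 * d
  · exact X.S_deg hi hx
  · rw [X.eq_zero_of_deg hx (by omega), map_zero, map_zero]

omit [IsStrictOrderedRing K] in
/-- The adjoint lowers the degree by `2`. -/
theorem IsNef.Ns_deg (hN : X.IsNef N) {j : ℕ} {x : E} (hx : X.pr (j + 2) x = x) :
    X.pr j (X.Ns N x) = X.Ns N x := by
  unfold Ns
  rw [Module.End.mul_apply, Module.End.mul_apply]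
  by_cases hj : j + 2 ≤ 2 * d
  · have h1 := hN.deg (X.S_deg hj hx)
    have h2 := X.S_deg (i := 2 * d - (j + 2) + 2) (by omega) h1
    rwa [show 2 * d - (2 * d - (j + 2) + 2) = j by omega] at h2
  · rw [X.eq_zero_of_deg hx (by omega), map_zero, map_zero, map_zero, map_zero]

omit [IsStrictOrderedRing K] in
theorem IsNef.Ns_low (hN : X.IsNef N) {j : ℕ} (hj : j < 2) {x : E} (hx : X.pr j x = x) :
    X.Ns N x = 0 := by
  unfold Ns
  rw [Module.End.mul_apply, Module.End.mul_apply]
  by_cases hj' : j ≤ 2 * d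
  · have h1 := hN.deg (X.S_deg hj' hx)
    rw [X.eq_zero_of_deg h1 (by omega), map_zero]
  · rw [X.eq_zero_of_deg hx (by omega), map_zero, map_zero, map_zero]

omit [IsStrictOrderedRing K] in
/-- The terms of the identity `[L, [L, N^*]] = -2 N`. -/
theorem IsNef.term (hN : X.IsNef N) {i j : ℕ} {x y : E} (hx : X.IsPrim i x) (hy : X.IsPrim j y)
    (A C n : ℕ) (hk : d - i + (d - j) = 2 * n + 2) (hAC : A + C = n + 2) :
    X.b ((X.L ^ A) x) (X.Ns N ((X.L ^ C) y)) =
      (sgn K i * fr K (d - i) A) * (sgn K j * fr K (d - j) C) * X.b x (N ((X.L ^ n) y)) := by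
  unfold Ns
  rw [Module.End.mul_apply, Module.End.mul_apply, ← X.b_S, X.S_strand hx, X.S_strand hy,
    map_smul, map_smul, map_smul, LinearMap.smul_apply, smul_eq_mul, smul_eq_mul]
  by_cases h : A ≤ d - i ∧ C ≤ d - j
  · rw [hN.b_pow x y (n := n) (by omega)]
    ring
  · rw [not_and_or, not_le, not_le] at h
    rcases h with h | h
    · rw [fr_of_lt K h]; ring
    · rw [fr_of_lt K h]; ring

theorem IsNef.key (hN : X.IsNef N) :
    X.L * X.L * X.Ns N - (2 : K) • (X.L * X.Ns N * X.L) + X.Ns N * X.L * X.L + (2 : K) • N = 0 := by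
  set T : Module.End K E := X.L * X.L * X.Ns N - (2 : K) • (X.L * X.Ns N * X.L) +
    X.Ns N * X.L * X.L + (2 : K) • N with hT
  have hdeg : ∀ j x, X.pr j x = x → X.pr (j + 2) (T x) = T x := by
    intro j x hx
    have g1 : X.pr (j + 2) (X.L (X.L (X.Ns N x))) = X.L (X.L (X.Ns N x)) := by
      by_cases hj : j < 2
      · rw [hN.Ns_low hj hx, map_zero, map_zero, map_zero]
      · obtain ⟨i, rfl⟩ : ∃ i, j = i + 2 := ⟨j - 2, by omega⟩
        have h1 := X.L_pow_deg 2 (hN.Ns_deg hx)
        exact h1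
    have g2 : X.pr (j + 2) (X.L (X.Ns N (X.L x))) = X.L (X.Ns N (X.L x)) := by
      have h1 := X.L_pow_deg 1 hx
      rw [pow_one, mul_one] at h1
      have h2 := X.L_pow_deg 1 (hN.Ns_deg h1)
      rwa [pow_one, mul_one] at h2
    have g3 : X.pr (j + 2) (X.Ns N (X.L (X.L x))) = X.Ns N (X.L (X.L x)) := by
      have h1 := X.L_pow_deg 2 hx
      exact hN.Ns_deg h1
    have g4 := hN.deg hx
    rw [hT]
    simp only [LinearMap.add_apply, LinearMap.sub_apply, LinearMap.smul_apply,
      Module.End.mul_apply, map_add, map_sub, map_smul, g1, g2, g3, g4]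
  apply X.ext_strand
  intro j c y hy hc
  rw [LinearMap.zero_apply]
  apply X.b_nondeg
  intro x
  rw [X.b_symm]
  have hyL := X.L_pow_deg c hy.deg
  refine X.strand_induction (P := fun x => X.b x (T ((X.L ^ c) y)) = 0) (by simp)
    (fun u v hu hv => by rw [map_add, LinearMap.add_apply, hu, hv, add_zero]) ?_ x
  intro i a x hx ha
  have hi := hx.le
  have hj := hy.le
  by_cases hdd : i + 2 * a + (j + 2 * c + 2) = 2 * d
  · have e1 : X.b ((X.L ^ a) x) (T ((X.L ^ c) y)) =
        X.b ((X.L ^ (a + 2)) x) (X.Ns N ((X.L ^ c) y)) -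
        2 * X.b ((X.L ^ (a + 1)) x) (X.Ns N ((X.L ^ (c + 1)) y)) +
        X.b ((X.L ^ a) x) (X.Ns N ((X.L ^ (c + 2)) y)) +
        2 * X.b ((X.L ^ a) x) (N ((X.L ^ c) y)) := by
      have f1 : ∀ z, X.b ((X.L ^ (a + 2)) x) z = X.b ((X.L ^ a) x) (X.L (X.L z)) := by
        intro z
        have f0 : (X.L ^ (a + 2)) x = X.L (X.L ((X.L ^ a) x)) := by
          rw [pow_succ', pow_succ']
          rfl
        rw [f0, X.b_L, X.b_L]
      have f2 : ∀ z, X.b ((X.L ^ (a + 1)) x) z = X.b ((X.L ^ a) x) (X.L z) := by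
        intro z
        rw [← X.b_L, ← Module.End.mul_apply, ← pow_succ']
      have f3 : (X.L ^ (c + 2)) y = X.L (X.L ((X.L ^ c) y)) := by
        rw [pow_succ', pow_succ']
        rfl
      have f4 : (X.L ^ (c + 1)) y = X.L ((X.L ^ c) y) := by
        rw [pow_succ']
        rfl
      rw [f1, f2, f3, f4, hT]
      simp only [LinearMap.add_apply, LinearMap.sub_apply, LinearMap.smul_apply,
        Module.End.mul_apply, map_add, map_sub, map_smul, smul_eq_mul]
    rw [e1]
    by_cases h3 : a + c ≤ d - i ∧ a + c ≤ d - j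
    · rw [hN.term hx hy (a + 2) c (a + c) (by omega) (by omega),
        hN.term hx hy (a + 1) (c + 1) (a + c) (by omega) (by omega),
        hN.term hx hy a (c + 2) (a + c) (by omega) (by omega), hN.b_pow x y (n := a + c) rfl]
      have h4 := coef (K := K) i j a c (a + c) hi hj rfl (by omega) h3.1 h3.2
      linear_combination (X.b x (N ((X.L ^ (a + c)) y))) * h4
    · have h4 : X.b x (N ((X.L ^ (a + c)) y)) = 0 := by
        rw [not_and_or, not_le, not_le] at h3
        rcases h3 with h3 | h3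
        · rw [hN.N_L_pow, ← X.b_L_pow, hx.kill_of_lt X h3, map_zero, LinearMap.zero_apply]
        · rw [hy.kill_of_lt X h3, map_zero, map_zero]
      rw [hN.term hx hy (a + 2) c (a + c) (by omega) (by omega),
        hN.term hx hy (a + 1) (c + 1) (a + c) (by omega) (by omega),
        hN.term hx hy a (c + 2) (a + c) (by omega) (by omega), hN.b_pow x y (n := a + c) rfl, h4]
      ring
  · exact X.b_deg (X.L_pow_deg a hx.deg) (hdeg _ _ hyL) hdd

end Lefs

end Pool.Agent.Lib.OrlovNef
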