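import Pool.Agent.Lib.OrlovNef.Adj

/-!
# Commutation relations
-/

set_option autoImplicit false

namespace Pool.Agent.Lib.OrlovNef

namespace Lefs

variable {K E : Type*} [Field K] [LinearOrder K] [IsStrictOrderedRing K] [AddCommGroup E]
  [Module K E] {d : ℕ} {X : Lefs K E d} {N : Module.End K E} [FiniteDimensional K E]

theorem S_mul_S_mul (T : Module.End K E) : X.S * (X.S * T) = T := by
  rw [← mul_assoc, X.S_sq, one_mul]

/-- Conjugation by the star operator. -/
theorem conj_mul (T U : Module.End K E) : X.S * (T * U) * X.S = (X.S * T * X.S) * (X.S * U * X.S) := by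
  simp only [mul_assoc, S_mul_S_mul]

theorem conj_conj (T : Module.End K E) : X.S * (X.S * T * X.S) * X.S = T := by
  simp only [mul_assoc, S_mul_S_mul, X.S_sq, mul_one]

theorem conj_La : X.S * X.La * X.S = X.L := conj_conj _

theorem conj_Ns : X.S * X.Ns N * X.S = N := conj_conj _

/-- `[Λ, N]`. -/
noncomputable def A (X : Lefs K E d) (N : Module.End K E) : Module.End K E :=
  X.La * N - N * X.La

theorem IsNef.La_Ns (hN : X.IsNef N) : X.La * X.Ns N = X.Ns N * X.La := by
  have h := congrArg (fun T => X.S * T * X.S) hN.N_L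
  simp only [conj_mul] at h
  exact h.symm

theorem IsNef.La_La_N (hN : X.IsNef N) :
    X.La * X.La * N - (2 : K) • (X.La * N * X.La) + N * X.La * X.La + (2 : K) • X.Ns N = 0 := by
  have h := congrArg (fun T => X.S * T * X.S) hN.key
  simp only [mul_add, add_mul, mul_sub, sub_mul, mul_smul_comm, smul_mul_assoc, conj_mul,
    conj_Ns, mul_zero, zero_mul] at h
  exact h

omit [IsStrictOrderedRing K] [FiniteDimensional K E] in
theorem ext_deg {f g : Module.End K E} (h : ∀ j x, X.pr j x = x → f x = g x) : f = g := by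
  ext x
  rw [← X.sum_pr x, map_sum, map_sum]
  exact Finset.sum_congr rfl (fun j _ => h j _ (by rw [X.pr_pr, if_pos rfl]))

omit [IsStrictOrderedRing K] in
/-- `[H, N^*] = 2 N^*`. -/
theorem IsNef.H_Ns (hN : X.IsNef N) : X.H * X.Ns N = X.Ns N * X.H + (2 : K) • X.Ns N := by
  apply ext_deg
  intro j x hx
  rw [Module.End.mul_apply, LinearMap.add_apply, Module.End.mul_apply, LinearMap.smul_apply,
    X.H_apply hx, map_smul]
  rcases Nat.lt_or_ge j 2 with hj | hj
  · rw [hN.Ns_low hj hx, map_zero, smul_zero, smul_zero, add_zero]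
  · obtain ⟨i, rfl⟩ : ∃ i, j = i + 2 := ⟨j - 2, by omega⟩
    rw [X.H_apply (hN.Ns_deg hx), ← add_smul]
    congr 1
    push_cast
    ring

omit [IsStrictOrderedRing K] [FiniteDimensional K E] in
/-- `[H, N] = -2 N`. -/
theorem IsNef.H_N (hN : X.IsNef N) : N * X.H = X.H * N + (2 : K) • N := by
  apply ext_deg
  intro j x hx
  rw [Module.End.mul_apply, LinearMap.add_apply, Module.End.mul_apply, LinearMap.smul_apply,
    X.H_apply hx, map_smul, X.H_apply (hN.deg hx), ← add_smul]
  congr 1
  push_cast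
  ring

omit [IsStrictOrderedRing K] in
theorem La_deg {j : ℕ} {x : E} (hx : X.pr (j + 2) x = x) : X.pr j (X.La x) = X.La x := by
  unfold La
  rw [Module.End.mul_apply, Module.End.mul_apply]
  by_cases hj : j + 2 ≤ 2 * d
  · have h1 := X.L_pow_deg 1 (X.S_deg hj hx)
    rw [pow_one, mul_one] at h1
    have h2 := X.S_deg (i := 2 * d - (j + 2) + 2) (by omega) h1
    rwa [show 2 * d - (2 * d - (j + 2) + 2) = j by omega] at h2
  · rw [X.eq_zero_of_deg hx (by omega), map_zero, map_zero, map_zero, map_zero]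

omit [IsStrictOrderedRing K] in
theorem La_low {j : ℕ} (hj : j < 2) {x : E} (hx : X.pr j x = x) : X.La x = 0 := by
  unfold La
  rw [Module.End.mul_apply, Module.End.mul_apply]
  by_cases hj' : j ≤ 2 * d
  · have h1 := X.L_pow_deg 1 (X.S_deg hj' hx)
    rw [pow_one, mul_one] at h1
    rw [X.eq_zero_of_deg h1 (by omega), map_zero]
  · rw [X.eq_zero_of_deg hx (by omega), map_zero, map_zero, map_zero]

omit [IsStrictOrderedRing K] in
theorem IsNef.A_deg (hN : X.IsNef N) {j : ℕ} {x : E} (hx : X.pr j x = x) :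
    X.pr j (X.A N x) = X.A N x := by
  unfold A
  rw [LinearMap.sub_apply, Module.End.mul_apply, Module.End.mul_apply, map_sub,
    La_deg (hN.deg hx)]
  congr 1
  rcases Nat.lt_or_ge j 2 with hj | hj
  · rw [La_low hj hx, map_zero, map_zero]
  · obtain ⟨i, rfl⟩ : ∃ i, j = i + 2 := ⟨j - 2, by omega⟩
    exact hN.deg (La_deg hx)

omit [IsStrictOrderedRing K] [FiniteDimensional K E] in
/-- An operator of degree zero commutes with `H`. -/
theorem H_comm {T : Module.End K E} (hT : ∀ j x, X.pr j x = x → X.pr j (T x) = T x) :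
    X.H * T = T * X.H := by
  apply ext_deg
  intro j x hx
  rw [Module.End.mul_apply, Module.End.mul_apply, X.H_apply hx, map_smul, X.H_apply (hT j x hx)]

/-- `[Λ, N] = [N^*, L]`: the operator `A` is self-adjoint. -/
theorem IsNef.A_eq (hN : X.IsNef N) : X.A N = X.Ns N * X.L - X.L * X.Ns N := by
  set Y : Module.End K E := X.L * X.Ns N - X.Ns N * X.L with hY
  have hYdeg : ∀ j x, X.pr j x = x → X.pr j (Y x) = Y x := by
    intro j x hx
    have h1 := X.L_pow_deg 1 hx
    rw [pow_one, mul_one] at h1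
    rw [hY, LinearMap.sub_apply, Module.End.mul_apply, Module.End.mul_apply, map_sub,
      hN.Ns_deg h1]
    congr 1
    rcases Nat.lt_or_ge j 2 with hj | hj
    · rw [hN.Ns_low hj hx, map_zero, map_zero]
    · obtain ⟨i, rfl⟩ : ∃ i, j = i + 2 := ⟨j - 2, by omega⟩
      have h2 := X.L_pow_deg 1 (hN.Ns_deg hx)
      rwa [pow_one, mul_one] at h2
  have hHY : X.H * Y = Y * X.H := H_comm hYdeg
  have h1 : X.La * X.L = X.L * X.La + X.H := by
    rw [← X.La_L]; abel
  have h2 := hN.La_Ns
  have h3 := hN.H_Ns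
  -- `[Λ, Y] = 2 N^*`
  have h4 : X.La * Y = Y * X.La + (2 : K) • X.Ns N := by
    calc X.La * Y = (X.La * X.L) * X.Ns N - (X.La * X.Ns N) * X.L := by
          rw [hY]; noncomm_ring
      _ = (X.L * X.La + X.H) * X.Ns N - (X.Ns N * X.La) * X.L := by rw [h1, h2]
      _ = X.L * (X.La * X.Ns N) + X.H * X.Ns N - X.Ns N * (X.La * X.L) := by noncomm_ring
      _ = X.L * (X.Ns N * X.La) + (X.Ns N * X.H + (2 : K) • X.Ns N) -
            X.Ns N * (X.L * X.La + X.H) := by rw [h1, h2, h3]
      _ = Y * X.La + (2 : K) • X.Ns N := by rw [hY]; noncomm_ring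
  -- the identity `[L, Y] = -2 N`
  have h5 : X.L * Y - Y * X.L = -((2 : K) • N) := by
    have h6 := hN.key
    rw [hY, ← sub_eq_zero]
    rw [← h6, two_smul, two_smul]
    noncomm_ring
  have h7 : X.La * (X.L * Y - Y * X.L) - (X.L * Y - Y * X.L) * X.La = (2 : K) • Y := by
    calc X.La * (X.L * Y - Y * X.L) - (X.L * Y - Y * X.L) * X.La
        = (X.La * X.L) * Y - (X.La * Y) * X.L - X.L * (Y * X.La) + Y * (X.L * X.La) := by
          noncomm_ring
      _ = (X.L * X.La + X.H) * Y - (Y * X.La + (2 : K) • X.Ns N) * X.L - X.L * (Y * X.La) +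
            Y * (X.L * X.La) := by rw [h1, h4]
      _ = X.L * (X.La * Y) + X.H * Y - Y * (X.La * X.L) - ((2 : K) • X.Ns N) * X.L -
            X.L * (Y * X.La) + Y * (X.L * X.La) := by noncomm_ring
      _ = X.L * (Y * X.La + (2 : K) • X.Ns N) + Y * X.H - Y * (X.L * X.La + X.H) -
            ((2 : K) • X.Ns N) * X.L - X.L * (Y * X.La) + Y * (X.L * X.La) := by
          rw [h1, h4, hHY]
      _ = (2 : K) • Y := by
          rw [hY, smul_mul_assoc, mul_add, mul_smul_comm, smul_sub]
          noncomm_ring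
  rw [h5] at h7
  have h8 : (2 : K) • (X.A N + Y) = 0 := by
    have h9 : (2 : K) • X.A N = -(X.La * -((2 : K) • N) - -((2 : K) • N) * X.La) := by
      unfold A
      rw [mul_neg, neg_mul, mul_smul_comm, smul_mul_assoc, smul_sub]
      abel
    rw [smul_add, h9, h7]
    abel
  rw [smul_eq_zero] at h8
  rcases h8 with h8 | h8
  · exact absurd h8 two_ne_zero
  · rw [eq_neg_of_add_eq_zero_left h8, hY]
    abel

/-- `A` anticommutes with the star operator. -/
theorem IsNef.S_A (hN : X.IsNef N) : X.S * X.A N * X.S = -X.A N := by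
  conv_rhs => rw [hN.A_eq]
  unfold A
  rw [mul_sub, sub_mul, conj_mul, conj_mul, conj_La]
  unfold Ns
  abel

theorem h_L (x y : E) : X.h (X.L x) y = X.h x (X.La y) := by
  rw [X.h_apply, X.h_apply, X.b_L]
  unfold La
  rw [Module.End.mul_apply, Module.End.mul_apply, X.S_S]

theorem IsNef.h_N (hN : X.IsNef N) (x y : E) : X.h (N x) y = X.h x (X.Ns N y) := by
  rw [X.h_apply, X.h_apply, hN.N_b]
  unfold Ns
  rw [Module.End.mul_apply, Module.End.mul_apply, X.S_S]

theorem IsNef.h_Ns (hN : X.IsNef N) (x y : E) : X.h (X.Ns N x) y = X.h x (N y) := by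
  rw [X.h_symm, ← hN.h_N, X.h_symm]

theorem h_La (x y : E) : X.h (X.La x) y = X.h x (X.L y) := by
  rw [X.h_symm, ← h_L, X.h_symm]

theorem IsNef.h_A (hN : X.IsNef N) (x y : E) : X.h (X.A N x) y = X.h x (X.A N y) := by
  conv_rhs => rw [hN.A_eq]
  unfold A
  simp only [LinearMap.sub_apply, Module.End.mul_apply, map_sub]
  rw [h_La, hN.h_N, hN.h_N, h_La]

end Lefs

end Pool.Agent.Lib.OrlovNef
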