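import Pool.Agent.Lib.OrlovNef.Twist

/-!
# The abstract theorem applied to the two packages
-/

set_option autoImplicit false

open scoped TensorProduct ComplexOrder

namespace Pool.Agent.Lib.OrlovNef

open Pool.Agent.Lib.OrlovSig

namespace HL

variable {d : ℕ} {V V' : Type*} [AddCommGroup V] [Module ℚ V] [AddCommGroup V'] [Module ℚ V']

theorem parD_eq (X : HL d V) (x : V) (hx : X.parE x = x) : X.parD x = X.dual x := by
  have h : X.parD x = X.dual (X.parE x) := by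
    unfold parD parE
    rw [LinearMap.sum_apply, LinearMap.sum_apply, map_sum]
    refine Finset.sum_congr rfl (fun i _ => ?_)
    split_ifs
    · rw [LinearMap.smul_apply, dual_pr]
    · simp
  rw [h, hx]

variable [FiniteDimensional ℚ V] [FiniteDimensional ℚ V']

theorem core_hodge (X : HL d V) (X' : HL d V') (u : V ≃ₗ[ℚ] V')
    (hu : X.IsHodge X' u.toLinearMap) (hm : ∀ x y, X'.mukai (u x) (u y) = X.mukai x y) :
    (∀ a, MvN ((X.pkg₁ X').B a) ((X.pkg₂ X').B a)) ∧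
    (∀ j ≤ d, MvN ((X.pkg₁ X').π j) ((X.pkg₂ X').π j) →
      MvN ((X.pkg₁ X').π (2 * d - j)) ((X.pkg₂ X').π (2 * d - j))) ∧
    ∀ j ≤ d, (∀ i ≤ d, i ≠ j → block d i = block d j →
      MvN ((X.pkg₁ X').π i) ((X.pkg₂ X').π i)) →
      MvN ((X.pkg₁ X').π j) ((X.pkg₂ X').π j) := by
  obtain ⟨w, hw, hiso⟩ := X.exists_isometry X' u hu hm
  refine Pkg.core (X.pkg₁ X') (X.pkg₂ X') (X.qq_symm X') (X.regular X')
    ⟨_, X.mem21 X' w.toLinearMap hw⟩ ⟨_, X.mem12 X' w.symm.toLinearMap (hw.symm w)⟩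
    ?_ ?_ ?_ ?_ ?_
  · ext1
    change (LinearMap.inl ℚ V V' ∘ₗ w.symm.toLinearMap ∘ₗ LinearMap.snd ℚ V V') ∘ₗ
      (LinearMap.inr ℚ V V' ∘ₗ w.toLinearMap ∘ₗ LinearMap.fst ℚ V V') = _
    rw [coe_ε₁]
    ext x <;> simp
  · ext1
    change (LinearMap.inr ℚ V V' ∘ₗ w.toLinearMap ∘ₗ LinearMap.fst ℚ V V') ∘ₗ
      (LinearMap.inl ℚ V V' ∘ₗ w.symm.toLinearMap ∘ₗ LinearMap.snd ℚ V V') = _
    rw [coe_ε₂]
    ext x <;> simp
  · ext1
    change (LinearMap.inr ℚ V V' ∘ₗ w.toLinearMap ∘ₗ LinearMap.fst ℚ V V') ∘ₗ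
      ((X.pkg₁ X').E : Module.End ℚ (V × V')) = ((X.pkg₂ X').E : Module.End ℚ (V × V')) ∘ₗ
      (LinearMap.inr ℚ V V' ∘ₗ w.toLinearMap ∘ₗ LinearMap.fst ℚ V V')
    rw [coe_E₁, coe_E₂]
    have h := parE_comm hw
    have h' := LinearMap.congr_fun h
    simp only [LinearMap.comp_apply, LinearEquiv.coe_coe] at h'
    ext x <;> simp [h']
  · ext1
    change (LinearMap.inl ℚ V V' ∘ₗ w.symm.toLinearMap ∘ₗ LinearMap.snd ℚ V V') ∘ₗ
      ((X.pkg₂ X').E : Module.End ℚ (V × V')) = ((X.pkg₁ X').E : Module.End ℚ (V × V')) ∘ₗ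
      (LinearMap.inl ℚ V V' ∘ₗ w.symm.toLinearMap ∘ₗ LinearMap.snd ℚ V V')
    rw [coe_E₁, coe_E₂]
    have h := parE_comm (hw.symm w)
    have h' := LinearMap.congr_fun h
    simp only [LinearMap.comp_apply, LinearEquiv.coe_coe] at h'
    ext x <;> simp [h']
  · intro x hx
    have hE : ((X.pkg₁ X').E • x) = (X.parE x.1, 0) := by
      rw [smul_eq, coe_E₁]
      ext <;> simp
    have hx1 : X.parE x.1 = x.1 := by
      have := congrArg Prod.fst (hE.symm.trans hx)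
      exact this
    have hx2 : x.2 = 0 := by
      have := congrArg Prod.snd (hE.symm.trans hx)
      exact this.symm
    have hwx : X'.parE (w x.1) = w x.1 := by
      have h1 := LinearMap.congr_fun (parE_comm hw) x.1
      rw [LinearMap.comp_apply, LinearMap.comp_apply, hx1] at h1
      exact h1
    have e1 : (⟨_, X.mem21 X' w.toLinearMap hw⟩ : X.blockAlg X') • x = (0, w x.1) := by
      rw [smul_eq]
      ext <;> simp
    have e2 : ((X.pkg₂ X').DE • ((0, w x.1) : V × V')) = (0, X'.dual (w x.1)) := by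
      rw [smul_eq, coe_DE₂]
      ext
      · simp
      · simp [X'.parD_eq _ hwx]
    have e3 : ((X.pkg₁ X').DE • x) = (X.dual x.1, 0) := by
      rw [smul_eq, coe_DE₁]
      ext
      · simp [X.parD_eq _ hx1]
      · simp
    rw [e1, e2, e3, qq_apply, qq_apply]
    simp [hiso _ hx1]

end HL

end Pool.Agent.Lib.OrlovNef
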