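import Mathlib

/-!
# The ordered differential field of rational functions in an infinitely large variable
-/

set_option autoImplicit false

open Polynomial

namespace Pool.Agent.Lib.OrlovNef.Growth

private theorem lc_add_pos {a b : ℝ[X]} (ha : 0 < a.leadingCoeff) (hb : 0 < b.leadingCoeff) :
    0 < (a + b).leadingCoeff := by
  rcases lt_trichotomy a.degree b.degree with h | h | h
  · rwa [leadingCoeff_add_of_degree_lt h]
  · rw [leadingCoeff_add_of_degree_eq h (by linarith)]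
    linarith
  · rwa [leadingCoeff_add_of_degree_lt' h]

/-- leading coefficient of a rational function at infinity -/
private noncomputable def ℓ (f : RatFunc ℝ) : ℝ := f.num.leadingCoeff

private theorem mul_denom (f : RatFunc ℝ) :
    f * algebraMap ℝ[X] (RatFunc ℝ) f.denom = algebraMap ℝ[X] (RatFunc ℝ) f.num := by
  have h : algebraMap ℝ[X] (RatFunc ℝ) f.denom ≠ 0 := RatFunc.algebraMap_ne_zero f.denom_ne_zero
  have h2 := f.num_div_denom
  rw [div_eq_iff h] at h2
  exact h2.symm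

private theorem cross {f : RatFunc ℝ} {p q p' q' : ℝ[X]}
    (h : f * algebraMap ℝ[X] (RatFunc ℝ) q = algebraMap ℝ[X] (RatFunc ℝ) p)
    (h' : f * algebraMap ℝ[X] (RatFunc ℝ) q' = algebraMap ℝ[X] (RatFunc ℝ) p') :
    p * q' = p' * q := by
  apply RatFunc.algebraMap_injective ℝ
  rw [map_mul, map_mul, ← h, ← h']
  ring

private theorem ℓ_eq {f : RatFunc ℝ} {p q : ℝ[X]}
    (h : f * algebraMap ℝ[X] (RatFunc ℝ) q = algebraMap ℝ[X] (RatFunc ℝ) p) :
    ℓ f * q.leadingCoeff = p.leadingCoeff := by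
  have h2 := cross (mul_denom f) h
  have h3 := congrArg Polynomial.leadingCoeff h2
  rw [leadingCoeff_mul, leadingCoeff_mul, (f.monic_denom).leadingCoeff, mul_one] at h3
  exact h3

private theorem ℓ_mul (f g : RatFunc ℝ) : ℓ (f * g) = ℓ f * ℓ g := by
  have h : (f * g) * algebraMap ℝ[X] (RatFunc ℝ) (f.denom * g.denom) =
      algebraMap ℝ[X] (RatFunc ℝ) (f.num * g.num) := by
    rw [map_mul, map_mul, ← mul_denom f, ← mul_denom g]
    ring
  have h2 := ℓ_eq h
  rw [leadingCoeff_mul, leadingCoeff_mul, (f.monic_denom).leadingCoeff,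
    (g.monic_denom).leadingCoeff, mul_one, mul_one] at h2
  exact h2

private theorem ℓ_neg (f : RatFunc ℝ) : ℓ (-f) = -ℓ f := by
  have h : (-f) * algebraMap ℝ[X] (RatFunc ℝ) f.denom = algebraMap ℝ[X] (RatFunc ℝ) (-f.num) := by
    rw [map_neg, ← mul_denom f]
    ring
  have h2 := ℓ_eq h
  rw [(f.monic_denom).leadingCoeff, mul_one, leadingCoeff_neg] at h2
  exact h2

private theorem ℓ_eq_zero {f : RatFunc ℝ} : ℓ f = 0 ↔ f = 0 := by
  unfold ℓ
  rw [leadingCoeff_eq_zero, RatFunc.num_eq_zero_iff]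

private theorem ℓ_add {f g : RatFunc ℝ} (hf : 0 < ℓ f) (hg : 0 < ℓ g) : 0 < ℓ (f + g) := by
  have h : (f + g) * algebraMap ℝ[X] (RatFunc ℝ) (f.denom * g.denom) =
      algebraMap ℝ[X] (RatFunc ℝ) (f.num * g.denom + g.num * f.denom) := by
    rw [map_add, map_mul, map_mul, map_mul, ← mul_denom f, ← mul_denom g]
    ring
  have h2 := ℓ_eq h
  rw [leadingCoeff_mul, (f.monic_denom).leadingCoeff, (g.monic_denom).leadingCoeff, mul_one,
    mul_one] at h2
  rw [h2]
  apply lc_add_pos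
  · rw [leadingCoeff_mul, (g.monic_denom).leadingCoeff, mul_one]
    exact hf
  · rw [leadingCoeff_mul, (f.monic_denom).leadingCoeff, mul_one]
    exact hg

private theorem ℓ_nonneg_add {f g : RatFunc ℝ} (hf : 0 ≤ ℓ f) (hg : 0 ≤ ℓ g) : 0 ≤ ℓ (f + g) := by
  rcases eq_or_lt_of_le hf with h | h
  · rw [ℓ_eq_zero.1 h.symm, zero_add]
    exact hg
  rcases eq_or_lt_of_le hg with h' | h'
  · rw [ℓ_eq_zero.1 h'.symm, add_zero]
    exact hf
  exact (ℓ_add h h').le

private theorem ℓ_one : ℓ 1 = 1 := by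
  unfold ℓ
  rw [RatFunc.num_one, leadingCoeff_one]

private theorem ℓ_zero : ℓ 0 = 0 := ℓ_eq_zero.2 rfl

/-- the cone of nonnegative rational functions -/
private noncomputable def cone : RingCone (RatFunc ℝ) where
  carrier := {f | 0 ≤ ℓ f}
  mul_mem' := by
    intro a b ha hb
    change 0 ≤ ℓ (a * b)
    rw [ℓ_mul]
    exact mul_nonneg ha hb
  one_mem' := by
    change 0 ≤ ℓ 1
    rw [ℓ_one]
    exact zero_le_one
  add_mem' := by
    intro a b ha hb
    exact ℓ_nonneg_add ha hb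
  zero_mem' := by
    change 0 ≤ ℓ 0
    rw [ℓ_zero]
  eq_zero_of_mem_of_neg_mem' := by
    intro a ha hb
    change 0 ≤ ℓ a at ha
    change 0 ≤ ℓ (-a) at hb
    rw [ℓ_neg] at hb
    exact ℓ_eq_zero.1 (le_antisymm (by linarith) ha)

private theorem mem_cone {f : RatFunc ℝ} : f ∈ cone ↔ 0 ≤ ℓ f := Iff.rfl

/-- Rational functions, ordered by their values at large real numbers. -/
noncomputable instance : LinearOrder (RatFunc ℝ) :=
  haveI : HasMemOrNegMem cone := ⟨fun a => by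
    rw [mem_cone, mem_cone, ℓ_neg]
    rcases le_total 0 (ℓ a) with h | h
    · exact Or.inl h
    · exact Or.inr (by linarith)⟩
  letI : DecidablePred (· ∈ cone) := Classical.decPred _
  LinearOrder.mkOfAddGroupCone cone

private theorem le_iff {f g : RatFunc ℝ} : f ≤ g ↔ 0 ≤ ℓ (g - f) := Iff.rfl

instance : IsOrderedRing (RatFunc ℝ) := IsOrderedRing.mkOfCone cone

instance : IsStrictOrderedRing (RatFunc ℝ) := IsOrderedRing.toIsStrictOrderedRing _

private theorem nonneg_iff {f : RatFunc ℝ} : 0 ≤ f ↔ 0 ≤ ℓ f := by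
  rw [le_iff, sub_zero]

private theorem pos_iff {f : RatFunc ℝ} : 0 < f ↔ 0 < ℓ f := by
  rw [lt_iff_le_and_ne, nonneg_iff, lt_iff_le_and_ne]
  constructor
  · rintro ⟨h, h'⟩
    exact ⟨h, fun h2 => h' (ℓ_eq_zero.1 h2.symm).symm⟩
  · rintro ⟨h, h'⟩
    exact ⟨h, fun h2 => h' (by rw [← h2, ℓ_zero])⟩

private noncomputable def δ₀ (f : RatFunc ℝ) : RatFunc ℝ :=
  algebraMap ℝ[X] (RatFunc ℝ) (derivative f.num * f.denom - f.num * derivative f.denom) /
    algebraMap ℝ[X] (RatFunc ℝ) f.denom ^ 2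

private theorem δ₀_denom (f : RatFunc ℝ) : δ₀ f * algebraMap ℝ[X] (RatFunc ℝ) f.denom ^ 2 =
    algebraMap ℝ[X] (RatFunc ℝ) (derivative f.num * f.denom - f.num * derivative f.denom) := by
  have hd : algebraMap ℝ[X] (RatFunc ℝ) f.denom ≠ 0 := RatFunc.algebraMap_ne_zero f.denom_ne_zero
  exact div_mul_cancel₀ _ (pow_ne_zero 2 hd)

private theorem δ₀_poly {a d p q : ℝ[X]} (h2 : a * q = p * d) :
    (derivative a * d - a * derivative d) * q ^ 2 =
      (derivative p * q - p * derivative q) * d ^ 2 := by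
  have h3 := congrArg derivative h2
  rw [derivative_mul, derivative_mul] at h3
  linear_combination (q * d) * h3 + (- derivative d * q - derivative q * d) * h2

private theorem δ₀_eq {f : RatFunc ℝ} {p q : ℝ[X]}
    (h : f * algebraMap ℝ[X] (RatFunc ℝ) q = algebraMap ℝ[X] (RatFunc ℝ) p) :
    δ₀ f * algebraMap ℝ[X] (RatFunc ℝ) (q ^ 2) =
      algebraMap ℝ[X] (RatFunc ℝ) (derivative p * q - p * derivative q) := by
  have hd : algebraMap ℝ[X] (RatFunc ℝ) f.denom ≠ 0 := RatFunc.algebraMap_ne_zero f.denom_ne_zero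
  have h4 := congrArg (algebraMap ℝ[X] (RatFunc ℝ)) (δ₀_poly (cross (mul_denom f) h))
  rw [map_mul, ← δ₀_denom f, map_mul, map_pow _ f.denom] at h4
  apply mul_right_cancel₀ (pow_ne_zero 2 hd)
  rw [← h4]
  ring

private theorem δ₀_unique {f g : RatFunc ℝ} {p q : ℝ[X]} (hq : q ≠ 0)
    (h : f * algebraMap ℝ[X] (RatFunc ℝ) q = algebraMap ℝ[X] (RatFunc ℝ) p)
    (h' : g * algebraMap ℝ[X] (RatFunc ℝ) (q ^ 2) =
      algebraMap ℝ[X] (RatFunc ℝ) (derivative p * q - p * derivative q)) : δ₀ f = g := by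
  have h1 := δ₀_eq h
  rw [← h'] at h1
  exact mul_right_cancel₀ (RatFunc.algebraMap_ne_zero (pow_ne_zero 2 hq)) h1

private theorem δ₀_add (f g : RatFunc ℝ) : δ₀ (f + g) = δ₀ f + δ₀ g := by
  have hf := mul_denom f
  have hg := mul_denom g
  refine δ₀_unique (p := f.num * g.denom + g.num * f.denom) (q := f.denom * g.denom)
    (mul_ne_zero f.denom_ne_zero g.denom_ne_zero) ?_ ?_
  · rw [map_add, map_mul, map_mul, map_mul, ← mul_denom f, ← mul_denom g]
    ring
  · have e1 := δ₀_eq hf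
    have e2 := δ₀_eq hg
    have e3 : (δ₀ f + δ₀ g) * algebraMap ℝ[X] (RatFunc ℝ) ((f.denom * g.denom) ^ 2) =
        (δ₀ f * algebraMap ℝ[X] (RatFunc ℝ) (f.denom ^ 2)) *
          algebraMap ℝ[X] (RatFunc ℝ) (g.denom ^ 2) +
        (δ₀ g * algebraMap ℝ[X] (RatFunc ℝ) (g.denom ^ 2)) *
          algebraMap ℝ[X] (RatFunc ℝ) (f.denom ^ 2) := by
      rw [mul_pow, map_mul]
      ring
    rw [e3, e1, e2, ← map_mul, ← map_mul, ← map_add]
    congr 1
    simp only [derivative_mul, derivative_add]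
    ring

private theorem δ₀_smul (c : ℝ) (f : RatFunc ℝ) : δ₀ (c • f) = c • δ₀ f := by
  have hf := mul_denom f
  refine δ₀_unique (p := c • f.num) (q := f.denom) f.denom_ne_zero ?_ ?_
  · rw [smul_mul_assoc, hf, Algebra.smul_def, Algebra.smul_def, map_mul,
      ← IsScalarTower.algebraMap_apply]
  · rw [smul_mul_assoc, δ₀_eq hf, derivative_smul, Algebra.smul_def]
    have : c • derivative f.num * f.denom - c • f.num * derivative f.denom =
        algebraMap ℝ ℝ[X] c * (derivative f.num * f.denom - f.num * derivative f.denom) := by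
      rw [Algebra.smul_def, Algebra.smul_def]
      ring
    rw [this, map_mul, ← IsScalarTower.algebraMap_apply]

private theorem δ₀_mul (f g : RatFunc ℝ) : δ₀ (f * g) = f • δ₀ g + g • δ₀ f := by
  have hf := mul_denom f
  have hg := mul_denom g
  refine δ₀_unique (p := f.num * g.num) (q := f.denom * g.denom)
    (mul_ne_zero f.denom_ne_zero g.denom_ne_zero) ?_ ?_
  · rw [map_mul, map_mul, ← mul_denom f, ← mul_denom g]
    ring
  · have e1 := δ₀_eq hf
    have e2 := δ₀_eq hg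
    have e3 : (f • δ₀ g + g • δ₀ f) * algebraMap ℝ[X] (RatFunc ℝ) ((f.denom * g.denom) ^ 2) =
        (f * algebraMap ℝ[X] (RatFunc ℝ) f.denom) * algebraMap ℝ[X] (RatFunc ℝ) f.denom *
          (δ₀ g * algebraMap ℝ[X] (RatFunc ℝ) (g.denom ^ 2)) +
        (g * algebraMap ℝ[X] (RatFunc ℝ) g.denom) * algebraMap ℝ[X] (RatFunc ℝ) g.denom *
          (δ₀ f * algebraMap ℝ[X] (RatFunc ℝ) (f.denom ^ 2)) := by
      rw [mul_pow, map_mul, map_pow, map_pow, smul_eq_mul, smul_eq_mul]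
      ring
    rw [e3, e1, e2, hf, hg, ← map_mul, ← map_mul, ← map_mul, ← map_mul, ← map_add]
    congr 1
    simp only [derivative_mul]
    ring

/-- The derivation `d/dt`. -/
noncomputable def δ : Derivation ℝ (RatFunc ℝ) (RatFunc ℝ) :=
  Derivation.mk' { toFun := δ₀, map_add' := δ₀_add, map_smul' := δ₀_smul } δ₀_mul

private theorem δ_eq {f : RatFunc ℝ} {p q : ℝ[X]}
    (h : f * algebraMap ℝ[X] (RatFunc ℝ) q = algebraMap ℝ[X] (RatFunc ℝ) p) :
    δ f * algebraMap ℝ[X] (RatFunc ℝ) (q ^ 2) =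
      algebraMap ℝ[X] (RatFunc ℝ) (derivative p * q - p * derivative q) := δ₀_eq h

theorem δ_X : δ RatFunc.X = 1 := by
  have h : (RatFunc.X : RatFunc ℝ) * algebraMap ℝ[X] (RatFunc ℝ) 1 =
      algebraMap ℝ[X] (RatFunc ℝ) X := by
    rw [map_one, mul_one, RatFunc.algebraMap_X]
  have h2 := δ_eq h
  simpa using h2

/-- `f / t ^ n` tends to `c`. -/
def Lim (n : ℤ) (f : RatFunc ℝ) (c : ℝ) : Prop :=
  ∃ p q : ℝ[X], q ≠ 0 ∧ f * algebraMap ℝ[X] (RatFunc ℝ) q = algebraMap ℝ[X] (RatFunc ℝ) p ∧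
    ∃ N M : ℕ, (N : ℤ) = M + n ∧ p.natDegree ≤ N ∧ q.natDegree ≤ M ∧ q.coeff M ≠ 0 ∧
      p.coeff N = c * q.coeff M

theorem Lim.add {n : ℤ} {f g : RatFunc ℝ} {c e : ℝ} (hf : Lim n f c) (hg : Lim n g e) :
    Lim n (f + g) (c + e) := by
  obtain ⟨p, q, hq, h, N, M, hN, hp1, hq1, hq2, hc⟩ := hf
  obtain ⟨p', q', hq', h', N', M', hN', hp1', hq1', hq2', hc'⟩ := hg
  have hNM : N' + M = N + M' := by omega
  refine ⟨p * q' + p' * q, q * q', mul_ne_zero hq hq', ?_, N + M', M + M', by push_cast; omega,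
    ?_, ?_, ?_, ?_⟩
  · rw [map_add, map_mul, map_mul, map_mul, ← h, ← h']
    ring
  · apply natDegree_add_le_of_degree_le
    · exact natDegree_mul_le_of_le hp1 hq1'
    · rw [← hNM]
      exact natDegree_mul_le_of_le hp1' hq1
  · exact natDegree_mul_le_of_le hq1 hq1'
  · rw [coeff_mul_add_eq_of_natDegree_le hq1 hq1']
    exact mul_ne_zero hq2 hq2'
  · rw [coeff_add, coeff_mul_add_eq_of_natDegree_le hp1 hq1', ← hNM,
      coeff_mul_add_eq_of_natDegree_le hp1' hq1, coeff_mul_add_eq_of_natDegree_le hq1 hq1', hc, hc']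
    ring

theorem Lim.neg {n : ℤ} {f : RatFunc ℝ} {c : ℝ} (hf : Lim n f c) : Lim n (-f) (-c) := by
  obtain ⟨p, q, hq, h, N, M, hN, hp1, hq1, hq2, hc⟩ := hf
  refine ⟨-p, q, hq, ?_, N, M, hN, by rwa [natDegree_neg], hq1, hq2, ?_⟩
  · rw [map_neg, ← h]
    ring
  · rw [coeff_neg, hc]
    ring

theorem Lim.mul {n m : ℤ} {f g : RatFunc ℝ} {c e : ℝ} (hf : Lim n f c) (hg : Lim m g e) :
    Lim (n + m) (f * g) (c * e) := by
  obtain ⟨p, q, hq, h, N, M, hN, hp1, hq1, hq2, hc⟩ := hf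
  obtain ⟨p', q', hq', h', N', M', hN', hp1', hq1', hq2', hc'⟩ := hg
  refine ⟨p * p', q * q', mul_ne_zero hq hq', ?_, N + N', M + M', by push_cast; omega,
    natDegree_mul_le_of_le hp1 hp1', natDegree_mul_le_of_le hq1 hq1', ?_, ?_⟩
  · rw [map_mul, map_mul, ← h, ← h']
    ring
  · rw [coeff_mul_add_eq_of_natDegree_le hq1 hq1']
    exact mul_ne_zero hq2 hq2'
  · rw [coeff_mul_add_eq_of_natDegree_le hp1 hp1', coeff_mul_add_eq_of_natDegree_le hq1 hq1', hc,
      hc']
    ring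

theorem Lim.deriv {n : ℤ} {f : RatFunc ℝ} {c : ℝ} (hf : Lim n f c) :
    Lim (n - 1) (δ f) (n * c) := by
  obtain ⟨p, q, hq, h, N, M, hN, hp1, hq1, hq2, hc⟩ := hf
  have hqX : q * X ≠ 0 := mul_ne_zero hq X_ne_zero
  have hX : f * algebraMap ℝ[X] (RatFunc ℝ) (q * X) = algebraMap ℝ[X] (RatFunc ℝ) (p * X) := by
    rw [map_mul, map_mul, ← h]
    ring
  have dpX : (p * X).natDegree ≤ N + 1 :=
    natDegree_mul_le_of_le hp1 natDegree_X_le
  have dqX : (q * X).natDegree ≤ M + 1 :=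
    natDegree_mul_le_of_le hq1 natDegree_X_le
  have cpX : (p * X).coeff (N + 1) = p.coeff N := coeff_mul_X p N
  have cqX : (q * X).coeff (M + 1) = q.coeff M := coeff_mul_X q M
  have d1 : (derivative (p * X)).natDegree ≤ N := by
    have := natDegree_derivative_le (p * X)
    omega
  have d2 : (derivative (q * X)).natDegree ≤ M := by
    have := natDegree_derivative_le (q * X)
    omega
  have c1 : (derivative (p * X)).coeff N = p.coeff N * (N + 1) := by
    rw [coeff_derivative, cpX]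
  have c2 : (derivative (q * X)).coeff M = q.coeff M * (M + 1) := by
    rw [coeff_derivative, cqX]
  refine ⟨derivative (p * X) * (q * X) - (p * X) * derivative (q * X), (q * X) ^ 2,
    pow_ne_zero 2 hqX, δ_eq hX, N + (M + 1), (M + 1) + (M + 1), by push_cast; omega, ?_, ?_, ?_, ?_⟩
  · apply (natDegree_sub_le _ _).trans
    apply max_le
    · exact natDegree_mul_le_of_le d1 dqX
    · have := natDegree_mul_le_of_le dpX d2
      omega
  · rw [sq]
    exact natDegree_mul_le_of_le dqX dqX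
  · rw [sq, coeff_mul_add_eq_of_natDegree_le dqX dqX, cqX]
    exact mul_ne_zero hq2 hq2
  · rw [coeff_sub, sq, coeff_mul_add_eq_of_natDegree_le dqX dqX,
      coeff_mul_add_eq_of_natDegree_le d1 dqX, show N + (M + 1) = (N + 1) + M by omega,
      coeff_mul_add_eq_of_natDegree_le dpX d2, c1, c2, cpX, cqX, hc]
    have : (N : ℝ) = M + n := by exact_mod_cast hN
    rw [this]
    ring

theorem Lim.unique {n : ℤ} {f : RatFunc ℝ} {c e : ℝ} (hf : Lim n f c) (hg : Lim n f e) :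
    c = e := by
  obtain ⟨p, q, hq, h, N, M, hN, hp1, hq1, hq2, hc⟩ := hf
  obtain ⟨p', q', hq', h', N', M', hN', hp1', hq1', hq2', hc'⟩ := hg
  have hNM : N' + M = N + M' := by omega
  have h1 := cross h h'
  have h2 : (p * q').coeff (N + M') = (p' * q).coeff (N + M') := by rw [h1]
  rw [coeff_mul_add_eq_of_natDegree_le hp1 hq1', ← hNM,
    coeff_mul_add_eq_of_natDegree_le hp1' hq1, hc, hc'] at h2
  have h3 : (c - e) * (q.coeff M * q'.coeff M') = 0 := by linear_combination h2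
  rcases mul_eq_zero.1 h3 with h4 | h4
  · linarith
  · exact absurd h4 (mul_ne_zero hq2 hq2')

/-- a rational function with positive limit is positive -/
theorem Lim.pos {n : ℤ} {f : RatFunc ℝ} {c : ℝ} (hf : Lim n f c) (hc : 0 < c) : 0 < f := by
  obtain ⟨p, q, hq, h, N, M, hN, hp1, hq1, hq2, hc'⟩ := hf
  have h1 := ℓ_eq h
  have hpN : p.coeff N ≠ 0 := by
    rw [hc']
    exact mul_ne_zero hc.ne' hq2
  have h2 : p.natDegree = N := le_antisymm hp1 (le_natDegree_of_ne_zero hpN)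
  have h3 : q.natDegree = M := le_antisymm hq1 (le_natDegree_of_ne_zero hq2)
  rw [leadingCoeff, leadingCoeff, h2, h3, hc'] at h1
  rw [pos_iff, mul_right_cancel₀ hq2 h1]
  exact hc

private theorem Lim.nonneg {n : ℤ} {f : RatFunc ℝ} {c : ℝ} (hf : Lim n f c) (h : 0 ≤ f) :
    0 ≤ c := by
  by_contra hc
  push Not at hc
  have h1 := Lim.pos hf.neg (by linarith)
  linarith

theorem Lim.le {n : ℤ} {f g : RatFunc ℝ} {c e : ℝ} (hf : Lim n f c) (hg : Lim n g e)
    (h : f ≤ g) : c ≤ e := by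
  have h1 : Lim n (g + -f) (e + -c) := hg.add hf.neg
  have h2 := h1.nonneg (by linarith)
  linarith

theorem lim_zero (n : ℤ) : Lim n 0 0 := by
  refine ⟨0, X ^ (-n).toNat, pow_ne_zero _ X_ne_zero, by rw [zero_mul, map_zero], n.toNat,
    (-n).toNat, by omega, by simp, by simp, by simp, by simp⟩

theorem lim_const (a : ℝ) : Lim 0 (algebraMap ℝ (RatFunc ℝ) a) a := by
  refine ⟨C a, 1, one_ne_zero, ?_, 0, 0, by simp, by simp, by simp, by simp, by simp⟩
  rw [map_one, mul_one]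
  rfl

theorem lim_X : Lim 1 RatFunc.X 1 := by
  refine ⟨X, 1, one_ne_zero, ?_, 1, 0, by simp, by simp, by simp, by simp, by simp⟩
  rw [map_one, mul_one, RatFunc.algebraMap_X]

theorem exists_lim {f : RatFunc ℝ} (hf : f ≠ 0) : ∃ (n : ℤ) (c : ℝ), c ≠ 0 ∧ Lim n f c := by
  refine ⟨(f.num.natDegree : ℤ) - f.denom.natDegree, ℓ f, fun h => hf (ℓ_eq_zero.1 h), f.num,
    f.denom, f.denom_ne_zero, mul_denom f, f.num.natDegree, f.denom.natDegree, by omega, le_rfl,
    le_rfl, ?_, ?_⟩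
  · rw [coeff_natDegree, f.monic_denom.leadingCoeff]
    exact one_ne_zero
  · rw [coeff_natDegree, coeff_natDegree, f.monic_denom.leadingCoeff, mul_one]
    rfl

theorem Lim.of_lt {n m : ℤ} {f : RatFunc ℝ} {c : ℝ} (hf : Lim n f c) (h : n < m) :
    Lim m f 0 := by
  obtain ⟨p, q, hq, h1, N, M, hN, hp1, hq1, hq2, hc⟩ := hf
  refine ⟨p, q, hq, h1, N + (m - n).toNat, M, by push_cast; omega, by omega, hq1, hq2, ?_⟩
  rw [zero_mul]
  apply coeff_eq_zero_of_natDegree_lt
  omega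

theorem Lim.sub_one {n : ℤ} {f : RatFunc ℝ} (hf : Lim n f 0) : ∃ c, Lim (n - 1) f c := by
  obtain ⟨p, q, hq, h1, N, M, hN, hp1, hq1, hq2, hc⟩ := hf
  rw [zero_mul] at hc
  rcases Nat.eq_zero_or_pos N with h0 | h0
  · have hp : p = 0 := by
      rw [h0] at hp1 hc
      rw [eq_C_of_natDegree_le_zero hp1, hc, C_0]
    have hf0 : f = 0 := by
      rw [hp, map_zero] at h1
      exact (mul_eq_zero.1 h1).resolve_right (RatFunc.algebraMap_ne_zero hq)
    refine ⟨0, ?_⟩
    rw [hf0]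
    exact lim_zero _
  · refine ⟨p.coeff (N - 1) / q.coeff M, p, q, hq, h1, N - 1, M, by omega, ?_, hq1, hq2, ?_⟩
    · have : p.natDegree ≠ N := by
        intro h2
        have h3 : p.leadingCoeff = 0 := by rw [leadingCoeff, h2, hc]
        rw [leadingCoeff_eq_zero] at h3
        rw [h3, natDegree_zero] at h2
        omega
      omega
    · rw [div_mul_cancel₀ _ hq2]

theorem Lim.of_le {n : ℤ} {f g : RatFunc ℝ} {c : ℝ} (hg : Lim n g c) (h0 : 0 ≤ f) (h : f ≤ g) :
    ∃ e, 0 ≤ e ∧ Lim n f e := by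
  by_cases hf : f = 0
  · exact ⟨0, le_rfl, by rw [hf]; exact lim_zero n⟩
  obtain ⟨m, e, he, hm⟩ := exists_lim hf
  have he0 : 0 < e := lt_of_le_of_ne (hm.nonneg h0) (Ne.symm he)
  rcases lt_trichotomy m n with h1 | h1 | h1
  · exact ⟨0, le_rfl, hm.of_lt h1⟩
  · exact ⟨e, he0.le, h1 ▸ hm⟩
  · have h2 := hm.le (hg.of_lt h1) h
    linarith

theorem algebraMap_pos {p : ℝ[X]} (R : ℝ) (h : ∀ τ, R ≤ τ → 0 < p.eval τ) :
    0 < algebraMap ℝ[X] (RatFunc ℝ) p := by
  have h1 : (algebraMap ℝ[X] (RatFunc ℝ) p) * algebraMap ℝ[X] (RatFunc ℝ) 1 =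
      algebraMap ℝ[X] (RatFunc ℝ) p := by rw [map_one, mul_one]
  have h2 := ℓ_eq h1
  rw [leadingCoeff_one, mul_one] at h2
  rw [pos_iff, h2]
  by_contra hc
  push Not at hc
  rcases Nat.eq_zero_or_pos p.natDegree with h0 | h0
  · have h3 := h R le_rfl
    rw [eq_C_of_natDegree_eq_zero h0, eval_C] at h3
    rw [leadingCoeff, h0] at hc
    linarith
  · have h3 := p.tendsto_atBot_of_leadingCoeff_nonpos (natDegree_pos_iff_degree_pos.1 h0) hc
    have h4 := (h3.eventually (Filter.eventually_lt_atBot 0)).and (Filter.eventually_ge_atTop R)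
    obtain ⟨τ, h5, h6⟩ := h4.exists
    have := h τ h6
    linarith

end Pool.Agent.Lib.OrlovNef.Growth
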