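import Pool.Agent.Lib.OrlovNef.Norm
import Pool.Agent.Lib.OrlovNef.Growth

/-!
# Growth of the norms of constant vectors
-/

set_option autoImplicit false

namespace Pool.Agent.Lib.OrlovNef

open Growth

/-- The derivation as an additive map. -/
noncomputable def dd : RatFunc ℝ →+ RatFunc ℝ := δ.toLinearMap.toAddMonoidHom

theorem dd_apply (f : RatFunc ℝ) : dd f = δ f := rfl

theorem lim_of_dd {f : RatFunc ℝ} (h : dd f = 0) : ∃ k, Lim 0 f k := by
  by_cases hf : f = 0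
  · exact ⟨0, by rw [hf]; exact lim_zero 0⟩
  · obtain ⟨n, c, hc, hl⟩ := exists_lim hf
    have h1 := hl.deriv
    rw [← dd_apply, h] at h1
    have h2 := h1.unique (lim_zero _)
    rcases mul_eq_zero.1 h2 with h3 | h3
    · have h4 : n = 0 := by exact_mod_cast h3
      rw [h4] at hl
      exact ⟨c, hl⟩
    · exact absurd h3 hc

theorem Growth.Lim.sub' {n : ℤ} {f g : RatFunc ℝ} {c e : ℝ} (hf : Lim n f c) (hg : Lim n g e) :
    Lim n (f - g) (c - e) := by
  rw [sub_eq_add_neg, sub_eq_add_neg]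
  exact hf.add hg.neg

theorem Growth.Lim.const_mul' {n : ℤ} {f : RatFunc ℝ} {c : ℝ} (a : ℝ) (hf : Lim n f c) :
    Lim n (algebraMap ℝ (RatFunc ℝ) a * f) (a * c) := by
  have h := (lim_const a).mul hf
  rwa [zero_add] at h

theorem Growth.Lim.two_mul' {n : ℤ} {f : RatFunc ℝ} {c : ℝ} (hf : Lim n f c) :
    Lim n (2 * f) (2 * c) := by
  have h := Lim.const_mul' 2 hf
  rwa [map_ofNat] at h

theorem Growth.Lim.mono' {n m : ℤ} {f : RatFunc ℝ} {c : ℝ} (hf : Lim n f c) (h : n ≤ m) :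
    ∃ e, Lim m f e := by
  rcases h.lt_or_eq with h1 | h1
  · exact ⟨0, hf.of_lt h1⟩
  · rw [← h1]
    exact ⟨c, hf⟩

namespace Lefs

variable {E : Type*} [AddCommGroup E] [Module (RatFunc ℝ) E] [FiniteDimensional (RatFunc ℝ) E]
  {d : ℕ} {X : Lefs (RatFunc ℝ) E d} {N : Module.End (RatFunc ℝ) E} {D : E →+ E}

/-- The Hilbert-Schmidt norm of `N` is `O(t ^ (-1))`. -/
theorem Diff.exists_lim_nu (hD : X.Diff N dd D) (hN : X.IsNef N) {ι : Type*} [Finite ι]
    (v : Module.Basis ι (RatFunc ℝ) E) (hv : ∀ i, D (v i) = 0) :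
    ∃ c, Lim (-2) (tr (X.Ns N * N)) c := by
  obtain ⟨h1, h2, h3, h4⟩ := hD.traces hN v hv
  set y := tr (X.A N * X.H) with hy
  set ν := tr (X.Ns N * N) with hν
  obtain ⟨k, hk⟩ := lim_of_dd h2
  obtain ⟨e, he⟩ := lim_of_dd h3
  have h5 : ∃ c, Lim 0 y c := by
    by_cases hy0 : y = 0
    · exact ⟨0, by rw [hy0]; exact lim_zero 0⟩
    · obtain ⟨n, c, hc, hl⟩ := exists_lim hy0
      rcases lt_or_ge (0 : ℤ) n with hn | hn
      · exfalso
        have g1 := hl.mul hl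
        have g2 : Lim (n + n) (tr (X.A N * X.A N)) 0 := by
          have g3 := hk.of_lt (show 0 < n + n by omega)
          have g4 := (hl.deriv).of_lt (show n - 1 < n + n by omega)
          rw [← dd_apply, h1] at g4
          have g5 := Lim.sub' g3 g4
          have e1 : tr (X.A N * X.A N) - 2 * ν - -(2 * ν) = tr (X.A N * X.A N) := by ring
          rwa [e1, sub_zero] at g5
        have g3 := he.mul g2
        rw [zero_add, mul_zero] at g3
        rw [pow_two] at h4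
        have g4 := g1.le g3 h4
        have g5 : 0 < c * c := mul_self_pos.2 hc
        linarith
      · exact hl.mono' hn
  obtain ⟨c, hc⟩ := h5
  have h6 : Lim 0 (y - algebraMap ℝ (RatFunc ℝ) c) 0 := by
    have := Lim.sub' hc (lim_const c)
    rwa [sub_self] at this
  obtain ⟨c', hc'⟩ := h6.sub_one
  have h7 := hc'.deriv
  rw [← dd_apply, map_sub, h1] at h7
  have h8 : dd (algebraMap ℝ (RatFunc ℝ) c) = 0 := by
    rw [dd_apply]
    exact δ.map_algebraMap c
  rw [h8, sub_zero] at h7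
  have h9 := Lim.const_mul' (-(1 / 2)) h7
  have e2 : algebraMap ℝ (RatFunc ℝ) (-(1 / 2)) * -(2 * ν) = ν := by
    have e3 : algebraMap ℝ (RatFunc ℝ) (-(1 / 2)) * 2 = -1 := by
      rw [← map_ofNat (algebraMap ℝ (RatFunc ℝ)) 2, ← map_mul]
      norm_num
    linear_combination (-ν) * e3
  rw [e2] at h9
  exact ⟨_, h9⟩

/-- The square of the norm of `x` grows at most like `t ^ n`. -/
def Bdd (X : Lefs (RatFunc ℝ) E d) (n : ℤ) (x : E) : Prop := ∃ c, Lim n (X.h x x) c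

theorem Bdd.mono {n m : ℤ} {x : E} (h : X.Bdd n x) (hnm : n ≤ m) : X.Bdd m x := by
  obtain ⟨c, hc⟩ := h
  exact hc.mono' hnm

theorem Bdd.zero (n : ℤ) : X.Bdd n 0 := ⟨0, by rw [map_zero]; exact lim_zero n⟩

theorem Bdd.add {n : ℤ} {x y : E} (hx : X.Bdd n x) (hy : X.Bdd n y) : X.Bdd n (x + y) := by
  obtain ⟨c, hc⟩ := hx
  obtain ⟨e, he⟩ := hy
  obtain ⟨f, -, hf⟩ := ((Lim.two_mul' hc).add (Lim.two_mul' he)).of_le (X.h_nonneg _)
    (h_add_le x y)
  exact ⟨f, hf⟩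

theorem Bdd.sum {ι : Type*} {n : ℤ} (s : Finset ι) (f : ι → E) (h : ∀ i ∈ s, X.Bdd n (f i)) :
    X.Bdd n (∑ i ∈ s, f i) :=
  Finset.sum_induction _ (X.Bdd n) (fun _ _ => Bdd.add) (Bdd.zero n) h

theorem Bdd.smul {n m : ℤ} {x : E} (hx : X.Bdd n x) {a : RatFunc ℝ} {e : ℝ} (ha : Lim m a e) :
    X.Bdd (n + 2 * m) (a • x) := by
  obtain ⟨c, hc⟩ := hx
  have h := (ha.mul ha).mul hc
  refine ⟨e * e * c, ?_⟩
  have e1 : X.h (a • x) (a • x) = a * a * X.h x x := by
    simp only [map_smul, LinearMap.smul_apply, smul_eq_mul]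
    ring
  rw [e1, show n + 2 * m = m + m + n by ring]
  exact h

/-- `N` decreases the growth by `t ^ 2`. -/
theorem Bdd.nef (hN : X.IsNef N) (hν : ∃ c, Lim (-2) (tr (X.Ns N * N)) c) {n : ℤ} {x : E}
    (hx : X.Bdd n x) : X.Bdd (n - 2) (N x) := by
  obtain ⟨c, hc⟩ := hx
  obtain ⟨e, he⟩ := hν
  have h1 := he.mul hc
  rw [show -2 + n = n - 2 by ring] at h1
  obtain ⟨f, -, hf⟩ := h1.of_le (X.h_nonneg _) (h_le_tr X hN.h_N x)
  exact ⟨f, hf⟩

theorem Bdd.nef_pow (hN : X.IsNef N) (hν : ∃ c, Lim (-2) (tr (X.Ns N * N)) c) {n : ℤ} {x : E}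
    (hx : X.Bdd n x) (k : ℕ) : X.Bdd (n - 2 * k) ((N ^ k) x) := by
  induction k with
  | zero => simpa using hx
  | succ k ih =>
    rw [pow_succ', Module.End.mul_apply]
    have h := Bdd.nef hN hν ih
    rwa [show n - 2 * (k : ℤ) - 2 = n - 2 * ((k + 1 : ℕ) : ℤ) by push_cast; ring] at h

/-- The first differential inequality. -/
theorem Diff.ineq0 (hD : X.Diff N dd D) (hN : X.IsNef N) {x : E} (hx : D x = 0) :
    dd (X.h x x) * dd (X.h x x) ≤ X.h x x * (dd (dd (X.h x x)) + X.h (N x) (N x)) := by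
  rw [hD.d2 hN hx, hD.d1 hN hx]
  have h1 := h_mul_le (X := X) x (X.A N x)
  have h2 := mul_nonneg (X.h_nonneg x) (X.h_nonneg (X.Ns N x))
  rw [pow_two] at h1
  linarith

/-- The second differential inequality. -/
theorem Diff.ineq1 (hD : X.Diff N dd D) (hN : X.IsNef N) {x : E} (hx : D x = 0) :
    X.h x x * (dd (X.h (N x) (N x)) * dd (X.h (N x) (N x))) +
      X.h (N x) (N x) * (X.h (N x) (N x) * X.h (N x) (N x)) ≤
    X.h (N x) (N x) * (X.h x x * (dd (dd (X.h (N x) (N x))) + X.h (N (N x)) (N (N x)))) := by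
  have hNx : D (N x) = 0 := by rw [hD.nef, hx, map_zero]
  rw [hD.d2 hN hNx, hD.d1 hN hNx]
  have h1 := h_mul_le (X := X) (N x) (X.A N (N x))
  have h2 : X.h (N x) (N x) ^ 2 ≤ X.h x x * X.h (X.Ns N (N x)) (X.Ns N (N x)) := by
    rw [hN.h_N x (N x)]
    exact h_mul_le x _
  have h3 := X.h_nonneg x
  have h4 := X.h_nonneg (N x)
  have h5 := mul_le_mul_of_nonneg_left h1 h3
  have h6 := mul_le_mul_of_nonneg_left h2 h4
  rw [pow_two] at h5 h6
  linarith

/-- Upper bound for the growth of the norm of a constant vector. -/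
theorem Diff.bdd (hD : X.Diff N dd D) (hN : X.IsNef N)
    (hν : ∃ c, Lim (-2) (tr (X.Ns N * N)) c) {x : E} (hx : D x = 0) {m : ℕ}
    (hm : (N ^ (m + 1)) x = 0) : X.Bdd m x := by
  by_cases h0 : X.h x x = 0
  · exact ⟨0, by rw [h0]; exact lim_zero _⟩
  obtain ⟨β, c₀, hc₀, hl₀⟩ := exists_lim h0
  rcases lt_or_ge (m : ℤ) β with hβ | hβ
  swap
  · exact hl₀.mono' hβ
  exfalso
  have hbd : ∀ j : ℕ, X.Bdd (β - 2 * j) ((N ^ j) x) := fun j => Bdd.nef_pow hN hν ⟨c₀, hl₀⟩ j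
  choose c hc using hbd
  have hDj : ∀ j : ℕ, D ((N ^ j) x) = 0 := by
    intro j
    induction j with
    | zero => simpa using hx
    | succ j ih => rw [pow_succ', Module.End.mul_apply, hD.nef, ih, map_zero]
  have hpos : ∀ j, 0 ≤ c j := fun j => (lim_zero _).le (hc j) (X.h_nonneg _)
  have hc0 : 0 < c 0 := by
    have h1 : Lim β (X.h x x) (c 0) := by
      have := hc 0
      simpa using this
    rw [h1.unique hl₀]
    have h2 := hpos 0
    rw [h1.unique hl₀] at h2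
    exact lt_of_le_of_ne h2 (Ne.symm hc₀)
  have hN1 : ∀ j, N ((N ^ j) x) = (N ^ (j + 1)) x := by
    intro j
    rw [pow_succ', Module.End.mul_apply]
  -- the limit of the first inequality
  have hI0 : c 0 * β ≤ c 1 := by
    have h1 := hD.ineq0 hN (hDj 0)
    have g0 := hc 0
    have g1 := g0.deriv
    have g2 := g1.deriv
    have g3 := hc 1
    rw [← dd_apply] at g1
    rw [← dd_apply, ← dd_apply] at g2
    rw [hN1] at h1
    have e1 : β - 2 * ((0 : ℕ) : ℤ) - 1 - 1 = β - 2 * ((1 : ℕ) : ℤ) := by push_cast; ring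
    rw [e1] at g2
    have l1 := g1.mul g1
    have l2 := g0.mul (g2.add g3)
    have e2 : β - 2 * ((0 : ℕ) : ℤ) - 1 + (β - 2 * ((0 : ℕ) : ℤ) - 1) =
      β - 2 * ((0 : ℕ) : ℤ) + (β - 2 * ((1 : ℕ) : ℤ)) := by push_cast; ring
    rw [e2] at l1
    have h2 := l1.le l2 h1
    push_cast at h2
    have h3 : c 0 * (c 0 * β) ≤ c 0 * c 1 := by nlinarith [h2]
    exact le_of_mul_le_mul_left h3 hc0
  have hI1 : ∀ j, 0 < c (j + 1) → c (j + 1) * (c (j + 1) + (β - 2 * (j + 1)) * c j) ≤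
      c (j + 1) * 0 + c j * c (j + 2) := by
    intro j hj
    have h1 := hD.ineq1 hN (hDj j)
    have gm := hc j
    have g0 := hc (j + 1)
    have g1 := g0.deriv
    have g2 := g1.deriv
    have g3 := hc (j + 2)
    rw [← dd_apply] at g1
    rw [← dd_apply, ← dd_apply] at g2
    rw [hN1, hN1] at h1
    have e1 : β - 2 * ((j + 1 : ℕ) : ℤ) - 1 - 1 = β - 2 * ((j + 2 : ℕ) : ℤ) := by push_cast; ring
    rw [e1] at g2
    have l1 := (gm.mul (g1.mul g1))
    have l2 := g0.mul (g0.mul g0)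
    have l3 := g0.mul (gm.mul (g2.add g3))
    have e2 : β - 2 * (j : ℤ) + (β - 2 * ((j + 1 : ℕ) : ℤ) - 1 + (β - 2 * ((j + 1 : ℕ) : ℤ) - 1)) =
      β - 2 * ((j + 1 : ℕ) : ℤ) + (β - 2 * ((j + 1 : ℕ) : ℤ) + (β - 2 * ((j + 1 : ℕ) : ℤ))) := by
      push_cast; ring
    have e3 : β - 2 * ((j + 1 : ℕ) : ℤ) + (β - 2 * (j : ℤ) + (β - 2 * ((j + 2 : ℕ) : ℤ))) =
      β - 2 * ((j + 1 : ℕ) : ℤ) + (β - 2 * ((j + 1 : ℕ) : ℤ) + (β - 2 * ((j + 1 : ℕ) : ℤ))) := by
      push_cast; ring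
    rw [e2] at l1
    rw [e3] at l3
    have h2 := (l1.add l2).le l3 h1
    push_cast at h2
    have h3 : c (j + 1) * (c (j + 1) * (c (j + 1) + (β - 2 * (j + 1)) * c j)) ≤
        c (j + 1) * (c (j + 1) * 0 + c j * c (j + 2)) := by nlinarith [h2]
    exact le_of_mul_le_mul_left h3 hj
  have hβ' : ((m : ℝ) + 1) ≤ β := by exact_mod_cast hβ
  have main : ∀ j : ℕ, j ≤ m → 0 < c j ∧ c j * ((j + 1) * (β - j)) ≤ c (j + 1) := by
    intro j
    induction j with
    | zero =>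
      intro _
      refine ⟨hc0, ?_⟩
      have : c 0 * (((0 : ℕ) + 1) * (β - ((0 : ℕ) : ℝ))) = c 0 * β := by push_cast; ring
      rw [this]
      exact hI0
    | succ j ih =>
      intro hj
      obtain ⟨p1, p2⟩ := ih (by omega)
      have hjm : ((j : ℝ) + 1) ≤ m := by exact_mod_cast hj
      have hj0 : (0 : ℝ) ≤ j := by positivity
      have p3 : 0 < c (j + 1) := by
        have : 0 < c j * ((j + 1) * (β - j)) := by
          apply mul_pos p1
          apply mul_pos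
          · linarith
          · linarith
        linarith
      refine ⟨p3, ?_⟩
      have p4 := hI1 j p3
      have p5 : c (j + 1) * (c j * ((j + 1) * (β - j)) + (β - 2 * (j + 1)) * c j) ≤
          c (j + 1) * (c (j + 1) + (β - 2 * (j + 1)) * c j) :=
        mul_le_mul_of_nonneg_left (by linarith) p3.le
      have p6 : c j * (c (j + 1) * ((((j + 1 : ℕ) : ℝ) + 1) * (β - ((j + 1 : ℕ) : ℝ)))) ≤
          c j * c (j + 2) := by
        have e : c j * (c (j + 1) * ((((j + 1 : ℕ) : ℝ) + 1) * (β - ((j + 1 : ℕ) : ℝ)))) =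
            c (j + 1) * (c j * ((j + 1) * (β - j)) + (β - 2 * (j + 1)) * c j) := by
          push_cast; ring
        rw [e]
        linarith
      exact le_of_mul_le_mul_left p6 p1
  obtain ⟨q1, q2⟩ := main m le_rfl
  have hm0 : c (m + 1) = 0 := by
    have := hc (m + 1)
    rw [hm, map_zero] at this
    exact this.unique (lim_zero _)
  have q3 : 0 < c m * ((m + 1) * (β - m)) := by
    apply mul_pos q1
    apply mul_pos
    · positivity
    · linarith
  linarith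

end Lefs

end Pool.Agent.Lib.OrlovNef
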