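import Pool.Agent.Lib.OrlovNef.Asym

/-!
# Base change of a real nef pair to the field of rational functions
-/

set_option autoImplicit false

open scoped TensorProduct

open Polynomial

namespace Pool.Agent.Lib.OrlovNef

open Growth

/-- Real polarised Lefschetz modules with an operator `N` such that all `L + t N`, `t ≥ 0`,
satisfy the Hodge-Riemann relations. -/
structure RealNef (V : Type*) [AddCommGroup V] [Module ℝ V] (d : ℕ) where
  /-- the projector onto the part of degree `j` -/
  pr : ℕ → Module.End ℝ V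
  /-- the Lefschetz operator -/
  L : Module.End ℝ V
  /-- the nef operator -/
  N : Module.End ℝ V
  /-- the form -/
  b : LinearMap.BilinForm ℝ V
  pr_sum : ∑ j ∈ Finset.range (2 * d + 1), pr j = 1
  pr_self : ∀ j, pr j * pr j = pr j
  pr_ne : ∀ i j, i ≠ j → pr i * pr j = 0
  L_pr : ∀ j, L * pr j = pr (j + 2) * L
  N_pr : ∀ j, N * pr j = pr (j + 2) * N
  N_L : N * L = L * N
  b_symm : ∀ x y, b x y = b y x
  b_pr : ∀ i ≤ 2 * d, ∀ x y, b (pr i x) y = b x (pr (2 * d - i) y)
  b_nondeg : ∀ x, (∀ y, b x y = 0) → x = 0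
  b_L : ∀ x y, b (L x) y = b x (L y)
  b_N : ∀ x y, b (N x) y = b x (N y)
  pos : ∀ t : ℝ, 0 ≤ t → ∀ j ≤ d, ∀ x, pr j x = x → ((L + t • N) ^ (d - j + 1)) x = 0 → x ≠ 0 →
    0 < sgn ℝ j * b x (((L + t • N) ^ (d - j)) x)

section Gen

variable {V : Type*} [AddCommGroup V] [Module ℝ V] {A : Type*} [CommRing A] [Algebra ℝ A]

theorem ext1 {M : Type*} [AddCommGroup M] [Module A M] {f g : A ⊗[ℝ] V →ₗ[A] M}
    (h : ∀ v : V, f (1 ⊗ₜ v) = g (1 ⊗ₜ v)) : f = g := by
  apply LinearMap.ext
  intro x
  induction x using TensorProduct.induction_on with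
  | zero => rw [map_zero, map_zero]
  | tmul a v =>
    have h1 : a ⊗ₜ[ℝ] v = a • ((1 : A) ⊗ₜ[ℝ] v) := by
      rw [TensorProduct.smul_tmul', smul_eq_mul, mul_one]
    rw [h1, map_smul, map_smul, h]
  | add x y hx hy => rw [map_add, map_add, hx, hy]

theorem ext2 {f g : LinearMap.BilinForm A (A ⊗[ℝ] V)}
    (h : ∀ v w : V, f (1 ⊗ₜ v) (1 ⊗ₜ w) = g (1 ⊗ₜ v) (1 ⊗ₜ w)) : f = g := by
  apply ext1
  intro v
  apply ext1
  intro w
  exact h v w

theorem bc_apply (T : Module.End ℝ V) (a : A) (v : V) : T.baseChange A (a ⊗ₜ v) = a ⊗ₜ T v := rfl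

/-- Adjoint operators stay adjoint after base change. -/
theorem bc_adj {b : LinearMap.BilinForm ℝ V} {T U : Module.End ℝ V}
    (h : ∀ x y, b (T x) y = b x (U y)) (x y : A ⊗[ℝ] V) :
    b.baseChange A (T.baseChange A x) y = b.baseChange A x (U.baseChange A y) := by
  have e : (b.baseChange A).compl₁₂ (T.baseChange A) LinearMap.id =
      (b.baseChange A).compl₁₂ LinearMap.id (U.baseChange A) := by
    apply ext2
    intro v w
    simp only [LinearMap.compl₁₂_apply, bc_apply, LinearMap.id_apply,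
      LinearMap.BilinForm.baseChange_tmul, h]
  exact LinearMap.congr_fun₂ e x y

theorem bc_symm {b : LinearMap.BilinForm ℝ V} (h : ∀ x y, b x y = b y x) (x y : A ⊗[ℝ] V) :
    b.baseChange A x y = b.baseChange A y x := by
  have e : b.baseChange A = LinearMap.flip (b.baseChange A) := by
    apply ext2
    intro v w
    rw [LinearMap.flip_apply, LinearMap.BilinForm.baseChange_tmul,
      LinearMap.BilinForm.baseChange_tmul, h]
  exact LinearMap.congr_fun₂ e x y

theorem bc_nondeg [FiniteDimensional ℝ V] {b : LinearMap.BilinForm ℝ V}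
    (h : ∀ x, (∀ y, b x y = 0) → x = 0) (z : A ⊗[ℝ] V)
    (hz : ∀ y, b.baseChange A z y = 0) : z = 0 := by
  classical
  set e := Module.Free.chooseBasis ℝ A with he
  have key : ∀ (i : Module.Free.ChooseBasisIndex ℝ A) (x : V) (z : A ⊗[ℝ] V),
      e.coord i (b.baseChange A z (1 ⊗ₜ x)) =
        b (TensorProduct.lid ℝ V ((e.coord i).rTensor V z)) x := by
    intro i x z
    induction z using TensorProduct.induction_on with
    | zero => simp
    | tmul a v =>
      rw [LinearMap.BilinForm.baseChange_tmul, mul_one, map_smul, LinearMap.rTensor_tmul,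
        TensorProduct.lid_tmul, map_smul, LinearMap.smul_apply, smul_eq_mul, smul_eq_mul, mul_comm]
    | add u v hu hv => simp only [map_add, LinearMap.add_apply, hu, hv]
  have h1 : TensorProduct.equivFinsuppOfBasisLeft e z = 0 := by
    ext i
    rw [TensorProduct.equivFinsuppOfBasisLeft_apply, Finsupp.zero_apply]
    apply h
    intro x
    rw [← key, hz, map_zero]
  exact (LinearEquiv.map_eq_zero_iff _).1 h1

end Gen

namespace RealNef

variable {V : Type*} [AddCommGroup V] [Module ℝ V] {d : ℕ} (R : RealNef V d)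

/-- The operator `L + a N` over an algebra. -/
noncomputable def op {A : Type*} [CommRing A] [Algebra ℝ A] (a : A) : Module.End A (A ⊗[ℝ] V) :=
  R.L.baseChange A + a • R.N.baseChange A

/-- Evaluation of polynomial vectors at a real number. -/
noncomputable def ev (V : Type*) [AddCommGroup V] [Module ℝ V] (τ : ℝ) : ℝ[X] ⊗[ℝ] V →ₗ[ℝ] V :=
  TensorProduct.lid ℝ V ∘ₗ (Polynomial.leval τ).rTensor V

theorem ev_tmul (τ : ℝ) (p : ℝ[X]) (v : V) : ev V τ (p ⊗ₜ v) = p.eval τ • v := rfl

theorem ev_smul (τ : ℝ) (p : ℝ[X]) (y : ℝ[X] ⊗[ℝ] V) : ev V τ (p • y) = p.eval τ • ev V τ y := by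
  induction y using TensorProduct.induction_on with
  | zero => simp
  | tmul q v => rw [TensorProduct.smul_tmul', ev_tmul, ev_tmul, smul_eq_mul, eval_mul, mul_smul]
  | add u v hu hv => rw [smul_add, map_add, map_add, smul_add, hu, hv]

theorem ev_bc (τ : ℝ) (T : Module.End ℝ V) (y : ℝ[X] ⊗[ℝ] V) :
    ev V τ (T.baseChange ℝ[X] y) = T (ev V τ y) := by
  induction y using TensorProduct.induction_on with
  | zero => simp
  | tmul q v => rw [bc_apply, ev_tmul, ev_tmul, map_smul]
  | add u v hu hv => rw [map_add, map_add, map_add, map_add, hu, hv]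

theorem ev_op (τ : ℝ) (y : ℝ[X] ⊗[ℝ] V) : ev V τ (R.op X y) = (R.L + τ • R.N) (ev V τ y) := by
  unfold op
  rw [LinearMap.add_apply, LinearMap.smul_apply, map_add, ev_smul, ev_bc, ev_bc, eval_X,
    LinearMap.add_apply, LinearMap.smul_apply]

theorem ev_op_pow (τ : ℝ) (n : ℕ) (y : ℝ[X] ⊗[ℝ] V) :
    ev V τ ((R.op X ^ n) y) = ((R.L + τ • R.N) ^ n) (ev V τ y) := by
  induction n with
  | zero => rfl
  | succ n ih => rw [pow_succ', pow_succ', Module.End.mul_apply, ev_op, ih, Module.End.mul_apply]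

theorem ev_form (τ : ℝ) (y z : ℝ[X] ⊗[ℝ] V) :
    (R.b.baseChange ℝ[X] y z).eval τ = R.b (ev V τ y) (ev V τ z) := by
  induction y using TensorProduct.induction_on with
  | zero => simp
  | tmul p v =>
    induction z using TensorProduct.induction_on with
    | zero => simp
    | tmul q w =>
      rw [LinearMap.BilinForm.baseChange_tmul, ev_tmul, ev_tmul, eval_smul, eval_mul, map_smul,
        map_smul, LinearMap.smul_apply]
      simp only [smul_eq_mul]
      ring
    | add u v hu hv => rw [map_add, map_add, map_add, eval_add, hu, hv]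
  | add u v hu hv =>
    rw [map_add, map_add, map_add, LinearMap.add_apply, LinearMap.add_apply, eval_add, hu, hv]

/-- Polynomial vectors as vectors over the rational functions. -/
noncomputable def io (V : Type*) [AddCommGroup V] [Module ℝ V] :
    ℝ[X] ⊗[ℝ] V →ₗ[ℝ] RatFunc ℝ ⊗[ℝ] V :=
  (IsScalarTower.toAlgHom ℝ ℝ[X] (RatFunc ℝ)).toLinearMap.rTensor V

theorem io_tmul (p : ℝ[X]) (v : V) : io V (p ⊗ₜ v) = algebraMap ℝ[X] (RatFunc ℝ) p ⊗ₜ v := rfl

theorem io_inj : Function.Injective (io V) := by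
  apply Module.Flat.rTensor_preserves_injective_linearMap
  exact IsFractionRing.injective ℝ[X] (RatFunc ℝ)

theorem io_smul (p : ℝ[X]) (y : ℝ[X] ⊗[ℝ] V) :
    io V (p • y) = algebraMap ℝ[X] (RatFunc ℝ) p • io V y := by
  induction y using TensorProduct.induction_on with
  | zero => simp
  | tmul q v =>
    rw [TensorProduct.smul_tmul', io_tmul, io_tmul, TensorProduct.smul_tmul', smul_eq_mul,
      smul_eq_mul, map_mul]
  | add u v hu hv => rw [smul_add, map_add, map_add, smul_add, hu, hv]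

theorem io_bc (T : Module.End ℝ V) (y : ℝ[X] ⊗[ℝ] V) :
    io V (T.baseChange ℝ[X] y) = T.baseChange (RatFunc ℝ) (io V y) := by
  induction y using TensorProduct.induction_on with
  | zero => simp
  | tmul q v => rw [bc_apply, io_tmul, io_tmul, bc_apply]
  | add u v hu hv => rw [map_add, map_add, map_add, map_add, hu, hv]

theorem io_op (y : ℝ[X] ⊗[ℝ] V) : io V (R.op X y) = R.op RatFunc.X (io V y) := by
  unfold op
  rw [LinearMap.add_apply, LinearMap.smul_apply, map_add, io_smul, io_bc, io_bc,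
    RatFunc.algebraMap_X, LinearMap.add_apply, LinearMap.smul_apply]

theorem io_op_pow (n : ℕ) (y : ℝ[X] ⊗[ℝ] V) :
    io V ((R.op X ^ n) y) = (R.op RatFunc.X ^ n) (io V y) := by
  induction n with
  | zero => rfl
  | succ n ih => rw [pow_succ', pow_succ', Module.End.mul_apply, io_op, ih, Module.End.mul_apply]

theorem io_form (y z : ℝ[X] ⊗[ℝ] V) :
    algebraMap ℝ[X] (RatFunc ℝ) (R.b.baseChange ℝ[X] y z) =
      R.b.baseChange (RatFunc ℝ) (io V y) (io V z) := by
  induction y using TensorProduct.induction_on with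
  | zero => simp
  | tmul p v =>
    induction z using TensorProduct.induction_on with
    | zero => simp
    | tmul q w =>
      rw [LinearMap.BilinForm.baseChange_tmul, io_tmul, io_tmul,
        LinearMap.BilinForm.baseChange_tmul, ← map_mul]
      exact (IsScalarTower.toAlgHom ℝ ℝ[X] (RatFunc ℝ)).toLinearMap.map_smul _ _
    | add u v hu hv => rw [map_add, map_add, map_add, map_add, hu, hv]
  | add u v hu hv =>
    rw [map_add, map_add, map_add, LinearMap.add_apply, LinearMap.add_apply, map_add, hu, hv]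

/-- Common denominators. -/
theorem exists_den (x : RatFunc ℝ ⊗[ℝ] V) : ∃ (q : ℝ[X]) (y : ℝ[X] ⊗[ℝ] V), q ≠ 0 ∧
    io V y = algebraMap ℝ[X] (RatFunc ℝ) q • x := by
  induction x using TensorProduct.induction_on with
  | zero => exact ⟨1, 0, one_ne_zero, by simp⟩
  | tmul a v =>
    obtain ⟨p, q, hq, rfl⟩ := IsFractionRing.div_surjective (A := ℝ[X]) a
    have hq0 : q ≠ 0 := nonZeroDivisors.ne_zero hq
    have hq1 : algebraMap ℝ[X] (RatFunc ℝ) q ≠ 0 := by
      intro h
      exact hq0 ((IsFractionRing.injective ℝ[X] (RatFunc ℝ)) (by rw [h, map_zero]))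
    refine ⟨q, p ⊗ₜ v, hq0, ?_⟩
    rw [io_tmul, TensorProduct.smul_tmul', smul_eq_mul, mul_div_cancel₀ _ hq1]
  | add u v hu hv =>
    obtain ⟨q, y, hq, hy⟩ := hu
    obtain ⟨q', y', hq', hy'⟩ := hv
    refine ⟨q * q', q' • y + q • y', mul_ne_zero hq hq', ?_⟩
    rw [map_add, io_smul, io_smul, hy, hy', smul_smul, smul_smul, map_mul, smul_add, mul_comm
      (algebraMap ℝ[X] (RatFunc ℝ) q')]

theorem ev_ne_zero [FiniteDimensional ℝ V] {y : ℝ[X] ⊗[ℝ] V} (hy : y ≠ 0) :
    ∃ T : ℝ, ∀ τ, T ≤ τ → ev V τ y ≠ 0 := by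
  classical
  set e := Module.Free.chooseBasis ℝ V with he
  have h1 : TensorProduct.equivFinsuppOfBasisRight (M := ℝ[X]) e y ≠ 0 :=
    fun h => hy ((LinearEquiv.map_eq_zero_iff _).1 h)
  obtain ⟨i, hi⟩ := Finsupp.ne_iff.1 h1
  rw [TensorProduct.equivFinsuppOfBasisRight_apply, Finsupp.zero_apply] at hi
  set p := TensorProduct.rid ℝ ℝ[X] ((e.coord i).lTensor ℝ[X] y) with hp
  have h2 : ∀ (τ : ℝ) (y : ℝ[X] ⊗[ℝ] V),
      (TensorProduct.rid ℝ ℝ[X] ((e.coord i).lTensor ℝ[X] y)).eval τ = e.coord i (ev V τ y) := by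
    intro τ y
    induction y using TensorProduct.induction_on with
    | zero => simp
    | tmul q v =>
      rw [LinearMap.lTensor_tmul, TensorProduct.rid_tmul, eval_smul, ev_tmul, map_smul, smul_eq_mul,
        smul_eq_mul, mul_comm]
    | add u v hu hv => simp only [map_add, eval_add, hu, hv]
  obtain ⟨T, hT⟩ := Filter.eventually_atTop.1 (Polynomial.eventually_atTop_not_isRoot p hi)
  refine ⟨T, fun τ hτ h => hT τ hτ ?_⟩
  rw [Polynomial.IsRoot, hp, h2, h, map_zero]

theorem io_sgn (j : ℕ) : algebraMap ℝ[X] (RatFunc ℝ) (sgn ℝ[X] j) = sgn (RatFunc ℝ) j := by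
  unfold sgn
  rw [map_pow, map_neg, map_one]

theorem ev_sgn (j : ℕ) (τ : ℝ) : (sgn ℝ[X] j).eval τ = sgn ℝ j := by
  unfold sgn
  rw [eval_pow, eval_neg, eval_one]

theorem pos_bc [FiniteDimensional ℝ V] (j : ℕ) (hj : j ≤ d) (x : RatFunc ℝ ⊗[ℝ] V)
    (hx : (R.pr j).baseChange (RatFunc ℝ) x = x) (h0 : (R.op RatFunc.X ^ (d - j + 1)) x = 0)
    (hne : x ≠ 0) :
    0 < sgn (RatFunc ℝ) j * R.b.baseChange (RatFunc ℝ) x ((R.op RatFunc.X ^ (d - j)) x) := by
  obtain ⟨q, y, hq, hy⟩ := exists_den x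
  set Q := algebraMap ℝ[X] (RatFunc ℝ) q with hQ
  have hQ0 : Q ≠ 0 := by
    intro h
    exact hq ((IsFractionRing.injective ℝ[X] (RatFunc ℝ)) (by rw [← hQ, h, map_zero]))
  have hy0 : y ≠ 0 := by
    rintro rfl
    rw [map_zero] at hy
    exact (smul_ne_zero hQ0 hne) hy.symm
  have hy1 : (R.pr j).baseChange ℝ[X] y = y := by
    apply io_inj
    rw [io_bc, hy, map_smul, hx]
  have hy2 : (R.op X ^ (d - j + 1)) y = 0 := by
    apply io_inj
    rw [io_op_pow, hy, map_smul, h0, smul_zero, map_zero]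
  obtain ⟨T, hT⟩ := ev_ne_zero hy0
  have h1 : 0 < algebraMap ℝ[X] (RatFunc ℝ)
      (sgn ℝ[X] j * R.b.baseChange ℝ[X] y ((R.op X ^ (d - j)) y)) := by
    apply algebraMap_pos (max T 0)
    intro τ hτ
    rw [eval_mul, ev_sgn, ev_form, ev_op_pow]
    apply R.pos τ ((le_max_right _ _).trans hτ) j hj
    · rw [← ev_bc, hy1]
    · rw [← ev_op_pow, hy2, map_zero]
    · exact hT τ ((le_max_left _ _).trans hτ)
  rw [map_mul, io_sgn, io_form, io_op_pow, hy, map_smul, map_smul, map_smul, LinearMap.smul_apply,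
    smul_eq_mul, smul_eq_mul] at h1
  have h2 : sgn (RatFunc ℝ) j * (Q * (Q * R.b.baseChange (RatFunc ℝ) x
      ((R.op RatFunc.X ^ (d - j)) x))) = Q ^ 2 * (sgn (RatFunc ℝ) j *
        R.b.baseChange (RatFunc ℝ) x ((R.op RatFunc.X ^ (d - j)) x)) := by ring
  rw [h2] at h1
  exact pos_of_mul_pos_right h1 (sq_nonneg Q)

/-- The polarised Lefschetz module over the rational functions. -/
noncomputable def lefs [FiniteDimensional ℝ V] : Lefs (RatFunc ℝ) (RatFunc ℝ ⊗[ℝ] V) d where
  pr j := (R.pr j).baseChange _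
  L := R.op RatFunc.X
  b := R.b.baseChange _
  pr_sum := by
    apply ext1
    intro v
    rw [LinearMap.sum_apply, Module.End.one_apply]
    simp only [bc_apply]
    rw [← TensorProduct.tmul_sum, ← LinearMap.sum_apply, R.pr_sum, Module.End.one_apply]
  pr_self j := by rw [← LinearMap.baseChange_mul, R.pr_self]
  pr_ne i j h := by rw [← LinearMap.baseChange_mul, R.pr_ne i j h, LinearMap.baseChange_zero]
  L_pr j := by
    unfold op
    rw [add_mul, mul_add, smul_mul_assoc, mul_smul_comm, ← LinearMap.baseChange_mul,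
      ← LinearMap.baseChange_mul, R.L_pr, R.N_pr, LinearMap.baseChange_mul,
      LinearMap.baseChange_mul]
  b_symm x y := bc_symm R.b_symm x y
  b_pr i hi x y := bc_adj (R.b_pr i hi) x y
  b_nondeg x h := bc_nondeg R.b_nondeg x h
  b_L x y := by
    unfold op
    simp only [LinearMap.add_apply, LinearMap.smul_apply, map_add, map_smul]
    rw [bc_adj R.b_L, bc_adj R.b_N]
  pos := R.pos_bc

/-- The operator `N` over the rational functions. -/
noncomputable def nn : Module.End (RatFunc ℝ) (RatFunc ℝ ⊗[ℝ] V) := R.N.baseChange _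

theorem isNef [FiniteDimensional ℝ V] : R.lefs.IsNef R.nn where
  N_pr j := by
    change R.N.baseChange _ * (R.pr j).baseChange _ = (R.pr (j + 2)).baseChange _ *
      R.N.baseChange _
    rw [← LinearMap.baseChange_mul, R.N_pr, LinearMap.baseChange_mul]
  N_b x y := bc_adj R.b_N x y
  N_L := by
    change R.N.baseChange _ * R.op RatFunc.X = R.op RatFunc.X * R.N.baseChange _
    have h := congrArg (fun T => LinearMap.baseChange (RatFunc ℝ) T) R.N_L
    simp only [LinearMap.baseChange_mul] at h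
    unfold op
    rw [mul_add, add_mul, mul_smul_comm, smul_mul_assoc, h]

/-- Differentiation with respect to `t`. -/
noncomputable def dE (V : Type*) [AddCommGroup V] [Module ℝ V] :
    RatFunc ℝ ⊗[ℝ] V →ₗ[ℝ] RatFunc ℝ ⊗[ℝ] V := (δ : RatFunc ℝ →ₗ[ℝ] RatFunc ℝ).rTensor V

theorem dE_tmul (a : RatFunc ℝ) (v : V) : dE V (a ⊗ₜ v) = δ a ⊗ₜ v := rfl

theorem dE_smul (a : RatFunc ℝ) (x : RatFunc ℝ ⊗[ℝ] V) :
    dE V (a • x) = δ a • x + a • dE V x := by
  induction x using TensorProduct.induction_on with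
  | zero => simp
  | tmul c v =>
    rw [TensorProduct.smul_tmul', dE_tmul, dE_tmul, TensorProduct.smul_tmul',
      TensorProduct.smul_tmul', ← TensorProduct.add_tmul, smul_eq_mul, smul_eq_mul, smul_eq_mul,
      Derivation.leibniz, smul_eq_mul, smul_eq_mul, mul_comm c, add_comm]
  | add u v hu hv =>
    rw [smul_add, map_add, map_add, hu, hv, smul_add, smul_add]
    abel

theorem dE_bc (T : Module.End ℝ V) (x : RatFunc ℝ ⊗[ℝ] V) :
    dE V (T.baseChange (RatFunc ℝ) x) = T.baseChange (RatFunc ℝ) (dE V x) := by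
  induction x using TensorProduct.induction_on with
  | zero => simp
  | tmul c v => rw [bc_apply, dE_tmul, dE_tmul, bc_apply]
  | add u v hu hv => rw [map_add, map_add, map_add, map_add, hu, hv]

theorem dE_const (v : V) : dE V ((1 : RatFunc ℝ) ⊗ₜ v) = 0 := by
  rw [dE_tmul, Derivation.map_one_eq_zero, TensorProduct.zero_tmul]

theorem diff [FiniteDimensional ℝ V] : R.lefs.Diff R.nn dd (dE V).toAddMonoidHom where
  leib a c := by
    rw [dd_apply, dd_apply, dd_apply, Derivation.leibniz, smul_eq_mul, smul_eq_mul]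
    ring
  smul a x := dE_smul a x
  pr j x := dE_bc _ x
  form x y := by
    change δ (R.b.baseChange _ x y) = R.b.baseChange _ (dE V x) y + R.b.baseChange _ x (dE V y)
    induction x using TensorProduct.induction_on with
    | zero => simp
    | tmul p v =>
      induction y using TensorProduct.induction_on with
      | zero => simp
      | tmul q w =>
        rw [dE_tmul, dE_tmul, LinearMap.BilinForm.baseChange_tmul,
          LinearMap.BilinForm.baseChange_tmul, LinearMap.BilinForm.baseChange_tmul,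
          Derivation.map_smul, Derivation.leibniz, smul_eq_mul, smul_eq_mul, smul_add, add_comm,
          mul_comm q]
      | add u v hu hv =>
        simp only [map_add, hu, hv]
        ring
    | add u v hu hv =>
      simp only [map_add, LinearMap.add_apply, hu, hv]
      ring
  lef x := by
    change dE V (R.op RatFunc.X x) = R.N.baseChange _ x + R.op RatFunc.X (dE V x)
    unfold op
    rw [LinearMap.add_apply, LinearMap.smul_apply, map_add, dE_smul, dE_bc, dE_bc, δ_X, one_smul,
      LinearMap.add_apply, LinearMap.smul_apply]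
    abel
  nef x := dE_bc _ x

end RealNef

end Pool.Agent.Lib.OrlovNef
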