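import Pool.Agent.Lib.OrlovSig.Core
import Pool.Agent.Lib.OrlovNef.HodgeForm

/-!
# The ring of Hodge endomorphisms of `H^*(X) × H^*(X')`
-/

set_option autoImplicit false

open scoped TensorProduct ComplexOrder

namespace Pool.Agent.Lib.OrlovNef

open Pool.Agent.Lib.OrlovSig

namespace HL

variable {d : ℕ} {V V' : Type*} [AddCommGroup V] [Module ℚ V] [AddCommGroup V'] [Module ℚ V']

theorem decomp_id : (LinearMap.inl ℚ V V') ∘ₗ (LinearMap.fst ℚ V V') +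
    (LinearMap.inr ℚ V V') ∘ₗ (LinearMap.snd ℚ V V') = LinearMap.id := by
  ext x <;> simp

theorem block_mul {A B : Type*} [AddCommGroup A] [Module ℚ A] [AddCommGroup B] [Module ℚ B]
    (f g : Module.End ℚ (V × V')) (a : (V × V') →ₗ[ℚ] A) (b : B →ₗ[ℚ] (V × V')) :
    a ∘ₗ (f * g) ∘ₗ b =
      (a ∘ₗ f ∘ₗ LinearMap.inl ℚ V V') ∘ₗ (LinearMap.fst ℚ V V' ∘ₗ g ∘ₗ b) +
      (a ∘ₗ f ∘ₗ LinearMap.inr ℚ V V') ∘ₗ (LinearMap.snd ℚ V V' ∘ₗ g ∘ₗ b) := by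
  ext x
  simp only [LinearMap.comp_apply, LinearMap.add_apply, Module.End.mul_apply]
  rw [← map_add, ← map_add]
  congr 2
  ext <;> simp

/-- The blocks of an endomorphism of `V × V'` are Hodge maps. -/
def blockAlg (X : HL d V) (X' : HL d V') :
    Subalgebra ℚ (Module.End ℚ (V × V')) where
  carrier := {f | X.IsHodge X (LinearMap.fst ℚ V V' ∘ₗ f ∘ₗ LinearMap.inl ℚ V V') ∧
    X.IsHodge X' (LinearMap.snd ℚ V V' ∘ₗ f ∘ₗ LinearMap.inl ℚ V V') ∧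
    X'.IsHodge X (LinearMap.fst ℚ V V' ∘ₗ f ∘ₗ LinearMap.inr ℚ V V') ∧
    X'.IsHodge X' (LinearMap.snd ℚ V V' ∘ₗ f ∘ₗ LinearMap.inr ℚ V V')}
  mul_mem' := by
    rintro f g ⟨f1, f2, f3, f4⟩ ⟨g1, g2, g3, g4⟩
    refine ⟨?_, ?_, ?_, ?_⟩
    · rw [block_mul]; exact (f1.comp g1).add (f3.comp g2)
    · rw [block_mul]; exact (f2.comp g1).add (f4.comp g2)
    · rw [block_mul]; exact (f1.comp g3).add (f3.comp g4)
    · rw [block_mul]; exact (f2.comp g3).add (f4.comp g4)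
  add_mem' := by
    rintro f g ⟨f1, f2, f3, f4⟩ ⟨g1, g2, g3, g4⟩
    simp only [Set.mem_ofPred_eq, LinearMap.add_comp, LinearMap.comp_add]
    exact ⟨f1.add g1, f2.add g2, f3.add g3, f4.add g4⟩
  algebraMap_mem' := by
    intro r
    have e1 : LinearMap.fst ℚ V V' ∘ₗ (algebraMap ℚ (Module.End ℚ (V × V')) r) ∘ₗ
        LinearMap.inl ℚ V V' = r • LinearMap.id := by ext; simp [Module.algebraMap_end_apply]
    have e2 : LinearMap.snd ℚ V V' ∘ₗ (algebraMap ℚ (Module.End ℚ (V × V')) r) ∘ₗ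
        LinearMap.inl ℚ V V' = 0 := by ext; simp [Module.algebraMap_end_apply]
    have e3 : LinearMap.fst ℚ V V' ∘ₗ (algebraMap ℚ (Module.End ℚ (V × V')) r) ∘ₗ
        LinearMap.inr ℚ V V' = 0 := by ext; simp [Module.algebraMap_end_apply]
    have e4 : LinearMap.snd ℚ V V' ∘ₗ (algebraMap ℚ (Module.End ℚ (V × V')) r) ∘ₗ
        LinearMap.inr ℚ V V' = r • LinearMap.id := by ext; simp [Module.algebraMap_end_apply]
    rw [Set.mem_ofPred_eq, e1, e2, e3, e4]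
    exact ⟨X.isHodge_id.smul r, X.isHodge_zero X', X'.isHodge_zero X, X'.isHodge_id.smul r⟩

/-- The form on `V × V'`. -/
noncomputable def qq (X : HL d V) (X' : HL d V') :
    (V × V') →+ (V × V') →+ ℝ where
  toFun x :=
    { toFun := fun y => X.qf x.1 y.1 + X'.qf x.2 y.2
      map_zero' := by simp
      map_add' := fun y z => by simp only [Prod.fst_add, Prod.snd_add, map_add]; ring }
  map_zero' := by ext <;> simp
  map_add' x y := by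
    refine AddMonoidHom.ext (fun z => ?_)
    simp only [Prod.fst_add, Prod.snd_add, map_add, AddMonoidHom.coe_mk, ZeroHom.coe_mk,
      AddMonoidHom.add_apply]
    ring

theorem qq_apply (X : HL d V) (X' : HL d V') (x y : V × V') :
    X.qq X' x y = X.qf x.1 y.1 + X'.qf x.2 y.2 := rfl

theorem qq_symm (X : HL d V) (X' : HL d V') (x y : V × V') :
    X.qq X' x y = X.qq X' y x := by
  rw [qq_apply, qq_apply, X.qf_symm, X'.qf_symm]

theorem smul_eq (X : HL d V) (X' : HL d V') (r : X.blockAlg X')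
    (w : V × V') : r • w = (r : Module.End ℚ (V × V')) w := rfl

instance (X : HL d V) (X' : HL d V') :
    FaithfulSMul (X.blockAlg X') (V × V') where
  eq_of_smul_eq_smul := by
    intro r s h
    ext1
    exact LinearMap.ext h


section Emb

variable {U W : Type*} [AddCommGroup U] [Module ℚ U] [AddCommGroup W] [Module ℚ W]

theorem emb_mul {ι : U →ₗ[ℚ] W} {ρ : W →ₗ[ℚ] U} (hρι : ρ ∘ₗ ι = LinearMap.id)
    (f g : Module.End ℚ U) :
    (show Module.End ℚ W from ι ∘ₗ f ∘ₗ ρ) * (ι ∘ₗ g ∘ₗ ρ) = ι ∘ₗ (f * g) ∘ₗ ρ := by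
  ext w
  have := LinearMap.congr_fun hρι (g (ρ w))
  simp only [LinearMap.comp_apply, LinearMap.id_apply] at this
  simp only [Module.End.mul_apply, LinearMap.comp_apply, this]

theorem emb_pow_mul {ι : U →ₗ[ℚ] W} {ρ : W →ₗ[ℚ] U} (hρι : ρ ∘ₗ ι = LinearMap.id)
    (f g : Module.End ℚ U) (k : ℕ) :
    (show Module.End ℚ W from ι ∘ₗ f ∘ₗ ρ) ^ k * (ι ∘ₗ g ∘ₗ ρ) = ι ∘ₗ (f ^ k * g) ∘ₗ ρ := by
  induction k with
  | zero => simp
  | succ k ih => rw [pow_succ', mul_assoc, ih, emb_mul hρι, ← mul_assoc, ← pow_succ']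

theorem emb_pow_apply {ι : U →ₗ[ℚ] W} {ρ : W →ₗ[ℚ] U} (hρι : ρ ∘ₗ ι = LinearMap.id)
    (f : Module.End ℚ U) (k : ℕ) (x : U) :
    ((show Module.End ℚ W from ι ∘ₗ f ∘ₗ ρ) ^ k) (ι x) = ι ((f ^ k) x) := by
  have hρι' : ∀ x, ρ (ι x) = x := fun x => LinearMap.congr_fun hρι x
  induction k with
  | zero => simp
  | succ k ih =>
    rw [pow_succ', Module.End.mul_apply, ih, pow_succ', Module.End.mul_apply]
    simp only [LinearMap.comp_apply, hρι']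

end Emb

/-- The operator `θ` of a datum, extended by zero. -/
noncomputable def theta {U : Type*} [AddCommGroup U] [Module ℚ U] [FiniteDimensional ℚ U]
    (Y : HL d U) (j : ℕ) : Module.End ℚ U :=
  if h : j ≤ d then Classical.choose (Y.exists_theta j h) else 0

theorem theta_spec {U : Type*} [AddCommGroup U] [Module ℚ U] [FiniteDimensional ℚ U]
    (Y : HL d U) (j : ℕ) (h : j ≤ d) :
    Y.IsHodge Y (Y.theta j) ∧ Y.theta j * (Y.lef ^ (d - j) * Y.pr j) = Y.pr j ∧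
      Y.lef ^ (d - j) * Y.theta j = Y.pr (2 * d - j) ∧ Y.pr j * Y.theta j = Y.theta j ∧
      Y.theta j * Y.pr (2 * d - j) = Y.theta j := by
  have h1 := Classical.choose_spec (Y.exists_theta j h)
  have h2 : Y.theta j = Classical.choose (Y.exists_theta j h) := by
    unfold theta
    rw [dif_pos h]
  rw [← h2] at h1
  exact h1

theorem isHodge_theta {U : Type*} [AddCommGroup U] [Module ℚ U] [FiniteDimensional ℚ U]
    (Y : HL d U) (j : ℕ) : Y.IsHodge Y (Y.theta j) := by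
  by_cases h : j ≤ d
  · exact (Y.theta_spec j h).1
  · have h2 : Y.theta j = 0 := by
      unfold theta
      rw [dif_neg h]
    rw [h2]
    exact Y.isHodge_zero Y

/-- A package from a Hodge-Lefschetz datum which is a direct summand. -/
noncomputable def mkPkg {U : Type*} [AddCommGroup U] [Module ℚ U] [FiniteDimensional ℚ U]
    (Y : HL d U) {W : Type*} [AddCommGroup W] [Module ℚ W]
    (R : Subalgebra ℚ (Module.End ℚ W)) (q : W →+ W →+ ℝ)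
    (ι : U →ₗ[ℚ] W) (ρ : W →ₗ[ℚ] U) (hρι : ρ ∘ₗ ι = LinearMap.id)
    (hq : ∀ x w, q (ι x) w = Y.qf x (ρ w)) (hq' : ∀ w x, q w (ι x) = Y.qf (ρ w) x)
    (hmem : ∀ f : U →ₗ[ℚ] U, Y.IsHodge Y f → ι ∘ₗ f ∘ₗ ρ ∈ R) : Pkg R W q d where
  π j := ⟨ι ∘ₗ Y.pr j ∘ₗ ρ, hmem _ (Y.isHodge_pr j)⟩
  L := ⟨ι ∘ₗ Y.lef ∘ₗ ρ, hmem _ Y.isHodge_lef⟩
  θ j := ⟨ι ∘ₗ Y.theta j ∘ₗ ρ, hmem _ (Y.isHodge_theta j)⟩
  π_self i := by
    ext1
    change (show Module.End ℚ W from ι ∘ₗ Y.pr i ∘ₗ ρ) * (ι ∘ₗ Y.pr i ∘ₗ ρ) = ι ∘ₗ Y.pr i ∘ₗ ρ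
    rw [emb_mul hρι, Y.pr_self]
  π_ne i j h := by
    ext1
    change (show Module.End ℚ W from ι ∘ₗ Y.pr i ∘ₗ ρ) * (ι ∘ₗ Y.pr j ∘ₗ ρ) = 0
    rw [emb_mul hρι, Y.pr_ne i j h, LinearMap.zero_comp, LinearMap.comp_zero]
  π_top j h := by
    ext1
    change ι ∘ₗ Y.pr j ∘ₗ ρ = 0
    rw [Y.pr_top j h, LinearMap.zero_comp, LinearMap.comp_zero]
  L_π j := by
    ext1
    change (show Module.End ℚ W from ι ∘ₗ Y.lef ∘ₗ ρ) * (ι ∘ₗ Y.pr j ∘ₗ ρ) =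
      (show Module.End ℚ W from ι ∘ₗ Y.pr (j + 2) ∘ₗ ρ) * (ι ∘ₗ Y.lef ∘ₗ ρ)
    rw [emb_mul hρι, emb_mul hρι, Y.lef_pr]
  θ_L j h := by
    ext1
    change (show Module.End ℚ W from ι ∘ₗ Y.theta j ∘ₗ ρ) *
      ((show Module.End ℚ W from ι ∘ₗ Y.lef ∘ₗ ρ) ^ (d - j) * (ι ∘ₗ Y.pr j ∘ₗ ρ)) =
      ι ∘ₗ Y.pr j ∘ₗ ρ
    rw [emb_pow_mul hρι, emb_mul hρι, (Y.theta_spec j h).2.1]
  L_θ j h := by
    ext1
    change (show Module.End ℚ W from ι ∘ₗ Y.lef ∘ₗ ρ) ^ (d - j) * (ι ∘ₗ Y.theta j ∘ₗ ρ) =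
      ι ∘ₗ Y.pr (2 * d - j) ∘ₗ ρ
    rw [emb_pow_mul hρι, (Y.theta_spec j h).2.2.1]
  π_θ j h := by
    ext1
    change (show Module.End ℚ W from ι ∘ₗ Y.pr j ∘ₗ ρ) * (ι ∘ₗ Y.theta j ∘ₗ ρ) =
      ι ∘ₗ Y.theta j ∘ₗ ρ
    rw [emb_mul hρι, (Y.theta_spec j h).2.2.2.1]
  θ_π j h := by
    ext1
    change (show Module.End ℚ W from ι ∘ₗ Y.theta j ∘ₗ ρ) * (ι ∘ₗ Y.pr (2 * d - j) ∘ₗ ρ) =
      ι ∘ₗ Y.theta j ∘ₗ ρ
    rw [emb_mul hρι, (Y.theta_spec j h).2.2.2.2]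
  q_π i hi x y := by
    change q (ι (Y.pr i (ρ x))) y = q x (ι (Y.pr (2 * d - i) (ρ y)))
    rw [hq, hq', Y.qf_pr i hi]
  q_L x y := by
    change q (ι (Y.lef (ρ x))) y = q x (ι (Y.lef (ρ y)))
    rw [hq, hq', Y.qf_lef]
  HR j hj x hx h0 hx0 := by
    have hρι' : ∀ x, ρ (ι x) = x := fun x => LinearMap.congr_fun hρι x
    change ι (Y.pr j (ρ x)) = x at hx
    change ((show Module.End ℚ W from ι ∘ₗ Y.lef ∘ₗ ρ) ^ (d - j + 1)) x = 0 at h0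
    change 0 < (-1 : ℝ) ^ (j * (j + 1) / 2) *
      q x (((show Module.End ℚ W from ι ∘ₗ Y.lef ∘ₗ ρ) ^ (d - j)) x)
    have hx1 : x = ι (ρ x) := by
      conv_rhs => rw [← hx]
      rw [hρι', hx]
    have hx2 : Y.pr j (ρ x) = ρ x := by
      conv_rhs => rw [← hx]
      rw [hρι']
    have hx3 : ρ x ≠ 0 := by
      intro h
      apply hx0
      rw [hx1, h, map_zero]
    rw [hx1, emb_pow_apply hρι] at h0
    have h1 : (Y.lef ^ (d - j + 1)) (ρ x) = 0 := by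
      have := congrArg ρ h0
      rwa [hρι', map_zero] at this
    have h2 := Y.qf_riemann j hj (ρ x) hx2 h1 hx3
    rw [hx1, emb_pow_apply hρι, hq, hρι']
    exact h2

end HL

end Pool.Agent.Lib.OrlovNef
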