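import Mathlib

/-!
# A projector onto a complement of `ker n ^ m + im n` inside `ker n ^ (m + 1)`
-/

set_option autoImplicit false

namespace Pool.Agent.Lib.OrlovNef

section Ring

variable {R : Type*} [Ring R]

/-- The projector onto the kernel of `n ^ m`, if `n ^ m * z * n ^ m = n ^ m`. -/
def kEl (n z : R) (m : ℕ) : R := 1 - z * n ^ m

/-- `n ^ (m + 1)` on the kernel of `n ^ (m + 2)`. -/
def aEl (n z₂ : R) (m : ℕ) : R := n ^ (m + 1) * kEl n z₂ (m + 2)

/-- `n ^ m` on the kernel of `n ^ (m + 1)` modulo the image of the previous operator. -/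
def wEl (n z₁ z₂ za : R) (m : ℕ) : R := (1 - aEl n z₂ m * za) * (n ^ m * kEl n z₁ (m + 1))

/-- The projector onto a complement of `ker n ^ m + im n` inside `ker n ^ (m + 1)`. -/
def gEl (n z₁ z₂ za zw : R) (m : ℕ) : R := kEl n z₁ (m + 1) * (zw * wEl n z₁ z₂ za m)

theorem pow_mul_kEl {n z : R} {m : ℕ} (h : n ^ m * z * n ^ m = n ^ m) : n ^ m * kEl n z m = 0 := by
  unfold kEl
  rw [mul_sub, mul_one, ← mul_assoc, h, sub_self]

theorem kEl_mul_kEl {n z : R} {m : ℕ} (h : n ^ m * z * n ^ m = n ^ m) :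
    kEl n z m * kEl n z m = kEl n z m := by
  conv_lhs => enter [1]; unfold kEl
  rw [sub_mul, one_mul, mul_assoc, pow_mul_kEl h, mul_zero, sub_zero]

theorem wEl_mul_kEl {n z₁ z₂ za : R} {m : ℕ}
    (h₁ : n ^ (m + 1) * z₁ * n ^ (m + 1) = n ^ (m + 1)) :
    wEl n z₁ z₂ za m * kEl n z₁ (m + 1) = wEl n z₁ z₂ za m := by
  unfold wEl
  rw [mul_assoc, mul_assoc, kEl_mul_kEl h₁]

theorem wEl_mul_gEl {n z₁ z₂ za zw : R} {m : ℕ}
    (h₁ : n ^ (m + 1) * z₁ * n ^ (m + 1) = n ^ (m + 1))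
    (hw : wEl n z₁ z₂ za m * zw * wEl n z₁ z₂ za m = wEl n z₁ z₂ za m) :
    wEl n z₁ z₂ za m * gEl n z₁ z₂ za zw m = wEl n z₁ z₂ za m := by
  unfold gEl
  rw [← mul_assoc, wEl_mul_kEl h₁, ← mul_assoc, hw]

theorem gEl_mul_gEl {n z₁ z₂ za zw : R} {m : ℕ}
    (h₁ : n ^ (m + 1) * z₁ * n ^ (m + 1) = n ^ (m + 1))
    (hw : wEl n z₁ z₂ za m * zw * wEl n z₁ z₂ za m = wEl n z₁ z₂ za m) :
    gEl n z₁ z₂ za zw m * gEl n z₁ z₂ za zw m = gEl n z₁ z₂ za zw m := by
  conv_lhs => enter [1]; unfold gEl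
  rw [mul_assoc, mul_assoc, wEl_mul_gEl h₁ hw]
  rfl

theorem pow_mul_gEl {n z₁ z₂ za zw : R} {m : ℕ}
    (h₁ : n ^ (m + 1) * z₁ * n ^ (m + 1) = n ^ (m + 1)) :
    n ^ (m + 1) * gEl n z₁ z₂ za zw m = 0 := by
  unfold gEl
  rw [← mul_assoc, pow_mul_kEl h₁, zero_mul]

/-- The elements of `ker n ^ m + im n`. -/
def Low {E : Type*} [AddCommGroup E] [Module R E] (n : R) (m : ℕ) (x : E) : Prop :=
  ∃ y z : E, n ^ m • y = 0 ∧ x = y + n • z

theorem gEl_smul_eq_zero_iff {E : Type*} [AddCommGroup E] [Module R E] {n z₁ z₂ za zw : R} {m : ℕ}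
    (h₁ : n ^ (m + 1) * z₁ * n ^ (m + 1) = n ^ (m + 1))
    (ha : aEl n z₂ m * za * aEl n z₂ m = aEl n z₂ m)
    (hw : wEl n z₁ z₂ za m * zw * wEl n z₁ z₂ za m = wEl n z₁ z₂ za m)
    (x : E) (hx : n ^ (m + 1) • x = 0) :
    gEl n z₁ z₂ za zw m • x = 0 ↔ Low n m x := by
  have hk : ∀ (z : R) (k : ℕ) (y : E), n ^ k • y = 0 → kEl n z k • y = y := by
    intro z k y hy
    unfold kEl
    rw [sub_smul, one_smul, mul_smul, hy, smul_zero, sub_zero]
  constructor
  · intro hg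
    have h3 : wEl n z₁ z₂ za m • x = 0 := by
      rw [← wEl_mul_gEl h₁ hw, mul_smul, hg, smul_zero]
    unfold wEl at h3
    rw [mul_smul, mul_smul, hk z₁ (m + 1) x hx, sub_smul, one_smul, sub_eq_zero, mul_smul] at h3
    -- `n ^ m x = n ^ (m + 1) b x`
    set b : E := kEl n z₂ (m + 2) • (za • (n ^ m • x)) with hb
    have h4 : n ^ m • x = n ^ (m + 1) • b := by
      rw [h3, hb]
      unfold aEl
      rw [mul_smul]
    refine ⟨x - n • b, b, ?_, by abel⟩
    rw [smul_sub, ← mul_smul, ← pow_succ, h4, sub_self]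
  · rintro ⟨y, z, hy, rfl⟩
    have hy' : n ^ (m + 1) • y = 0 := by rw [pow_succ', mul_smul, hy, smul_zero]
    have hz : n ^ (m + 2) • z = 0 := by
      rw [smul_add, hy', zero_add, ← mul_smul, ← pow_succ] at hx
      exact hx
    have h3 : wEl n z₁ z₂ za m • (y + n • z) = 0 := by
      unfold wEl
      rw [mul_smul, mul_smul, hk z₁ (m + 1) _ hx, smul_add, hy, zero_add, ← mul_smul _ n,
        ← pow_succ]
      have h4 : n ^ (m + 1) • z = aEl n z₂ m • z := by
        unfold aEl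
        rw [mul_smul, hk z₂ (m + 2) z hz]
      rw [h4, ← mul_smul, sub_mul, one_mul, ha, sub_self, zero_smul]
    unfold gEl
    rw [mul_smul, mul_smul, h3, smul_zero, smul_zero]

theorem Low.add {E : Type*} [AddCommGroup E] [Module R E] {n : R} {m : ℕ} {x y : E}
    (hx : Low n m x) (hy : Low n m y) : Low n m (x + y) := by
  obtain ⟨a, b, h1, rfl⟩ := hx
  obtain ⟨a', b', h1', rfl⟩ := hy
  exact ⟨a + a', b + b', by rw [smul_add, h1, h1', add_zero], by rw [smul_add]; abel⟩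

theorem Low.neg {E : Type*} [AddCommGroup E] [Module R E] {n : R} {m : ℕ} {x : E}
    (hx : Low n m x) : Low n m (-x) := by
  obtain ⟨a, b, h1, rfl⟩ := hx
  exact ⟨-a, -b, by rw [smul_neg, h1, neg_zero], by rw [smul_neg]; abel⟩

theorem Low.sub {E : Type*} [AddCommGroup E] [Module R E] {n : R} {m : ℕ} {x y : E}
    (hx : Low n m x) (hy : Low n m y) : Low n m (x - y) := by
  rw [sub_eq_add_neg]
  exact hx.add hy.neg

theorem Low.zero {E : Type*} [AddCommGroup E] [Module R E] (n : R) (m : ℕ) :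
    Low n m (0 : E) := ⟨0, 0, by simp, by simp⟩

end Ring

/-- Low elements are preserved by maps that intertwine the operators. -/
theorem Low.map {R R' : Type*} [Ring R] [Ring R'] {E E' : Type*} [AddCommGroup E] [Module R E]
    [AddCommGroup E'] [Module R' E'] {n : R} {n' : R'} {m : ℕ} (f : E →+ E')
    (hf : ∀ x, f (n • x) = n' • f x) {x : E} (hx : Low n m x) : Low n' m (f x) := by
  have hp : ∀ k x, f (n ^ k • x) = n' ^ k • f x := by
    intro k
    induction k with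
    | zero => intro x; simp
    | succ k ih => intro x; rw [pow_succ', mul_smul, hf, ih, ← mul_smul, ← pow_succ']
  obtain ⟨a, b, h1, rfl⟩ := hx
  refine ⟨f a, f b, ?_, by rw [map_add, hf]⟩
  rw [← hp, h1, map_zero]

end Pool.Agent.Lib.OrlovNef
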