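import Pool.Agent.Lib.OrlovNef.Base
import Pool.Agent.Lib.OrlovNef.Low

/-!
# The relative hard Lefschetz theorem and the relative Hodge-Riemann relations
-/

set_option autoImplicit false

open scoped TensorProduct

namespace Pool.Agent.Lib.OrlovNef

open Growth

theorem Growth.Lim.sum' {ι : Type*} {n : ℤ} (s : Finset ι) (f : ι → RatFunc ℝ) (c : ι → ℝ)
    (h : ∀ i ∈ s, Lim n (f i) (c i)) : Lim n (∑ i ∈ s, f i) (∑ i ∈ s, c i) := by
  classical
  induction s using Finset.induction_on with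
  | empty => exact lim_zero n
  | insert i s hi ih =>
    rw [Finset.sum_insert hi, Finset.sum_insert hi]
    exact (h i (Finset.mem_insert_self i s)).add
      (ih (fun j hj => h j (Finset.mem_insert_of_mem hj)))

theorem lim_X_pow (k : ℕ) : Lim k (RatFunc.X ^ k) 1 := by
  induction k with
  | zero =>
    have := lim_const 1
    rwa [map_one] at this
  | succ k ih =>
    have := ih.mul lim_X
    rw [mul_one] at this
    rw [pow_succ]
    push_cast
    exact this

theorem lim_natCast (k : ℕ) : Lim 0 (k : RatFunc ℝ) k := by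
  have := lim_const (k : ℝ)
  rwa [map_natCast] at this

namespace RealNef

variable {V : Type*} [AddCommGroup V] [Module ℝ V] [FiniteDimensional ℝ V] {d : ℕ}
  (R : RealNef V d)

/-- Constant vectors. -/
noncomputable def cc (v : V) : RatFunc ℝ ⊗[ℝ] V := 1 ⊗ₜ v

omit [FiniteDimensional ℝ V] in
theorem cc_add (v w : V) : cc (v + w) = cc v + cc w := TensorProduct.tmul_add _ _ _

omit [FiniteDimensional ℝ V] in
theorem bc_pow_cc (T : Module.End ℝ V) (k : ℕ) (v : V) :
    ((T.baseChange (RatFunc ℝ)) ^ k) (cc v) = cc ((T ^ k) v) := by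
  induction k with
  | zero => rfl
  | succ k ih => rw [pow_succ', pow_succ', Module.End.mul_apply, ih, Module.End.mul_apply]; rfl

theorem hν : ∃ c, Lim (-2) (Lefs.tr (R.lefs.Ns R.nn * R.nn)) c := by
  refine R.diff.exists_lim_nu R.isNef ((Module.Free.chooseBasis ℝ V).baseChange (RatFunc ℝ)) ?_
  intro i
  rw [Module.Basis.baseChange_apply]
  exact dE_const _

theorem bdd_cc {v : V} {m : ℕ} (h : (R.N ^ (m + 1)) v = 0) : R.lefs.Bdd m (cc v) := by
  refine R.diff.bdd R.isNef R.hν (dE_const v) ?_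
  change ((R.N.baseChange (RatFunc ℝ)) ^ (m + 1)) (cc v) = 0
  rw [bc_pow_cc, h]
  exact TensorProduct.tmul_zero _ _

theorem bdd_low {v : V} {m : ℕ} (h : (R.N ^ (m + 1)) v = 0) (hl : Low R.N m v) :
    R.lefs.Bdd ((m : ℤ) - 1) (cc v) := by
  obtain ⟨y, z, hy, hv⟩ := hl
  change (R.N ^ m) y = 0 at hy
  change v = y + R.N z at hv
  rw [hv, cc_add]
  apply Lefs.Bdd.add
  · rcases Nat.eq_zero_or_pos m with rfl | hm
    · rw [pow_zero, Module.End.one_apply] at hy
      rw [hy]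
      change R.lefs.Bdd _ ((1 : RatFunc ℝ) ⊗ₜ (0 : V))
      rw [TensorProduct.tmul_zero]
      exact Lefs.Bdd.zero _
    · obtain ⟨k, rfl⟩ : ∃ k, m = k + 1 := ⟨m - 1, by omega⟩
      have := R.bdd_cc hy
      rwa [show ((k + 1 : ℕ) : ℤ) - 1 = k by push_cast; ring]
  · have hz : (R.N ^ (m + 1 + 1)) z = 0 := by
      have h1 : (R.N ^ (m + 1)) y = 0 := by rw [pow_succ', Module.End.mul_apply, hy, map_zero]
      rw [hv, map_add, h1, zero_add, ← Module.End.mul_apply, ← pow_succ] at h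
      exact h
    have h2 := Lefs.Bdd.nef R.isNef R.hν (R.bdd_cc hz)
    rwa [show ((m + 1 : ℕ) : ℤ) - 2 = (m : ℤ) - 1 by push_cast; ring] at h2

omit [FiniteDimensional ℝ V] in
theorem N_pow_b (k : ℕ) (x y : V) : R.b ((R.N ^ k) x) y = R.b x ((R.N ^ k) y) := by
  induction k generalizing x y with
  | zero => rfl
  | succ k ih =>
    rw [pow_succ', Module.End.mul_apply, R.b_N, ih, ← Module.End.mul_apply, ← pow_succ, pow_succ']

theorem exists_pair {v : V} {m : ℕ} (hl : ¬ Low R.N m v) :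
    ∃ w, (R.N ^ (m + 1)) w = 0 ∧ R.b v ((R.N ^ m) w) ≠ 0 := by
  by_contra hcon
  push Not at hcon
  apply hl
  set T := R.N ^ (m + 1) with hT
  have hnd : R.b.Nondegenerate := by
    refine ⟨fun x hx => R.b_nondeg x hx, fun x hx => R.b_nondeg x (fun y => ?_)⟩
    rw [R.b_symm]
    exact hx y
  have hrefl : R.b.IsRefl := fun x y h => by rw [R.b_symm]; exact h
  have h1 : R.b.orthogonal (LinearMap.range T) = LinearMap.ker T := by
    ext w
    rw [LinearMap.BilinForm.mem_orthogonal_iff, LinearMap.mem_ker]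
    constructor
    · intro h
      apply R.b_nondeg
      intro y
      rw [hT, R.N_pow_b, ← hT, R.b_symm]
      exact h (T y) ⟨y, rfl⟩
    · rintro h _ ⟨y, rfl⟩
      change R.b (T y) w = 0
      rw [hT, R.N_pow_b, ← hT, h, map_zero]
  have h2 : (R.N ^ m) v ∈ R.b.orthogonal (LinearMap.ker T) := by
    rw [LinearMap.BilinForm.mem_orthogonal_iff]
    intro w hw
    change R.b w ((R.N ^ m) v) = 0
    rw [← R.N_pow_b, R.b_symm]
    exact hcon w hw
  rw [← h1, LinearMap.BilinForm.orthogonal_orthogonal hnd hrefl] at h2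
  obtain ⟨z, hz⟩ := h2
  refine ⟨v - R.N z, z, ?_, ?_⟩
  · change (R.N ^ m) (v - R.N z) = 0
    rw [map_sub, ← hz, ← Module.End.mul_apply, ← pow_succ, sub_self]
  · change v = v - R.N z + R.N z
    abel

theorem not_bdd {v : V} {m : ℕ} (hl : ¬ Low R.N m v) :
    ¬ R.lefs.Bdd ((m : ℤ) - 1) (cc v) := by
  rintro ⟨c, hc⟩
  obtain ⟨w, hw, hb⟩ := R.exists_pair hl
  obtain ⟨e, he⟩ := Lefs.Bdd.nef_pow R.isNef R.hν (R.bdd_cc hw) m
  have h1 : R.lefs.b (cc v) ((R.nn ^ m) (cc w)) =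
      algebraMap ℝ (RatFunc ℝ) (R.b v ((R.N ^ m) w)) := by
    have e1 : (R.nn ^ m) (cc w) = cc ((R.N ^ m) w) := bc_pow_cc _ _ _
    rw [e1]
    change R.b.baseChange (RatFunc ℝ) (1 ⊗ₜ v) (1 ⊗ₜ (R.N ^ m) w) = _
    rw [LinearMap.BilinForm.baseChange_tmul, mul_one, Algebra.algebraMap_eq_smul_one]
  have h2 := Lefs.b_sq_le (X := R.lefs) (cc v) ((R.nn ^ m) (cc w))
  rw [h1, pow_two] at h2
  have h3 := (hc.mul he).of_lt (show (m : ℤ) - 1 + (m - 2 * m) < 0 by omega)
  have h4 := (lim_const (R.b v ((R.N ^ m) w))).mul (lim_const (R.b v ((R.N ^ m) w)))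
  rw [zero_add] at h4
  have h5 := h4.le h3 h2
  have h6 : 0 < R.b v ((R.N ^ m) w) * R.b v ((R.N ^ m) w) := mul_self_pos.2 hb
  linarith

omit [FiniteDimensional ℝ V] in
/-- The binomial expansion. -/
theorem op_pow_cc (n : ℕ) (v : V) : (R.op RatFunc.X ^ n) (cc v) =
    ∑ k ∈ Finset.range (n + 1), ((n.choose k : ℕ) : RatFunc ℝ) • (RatFunc.X : RatFunc ℝ) ^ k •
      cc ((R.N ^ k) ((R.L ^ (n - k)) v)) := by
  have hcomm : Commute ((RatFunc.X : RatFunc ℝ) • R.N.baseChange (RatFunc ℝ))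
      (R.L.baseChange (RatFunc ℝ)) := by
    apply Commute.smul_left
    have h := congrArg (fun T => LinearMap.baseChange (RatFunc ℝ) T) R.N_L
    simp only [LinearMap.baseChange_mul] at h
    exact h
  have e : R.op (RatFunc.X : RatFunc ℝ) = (RatFunc.X : RatFunc ℝ) • R.N.baseChange (RatFunc ℝ) +
      R.L.baseChange (RatFunc ℝ) := add_comm _ _
  rw [e, hcomm.add_pow, LinearMap.sum_apply]
  refine Finset.sum_congr rfl (fun k _ => ?_)
  rw [Module.End.mul_apply, Module.End.natCast_apply, map_nsmul, Module.End.mul_apply, bc_pow_cc,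
    smul_pow, LinearMap.smul_apply, bc_pow_cc, Nat.cast_smul_eq_nsmul]

theorem bdd_pow {v : V} {m : ℕ} (h : (R.N ^ (m + 1)) v = 0) (n : ℕ)
    (hl : ∀ k, k ≤ m → k ≤ n → Low R.N m ((R.L ^ (n - k)) v)) :
    R.lefs.Bdd ((m : ℤ) - 1) ((R.lefs.L ^ n) (cc v)) := by
  have hcom : ∀ a b x, (R.N ^ a) ((R.L ^ b) x) = (R.L ^ b) ((R.N ^ a) x) := by
    intro a b x
    have hc : Commute (R.N ^ a) (R.L ^ b) := (Commute.pow_pow (show Commute R.N R.L from R.N_L) a b)
    exact LinearMap.congr_fun hc x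
  change R.lefs.Bdd _ ((R.op RatFunc.X ^ n) (cc v))
  rw [op_pow_cc]
  apply Lefs.Bdd.sum
  intro k hk
  rw [Finset.mem_range] at hk
  rcases Nat.lt_or_ge m k with h1 | h1
  · obtain ⟨i, rfl⟩ : ∃ i, k = i + (m + 1) := ⟨k - (m + 1), by omega⟩
    have e : cc ((R.N ^ (i + (m + 1))) ((R.L ^ (n - (i + (m + 1)))) v)) = 0 := by
      rw [hcom, pow_add, Module.End.mul_apply, h, map_zero, map_zero]
      exact TensorProduct.tmul_zero _ _
    rw [e, smul_zero, smul_zero]
    exact Lefs.Bdd.zero _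
  · have h2 : R.lefs.Bdd ((m : ℤ) - 1) (cc ((R.L ^ (n - k)) v)) := by
      apply R.bdd_low _ (hl k h1 (by omega))
      rw [hcom, h, map_zero]
    have h3 := Lefs.Bdd.nef_pow R.isNef R.hν h2 k
    have e1 : (R.nn ^ k) (cc ((R.L ^ (n - k)) v)) = cc ((R.N ^ k) ((R.L ^ (n - k)) v)) :=
      bc_pow_cc _ _ _
    rw [e1] at h3
    have h4 := (h3.smul (lim_X_pow k)).smul (lim_natCast (n.choose k))
    rwa [show (m : ℤ) - 1 - 2 * k + 2 * k + 2 * 0 = m - 1 by ring] at h4

theorem low_L_pow {v : V} {m : ℕ} (h : Low R.N m v) (k : ℕ) : Low R.N m ((R.L ^ k) v) := by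
  refine Low.map (n := R.N) (n' := R.N) (R.L ^ k).toAddMonoidHom (fun x => ?_) h
  change (R.L ^ k) (R.N x) = R.N ((R.L ^ k) x)
  have hc : Commute R.N (R.L ^ k) := Commute.pow_right (show Commute R.N R.L from R.N_L) k
  exact (LinearMap.congr_fun hc x).symm

/-- The relative hard Lefschetz theorem. -/
theorem rel_hard {m j : ℕ} (hj : j + m ≤ d) {v : V} (hv : R.pr j v = v)
    (h : (R.N ^ (m + 1)) v = 0) (hl : Low R.N m ((R.L ^ (d - m - j)) v)) : Low R.N m v := by
  by_contra hcon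
  apply R.not_bdd hcon
  have hcv : R.lefs.pr j (cc v) = cc v := by
    change (R.pr j).baseChange (RatFunc ℝ) (1 ⊗ₜ v) = _
    rw [bc_apply, hv]
    rfl
  obtain ⟨c, hc⟩ := R.bdd_pow h (d - j) (fun k hk _ => by
    have := R.low_L_pow hl (m - k)
    rwa [← Module.End.mul_apply, ← pow_add, show m - k + (d - m - j) = d - j - k by omega] at this)
  obtain ⟨e, -, he⟩ := hc.of_le (R.lefs.h_nonneg _) (Lefs.h_le_pow (by omega) hcv)
  exact ⟨e, he⟩

/-- The relative Hodge-Riemann relations. -/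
theorem rel_riemann {m j : ℕ} (hj : j + m ≤ d) {v : V} (hv : R.pr j v = v)
    (h : (R.N ^ (m + 1)) v = 0) (hl : Low R.N m ((R.L ^ (d - m - j + 1)) v))
    (hne : ¬ Low R.N m v) :
    0 < sgn ℝ j * R.b v ((R.N ^ m) ((R.L ^ (d - m - j)) v)) := by
  have hcv : R.lefs.pr j (cc v) = cc v := by
    change (R.pr j).baseChange (RatFunc ℝ) (1 ⊗ₜ v) = _
    rw [bc_apply, hv]
    rfl
  have hcom : ∀ a b x, (R.N ^ a) ((R.L ^ b) x) = (R.L ^ b) ((R.N ^ a) x) := by
    intro a b x
    have hc : Commute (R.N ^ a) (R.L ^ b) := (Commute.pow_pow (show Commute R.N R.L from R.N_L) a b)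
    exact LinearMap.congr_fun hc x
  -- the norm of `v`
  obtain ⟨e, he⟩ := R.bdd_cc h
  have he0 : 0 ≤ e := (lim_zero _).le he (R.lefs.h_nonneg _)
  have he1 : e ≠ 0 := by
    rintro rfl
    obtain ⟨c, hc⟩ := he.sub_one
    exact R.not_bdd hne ⟨c, hc⟩
  have hepos : 0 < e := lt_of_le_of_ne he0 (Ne.symm he1)
  -- the norm of `L ^ (d - j + 1) v`
  obtain ⟨c, hc⟩ := R.bdd_pow h (d - j + 1) (fun k hk _ => by
    have := R.low_L_pow hl (m - k)
    rwa [← Module.End.mul_apply, ← pow_add,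
      show m - k + (d - m - j + 1) = d - j + 1 - k by omega] at this)
  have hc0 := Growth.Lim.two_mul' (hc.of_lt (show (m : ℤ) - 1 < m by omega))
  have hleft := Growth.Lim.sub' he hc0
  -- the form
  have hform : Lim m (R.lefs.b (cc v) ((R.lefs.L ^ (d - j)) (cc v)))
      (((d - j).choose m : ℕ) * R.b v ((R.N ^ m) ((R.L ^ (d - j - m)) v))) := by
    have e1 : R.lefs.b (cc v) ((R.lefs.L ^ (d - j)) (cc v)) =
        ∑ k ∈ Finset.range (d - j + 1), (((d - j).choose k : ℕ) : RatFunc ℝ) *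
          ((RatFunc.X : RatFunc ℝ) ^ k *
            algebraMap ℝ (RatFunc ℝ) (R.b v ((R.N ^ k) ((R.L ^ (d - j - k)) v)))) := by
      change R.b.baseChange (RatFunc ℝ) (cc v) ((R.op RatFunc.X ^ (d - j)) (cc v)) = _
      rw [op_pow_cc, map_sum]
      refine Finset.sum_congr rfl (fun k _ => ?_)
      rw [map_smul, map_smul, smul_eq_mul, smul_eq_mul]
      congr 2
      change R.b.baseChange (RatFunc ℝ) (1 ⊗ₜ v) (1 ⊗ₜ _) = _
      rw [LinearMap.BilinForm.baseChange_tmul, mul_one, Algebra.algebraMap_eq_smul_one]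
    have e2 : (((d - j).choose m : ℕ) : ℝ) * R.b v ((R.N ^ m) ((R.L ^ (d - j - m)) v)) =
        ∑ k ∈ Finset.range (d - j + 1), if k = m then
          (((d - j).choose m : ℕ) : ℝ) * R.b v ((R.N ^ m) ((R.L ^ (d - j - m)) v)) else 0 := by
      rw [Finset.sum_ite_eq', if_pos (Finset.mem_range.2 (by omega))]
    rw [e1, e2]
    apply Growth.Lim.sum'
    intro k hk
    rw [Finset.mem_range] at hk
    have h1 := (lim_natCast ((d - j).choose k)).mul ((lim_X_pow k).mul
      (lim_const (R.b v ((R.N ^ k) ((R.L ^ (d - j - k)) v)))))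
    rw [show (0 : ℤ) + (k + 0) = k by ring] at h1
    split_ifs with hkm
    · subst hkm
      rwa [one_mul] at h1
    · rcases Nat.lt_or_ge m k with h2 | h2
      · have e3 : R.b v ((R.N ^ k) ((R.L ^ (d - j - k)) v)) = 0 := by
          obtain ⟨i, rfl⟩ : ∃ i, k = i + (m + 1) := ⟨k - (m + 1), by omega⟩
          rw [hcom, pow_add, Module.End.mul_apply, h, map_zero, map_zero, map_zero]
        rw [e3, map_zero, mul_zero, mul_zero]
        exact lim_zero _
      · exact h1.of_lt (by omega)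
  have hsg : ∃ s : ℝ, algebraMap ℝ (RatFunc ℝ) s = sgn (RatFunc ℝ) j ∧ s = sgn ℝ j := by
    refine ⟨sgn ℝ j, ?_, rfl⟩
    unfold sgn
    rw [map_pow, map_neg, map_one]
  obtain ⟨s, hs1, hs2⟩ := hsg
  have hright := Growth.Lim.const_mul' s hform
  rw [hs1] at hright
  have h1 := hleft.le hright (Lefs.h_sub_le (by omega) hcv)
  rw [mul_zero, sub_zero] at h1
  have h2 : 0 < (((d - j).choose m : ℕ) : ℝ) * (s * R.b v ((R.N ^ m) ((R.L ^ (d - j - m)) v))) := by
    have : (((d - j).choose m : ℕ) : ℝ) * (s * R.b v ((R.N ^ m) ((R.L ^ (d - j - m)) v))) =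
        s * ((((d - j).choose m : ℕ) : ℝ) * R.b v ((R.N ^ m) ((R.L ^ (d - j - m)) v))) := by ring
    rw [this]
    linarith
  have h3 := pos_of_mul_pos_right h2 (by positivity)
  rw [hs2, show d - j - m = d - m - j by omega] at h3
  exact h3

end RealNef

end Pool.Agent.Lib.OrlovNef
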