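import Pool.Agent.Lib.OrlovNef.Proj
import Pool.Agent.Lib.OrlovNef.Rel

/-!
# The relative theorems for nef classes on Hodge-Lefschetz data
-/

set_option autoImplicit false

open scoped TensorProduct ComplexOrder

namespace Pool.Agent.Lib.OrlovNef

open Pool.Agent.Lib.OrlovSig

section Conj

variable {V : Type*} [AddCommGroup V] [Module ℚ V]

theorem conj_smul' (a : ℂ) (x : ℂ ⊗[ℚ] V) : conj V (a • x) = (starRingEnd ℂ a) • conj V x := by
  induction x using TensorProduct.induction_on with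
  | zero => simp
  | tmul c v =>
    rw [TensorProduct.smul_tmul']
    change (starRingEnd ℂ (a * c)) ⊗ₜ[ℚ] v = starRingEnd ℂ a • ((starRingEnd ℂ c) ⊗ₜ[ℚ] v)
    rw [TensorProduct.smul_tmul', map_mul, smul_eq_mul]
  | add u v hu hv => rw [smul_add, map_add, map_add, smul_add, hu, hv]

theorem conj_conj' (x : ℂ ⊗[ℚ] V) : conj V (conj V x) = x := by
  induction x using TensorProduct.induction_on with
  | zero => simp
  | tmul c v =>
    change (starRingEnd ℂ (starRingEnd ℂ c)) ⊗ₜ[ℚ] v = _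
    rw [Complex.conj_conj]
  | add u v hu hv => rw [map_add, map_add, hu, hv]

theorem conj_bc (T : Module.End ℚ V) (x : ℂ ⊗[ℚ] V) :
    conj V (T.baseChange ℂ x) = T.baseChange ℂ (conj V x) := by
  induction x using TensorProduct.induction_on with
  | zero => simp
  | tmul c v => rfl
  | add u v hu hv => rw [map_add, map_add, map_add, map_add, hu, hv]

theorem pairC_conj (B : LinearMap.BilinForm ℚ V) (x y : ℂ ⊗[ℚ] V) :
    B.baseChange ℂ (conj V x) (conj V y) = starRingEnd ℂ (B.baseChange ℂ x y) := by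
  induction x using TensorProduct.induction_on with
  | zero => simp
  | tmul a v =>
    induction y using TensorProduct.induction_on with
    | zero => simp
    | tmul c w =>
      change B.baseChange ℂ ((starRingEnd ℂ a) ⊗ₜ[ℚ] v) ((starRingEnd ℂ c) ⊗ₜ[ℚ] w) = _
      rw [LinearMap.BilinForm.baseChange_tmul, LinearMap.BilinForm.baseChange_tmul, Rat.smul_def,
        Rat.smul_def, map_mul, map_mul, map_ratCast]
    | add u v hu hv => simp only [map_add, hu, hv]
  | add u v hu hv => simp only [map_add, LinearMap.add_apply, hu, hv]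

theorem real_smul' (a : ℝ) (x : ℂ ⊗[ℚ] V) : a • x = (a : ℂ) • x := (Complex.coe_smul a x).symm

end Conj

namespace HL

variable {d : ℕ} {V : Type*} [AddCommGroup V] [Module ℚ V]

theorem conj_weil (X : HL d V) (x : ℂ ⊗[ℚ] V) : conj V (X.weil x) = X.weil (conj V x) := by
  have h1 : ∀ p q y, conj V (X.weil (X.hp p q y)) = X.weil (conj V (X.hp p q y)) := by
    intro p q y
    rw [X.weil_hp, conj_smul', ← X.hp_conj, X.weil_hp]
    congr 1
    rw [map_mul, map_pow, map_pow, map_neg, Complex.conj_I, neg_neg, mul_comm]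
  conv_lhs => rw [← X.sum_prC x]
  conv_rhs => rw [← X.sum_prC x]
  simp only [map_sum]
  refine Finset.sum_congr rfl (fun j _ => ?_)
  rw [← X.hp_sum j, LinearMap.sum_apply]
  simp only [map_sum]
  exact Finset.sum_congr rfl (fun p _ => h1 _ _ _)

theorem weil_weil (X : HL d V) (x : ℂ ⊗[ℚ] V) :
    X.weil (X.weil (X.weil (X.weil x))) = x := by
  have h : X.weil ∘ₗ X.weil ∘ₗ X.weil ∘ₗ X.weil = LinearMap.id := by
    apply X.ext_hp
    intro p q y
    simp only [LinearMap.comp_apply, LinearMap.id_apply, X.weil_hp, map_smul, smul_smul]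
    have h1 : (-Complex.I) ^ 4 = 1 := by
      rw [neg_pow, Complex.I_pow_four]; norm_num
    have e0 : (Complex.I ^ p * (-Complex.I) ^ q) ^ 4 = 1 := by
      rw [mul_pow, ← pow_mul, ← pow_mul, mul_comm p 4, mul_comm q 4, pow_mul, pow_mul,
        Complex.I_pow_four, h1, one_pow, one_pow, mul_one]
    have e : Complex.I ^ p * (-Complex.I) ^ q * (Complex.I ^ p * (-Complex.I) ^ q) *
        (Complex.I ^ p * (-Complex.I) ^ q) * (Complex.I ^ p * (-Complex.I) ^ q) = 1 := by
      rw [← e0]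
      ring
    rw [e, one_smul]
  exact LinearMap.congr_fun h x

theorem weil_symm (X : HL d V) (x y : ℂ ⊗[ℚ] V) : X.pair.baseChange ℂ x (X.weil y) =
    X.pair.baseChange ℂ y (X.weil x) := by
  have h := X.ext_hp₂ (f := (X.pair.baseChange ℂ).compl₁₂ LinearMap.id X.weil)
    (g := ((X.pair.baseChange ℂ).compl₁₂ LinearMap.id X.weil).flip) ?_ x y
  · simpa only [LinearMap.compl₁₂_apply, LinearMap.id_apply, LinearMap.flip_apply] using h
  · intro p q x p' q' y
    simp only [LinearMap.compl₁₂_apply, LinearMap.id_apply, LinearMap.flip_apply, X.weil_hp,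
      map_smul, smul_eq_mul]
    by_cases hd : (p + p', q + q') = (d, d)
    · rw [X.pairC_comm p q p' q' x y]
      rw [Prod.mk.injEq] at hd
      have e1 : (-1 : ℂ) ^ ((p + q) * (p' + q')) = (-1) ^ (p + q) := by
        rcases Nat.even_or_odd (p + q) with he | ho
        · rw [he.neg_one_pow, (he.mul_right _).neg_one_pow]
        · have ho' : Odd (p' + q') := by
            have h2 : Even ((p + q) + (p' + q')) := ⟨d, by omega⟩
            rw [Nat.even_add'] at h2
            exact h2.1 ho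
          rw [ho.neg_one_pow, (ho.mul ho').neg_one_pow]
      have e2 : Complex.I ^ p' * (-Complex.I) ^ q' =
          Complex.I ^ p * (-Complex.I) ^ q * (-1) ^ (p + q) := by
        have h3 : (-1 : ℂ) = Complex.I ^ (2 : ℤ) := by
          rw [show ((2 : ℤ)) = ((2 : ℕ) : ℤ) from rfl, zpow_natCast, Complex.I_sq]
        rw [I_pow_mul_neg_I_pow, I_pow_mul_neg_I_pow, h3, ← zpow_natCast, ← zpow_mul,
          ← zpow_add₀ Complex.I_ne_zero]
        have h5 : Complex.I ^ (4 * (p : ℤ)) = 1 := by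
          rw [zpow_mul]
          have : Complex.I ^ (4 : ℤ) = 1 := by
            rw [show ((4 : ℤ)) = ((4 : ℕ) : ℤ) from rfl, zpow_natCast, Complex.I_pow_four]
          rw [this, one_zpow]
        have h6 : ((p : ℤ) - q + 2 * ((p + q : ℕ) : ℤ)) = ((p' : ℤ) - q') + 4 * (p : ℤ) := by
          push_cast
          omega
        rw [h6, zpow_add₀ Complex.I_ne_zero, h5, mul_one]
      rw [e1, e2]
      ring
    · have h0 := X.pair_hp p q p' q' x y hd
      have h1 : X.pair.baseChange ℂ (X.hp p' q' y) (X.hp p q x) = 0 := by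
        rw [X.pairC_comm, h0, mul_zero]
      rw [h0, h1, mul_zero, mul_zero]

/-- The hermitian form `⟨x, C y^-⟩`. -/
noncomputable def hf (X : HL d V) (x y : ℂ ⊗[ℚ] V) : ℂ :=
  X.pair.baseChange ℂ x (X.weil (conj V y))

theorem hf_symm (X : HL d V) (x y : ℂ ⊗[ℚ] V) : X.hf y x = starRingEnd ℂ (X.hf x y) := by
  unfold hf
  rw [X.weil_symm x (conj V y), ← pairC_conj, conj_conj', X.conj_weil]

theorem hf_add_left (X : HL d V) (x y z : ℂ ⊗[ℚ] V) : X.hf (x + y) z = X.hf x z + X.hf y z := by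
  unfold hf
  rw [map_add, LinearMap.add_apply]

theorem hf_add_right (X : HL d V) (x y z : ℂ ⊗[ℚ] V) : X.hf x (y + z) = X.hf x y + X.hf x z := by
  unfold hf
  rw [map_add, map_add, map_add]

theorem hf_smul_left (X : HL d V) (a : ℂ) (x y : ℂ ⊗[ℚ] V) : X.hf (a • x) y = a * X.hf x y := by
  unfold hf
  rw [map_smul, LinearMap.smul_apply, smul_eq_mul]

theorem hf_smul_right (X : HL d V) (a : ℂ) (x y : ℂ ⊗[ℚ] V) :
    X.hf x (a • y) = starRingEnd ℂ a * X.hf x y := by
  unfold hf
  rw [conj_smul', map_smul, map_smul, smul_eq_mul]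

/-- The real part of the hermitian form. -/
noncomputable def rb (X : HL d V) : LinearMap.BilinForm ℝ (ℂ ⊗[ℚ] V) :=
  LinearMap.mk₂ ℝ (fun x y => (X.hf x y).re)
    (fun x y z => by rw [X.hf_add_left, Complex.add_re])
    (fun a x y => by
      rw [real_smul' a x, X.hf_smul_left, Complex.re_ofReal_mul, smul_eq_mul])
    (fun x y z => by rw [X.hf_add_right, Complex.add_re])
    (fun a x y => by
      rw [real_smul' a y, X.hf_smul_right, Complex.conj_ofReal, Complex.re_ofReal_mul,
        smul_eq_mul])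

theorem rb_apply (X : HL d V) (x y : ℂ ⊗[ℚ] V) : X.rb x y = (X.hf x y).re := rfl

theorem hf_adj (X : HL d V) {T U : Module.End ℚ V} (h : ∀ x y, X.pair (T x) y = X.pair x (U y))
    (hU : X.IsHodge X U) (x y : ℂ ⊗[ℚ] V) :
    X.hf (T.baseChange ℂ x) y = X.hf x (U.baseChange ℂ y) := by
  unfold hf
  have e := bilC_adj (B := X.pair) (B' := X.pair) (f1 := T) (f2 := LinearMap.id)
    (g1 := LinearMap.id) (g2 := U) (fun x y => h x y) x (X.weil (conj V y))
  rw [LinearMap.baseChange_id, LinearMap.id_apply, LinearMap.id_apply] at e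
  rw [e, hU.weil, conj_bc]

theorem rb_nondeg [FiniteDimensional ℚ V] (X : HL d V) (x : ℂ ⊗[ℚ] V)
    (h : ∀ y, X.rb x y = 0) : x = 0 := by
  have h1 : ∀ y, (X.hf y x).re = 0 := by
    intro y
    rw [X.hf_symm, Complex.conj_re]
    exact h y
  have h2 : ∀ y, X.hf y x = 0 := by
    intro y
    apply Complex.ext
    · exact h1 y
    · have h3 := h1 (Complex.I • y)
      rw [X.hf_smul_left, Complex.I_mul_re] at h3
      rw [Complex.zero_im]
      linarith
  have h3 : X.weil (conj V x) = 0 := X.pairC_nondeg _ (fun v => h2 (1 ⊗ₜ v))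
  have h4 : conj V x = 0 := by rw [← X.weil_weil (conj V x), h3, map_zero, map_zero, map_zero]
  rw [← conj_conj' x, h4, map_zero]

section Pos

variable {X : HL d V} (P : X.Nef) (t : ℝ)

/-- The operator `L + t N`. -/
noncomputable def Nef.lt : Module.End ℂ (ℂ ⊗[ℚ] V) :=
  X.lef.baseChange ℂ + (t : ℂ) • P.op.baseChange ℂ

theorem Nef.lt_hp (k p q : ℕ) (x : ℂ ⊗[ℚ] V) :
    ((P.lt t) ^ k) (X.hp p q x) = X.hp (p + k) (q + k) (((P.lt t) ^ k) x) := by
  induction k with
  | zero => rfl
  | succ k ih =>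
    rw [pow_succ', Module.End.mul_apply, ih, Module.End.mul_apply]
    unfold lt
    rw [LinearMap.add_apply, LinearMap.smul_apply, X.lef_hp, P.op_hp, ← map_smul, ← map_add]
    rfl

theorem Nef.conj_lt (k : ℕ) (x : ℂ ⊗[ℚ] V) :
    conj V (((P.lt t) ^ k) x) = ((P.lt t) ^ k) (conj V x) := by
  induction k with
  | zero => rfl
  | succ k ih =>
    rw [pow_succ', Module.End.mul_apply, Module.End.mul_apply, ← ih]
    unfold lt
    rw [LinearMap.add_apply, LinearMap.smul_apply, map_add, conj_smul', conj_bc, conj_bc,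
      Complex.conj_ofReal]
    rfl

theorem Nef.pos_lt (ht : 0 ≤ t) (j : ℕ) (hj : j ≤ d) (x : ℂ ⊗[ℚ] V)
    (hx : (X.pr j).baseChange ℂ x = x) (h0 : ((P.lt t) ^ (d - j + 1)) x = 0) (hx0 : x ≠ 0) :
    0 < sgn ℝ j * X.rb x (((P.lt t) ^ (d - j)) x) := by
  set M := P.lt t with hM
  set k := d - j with hk
  have hsum : ∑ p ∈ Finset.range (j + 1), X.hp p (j - p) x = x := by
    have h1 := LinearMap.congr_fun (X.hp_sum j) x
    rw [LinearMap.sum_apply] at h1
    rw [h1, hx]
  have hprim : ∀ p q, p + q = j → (M ^ (d - (p + q) + 1)) (X.hp p q x) = 0 := by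
    intro p q hpq
    rw [hpq, hM, P.lt_hp, ← hM, ← hk, h0, map_zero]
  set T : ℕ → ℂ := fun p => Complex.I ^ p * (-Complex.I) ^ (j - p) *
    (-1) ^ ((p + (j - p)) * (p + (j - p) - 1) / 2) *
      X.pair.baseChange ℂ (X.hp p (j - p) x) ((M ^ (d - (p + (j - p)))) (conj V (X.hp p (j - p) x)))
    with hT
  have hTpos : ∀ p ∈ Finset.range (j + 1), X.hp p (j - p) x ≠ 0 → 0 < (T p).re := by
    intro p hp hne
    rw [Finset.mem_range] at hp
    have h1 := P.riemann t ht p (j - p) (by omega) (X.hp p (j - p) x) (X.hp_self _ _ _) hne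
      (hprim p (j - p) (by omega))
    exact (Complex.lt_def.1 h1).1
  have hTnonneg : ∀ p ∈ Finset.range (j + 1), 0 ≤ (T p).re := by
    intro p hp
    by_cases hne : X.hp p (j - p) x = 0
    · have : T p = 0 := by rw [hT]; simp [hne]
      rw [this, Complex.zero_re]
    · exact (hTpos p hp hne).le
  have hex : ∃ p ∈ Finset.range (j + 1), X.hp p (j - p) x ≠ 0 := by
    by_contra hcon
    push Not at hcon
    apply hx0
    rw [← hsum]
    exact Finset.sum_eq_zero hcon
  have hpos : 0 < (∑ p ∈ Finset.range (j + 1), T p).re := by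
    rw [Complex.re_sum]
    obtain ⟨p, hp, hne⟩ := hex
    exact Finset.sum_pos' hTnonneg ⟨p, hp, hTpos p hp hne⟩
  have key : ((sgn ℝ j : ℝ) : ℂ) * X.hf x ((M ^ k) x) = ∑ p ∈ Finset.range (j + 1), T p := by
    have e0 : X.hf x ((M ^ k) x) = ∑ p ∈ Finset.range (j + 1), X.hf x ((M ^ k) (X.hp p (j - p) x)) := by
      conv_lhs => enter [3]; rw [← hsum]
      unfold hf
      simp only [map_sum]
    rw [e0, Finset.mul_sum]
    refine Finset.sum_congr rfl fun p hp => ?_
    rw [Finset.mem_range] at hp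
    -- only one component pairs
    have e5 : conj V (X.hp p (j - p) x) = X.hp (j - p) p (conj V x) := by
      rw [X.hp_conj]
    have e1 : X.hf x ((M ^ k) (X.hp p (j - p) x)) =
        (Complex.I ^ (j - p + k) * (-Complex.I) ^ (p + k)) *
          X.pair.baseChange ℂ x ((M ^ k) (conj V (X.hp p (j - p) x))) := by
      unfold hf
      rw [hM, P.conj_lt, e5, P.lt_hp, X.weil_hp, map_smul, smul_eq_mul]
    have e4 : X.pair.baseChange ℂ x ((M ^ k) (conj V (X.hp p (j - p) x))) =
        X.pair.baseChange ℂ (X.hp p (j - p) x) ((M ^ k) (conj V (X.hp p (j - p) x))) := by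
      have e8 : ∀ z, X.pair.baseChange ℂ x z =
          ∑ b ∈ Finset.range (j + 1), X.pair.baseChange ℂ (X.hp b (j - b) x) z := by
        intro z
        conv_lhs => rw [← hsum]
        rw [map_sum, LinearMap.sum_apply]
      rw [e8]
      apply Finset.sum_eq_single p
      · intro b hb hbp
        rw [Finset.mem_range] at hb
        rw [e5, hM, P.lt_hp]
        apply X.pair_hp
        intro h
        rw [Prod.mk.injEq] at h
        omega
      · intro h
        rw [Finset.mem_range] at h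
        omega
    have e7 : p + (j - p) = j := by omega
    rw [e1, e4, hT]
    simp only [e7]
    rw [← mul_assoc]
    congr 1
    -- scalars
    have s1 : j * (j + 1) / 2 = j * (j - 1) / 2 + j := by
      rcases j with _ | j
      · rfl
      · have : (j + 1) * (j + 1 + 1) = (j + 1) * (j + 1 - 1) + 2 * (j + 1) := by
          rw [Nat.add_sub_cancel]; ring
        rw [this, Nat.add_mul_div_left _ _ (by norm_num)]
    have s2 : ((sgn ℝ j : ℝ) : ℂ) = (-1) ^ (j * (j - 1) / 2) * (-1) ^ j := by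
      unfold sgn
      rw [s1, pow_add]; push_cast; ring
    have s3 : (-1 : ℂ) ^ j = (-1) ^ p * (-1) ^ (j - p) := by
      rw [← pow_add]; congr 1; omega
    have s4 : (-1 : ℂ) ^ p * (-1) ^ p = 1 := by
      rw [← pow_add, ← two_mul, pow_mul]; norm_num
    have s5 : Complex.I ^ k * (-1) ^ k * Complex.I ^ k = 1 := by
      rw [← mul_pow, ← mul_pow]; simp
    rw [s2, s3, neg_pow Complex.I (p + k), neg_pow Complex.I (j - p), pow_add, pow_add, pow_add]
    linear_combination ((-1) ^ (j * (j - 1) / 2) * (-1) ^ (j - p) * Complex.I ^ (j - p) *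
      Complex.I ^ p) * (Complex.I ^ k * (-1) ^ k * Complex.I ^ k) * s4 +
      ((-1) ^ (j * (j - 1) / 2) * (-1) ^ (j - p) * Complex.I ^ (j - p) * Complex.I ^ p) * s5
  have hfin : sgn ℝ j * X.rb x ((M ^ k) x) = (∑ p ∈ Finset.range (j + 1), T p).re := by
    rw [← key, Complex.re_ofReal_mul, X.rb_apply]
  rw [hfin]
  exact hpos

theorem Nef.lt_pow_apply (k : ℕ) (x : ℂ ⊗[ℚ] V) :
    (((X.lef.baseChange ℂ).restrictScalars ℝ +
      t • (P.op.baseChange ℂ).restrictScalars ℝ : Module.End ℝ (ℂ ⊗[ℚ] V)) ^ k) x =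
        ((P.lt t) ^ k) x := by
  induction k with
  | zero => rfl
  | succ k ih =>
    rw [pow_succ', pow_succ', Module.End.mul_apply, Module.End.mul_apply, ih]
    unfold lt
    rw [LinearMap.add_apply, LinearMap.add_apply, LinearMap.smul_apply, LinearMap.smul_apply,
      real_smul']
    rfl

theorem bc_comm {T U : Module.End ℚ V} (h : ∀ x, T (U x) = U (T x)) (x : ℂ ⊗[ℚ] V) :
    T.baseChange ℂ (U.baseChange ℂ x) = U.baseChange ℂ (T.baseChange ℂ x) := by
  have e : T.baseChange ℂ ∘ₗ U.baseChange ℂ = U.baseChange ℂ ∘ₗ T.baseChange ℂ := by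
    rw [← LinearMap.baseChange_comp, ← LinearMap.baseChange_comp]
    congr 1
    ext x
    exact h x
  exact LinearMap.congr_fun e x

/-- The underlying real data. -/
noncomputable def Nef.toReal [FiniteDimensional ℚ V] : RealNef (ℂ ⊗[ℚ] V) d where
  pr j := ((X.pr j).baseChange ℂ).restrictScalars ℝ
  L := (X.lef.baseChange ℂ).restrictScalars ℝ
  N := (P.op.baseChange ℂ).restrictScalars ℝ
  b := X.rb
  pr_sum := by
    apply LinearMap.ext
    intro x
    rw [LinearMap.sum_apply]
    exact X.sum_prC x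
  pr_self j := by
    apply LinearMap.ext
    intro x
    have h := LinearMap.congr_fun (congrArg (LinearMap.baseChange ℂ) (X.pr_self j)) x
    rw [LinearMap.baseChange_mul] at h
    exact h
  pr_ne i j hij := by
    apply LinearMap.ext
    intro x
    have h := LinearMap.congr_fun (congrArg (LinearMap.baseChange ℂ) (X.pr_ne i j hij)) x
    rw [LinearMap.baseChange_mul, LinearMap.baseChange_zero] at h
    exact h
  L_pr j := by
    apply LinearMap.ext
    intro x
    have h := LinearMap.congr_fun (congrArg (LinearMap.baseChange ℂ) (X.lef_pr j)) x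
    rw [LinearMap.baseChange_mul, LinearMap.baseChange_mul] at h
    exact h
  N_pr j := by
    apply LinearMap.ext
    intro x
    have h := LinearMap.congr_fun (congrArg (LinearMap.baseChange ℂ) (P.deg.2 j)) x
    rw [LinearMap.baseChange_mul, LinearMap.baseChange_mul] at h
    exact h
  N_L := by
    apply LinearMap.ext
    intro x
    exact bc_comm P.op_lef x
  b_symm x y := by
    rw [X.rb_apply, X.rb_apply, X.hf_symm, Complex.conj_re]
  b_pr i hi x y := by
    rw [X.rb_apply, X.rb_apply]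
    exact congrArg Complex.re (X.hf_adj (X.pair_pr i hi) (X.isHodge_pr _) x y)
  b_nondeg := X.rb_nondeg
  b_L x y := congrArg Complex.re (X.hf_adj X.lef_pair X.isHodge_lef x y)
  b_N x y := congrArg Complex.re (X.hf_adj P.op_pair P.deg.1 x y)
  pos t ht j hj x hx h0 hne := by
    rw [P.lt_pow_apply] at h0 ⊢
    exact P.pos_lt t ht j hj x hx h0 hne

end Pos

section Rel

variable [FiniteDimensional ℚ V] {X : HL d V} (P : X.Nef)

omit [FiniteDimensional ℚ V] in
theorem pow_restrict (T : Module.End ℂ (ℂ ⊗[ℚ] V)) (k : ℕ) (x : ℂ ⊗[ℚ] V) :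
    ((T.restrictScalars ℝ : Module.End ℝ (ℂ ⊗[ℚ] V)) ^ k) x = (T ^ k) x := by
  induction k with
  | zero => rfl
  | succ k ih => rw [pow_succ', pow_succ', Module.End.mul_apply, ih]; rfl

omit [FiniteDimensional ℚ V] in
theorem low_restrict (T : Module.End ℂ (ℂ ⊗[ℚ] V)) (m : ℕ) (x : ℂ ⊗[ℚ] V) :
    Low (R := Module.End ℝ (ℂ ⊗[ℚ] V)) (T.restrictScalars ℝ) m x ↔
      Low (R := Module.End ℂ (ℂ ⊗[ℚ] V)) T m x := by
  constructor
  · rintro ⟨y, z, h1, h2⟩
    exact ⟨y, z, (pow_restrict T m y).symm.trans h1, h2⟩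
  · rintro ⟨y, z, h1, h2⟩
    exact ⟨y, z, (pow_restrict T m y).trans h1, h2⟩

/-- The relative hard Lefschetz theorem over `ℂ`. -/
theorem Nef.rel_hardC (m j : ℕ) (hj : j + m ≤ d) (x : ℂ ⊗[ℚ] V)
    (hx : (X.pr j).baseChange ℂ x = x) (h0 : ((P.op.baseChange ℂ) ^ (m + 1)) x = 0)
    (hl : Low (R := Module.End ℂ (ℂ ⊗[ℚ] V)) (P.op.baseChange ℂ) m
      (((X.lef.baseChange ℂ) ^ (d - m - j)) x)) :
    Low (R := Module.End ℂ (ℂ ⊗[ℚ] V)) (P.op.baseChange ℂ) m x := by
  have _ : FiniteDimensional ℝ (ℂ ⊗[ℚ] V) := Module.Finite.trans ℂ _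
  rw [← low_restrict] at hl ⊢
  refine P.toReal.rel_hard hj hx ?_ ?_
  · exact (pow_restrict _ _ _).trans h0
  · have e := pow_restrict (X.lef.baseChange ℂ) (d - m - j) x
    rw [← e] at hl
    exact hl

/-- The relative hard Lefschetz theorem. -/
theorem Nef.rel_hard (m j : ℕ) (hj : j + m ≤ d) (x : V) (hx : X.pr j x = x)
    (h0 : (P.op ^ (m + 1)) x = 0) (hl : Low P.op m ((X.lef ^ (d - m - j)) x)) :
    Low P.op m x := by
  obtain ⟨g, hg⟩ := exists_isProj P m
  have hpow : ∀ (T : Module.End ℚ V) (k : ℕ) (y : V),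
      ((T.baseChange ℂ) ^ k) (1 ⊗ₜ y) = (1 : ℂ) ⊗ₜ[ℚ] ((T ^ k) y) := by
    intro T k y
    rw [← LinearMap.baseChange_pow]
    rfl
  have hcom : ∀ k y, (P.op ^ (m + 1)) ((X.lef ^ k) y) = (X.lef ^ k) ((P.op ^ (m + 1)) y) := by
    intro k y
    have h1 : P.op * X.lef = X.lef * P.op := LinearMap.ext P.op_lef
    have hc : Commute (P.op ^ (m + 1)) (X.lef ^ k) :=
      Commute.pow_pow (show Commute P.op X.lef from h1) _ _
    exact LinearMap.congr_fun hc y
  rw [← hg.low x h0]
  apply one_tmul_inj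
  have h1 : ((P.op.baseChange ℂ) ^ (m + 1)) ((1 : ℂ) ⊗ₜ[ℚ] x) = 0 := by
    rw [hpow, h0, TensorProduct.tmul_zero]
  have h2 := (hg.lowC (1 ⊗ₜ x) h1).2 (P.rel_hardC m j hj (1 ⊗ₜ x) (by
    rw [LinearMap.baseChange_tmul, hx]) h1 (by
      have h3 : ((P.op.baseChange ℂ) ^ (m + 1)) ((1 : ℂ) ⊗ₜ[ℚ] ((X.lef ^ (d - m - j)) x)) = 0 := by
        rw [hpow, hcom, h0, map_zero, TensorProduct.tmul_zero]
      rw [hpow, ← hg.lowC _ h3, LinearMap.baseChange_tmul,
        (hg.low _ (by rw [hcom, h0, map_zero])).2 hl, TensorProduct.tmul_zero]))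
  rw [LinearMap.baseChange_tmul] at h2
  rw [h2, TensorProduct.tmul_zero]

/-- The relative Hodge-Riemann relations. -/
theorem Nef.rel_riemann (m p q : ℕ) (hpq : p + q + m ≤ d) (x : ℂ ⊗[ℚ] V) (hx : X.hp p q x = x)
    (h0 : ((P.op.baseChange ℂ) ^ (m + 1)) x = 0)
    (hl : Low (R := Module.End ℂ (ℂ ⊗[ℚ] V)) (P.op.baseChange ℂ) m
      (((X.lef.baseChange ℂ) ^ (d - m - (p + q) + 1)) x))
    (hne : ¬ Low (R := Module.End ℂ (ℂ ⊗[ℚ] V)) (P.op.baseChange ℂ) m x) :
    0 < Complex.I ^ p * (-Complex.I) ^ q * (-1) ^ ((p + q) * (p + q - 1) / 2) *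
      X.pair.baseChange ℂ x (((P.op.baseChange ℂ) ^ m)
        (((X.lef.baseChange ℂ) ^ (d - m - (p + q))) (conj V x))) := by
  have _ : FiniteDimensional ℝ (ℂ ⊗[ℚ] V) := Module.Finite.trans ℂ _
  set i := d - m - (p + q) with hi
  set NC := P.op.baseChange ℂ with hNC
  set LC := X.lef.baseChange ℂ with hLC
  have hprC : (X.pr (p + q)).baseChange ℂ x = x := by
    rw [← hx, X.prC_hp, if_pos rfl]
  have h1 := P.toReal.rel_riemann (m := m) (j := p + q) (by omega) (v := x) hprC
    ((pow_restrict _ _ _).trans h0) (by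
      have e := pow_restrict (X.lef.baseChange ℂ) (d - m - (p + q) + 1) x
      rw [← low_restrict, ← e] at hl
      exact hl) (fun h => hne ((low_restrict _ _ _).1 h))
  set y := (NC ^ m) ((LC ^ i) x) with hy
  have h2 : 0 < sgn ℝ (p + q) * (X.hf x y).re := by
    have e : ((P.toReal.N) ^ m) (((P.toReal.L) ^ (d - m - (p + q))) x) = y := by
      have e1 : ((P.toReal.L) ^ (d - m - (p + q))) x = (LC ^ i) x :=
        pow_restrict (X.lef.baseChange ℂ) i x
      rw [e1]
      exact pow_restrict (P.op.baseChange ℂ) m _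
    rw [e] at h1
    exact h1
  -- conjugation
  have hconjpow : ∀ (T : Module.End ℚ V) (k : ℕ) (z : ℂ ⊗[ℚ] V),
      conj V (((T.baseChange ℂ) ^ k) z) = ((T.baseChange ℂ) ^ k) (conj V z) := by
    intro T k z
    rw [← LinearMap.baseChange_pow, conj_bc]
  have hcy : conj V y = (NC ^ m) ((LC ^ i) (conj V x)) := by
    rw [hy, hNC, hconjpow, hLC, hconjpow]
  have hoppow : ∀ k a c z, (NC ^ k) (X.hp a c z) = X.hp (a + k) (c + k) ((NC ^ k) z) := by
    intro k a c z
    induction k with
    | zero => rfl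
    | succ k ih =>
      rw [pow_succ', Module.End.mul_apply, ih, hNC, P.op_hp, ← Module.End.mul_apply]
      rfl
  have hcx : conj V x = X.hp q p (conj V x) := by
    rw [X.hp_conj, hx]
  have hw : X.hf x y = (Complex.I ^ (q + i + m) * (-Complex.I) ^ (p + i + m)) *
      X.pair.baseChange ℂ x ((NC ^ m) ((LC ^ i) (conj V x))) := by
    unfold hf
    rw [hcy, hcx, hLC, X.lefC_pow_hp, hoppow, X.weil_hp, map_smul, smul_eq_mul]
  -- the value is real
  have hreal : (X.hf x y).im = 0 := by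
    have hL : ∀ k a c, X.hf ((LC ^ k) a) c = X.hf a ((LC ^ k) c) := by
      intro k
      induction k with
      | zero => intro a c; rfl
      | succ k ih =>
        intro a c
        rw [pow_succ', Module.End.mul_apply, hLC, X.hf_adj X.lef_pair X.isHodge_lef, ← hLC, ih,
          ← Module.End.mul_apply, ← pow_succ, pow_succ']
    have hN : ∀ k a c, X.hf ((NC ^ k) a) c = X.hf a ((NC ^ k) c) := by
      intro k
      induction k with
      | zero => intro a c; rfl
      | succ k ih =>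
        intro a c
        rw [pow_succ', Module.End.mul_apply, hNC, X.hf_adj P.op_pair P.deg.1, ← hNC, ih,
          ← Module.End.mul_apply, ← pow_succ, pow_succ']
    have hcom : ∀ z, (NC ^ m) ((LC ^ i) z) = (LC ^ i) ((NC ^ m) z) := by
      intro z
      have h3 : NC * LC = LC * NC := LinearMap.ext (bc_comm P.op_lef)
      have hc : Commute (NC ^ m) (LC ^ i) := Commute.pow_pow (show Commute NC LC from h3) _ _
      exact LinearMap.congr_fun hc z
    have h3 : X.hf y x = X.hf x y := by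
      rw [hy, hN, hL, ← hcom]
    rw [X.hf_symm] at h3
    have h4 := congrArg Complex.im h3
    rw [Complex.conj_im] at h4
    linarith
  -- scalars
  have hs : Complex.I ^ p * (-Complex.I) ^ q * (-1) ^ ((p + q) * (p + q - 1) / 2) =
      ((sgn ℝ (p + q) : ℝ) : ℂ) * (Complex.I ^ (q + i + m) * (-Complex.I) ^ (p + i + m)) := by
    set j := p + q with hj
    have s1 : j * (j + 1) / 2 = j * (j - 1) / 2 + j := by
      rcases j with _ | j
      · rfl
      · have : (j + 1) * (j + 1 + 1) = (j + 1) * (j + 1 - 1) + 2 * (j + 1) := by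
          rw [Nat.add_sub_cancel]; ring
        rw [this, Nat.add_mul_div_left _ _ (by norm_num)]
    have s2 : ((sgn ℝ j : ℝ) : ℂ) = (-1) ^ (j * (j - 1) / 2) * ((-1) ^ p * (-1) ^ q) := by
      unfold sgn
      rw [s1, pow_add, hj, pow_add]; push_cast; ring
    have s4 : (-1 : ℂ) ^ p * (-1) ^ p = 1 := by
      rw [← pow_add, ← two_mul, pow_mul]; norm_num
    have s5 : Complex.I ^ i * (-1) ^ i * Complex.I ^ i = 1 := by
      rw [← mul_pow, ← mul_pow]; simp
    have s6 : Complex.I ^ m * (-1) ^ m * Complex.I ^ m = 1 := by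
      rw [← mul_pow, ← mul_pow]; simp
    rw [s2, neg_pow Complex.I (p + i + m), neg_pow Complex.I q, pow_add, pow_add, pow_add,
      pow_add, pow_add, pow_add]
    linear_combination (-((-1) ^ (j * (j - 1) / 2) * (-1) ^ q * Complex.I ^ q * Complex.I ^ p)) *
      ((Complex.I ^ i * (-1) ^ i * Complex.I ^ i) * (Complex.I ^ m * (-1) ^ m * Complex.I ^ m) * s4 +
        (Complex.I ^ m * (-1) ^ m * Complex.I ^ m) * s5 + s6)
  rw [hs, mul_assoc, ← hw]
  rw [Complex.lt_def]
  constructor
  · rw [Complex.zero_re, Complex.re_ofReal_mul]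
    exact h2
  · rw [Complex.zero_im, Complex.im_ofReal_mul, hreal, mul_zero]

end Rel

end HL

end Pool.Agent.Lib.OrlovNef
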