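import Pool.Agent.Lib.OrlovNef.Prim
import Pool.Agent.Lib.OrlovNef.Transfer

/-!
# The primitive part is a Hodge-Lefschetz datum of dimension `d - m`
-/

set_option autoImplicit false

open scoped TensorProduct ComplexOrder

namespace Pool.Agent.Lib.OrlovNef

open Pool.Agent.Lib.OrlovSig

theorem conj_baseChange {U W : Type*} [AddCommGroup U] [Module ℚ U] [AddCommGroup W] [Module ℚ W]
    (f : U →ₗ[ℚ] W) (x : ℂ ⊗[ℚ] U) : f.baseChange ℂ (conj U x) = conj W (f.baseChange ℂ x) := by
  induction x using TensorProduct.induction_on with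
  | zero => simp
  | tmul a v => unfold conj; simp
  | add x y hx hy => rw [map_add, map_add, hx, hy, map_add, map_add]

namespace HL

variable {d : ℕ} {V V' : Type*} [AddCommGroup V] [Module ℚ V] [AddCommGroup V'] [Module ℚ V']

theorem pairC_tmul (B : LinearMap.BilinForm ℚ V) (x y : V) :
    B.baseChange ℂ (1 ⊗ₜ x) (1 ⊗ₜ y) = ((B x y : ℚ) : ℂ) := by
  rw [LinearMap.BilinForm.baseChange_tmul]
  simp

theorem pair_surjective [FiniteDimensional ℚ V] (X : HL d V) (ψ : V →ₗ[ℚ] ℚ) :
    ∃ z, X.pair z = ψ := by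
  have hinj : Function.Injective X.pair := by
    rw [injective_iff_map_eq_zero]
    intro x hx
    exact X.pair_nondeg x (fun y => by rw [hx]; rfl)
  have hsurj : Function.Surjective X.pair :=
    (LinearMap.injective_iff_surjective_of_finrank_eq_finrank
      (by rw [Subspace.dual_finrank_eq])).1 hinj
  exact hsurj ψ

section Proj

variable {X : HL d V} {P : X.Nef} {m : ℕ} {g : Module.End ℚ V}

theorem IsProj.nondeg [FiniteDimensional ℚ V] (h : IsProj P m g) (x : LinearMap.range g)
    (hx : ∀ y : LinearMap.range g, X.pair (inc g x) ((P.op ^ m) (inc g y)) = 0) : x = 0 := by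
  have h1 : X.pair ((P.op ^ m) (inc g x)) ∈
      (LinearMap.ker (P.op ^ (m + 1))).dualAnnihilator := by
    rw [Submodule.mem_dualAnnihilator]
    intro y hy
    rw [LinearMap.mem_ker] at hy
    rw [P.op_pow_pair, ← h.pair_right (h.kill_inc x) hy]
    exact hx (prj g y)
  rw [← LinearMap.range_dualMap_eq_dualAnnihilator_ker] at h1
  obtain ⟨ψ, hψ⟩ := h1
  obtain ⟨z, hz⟩ := X.pair_surjective ψ
  have h2 : (P.op ^ m) (inc g x) = (P.op ^ (m + 1)) z := by
    rw [← sub_eq_zero]
    apply X.pair_nondeg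
    intro y
    rw [map_sub, LinearMap.sub_apply, sub_eq_zero, P.op_pow_pair (m + 1), hz]
    exact (LinearMap.congr_fun hψ y).symm
  have h3 : Low P.op m (inc g x) := by
    refine ⟨inc g x - P.op z, z, ?_, ?_⟩
    · change (P.op ^ m) (inc g x - P.op z) = 0
      rw [map_sub, h2, pow_succ, Module.End.mul_apply, sub_self]
    · change inc g x = inc g x - P.op z + P.op z
      rw [sub_add_cancel]
  have h4 := (h.low _ (h.kill_inc x)).2 h3
  apply Subtype.ext
  rw [← h.apply_coe x]
  exact h4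

theorem IsProj.pr_high [FiniteDimensional ℚ V] (h : IsProj P m g) (hm : m ≤ d) (j : ℕ)
    (hj : 2 * (d - m) < j) (x : LinearMap.range g) : X.pr j (inc g x) = 0 := by
  rcases Nat.lt_or_ge (2 * d) j with hj' | hj'
  · rw [X.pr_top j hj']; rfl
  have h1 : ind g (X.pr j) x = 0 := by
    apply h.nondeg
    intro y
    rw [h.inc_pr, X.pair_pr j hj']
    have h2 := LinearMap.congr_fun ((P.deg.pow m).pr_mul (2 * d - j) (by omega)) (inc g y)
    rw [Module.End.mul_apply] at h2
    rw [h2, LinearMap.zero_apply, map_zero]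
  rw [← h.inc_pr, h1, map_zero]

/-- The pairing of the primitive part. -/
noncomputable def pairU (P : X.Nef) (m : ℕ) (g : Module.End ℚ V) :
    LinearMap.BilinForm ℚ (LinearMap.range g) :=
  X.pair.compl₁₂ (inc g) ((P.op ^ m) ∘ₗ inc g)

theorem pairU_apply (P : X.Nef) (m : ℕ) (g : Module.End ℚ V) (x y : LinearMap.range g) :
    pairU P m g x y = X.pair (inc g x) ((P.op ^ m) (inc g y)) := rfl

theorem pairU_baseChange (P : X.Nef) (m : ℕ) (g : Module.End ℚ V)
    (x y : ℂ ⊗[ℚ] LinearMap.range g) :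
    (pairU P m g).baseChange ℂ x y = X.pair.baseChange ℂ ((inc g).baseChange ℂ x)
      (((P.op.baseChange ℂ) ^ m) ((inc g).baseChange ℂ y)) := by
  have key : (pairU P m g).baseChange ℂ = (X.pair.baseChange ℂ).compl₁₂ ((inc g).baseChange ℂ)
      (((P.op.baseChange ℂ) ^ m) ∘ₗ (inc g).baseChange ℂ) := by
    apply bil_ext
    intro v w
    rw [LinearMap.compl₁₂_apply, LinearMap.comp_apply, LinearMap.baseChange_tmul,
      LinearMap.baseChange_tmul, ← baseChange_pow_apply, LinearMap.baseChange_tmul, pairC_tmul,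
      pairC_tmul, pairU_apply]
  rw [key]
  rfl

theorem opC_pair_zero (P : X.Nef) (h : IsProj P m g) {x : ℂ ⊗[ℚ] V}
    (hx : ((P.op.baseChange ℂ) ^ (m + 1)) x = 0) (ξ : ℂ ⊗[ℚ] V)
    (hξ : ((P.op.baseChange ℂ) ^ (m + 1)) ξ = 0) :
    X.pair.baseChange ℂ x (((P.op.baseChange ℂ) ^ m) (g.baseChange ℂ ξ)) =
      X.pair.baseChange ℂ x (((P.op.baseChange ℂ) ^ m) ξ) := by
  have hself : ∀ (k : ℕ) (a b : ℂ ⊗[ℚ] V), X.pair.baseChange ℂ (((P.op.baseChange ℂ) ^ k) a) b =
      X.pair.baseChange ℂ a (((P.op.baseChange ℂ) ^ k) b) := by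
    intro k a b
    have h1 := bilC_adj (B := X.pair) (B' := X.pair) (f1 := P.op ^ k) (f2 := LinearMap.id)
      (g1 := LinearMap.id) (g2 := P.op ^ k) (fun x y => P.op_pow_pair k x y) a b
    simpa [LinearMap.baseChange_pow, LinearMap.baseChange_id] using h1
  have hlow : Low (R := Module.End ℂ (ℂ ⊗[ℚ] V)) (P.op.baseChange ℂ) m
      (ξ - g.baseChange ℂ ξ) := by
    have hk : ((P.op.baseChange ℂ) ^ (m + 1)) (g.baseChange ℂ ξ) = 0 := by
      rw [← baseChange_pow_apply, ← LinearMap.comp_apply, ← LinearMap.baseChange_comp]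
      have : (P.op ^ (m + 1)) ∘ₗ g = 0 := h.kill
      rw [this, LinearMap.baseChange_zero, LinearMap.zero_apply]
    rw [← h.lowC _ (by rw [map_sub, hξ, hk, sub_zero]), map_sub, sub_eq_zero]
    have : g.baseChange ℂ (g.baseChange ℂ ξ) = (g * g).baseChange ℂ ξ := by
      rw [LinearMap.baseChange_mul]; rfl
    rw [this, h.idem]
  obtain ⟨a, b, ha, hab⟩ := hlow
  have e1 : ((P.op.baseChange ℂ) ^ m) (ξ - g.baseChange ℂ ξ) =
      ((P.op.baseChange ℂ) ^ (m + 1)) b := by
    rw [hab, map_add, pow_succ]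
    change ((P.op.baseChange ℂ) ^ m) • a + ((P.op.baseChange ℂ) ^ m) ((P.op.baseChange ℂ) b) = _
    rw [ha, zero_add]
    rfl
  have e2 : X.pair.baseChange ℂ x (((P.op.baseChange ℂ) ^ m) (ξ - g.baseChange ℂ ξ)) = 0 := by
    rw [e1, ← hself, hx, map_zero, LinearMap.zero_apply]
  rw [map_sub, map_sub, sub_eq_zero] at e2
  exact e2.symm

/-- The primitive part as a Hodge-Lefschetz datum of dimension `d - m`. -/
noncomputable def primHL [FiniteDimensional ℚ V] (h : IsProj P m g) (hm : m ≤ d) :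
    HL (d - m) (LinearMap.range g) where
  pr j := ind g (X.pr j)
  hp p q := hpU X g p q
  pair := pairU P m g
  lef := ind g X.lef
  can := ind g X.can
  pr_sum := by
    apply LinearMap.ext
    intro x
    apply Subtype.ext
    have h1 : ∑ j ∈ Finset.range (2 * (d - m) + 1), X.pr j (inc g x) = inc g x := by
      calc ∑ j ∈ Finset.range (2 * (d - m) + 1), X.pr j (inc g x)
          = ∑ j ∈ Finset.range (2 * d + 1), X.pr j (inc g x) :=
            Finset.sum_subset (Finset.range_subset_range.2 (by omega)) (fun j _ hj =>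
              h.pr_high hm j (by rw [Finset.mem_range, not_lt] at hj; omega) x)
        _ = inc g x := by rw [← LinearMap.sum_apply, X.pr_sum, LinearMap.id_apply]
    have h2 : inc g ((∑ j ∈ Finset.range (2 * (d - m) + 1), ind g (X.pr j)) x) = inc g x := by
      rw [LinearMap.sum_apply, map_sum]
      simp only [h.inc_pr]
      exact h1
    exact h2
  hp_sum j := by
    apply LinearMap.ext
    intro x
    rw [LinearMap.sum_apply]
    unfold hpU ind
    simp only [LinearMap.comp_apply]
    rw [← map_sum, LinearMap.baseChange_comp, LinearMap.baseChange_comp, LinearMap.comp_apply,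
      LinearMap.comp_apply, ← X.hp_sum j, LinearMap.sum_apply]
  hp_self p q x := by
    apply h.incC_inj
    rw [h.incC_hpU, h.incC_hpU, X.hp_self]
  hp_ne p q p' q' x hne := by
    apply h.incC_inj
    rw [h.incC_hpU, h.incC_hpU, X.hp_ne _ _ _ _ _ hne, map_zero]
  hp_conj p q x := by
    apply h.incC_inj
    rw [h.incC_hpU, conj_baseChange, X.hp_conj, conj_baseChange, h.incC_hpU]
  pair_comm i j x y := by
    rw [pairU_apply, pairU_apply, h.inc_pr, h.inc_pr, P.op_pow_pr, X.pair_comm (i + 2 * m) j,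
      ← P.op_pow_pr, P.op_pow_pair]
    congr 1
    rw [add_mul, pow_add, mul_assoc 2, pow_mul]
    norm_num
  pair_nondeg x hx := h.nondeg x hx
  pair_hp p q p' q' x y hne := by
    rw [pairU_baseChange, h.incC_hpU, h.incC_hpU, P.opC_pow_hp]
    apply X.pair_hp
    intro h1
    apply hne
    rw [Prod.mk.injEq] at h1 ⊢
    omega
  lef_hp p q x := by
    apply h.incC_inj
    rw [incC_indC, h.incC_hpU, X.lef_hp, h.deg.hp, h.incC_hpU, incC_indC]
  lef_pair x y := by
    have h1 := h.inc_ind_pow (f := X.lef) P.op_lef 1 x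
    have h2 := h.inc_ind_pow (f := X.lef) P.op_lef 1 y
    rw [pow_one, pow_one] at h1 h2
    rw [pairU_apply, pairU_apply, h1.1, h2.1, h.pair_left h1.2 (h.kill_inc y),
      h.pair_right (h.kill_inc x) h2.2, X.lef_pair, P.op_pow_lef]
  can_hp p q x := by
    apply h.incC_inj
    rw [incC_indC, h.incC_hpU, X.can_hp, h.deg.hp, h.incC_hpU, incC_indC]
  can_pair x y := by
    have h1 := h.inc_ind_pow (f := X.can) P.op_can 1 x
    have h2 := h.inc_ind_pow (f := X.can) P.op_can 1 y
    rw [pow_one, pow_one] at h1 h2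
    rw [pairU_apply, pairU_apply, h1.1, h2.1, h.pair_left h1.2 (h.kill_inc y),
      h.pair_right (h.kill_inc x) h2.2, X.can_pair, P.op_pow_can]
  hard j hj x hx := by
    set y := ind g (X.pr j) x with hy
    have hy1 : X.pr j (inc g y) = inc g y := by
      rw [hy, h.inc_pr]
      exact LinearMap.congr_fun (X.pr_self j) _
    have h1 := h.inc_ind_pow (f := X.lef) P.op_lef (d - m - j) y
    have h2 : Low P.op m ((X.lef ^ (d - m - j)) (inc g y)) := by
      rw [← h.low _ h1.2, ← h1.1, hx, map_zero]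
    have h3 := P.rel_hard m j (by omega) (inc g y) hy1 (h.kill_inc y) h2
    have h4 := (h.low _ (h.kill_inc y)).2 h3
    apply Subtype.ext
    rw [← h.apply_coe y]
    exact h4
  riemann p q hpq x hx hx0 hL := by
    have hξ : X.hp p q ((inc g).baseChange ℂ x) = (inc g).baseChange ℂ x := by
      rw [← h.incC_hpU, hx]
    have hk := h.killC (f := X.lef) P.op_lef 0 x
    rw [pow_zero, Module.End.one_apply] at hk
    have h1 : ((P.op.baseChange ℂ) ^ (m + 1)) ((inc g).baseChange ℂ x) = 0 := hk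
    have h2 : Low (R := Module.End ℂ (ℂ ⊗[ℚ] V)) (P.op.baseChange ℂ) m
        (((X.lef.baseChange ℂ) ^ (d - m - (p + q) + 1)) ((inc g).baseChange ℂ x)) := by
      rw [← h.lowC _ (h.killC P.op_lef _ x), ← h.indC_pow P.op_lef, hL, map_zero]
    have h3 : ¬ Low (R := Module.End ℂ (ℂ ⊗[ℚ] V)) (P.op.baseChange ℂ) m
        ((inc g).baseChange ℂ x) := by
      intro h4
      rw [← h.lowC _ h1, h.gC_incC] at h4
      apply hx0
      apply h.incC_inj
      rw [h4, map_zero]
    have h5 := P.rel_riemann m p q (by omega) _ hξ h1 h2 h3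
    rw [pairU_baseChange, h.indC_pow P.op_lef, opC_pair_zero P h h1 _ (h.killC P.op_lef _ _),
      conj_baseChange]
    exact h5

end Proj

end HL

end Pool.Agent.Lib.OrlovNef
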