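import Pool.Agent.Lib.OrlovNef.AdjAlg

/-!
# Differentiation in the direction of the second operator
-/

set_option autoImplicit false

namespace Pool.Agent.Lib.OrlovNef

namespace Lefs

variable {K E : Type*} [Field K] [LinearOrder K] [IsStrictOrderedRing K] [AddCommGroup E]
  [Module K E] {d : ℕ} {X : Lefs K E d} {N : Module.End K E} {δ : K →+ K} {D : E →+ E}

/-- A derivation of the situation under which `L` has derivative `N` and everything else is
constant. -/
structure Diff (X : Lefs K E d) (N : Module.End K E) (δ : K →+ K) (D : E →+ E) : Prop where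
  leib : ∀ a b, δ (a * b) = δ a * b + a * δ b
  smul : ∀ a x, D (a • x) = δ a • x + a • D x
  pr : ∀ j x, D (X.pr j x) = X.pr j (D x)
  form : ∀ x y, δ (X.b x y) = X.b (D x) y + X.b x (D y)
  lef : ∀ x, D (X.L x) = N x + X.L (D x)
  nef : ∀ x, D (N x) = N (D x)

omit [IsStrictOrderedRing K] in
theorem Diff.deg (hD : X.Diff N δ D) {j : ℕ} {x : E} (hx : X.pr j x = x) :
    X.pr j (D x) = D x := by
  rw [← hD.pr, hx]

omit [IsStrictOrderedRing K] in
theorem Diff.one (hD : X.Diff N δ D) : δ 1 = 0 := by
  have h := hD.leib 1 1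
  rw [mul_one, mul_one, one_mul] at h
  exact left_eq_add.1 h

omit [IsStrictOrderedRing K] in
theorem Diff.natCast (hD : X.Diff N δ D) (n : ℕ) : δ (n : K) = 0 := by
  induction n with
  | zero => rw [Nat.cast_zero, map_zero]
  | succ n ih => rw [Nat.cast_succ, map_add, ih, hD.one, add_zero]

/-- The derivative of an operator. -/
def Diff.op (hD : X.Diff N δ D) (T : Module.End K E) : Module.End K E where
  toFun x := D (T x) - T (D x)
  map_add' x y := by
    simp only [map_add]
    abel
  map_smul' a x := by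
    simp only [map_smul, hD.smul, map_add, RingHom.id_apply, smul_sub]
    abel

omit [IsStrictOrderedRing K] in
theorem Diff.op_apply (hD : X.Diff N δ D) (T : Module.End K E) (x : E) :
    hD.op T x = D (T x) - T (D x) := rfl

omit [IsStrictOrderedRing K] in
theorem Diff.D_op (hD : X.Diff N δ D) (T : Module.End K E) (x : E) :
    D (T x) = hD.op T x + T (D x) := by
  rw [hD.op_apply]
  abel

omit [IsStrictOrderedRing K] in
theorem Diff.op_mul (hD : X.Diff N δ D) (T U : Module.End K E) :
    hD.op (T * U) = hD.op T * U + T * hD.op U := by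
  ext x
  simp only [LinearMap.add_apply, Module.End.mul_apply, hD.op_apply, map_sub]
  abel

omit [IsStrictOrderedRing K] in
theorem Diff.op_sub (hD : X.Diff N δ D) (T U : Module.End K E) :
    hD.op (T - U) = hD.op T - hD.op U := by
  ext x
  simp only [LinearMap.sub_apply, hD.op_apply, map_sub]
  abel

omit [IsStrictOrderedRing K] in
theorem Diff.op_one (hD : X.Diff N δ D) : hD.op 1 = 0 := by
  ext x
  simp only [hD.op_apply, Module.End.one_apply, sub_self, LinearMap.zero_apply]

omit [IsStrictOrderedRing K] in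
theorem Diff.op_L (hD : X.Diff N δ D) : hD.op X.L = N := by
  ext x
  rw [hD.op_apply, hD.lef]
  abel

omit [IsStrictOrderedRing K] in
theorem Diff.op_N (hD : X.Diff N δ D) : hD.op N = 0 := by
  ext x
  rw [hD.op_apply, hD.nef, sub_self, LinearMap.zero_apply]

omit [IsStrictOrderedRing K] in
theorem Diff.op_H (hD : X.Diff N δ D) : hD.op X.H = 0 := by
  apply ext_deg
  intro j x hx
  have h0 : δ ((d : K) - j) = 0 := by rw [map_sub, hD.natCast, hD.natCast, sub_zero]
  rw [hD.op_apply, X.H_apply hx, X.H_apply (hD.deg hx), hD.smul, h0, zero_smul, zero_add,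
    sub_self, LinearMap.zero_apply]

variable [FiniteDimensional K E]

omit [IsStrictOrderedRing K] in
/-- An operator which commutes with `L` and lowers the degree is zero. -/
theorem eq_zero_of_comm {Z : Module.End K E} (hL : X.L * Z = Z * X.L)
    (h1 : ∀ j x, X.pr (j + 2) x = x → X.pr j (Z x) = Z x)
    (h2 : ∀ j < 2, ∀ x, X.pr j x = x → Z x = 0) : Z = 0 := by
  have hLk : ∀ k x, (X.L ^ k) (Z x) = Z ((X.L ^ k) x) := by
    intro k x
    have h : Commute (X.L ^ k) Z := Commute.pow_left hL k
    exact LinearMap.congr_fun h x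
  apply X.ext_strand
  intro i s y hy hs
  rw [LinearMap.zero_apply, ← hLk]
  have h3 : Z y = 0 := by
    by_cases hi : i < 2
    · exact h2 i hi y hy.deg
    · obtain ⟨j, rfl⟩ : ∃ j, i = j + 2 := ⟨i - 2, by omega⟩
      have hle := hy.le
      refine X.hard (j := j) (by omega) (h1 j y hy.deg) ?_
      rw [hLk, hy.kill_of_lt X (by omega), map_zero]
  rw [h3, map_zero]

theorem h_nondeg {x : E} (h : ∀ y, X.h x y = 0) : x = 0 := by
  by_contra h0
  exact (X.h_pos h0).ne' (h x)

/-- The derivative of the adjoint of `L` is minus the adjoint of `N`, and the logarithmic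
derivative of the star operator is `A`. -/
theorem Diff.main (hD : X.Diff N δ D) (hN : X.IsNef N) :
    hD.op X.La = -X.Ns N ∧ hD.op X.S = X.S * X.A N := by
  set dS := hD.op X.S with hdS
  set B := X.S * dS with hB
  have h1 : dS * X.S + X.S * dS = 0 := by
    rw [hdS, ← hD.op_mul, X.S_sq, hD.op_one]
  have h2 : dS = X.S * B := by rw [hB, S_mul_S_mul]
  have h3 : dS = -(B * X.S) := by
    have h4 : dS * X.S = -(X.S * dS) := eq_neg_of_add_eq_zero_left h1
    rw [hB, mul_assoc, h4, mul_neg, neg_neg, S_mul_S_mul]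
  have hLa : hD.op X.La = X.La * B - B * X.La + X.Ns N := by
    have e : hD.op X.La = dS * X.L * X.S + X.S * N * X.S + X.S * X.L * dS := by
      change hD.op (X.S * X.L * X.S) = _
      rw [hD.op_mul, hD.op_mul, hD.op_L, ← hdS]
      noncomm_ring
    rw [e]
    conv_lhs => enter [1, 1]; rw [h3]
    conv_lhs => enter [2]; rw [h2]
    unfold La Ns
    noncomm_ring
  have hdeg : ∀ j x, X.pr j x = x → X.pr j (B x) = B x := by
    intro j x hx
    by_cases hj : j ≤ 2 * d
    · rw [hB, Module.End.mul_apply, hdS, hD.op_apply]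
      have e1 := hD.deg (X.S_deg hj hx)
      have e2 := X.S_deg hj (hD.deg hx)
      have e3 : X.pr (2 * d - j) (D (X.S x) - X.S (D x)) = D (X.S x) - X.S (D x) := by
        rw [map_sub, e1, e2]
      have e4 := X.S_deg (by omega) e3
      rwa [show 2 * d - (2 * d - j) = j by omega] at e4
    · rw [X.eq_zero_of_deg hx (by omega), map_zero, map_zero]
  -- the derivative of `[Λ, L] = H`
  have h5 : X.L * hD.op X.La - hD.op X.La * X.L = X.A N := by
    have e := congrArg hD.op X.La_L
    rw [hD.op_sub, hD.op_mul, hD.op_mul, hD.op_H, hD.op_L] at e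
    unfold A
    rw [← sub_eq_zero, ← neg_eq_zero, ← e]
    abel
  have h6 : hD.op X.La + X.Ns N = 0 := by
    apply eq_zero_of_comm
    · have h7 := hN.A_eq
      rw [← h5] at h7
      rw [mul_add, add_mul]
      have e : X.L * hD.op X.La + X.L * X.Ns N - (hD.op X.La * X.L + X.Ns N * X.L) =
          (X.L * hD.op X.La - hD.op X.La * X.L) - (X.Ns N * X.L - X.L * X.Ns N) := by abel
      rw [← sub_eq_zero, e, h7, sub_self]
    · intro j x hx
      rw [LinearMap.add_apply, map_add, hN.Ns_deg hx, hD.op_apply, map_sub,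
        hD.deg (La_deg hx), La_deg (hD.deg hx)]
    · intro j hj x hx
      rw [LinearMap.add_apply, hN.Ns_low hj hx, hD.op_apply, La_low hj hx, La_low hj (hD.deg hx),
        map_zero, sub_zero, add_zero]
  have h7 : hD.op X.La = -X.Ns N := eq_neg_of_add_eq_zero_left h6
  refine ⟨h7, ?_⟩
  -- `[Λ, B] = [Λ, A]`
  set Z := B - X.A N with hZ
  have h8 : X.La * Z = Z * X.La := by
    have e1 : X.La * B - B * X.La = -((2 : K) • X.Ns N) := by
      rw [h7] at hLa
      have : X.La * B - B * X.La = -X.Ns N - X.Ns N := by rw [hLa]; abel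
      rw [this, two_smul]
      abel
    have e2 : X.La * X.A N - X.A N * X.La = -((2 : K) • X.Ns N) := by
      have e3 := hN.La_La_N
      unfold A
      rw [← sub_eq_zero, ← e3, two_smul, two_smul]
      noncomm_ring
    rw [hZ, mul_sub, sub_mul]
    have e4 : X.La * B - X.La * X.A N - (B * X.La - X.A N * X.La) =
        (X.La * B - B * X.La) - (X.La * X.A N - X.A N * X.La) := by abel
    rw [← sub_eq_zero, e4, e1, e2, sub_self]
  have hBadj : ∀ x y, X.h (B x) y = X.h x (B y) := by
    intro x y
    have hb : X.b (dS x) y = X.b x (dS y) := by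
      have e := congrArg δ (X.b_S x y)
      rw [hD.form, hD.form, hD.D_op, hD.D_op, ← hdS] at e
      simp only [map_add, LinearMap.add_apply] at e
      rw [X.b_S, X.b_S] at e
      linear_combination e
    rw [X.h_apply, X.h_apply, hB, Module.End.mul_apply, Module.End.mul_apply, X.S_S, X.b_S,
      X.S_S, hb]
  have hZadj : ∀ x y, X.h (Z x) y = X.h x (Z y) := by
    intro x y
    rw [hZ, LinearMap.sub_apply, LinearMap.sub_apply, map_sub, map_sub, LinearMap.sub_apply,
      hBadj, hN.h_A]
  have hZL : X.L * Z = Z * X.L := by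
    ext x
    rw [Module.End.mul_apply, Module.End.mul_apply, ← sub_eq_zero]
    apply h_nondeg (X := X)
    intro y
    rw [map_sub, LinearMap.sub_apply, h_L, hZadj, hZadj, h_L, sub_eq_zero]
    have e := LinearMap.congr_fun h8 y
    rw [Module.End.mul_apply, Module.End.mul_apply] at e
    rw [e]
  have hZS : Z * X.S = -(X.S * Z) := by
    have e1 : X.S * Z * X.S = -Z := by
      rw [hZ, mul_sub, sub_mul, hN.S_A, hB, S_mul_S_mul]
      rw [eq_neg_of_add_eq_zero_left h1]
      abel
    have e2 : X.S * (X.S * Z * X.S) = -(X.S * Z) := by rw [e1, mul_neg]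
    rwa [mul_assoc, S_mul_S_mul] at e2
  have hZdeg : ∀ j x, X.pr j x = x → X.pr j (Z x) = Z x := by
    intro j x hx
    rw [hZ, LinearMap.sub_apply, map_sub, hdeg j x hx, hN.A_deg hx]
  have hLk : ∀ k x, (X.L ^ k) (Z x) = Z ((X.L ^ k) x) := by
    intro k x
    have h : Commute (X.L ^ k) Z := Commute.pow_left hZL k
    exact LinearMap.congr_fun h x
  have hZ0 : Z = 0 := by
    apply X.ext_strand
    intro i s y hy hs
    rw [LinearMap.zero_apply, ← hLk]
    have hp : X.IsPrim i (Z y) := ⟨hy.le, hZdeg _ _ hy.deg, by rw [hLk, hy.kill, map_zero]⟩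
    have e1 : X.S (Z y) = Z (X.S y) := by
      have f1 := X.S_strand hp 0
      have f2 := X.S_strand hy 0
      rw [pow_zero, Module.End.one_apply] at f1 f2
      rw [f1, f2, map_smul, hLk]
    have e2 : Z (X.S y) = -X.S (Z y) := by
      have := LinearMap.congr_fun hZS y
      simpa using this
    have e3 : X.S (Z y) = 0 := by
      have e4 : X.S (Z y) = -X.S (Z y) := e1.trans e2
      have e5 : (2 : K) • X.S (Z y) = 0 := by
        rw [two_smul]
        conv_lhs => enter [1]; rw [e4]
        rw [neg_add_cancel]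
      rcases smul_eq_zero.1 e5 with e6 | e6
      · exact absurd e6 two_ne_zero
      · exact e6
    have e4 : Z y = 0 := by rw [← X.S_S (Z y), e3, map_zero]
    rw [e4, map_zero]
  rw [h2, sub_eq_zero.1 hZ0]

/-- `δA = -[N^*, N]`. -/
theorem Diff.op_A (hD : X.Diff N δ D) (hN : X.IsNef N) :
    hD.op (X.A N) = N * X.Ns N - X.Ns N * N := by
  unfold A
  rw [hD.op_sub, hD.op_mul, hD.op_mul, hD.op_N, (hD.main hN).1]
  noncomm_ring

theorem Diff.h_apply (hD : X.Diff N δ D) (hN : X.IsNef N) (x y : E) :
    δ (X.h x y) = X.h (D x) y + X.h x (D y) + X.h x (X.A N y) := by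
  rw [X.h_apply, hD.form, hD.D_op, (hD.main hN).2, map_add, X.h_apply, X.h_apply, X.h_apply,
    Module.End.mul_apply]
  ring

/-- The first derivative of the norm of a constant vector. -/
theorem Diff.d1 (hD : X.Diff N δ D) (hN : X.IsNef N) {x : E} (hx : D x = 0) :
    δ (X.h x x) = X.h x (X.A N x) := by
  rw [hD.h_apply hN, hx, map_zero, map_zero, LinearMap.zero_apply, zero_add, zero_add]

/-- The second derivative of the norm of a constant vector. -/
theorem Diff.d2 (hD : X.Diff N δ D) (hN : X.IsNef N) {x : E} (hx : D x = 0) :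
    δ (δ (X.h x x)) = X.h (X.A N x) (X.A N x) - X.h (N x) (N x) +
      X.h (X.Ns N x) (X.Ns N x) := by
  rw [hD.d1 hN hx, hD.h_apply hN, hx, map_zero, LinearMap.zero_apply, hD.D_op, hx, map_zero,
    hD.op_A hN, zero_add, add_zero, LinearMap.sub_apply, Module.End.mul_apply,
    Module.End.mul_apply, map_sub, ← hN.h_Ns x, ← hN.h_N x (N x), ← hN.h_A]
  ring

end Lefs

end Pool.Agent.Lib.OrlovNef
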