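import Pool.Agent.Lib.OrlovNef.Defs

/-!
# Complexification: basic identities for a Hodge-Lefschetz datum
-/

set_option autoImplicit false

open scoped TensorProduct ComplexOrder

namespace Pool.Agent.Lib.OrlovNef

open Pool.Agent.Lib.OrlovSig

namespace HL

variable {d : ℕ} {V V' : Type*} [AddCommGroup V] [Module ℚ V] [AddCommGroup V'] [Module ℚ V']

theorem hp_hp (X : HL d V) (p q p' q' : ℕ) (x : ℂ ⊗[ℚ] V) :
    X.hp p q (X.hp p' q' x) = if p = p' ∧ q = q' then X.hp p' q' x else 0 := by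
  split_ifs with h
  · obtain ⟨rfl, rfl⟩ := h
    exact X.hp_self p q x
  · apply X.hp_ne
    intro h'
    rw [Prod.mk.injEq] at h'
    exact h h'

theorem prC_hp (X : HL d V) (j p q : ℕ) (x : ℂ ⊗[ℚ] V) :
    (X.pr j).baseChange ℂ (X.hp p q x) = if p + q = j then X.hp p q x else 0 := by
  rw [← X.hp_sum j, LinearMap.sum_apply]
  simp only [hp_hp]
  split_ifs with h
  · rw [Finset.sum_eq_single p]
    · rw [if_pos ⟨rfl, by omega⟩]
    · intro b _ hb
      rw [if_neg (fun hh => hb hh.1)]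
    · intro hp
      rw [Finset.mem_range] at hp
      omega
  · apply Finset.sum_eq_zero
    intro b hb
    rw [Finset.mem_range] at hb
    rw [if_neg]
    rintro ⟨rfl, h2⟩
    omega

theorem hp_prC (X : HL d V) (j p q : ℕ) (x : ℂ ⊗[ℚ] V) :
    X.hp p q ((X.pr j).baseChange ℂ x) = if p + q = j then X.hp p q x else 0 := by
  rw [← X.hp_sum j, LinearMap.sum_apply, map_sum]
  simp only [hp_hp]
  split_ifs with h
  · rw [Finset.sum_eq_single p]
    · rw [if_pos ⟨rfl, by omega⟩]
      congr 2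
      omega
    · intro b _ hb
      rw [if_neg (fun hh => hb hh.1.symm)]
    · intro hp
      rw [Finset.mem_range] at hp
      omega
  · apply Finset.sum_eq_zero
    intro b hb
    rw [Finset.mem_range] at hb
    rw [if_neg]
    rintro ⟨rfl, h2⟩
    omega

theorem sum_prC (X : HL d V) (x : ℂ ⊗[ℚ] V) :
    ∑ j ∈ Finset.range (2 * d + 1), (X.pr j).baseChange ℂ x = x := by
  have h : ∑ j ∈ Finset.range (2 * d + 1), (X.pr j).baseChange ℂ = LinearMap.id := by
    apply lin_ext
    intro v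
    rw [LinearMap.sum_apply]
    simp only [LinearMap.baseChange_tmul, LinearMap.id_apply]
    rw [← TensorProduct.tmul_sum, ← LinearMap.sum_apply, X.pr_sum, LinearMap.id_apply]
  have := LinearMap.congr_fun h x
  rwa [LinearMap.sum_apply] at this

theorem hp_top (X : HL d V) (p q : ℕ) (h : 2 * d < p + q) (x : ℂ ⊗[ℚ] V) :
    X.hp p q x = 0 := by
  rw [← X.sum_prC x, map_sum]
  apply Finset.sum_eq_zero
  intro j hj
  rw [Finset.mem_range] at hj
  rw [X.hp_prC, if_neg (by omega)]

/-- Two additive maps that agree on the Hodge components are equal. -/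
theorem ext_hp (X : HL d V) {M : Type*} [AddCommGroup M] [Module ℂ M]
    {f g : (ℂ ⊗[ℚ] V) →ₗ[ℂ] M} (h : ∀ p q x, f (X.hp p q x) = g (X.hp p q x)) : f = g := by
  ext1 x
  rw [← X.sum_prC x, map_sum, map_sum]
  apply Finset.sum_congr rfl
  intro j _
  rw [← X.hp_sum j, LinearMap.sum_apply, map_sum, map_sum]
  exact Finset.sum_congr rfl fun p _ => h _ _ _

theorem ext_hp_apply (X : HL d V) {M : Type*} [AddCommGroup M] [Module ℂ M]
    {f g : (ℂ ⊗[ℚ] V) →ₗ[ℂ] M} (h : ∀ p q x, f (X.hp p q x) = g (X.hp p q x))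
    (x : ℂ ⊗[ℚ] V) : f x = g x := by
  rw [X.ext_hp h]

theorem ext_hp₂ (X : HL d V) {M : Type*} [AddCommGroup M] [Module ℂ M]
    {f g : (ℂ ⊗[ℚ] V) →ₗ[ℂ] (ℂ ⊗[ℚ] V) →ₗ[ℂ] M}
    (h : ∀ p q x p' q' y, f (X.hp p q x) (X.hp p' q' y) = g (X.hp p q x) (X.hp p' q' y))
    (x y : ℂ ⊗[ℚ] V) : f x y = g x y := by
  have h1 : f = g := X.ext_hp fun p q x => X.ext_hp fun p' q' y => h p q x p' q' y
  rw [h1]

theorem pr_self (X : HL d V) (i : ℕ) : X.pr i * X.pr i = X.pr i := by
  apply baseChange_inj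
  rw [LinearMap.baseChange_mul]
  apply X.ext_hp
  intro p q x
  rw [Module.End.mul_apply, X.prC_hp]
  split_ifs with h
  · rw [X.prC_hp, if_pos h]
  · rw [map_zero]

theorem pr_ne (X : HL d V) (i j : ℕ) (h : i ≠ j) : X.pr i * X.pr j = 0 := by
  apply baseChange_inj
  rw [LinearMap.baseChange_mul]
  apply X.ext_hp
  intro p q x
  rw [Module.End.mul_apply, X.prC_hp, LinearMap.baseChange_zero, LinearMap.zero_apply]
  split_ifs with h1
  · rw [X.prC_hp, if_neg (by omega)]
  · rw [map_zero]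

theorem pr_top (X : HL d V) (j : ℕ) (h : 2 * d < j) : X.pr j = 0 := by
  apply baseChange_inj
  apply X.ext_hp
  intro p q x
  rw [X.prC_hp, LinearMap.baseChange_zero, LinearMap.zero_apply]
  split_ifs with h1
  · exact X.hp_top p q (by omega) x
  · rfl

theorem lef_pr (X : HL d V) (j : ℕ) : X.lef * X.pr j = X.pr (j + 2) * X.lef := by
  apply baseChange_inj
  rw [LinearMap.baseChange_mul, LinearMap.baseChange_mul]
  apply X.ext_hp
  intro p q x
  rw [Module.End.mul_apply, Module.End.mul_apply, X.prC_hp, X.lef_hp, X.prC_hp]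
  split_ifs with h1 h2 h2
  · rw [X.lef_hp]
  · omega
  · omega
  · rw [map_zero]

theorem can_pr (X : HL d V) (j : ℕ) : X.can * X.pr j = X.pr (j + 2) * X.can := by
  apply baseChange_inj
  rw [LinearMap.baseChange_mul, LinearMap.baseChange_mul]
  apply X.ext_hp
  intro p q x
  rw [Module.End.mul_apply, Module.End.mul_apply, X.prC_hp, X.can_hp, X.prC_hp]
  split_ifs with h1 h2 h2
  · rw [X.can_hp]
  · omega
  · omega
  · rw [map_zero]

theorem col_hp (X : HL d V) (c : ℤ) (p q : ℕ) (x : ℂ ⊗[ℚ] V) :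
    X.col c (X.hp p q x) = if (p : ℤ) - q = c then X.hp p q x else 0 := by
  unfold col
  rw [LinearMap.sum_apply]
  by_cases hpq : p + q ≤ 2 * d
  · rw [Finset.sum_eq_single (p, q)]
    · split_ifs
      · exact X.hp_self p q x
      · rw [LinearMap.zero_apply]
    · rintro ⟨a, b⟩ _ hab
      split_ifs
      · rw [X.hp_hp, if_neg]
        rintro ⟨rfl, rfl⟩
        exact hab rfl
      · rw [LinearMap.zero_apply]
    · intro h
      exfalso
      apply h
      rw [Finset.mem_product, Finset.mem_range, Finset.mem_range]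
      constructor <;> omega
  · rw [X.hp_top p q (by omega)]
    simp

theorem hp_col (X : HL d V) (c : ℤ) (p q : ℕ) (x : ℂ ⊗[ℚ] V) :
    X.hp p q (X.col c x) = if (p : ℤ) - q = c then X.hp p q x else 0 := by
  have h : X.hp p q ∘ₗ X.col c = if (p : ℤ) - q = c then X.hp p q else 0 := by
    apply X.ext_hp
    intro p' q' y
    rw [LinearMap.comp_apply, X.col_hp]
    by_cases h1 : p = p' ∧ q = q'
    · obtain ⟨rfl, rfl⟩ := h1
      split_ifs with h2
      · rfl
      · rw [map_zero, LinearMap.zero_apply]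
    · have h3 : X.hp p q (X.hp p' q' y) = 0 := by rw [X.hp_hp, if_neg h1]
      split_ifs
      · rfl
      · rw [h3, LinearMap.zero_apply]
      · rw [map_zero, h3]
      · rw [map_zero, LinearMap.zero_apply]
  have := LinearMap.congr_fun h x
  rw [LinearMap.comp_apply] at this
  rw [this]
  split_ifs
  · rfl
  · rw [LinearMap.zero_apply]

end HL

end Pool.Agent.Lib.OrlovNef
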