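import Pool.Agent.Lib.OrlovNef.Datum

/-!
# The isometry of primitive parts induced by a Mukai isometry
-/

set_option autoImplicit false

open scoped TensorProduct ComplexOrder

namespace Pool.Agent.Lib.OrlovNef

open Pool.Agent.Lib.OrlovSig

namespace HL

variable {d : ℕ} {V V' : Type*} [AddCommGroup V] [Module ℚ V] [AddCommGroup V'] [Module ℚ V']

theorem Deg.eq_zero {X : HL d V} {k : ℕ} {f : Module.End ℚ V} (hf : X.Deg k f) (hk : d < k) :
    f = 0 := by
  apply X.ext_pr
  intro j x
  have h1 : f * X.pr j = 0 := by rw [hf.2, X.pr_top _ (by omega), zero_mul]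
  exact LinearMap.congr_fun h1 x

theorem Nef.op_dual {X : HL d V} (P : X.Nef) (x : V) :
    P.op (X.dual x) = -X.dual (P.op x) := by
  have h : P.op ∘ₗ X.dual = -(X.dual ∘ₗ P.op) := by
    apply X.ext_pr
    intro j x
    have h1 : P.op (X.pr j x) = X.pr (j + 2) (P.op x) := by
      have := P.op_pow_pr 1 j x
      rwa [pow_one, mul_one] at this
    rw [LinearMap.comp_apply, LinearMap.neg_apply, LinearMap.comp_apply, X.dual_pr, map_smul, h1,
      X.dual_pr, Nat.add_div_right _ (by norm_num), pow_succ]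
    simp
  exact LinearMap.congr_fun h x

theorem Nef.op_pow_dual {X : HL d V} (P : X.Nef) (n : ℕ) (x : V) :
    (P.op ^ n) (X.dual x) = (-1 : ℚ) ^ n • X.dual ((P.op ^ n) x) := by
  induction n with
  | zero => simp
  | succ n ih =>
    rw [pow_succ', Module.End.mul_apply, ih, map_smul, Module.End.mul_apply, P.op_dual, pow_succ,
      smul_neg]
    simp

theorem Nef.op_pow_expHalf {X : HL d V} (P : X.Nef) (n : ℕ) (x : V) :
    (P.op ^ n) (X.expHalf x) = X.expHalf ((P.op ^ n) x) := by
  unfold expHalf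
  rw [LinearMap.sum_apply, LinearMap.sum_apply, map_sum]
  refine Finset.sum_congr rfl (fun k _ => ?_)
  rw [LinearMap.smul_apply, LinearMap.smul_apply, map_smul, P.op_pow_can_pow]

theorem Nef.mukai_op_pow {X : HL d V} (P : X.Nef) (n : ℕ) (x y : V) :
    X.mukai x ((P.op ^ n) y) = (-1 : ℚ) ^ n * X.mukai ((P.op ^ n) x) y := by
  unfold mukai
  rw [← P.op_pow_expHalf, ← P.op_pow_pair, P.op_pow_dual, map_smul, LinearMap.smul_apply,
    smul_eq_mul]

/-- The pairing `⟨x, N ^ m y⟩` on `ker N ^ (m + 1)` does not see low elements on the right. -/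
theorem Nef.mukai_low_right {X : HL d V} (P : X.Nef) {m : ℕ} {x y : V}
    (hx : (P.op ^ (m + 1)) x = 0) (hy : Low P.op m y) : X.mukai x ((P.op ^ m) y) = 0 := by
  obtain ⟨a, b, ha, rfl⟩ := hy
  have e1 : (P.op ^ m) (a + P.op • b) = (P.op ^ (m + 1)) b := by
    rw [map_add, pow_succ]
    change (P.op ^ m) • a + (P.op ^ m) (P.op b) = _
    rw [ha, zero_add]
    rfl
  rw [e1, P.mukai_op_pow, hx]
  unfold mukai
  rw [map_zero, map_zero, LinearMap.zero_apply, mul_zero]

/-- The pairing `⟨x, N ^ m y⟩` on `ker N ^ (m + 1)` does not see low elements on the left. -/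
theorem Nef.mukai_low_left {X : HL d V} (P : X.Nef) {m : ℕ} {x y : V}
    (hx : Low P.op m x) (hy : (P.op ^ (m + 1)) y = 0) : X.mukai x ((P.op ^ m) y) = 0 := by
  obtain ⟨a, b, ha, rfl⟩ := hx
  have e1 : (P.op ^ m) (a + P.op • b) = (P.op ^ (m + 1)) b := by
    rw [map_add, pow_succ]
    change (P.op ^ m) • a + (P.op ^ m) (P.op b) = _
    rw [ha, zero_add]
    rfl
  have e2 : X.mukai ((P.op ^ (m + 1)) b) y = (-1 : ℚ) ^ (m + 1) * X.mukai b ((P.op ^ (m + 1)) y) := by
    rw [P.mukai_op_pow, ← mul_assoc, ← pow_add, ← two_mul, pow_mul]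
    norm_num
  rw [P.mukai_op_pow, e1, e2, hy]
  unfold mukai
  rw [map_zero, map_zero, mul_zero, mul_zero]

theorem mukai_sub_left (X : HL d V) (x x' y : V) :
    X.mukai (x - x') y = X.mukai x y - X.mukai x' y := by
  unfold mukai
  rw [map_sub, map_sub, LinearMap.sub_apply]

theorem mukai_sub_right (X : HL d V) (x y y' : V) :
    X.mukai x (y - y') = X.mukai x y - X.mukai x y' := by
  unfold mukai
  rw [map_sub, map_sub]

section Proj

variable {X : HL d V} {P : X.Nef} {m : ℕ} {g : Module.End ℚ V}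

theorem IsProj.mukai_g (h : IsProj P m g) {x y : V} (hx : (P.op ^ (m + 1)) x = 0)
    (hy : (P.op ^ (m + 1)) y = 0) :
    X.mukai (g x) ((P.op ^ m) (g y)) = X.mukai x ((P.op ^ m) y) := by
  have h1 := P.mukai_low_left (h.low_sub hx) (y := g y) (h.kill_apply y)
  have h2 := P.mukai_low_right hx (h.low_sub hy)
  rw [mukai_sub_left, sub_eq_zero] at h1
  rw [map_sub, mukai_sub_right, sub_eq_zero] at h2
  rw [← h1, ← h2]

variable [FiniteDimensional ℚ V]

theorem IsProj.inc_dual (h : IsProj P m g) (hm : m ≤ d) (x : LinearMap.range g) :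
    inc g ((primHL h hm).dual x) = X.dual (inc g x) := by
  unfold dual
  rw [LinearMap.sum_apply, LinearMap.sum_apply, map_sum]
  calc ∑ j ∈ Finset.range (2 * (d - m) + 1), inc g (((-1 : ℚ) ^ (j / 2) • (primHL h hm).pr j) x)
      = ∑ j ∈ Finset.range (2 * (d - m) + 1), ((-1 : ℚ) ^ (j / 2) • X.pr j) (inc g x) := by
        refine Finset.sum_congr rfl (fun j _ => ?_)
        rw [LinearMap.smul_apply, map_smul, LinearMap.smul_apply]
        congr 1
        exact h.inc_pr j x
    _ = ∑ j ∈ Finset.range (2 * d + 1), ((-1 : ℚ) ^ (j / 2) • X.pr j) (inc g x) :=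
        Finset.sum_subset (Finset.range_subset_range.2 (by omega)) (fun j _ hj => by
          rw [Finset.mem_range, not_lt] at hj
          rw [LinearMap.smul_apply, h.pr_high hm j (by omega) x, smul_zero])

theorem IsProj.mukai_prim (h : IsProj P m g) (hm : m ≤ d) (x y : LinearMap.range g) :
    (primHL h hm).mukai x y = X.mukai (inc g x) ((P.op ^ m) (inc g y)) := by
  have hd : (P.op ^ (m + 1)) (X.dual (inc g x)) = 0 := by
    rw [← h.inc_dual hm]
    exact h.kill_inc _
  have e1 : (primHL h hm).mukai x y = ∑ n ∈ Finset.range (d - m + 1),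
      ((2 : ℚ) ^ n * n.factorial)⁻¹ * X.pair (X.dual (inc g x))
        ((P.op ^ m) ((X.can ^ n) (inc g y))) := by
    unfold mukai expHalf
    rw [LinearMap.sum_apply, map_sum]
    refine Finset.sum_congr rfl (fun n _ => ?_)
    rw [LinearMap.smul_apply, map_smul, smul_eq_mul]
    congr 1
    have h2 := h.inc_ind_pow (f := X.can) P.op_can n y
    have h3 : (primHL h hm).pair ((primHL h hm).dual x) (((primHL h hm).can ^ n) y) =
        X.pair (inc g ((primHL h hm).dual x)) ((P.op ^ m) (inc g ((ind g X.can ^ n) y))) := rfl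
    rw [h3, h.inc_dual hm, h2.1, h.pair_right hd h2.2]
  have e2 : X.mukai (inc g x) ((P.op ^ m) (inc g y)) = ∑ n ∈ Finset.range (d + 1),
      ((2 : ℚ) ^ n * n.factorial)⁻¹ * X.pair (X.dual (inc g x))
        ((P.op ^ m) ((X.can ^ n) (inc g y))) := by
    unfold mukai expHalf
    rw [LinearMap.sum_apply, map_sum]
    refine Finset.sum_congr rfl (fun n _ => ?_)
    rw [LinearMap.smul_apply, map_smul, smul_eq_mul, P.op_pow_can_pow]
  rw [e1, e2]
  refine Finset.sum_subset (Finset.range_subset_range.2 (by omega)) (fun n _ hn => ?_)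
  rw [Finset.mem_range, not_lt] at hn
  have hcan : X.Deg 1 X.can := ⟨X.isHodge_can, fun j => by rw [mul_one]; exact X.can_pr j⟩
  have h4 : P.op ^ m * X.can ^ n = 0 := ((P.deg.pow m).mul (hcan.pow n)).eq_zero (by omega)
  have h5 := LinearMap.congr_fun h4 (inc g y)
  rw [Module.End.mul_apply, LinearMap.zero_apply] at h5
  rw [h5, map_zero, mul_zero]

theorem IsProj.incC_col (h : IsProj P m g) (hm : m ≤ d) (c : ℤ) (x : ℂ ⊗[ℚ] LinearMap.range g) :
    (inc g).baseChange ℂ ((primHL h hm).col c x) = X.col c ((inc g).baseChange ℂ x) := by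
  have h1 : (inc g).baseChange ℂ ∘ₗ (primHL h hm).col c =
      X.col c ∘ₗ (inc g).baseChange ℂ := by
    apply (primHL h hm).ext_hp
    intro p q y
    rw [LinearMap.comp_apply, LinearMap.comp_apply, (primHL h hm).col_hp]
    have h2 : (inc g).baseChange ℂ ((primHL h hm).hp p q y) =
        X.hp p q ((inc g).baseChange ℂ y) := h.incC_hpU p q y
    rw [h2, X.col_hp]
    split_ifs
    · exact h2
    · rw [map_zero]
  exact LinearMap.congr_fun h1 x

end Proj

section Two

variable {X : HL d V} {X' : HL d V'} {P : X.Nef} {P' : X'.Nef} {m : ℕ} {g : Module.End ℚ V}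
  {g' : Module.End ℚ V'}

/-- The map between primitive parts induced by `f`. -/
noncomputable def indMap (g : Module.End ℚ V) (g' : Module.End ℚ V') (f : V →ₗ[ℚ] V') :
    LinearMap.range g →ₗ[ℚ] LinearMap.range g' := prj g' ∘ₗ f ∘ₗ inc g

theorem inc_indMap (g : Module.End ℚ V) (g' : Module.End ℚ V') (f : V →ₗ[ℚ] V')
    (x : LinearMap.range g) : inc g' (indMap g g' f x) = g' (f (inc g x)) := rfl

theorem incC_indMap (g : Module.End ℚ V) (g' : Module.End ℚ V') (f : V →ₗ[ℚ] V')
    (x : ℂ ⊗[ℚ] LinearMap.range g) :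
    (inc g').baseChange ℂ ((indMap g g' f).baseChange ℂ x) =
      g'.baseChange ℂ (f.baseChange ℂ ((inc g).baseChange ℂ x)) := by
  unfold indMap
  rw [LinearMap.baseChange_comp, LinearMap.comp_apply, incC_prjC, LinearMap.baseChange_comp,
    LinearMap.comp_apply]

theorem op_pow_comm {f : V →ₗ[ℚ] V'} (hf : ∀ x, f (P.op x) = P'.op (f x)) (k : ℕ) (x : V) :
    f ((P.op ^ k) x) = (P'.op ^ k) (f x) := by
  induction k with
  | zero => rfl
  | succ k ih => rw [pow_succ', Module.End.mul_apply, hf, ih, pow_succ']; rfl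

theorem indMap_indMap (h : IsProj P m g) (h' : IsProj P' m g') {f : V →ₗ[ℚ] V'} {f' : V' →ₗ[ℚ] V}
    (hf : ∀ x, f (P.op x) = P'.op (f x)) (hf' : ∀ x, f' (P'.op x) = P.op (f' x))
    (hff : ∀ x, f' (f x) = x) (x : LinearMap.range g) :
    indMap g' g f' (indMap g g' f x) = x := by
  apply Subtype.ext
  have e : inc g (indMap g' g f' (indMap g g' f x)) = inc g x := by
    rw [inc_indMap, inc_indMap]
    have h1 : (P'.op ^ (m + 1)) (f (inc g x)) = 0 := by
      rw [← op_pow_comm hf, h.kill_inc, map_zero]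
    have h2 := h'.low_sub h1
    have h3 : Low P.op m (f' (f (inc g x) - g' (f (inc g x)))) :=
      h2.map f'.toAddMonoidHom (fun y => hf' y)
    have h4 : (P.op ^ (m + 1)) (f' (f (inc g x) - g' (f (inc g x)))) = 0 := by
      rw [← op_pow_comm hf', map_sub, h1, h'.kill_apply, sub_zero, map_zero]
    have h5 := (h.low _ h4).2 h3
    rw [map_sub, map_sub, hff, h.g_inc, sub_eq_zero] at h5
    exact h5.symm
  exact e

/-- The isomorphism between primitive parts induced by an isomorphism. -/
noncomputable def indEquiv (h : IsProj P m g) (h' : IsProj P' m g') (u : V ≃ₗ[ℚ] V')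
    (hN : ∀ x, u (P.op x) = P'.op (u x)) : LinearMap.range g ≃ₗ[ℚ] LinearMap.range g' :=
  have hN' : ∀ x, u.symm (P'.op x) = P.op (u.symm x) := fun x => by
    rw [LinearEquiv.symm_apply_eq, hN, LinearEquiv.apply_symm_apply]
  LinearEquiv.ofLinearMap (indMap g g' u.toLinearMap) (indMap g' g u.symm.toLinearMap)
    (LinearMap.ext (fun x => indMap_indMap h' h hN' hN (fun y => u.apply_symm_apply y) x))
    (LinearMap.ext (fun x => indMap_indMap h h' hN hN' (fun y => u.symm_apply_apply y) x))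

theorem indEquiv_apply (h : IsProj P m g) (h' : IsProj P' m g') (u : V ≃ₗ[ℚ] V')
    (hN : ∀ x, u (P.op x) = P'.op (u x)) (x : LinearMap.range g) :
    indEquiv h h' u hN x = indMap g g' u.toLinearMap x := rfl

variable [FiniteDimensional ℚ V] [FiniteDimensional ℚ V']

theorem indMap_isHodge (h : IsProj P m g) (h' : IsProj P' m g') (hm : m ≤ d) {f : V →ₗ[ℚ] V'}
    (hf : X.IsHodge X' f) : (primHL h hm).IsHodge (primHL h' hm) (indMap g g' f) := by
  intro c x
  apply h'.incC_inj
  rw [incC_indMap, h.incC_col, hf, h'.deg.1, h'.incC_col, incC_indMap]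

theorem indEquiv_mukai (h : IsProj P m g) (h' : IsProj P' m g') (hm : m ≤ d) (u : V ≃ₗ[ℚ] V')
    (hN : ∀ x, u (P.op x) = P'.op (u x)) (hmk : ∀ x y, X'.mukai (u x) (u y) = X.mukai x y)
    (x y : LinearMap.range g) :
    (primHL h' hm).mukai (indEquiv h h' u hN x) (indEquiv h h' u hN y) =
      (primHL h hm).mukai x y := by
  have hk : ∀ z : LinearMap.range g, (P'.op ^ (m + 1)) (u (inc g z)) = 0 := by
    intro z
    have := op_pow_comm (P := P) (P' := P') (f := u.toLinearMap) hN (m + 1) (inc g z)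
    rw [h.kill_inc, map_zero] at this
    exact this.symm
  rw [h'.mukai_prim, h.mukai_prim, indEquiv_apply, indEquiv_apply, inc_indMap, inc_indMap]
  simp only [LinearEquiv.coe_coe]
  rw [h'.mukai_g (hk x) (hk y)]
  have := op_pow_comm (P := P) (P' := P') (f := u.toLinearMap) hN m (inc g y)
  change X'.mukai (u (inc g x)) ((P'.op ^ m) (u (inc g y))) = _
  rw [← hmk]
  congr 1
  exact this.symm

end Two

end HL

end Pool.Agent.Lib.OrlovNef
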