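import Pool.Agent.Lib.OrlovNef.Induced

/-!
# The primitive decomposition and the assembly of isomorphisms
-/

set_option autoImplicit false

open scoped TensorProduct ComplexOrder

namespace Pool.Agent.Lib.OrlovNef

open Pool.Agent.Lib.OrlovSig

namespace HL

variable {d : ℕ} {V V' : Type*} [AddCommGroup V] [Module ℚ V] [AddCommGroup V'] [Module ℚ V']

theorem Nef.op_pow_zero {X : HL d V} (P : X.Nef) {k : ℕ} (hk : d < k) : P.op ^ k = 0 :=
  (P.deg.pow k).eq_zero hk

/-- The index set of the primitive decomposition: pairs `(m, k)` with `k ≤ m ≤ d`. -/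
abbrev Idx (d : ℕ) : Type := (m : Fin (d + 1)) × Fin ((m : ℕ) + 1)

/-- A choice of projectors. -/
def Fam {X : HL d V} (P : X.Nef) (g : ℕ → Module.End ℚ V) : Prop := ∀ m, IsProj P m (g m)

theorem exists_fam [FiniteDimensional ℚ V] {X : HL d V} (P : X.Nef) :
    ∃ g : ℕ → Module.End ℚ V, Fam P g := by
  choose g hg using fun m => exists_isProj P m
  exact ⟨g, hg⟩

/-- The map `x ↦ N ^ k x` on the `m`-th primitive part. -/
noncomputable def strand {X : HL d V} (P : X.Nef) (g : ℕ → Module.End ℚ V) (i : Idx d) :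
    LinearMap.range (g i.1) →ₗ[ℚ] V := (P.op ^ (i.2 : ℕ)) ∘ₗ inc (g i.1)

/-- The sum of the strands. -/
noncomputable def total {X : HL d V} (P : X.Nef) (g : ℕ → Module.End ℚ V) :
    ((i : Idx d) → LinearMap.range (g i.1)) →ₗ[ℚ] V :=
  ∑ i : Idx d, strand P g i ∘ₗ LinearMap.proj i

theorem total_apply {X : HL d V} (P : X.Nef) (g : ℕ → Module.End ℚ V)
    (x : (i : Idx d) → LinearMap.range (g i.1)) :
    total P g x = ∑ i : Idx d, (P.op ^ (i.2 : ℕ)) (inc (g i.1) (x i)) := by
  unfold total strand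
  rw [LinearMap.sum_apply]
  rfl

theorem total_single {X : HL d V} (P : X.Nef) (g : ℕ → Module.End ℚ V) (i : Idx d)
    (w : LinearMap.range (g i.1)) : total P g (Pi.single i w) = strand P g i w := by
  unfold total
  rw [LinearMap.sum_apply, Finset.sum_eq_single_of_mem i (Finset.mem_univ i)]
  · simp
  · intro j _ hj
    rw [LinearMap.comp_apply, LinearMap.proj_apply, Pi.single_eq_of_ne hj, map_zero]

theorem Fam.pow_kill {X : HL d V} {P : X.Nef} {g : ℕ → Module.End ℚ V} (h : Fam P g) (m k : ℕ)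
    (hk : m < k) (x : LinearMap.range (g m)) : (P.op ^ k) (inc (g m) x) = 0 := by
  obtain ⟨l, rfl⟩ : ∃ l, k = l + (m + 1) := ⟨k - (m + 1), by omega⟩
  rw [pow_add, Module.End.mul_apply, (h m).kill_inc, map_zero]

/-- A family of primitive elements with `∑ N ^ m y_m = 0` vanishes. -/
theorem Fam.vanish {X : HL d V} {P : X.Nef} {g : ℕ → Module.End ℚ V} (h : Fam P g)
    (y : ℕ → V) (hy : ∀ m, g m (y m) = y m)
    (hsum : ∑ m ∈ Finset.range (d + 1), (P.op ^ m) (y m) = 0) : ∀ m ≤ d, y m = 0 := by
  intro m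
  induction m using Nat.strong_induction_on with
  | _ m ih =>
  intro hm
  have h1 : ∑ k ∈ Finset.range (d + 1), (P.op ^ k) (y k) =
      (P.op ^ m) (y m) + ∑ k ∈ Finset.Ico (m + 1) (d + 1), (P.op ^ k) (y k) := by
    rw [Finset.range_eq_Ico, ← Finset.sum_Ico_consecutive _ (Nat.zero_le (m + 1)) (by omega),
      Finset.sum_Ico_succ_top (Nat.zero_le m), Finset.sum_eq_zero, zero_add]
    intro k hk
    rw [Finset.mem_Ico] at hk
    rw [ih k hk.2 (by omega), map_zero]
  set w : V := ∑ k ∈ Finset.Ico (m + 1) (d + 1), (P.op ^ (k - (m + 1))) (y k) with hw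
  have h2 : ∑ k ∈ Finset.Ico (m + 1) (d + 1), (P.op ^ k) (y k) = (P.op ^ (m + 1)) w := by
    rw [hw, map_sum]
    refine Finset.sum_congr rfl (fun k hk => ?_)
    rw [Finset.mem_Ico] at hk
    rw [← Module.End.mul_apply, ← pow_add]
    congr 2
    omega
  rw [h1, h2] at hsum
  have h3 : Low P.op m (y m) := by
    refine ⟨y m + P.op w, -w, ?_, ?_⟩
    · change (P.op ^ m) (y m + P.op w) = 0
      rw [map_add, ← hsum, pow_succ, Module.End.mul_apply]
    · change y m = y m + P.op w + P.op (-w)
      rw [map_neg]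
      abel
  have h4 : (P.op ^ (m + 1)) (y m) = 0 := by
    rw [← hy m, (h m).kill_apply]
  rw [← hy m]
  exact ((h m).low _ h4).2 h3

theorem Fam.total_injective {X : HL d V} {P : X.Nef} {g : ℕ → Module.End ℚ V} (h : Fam P g) :
    Function.Injective (total P g) := by
  rw [injective_iff_map_eq_zero]
  intro x hx
  have key : ∀ s ≤ d + 1, ∀ i : Idx d, d + 1 ≤ (i.1 : ℕ) - (i.2 : ℕ) + s → x i = 0 := by
    intro s
    induction s with
    | zero =>
      rintro - ⟨⟨m, hm⟩, ⟨k, hk⟩⟩ hi
      simp only at hi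
      omega
    | succ s ih =>
      intro hs
      have ih' := ih (by omega)
      set t := d - s with ht
      set y : ℕ → V := fun m => if hmt : t ≤ m ∧ m ≤ d then
        inc (g m) (x ⟨⟨m, by omega⟩, ⟨m - t, by simp only; omega⟩⟩) else 0 with hy
      have hyg : ∀ m, g m (y m) = y m := by
        intro m
        rw [hy]
        simp only
        split_ifs with hmt
        · exact (h m).g_inc _
        · rw [map_zero]
      have hsum : ∑ m ∈ Finset.range (d + 1), (P.op ^ m) (y m) = 0 := by
        have h1 : (P.op ^ t) (total P g x) = 0 := by rw [hx, map_zero]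
        rw [total_apply, map_sum, Fintype.sum_sigma] at h1
        rw [← Fin.sum_univ_eq_sum_range (fun m => (P.op ^ m) (y m)) (d + 1), ← h1]
        refine Finset.sum_congr rfl (fun m _ => ?_)
        obtain ⟨m, hm⟩ := m
        simp only
        by_cases hmt : t ≤ m
        · rw [Finset.sum_eq_single_of_mem (⟨m - t, by omega⟩ : Fin (m + 1)) (Finset.mem_univ _)]
          · rw [hy]
            simp only
            rw [dif_pos ⟨hmt, by omega⟩, ← Module.End.mul_apply, ← pow_add]
            congr 2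
            omega
          · rintro ⟨k, hk⟩ - hne
            have hne' : k ≠ m - t := fun h' => hne (by simp only [h'])
            simp only
            rcases Nat.lt_or_ge k (m - t) with h2 | h2
            · have h3 : x ⟨⟨m, hm⟩, ⟨k, hk⟩⟩ = 0 := ih' ⟨⟨m, hm⟩, ⟨k, hk⟩⟩ (by simp only; omega)
              rw [h3, map_zero, map_zero, map_zero]
            · rw [← Module.End.mul_apply, ← pow_add]
              exact h.pow_kill m _ (by omega) _
        · rw [hy]
          simp only
          rw [dif_neg (fun h' => hmt h'.1), map_zero]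
          symm
          apply Finset.sum_eq_zero
          rintro ⟨k, hk⟩ -
          simp only
          rw [← Module.End.mul_apply, ← pow_add]
          exact h.pow_kill m _ (by omega) _
      have h5 := h.vanish y hyg hsum
      rintro ⟨⟨m, hm⟩, ⟨k, hk⟩⟩ hi
      simp only at hi hk
      rcases Nat.lt_or_ge (d + 1) (m - k + (s + 1)) with h6 | h6
      · exact ih' ⟨⟨m, hm⟩, ⟨k, hk⟩⟩ (by simp only; omega)
      · have h7 : k = m - t := by omega
        subst h7
        have h8 := h5 m (by omega)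
        rw [hy] at h8
        simp only at h8
        rw [dif_pos ⟨by omega, by omega⟩] at h8
        exact Subtype.ext h8
  funext i
  refine key (d + 1) le_rfl i ?_
  omega

theorem Fam.total_surjective {X : HL d V} {P : X.Nef} {g : ℕ → Module.End ℚ V} (h : Fam P g) :
    Function.Surjective (total P g) := by
  rw [← LinearMap.range_eq_top, Submodule.eq_top_iff']
  have c1 : ∀ m ≤ d, ∀ k (x : LinearMap.range (g m)),
      (P.op ^ k) (inc (g m) x) ∈ LinearMap.range (total P g) := by
    intro m hm k x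
    rcases Nat.lt_or_ge m k with hk | hk
    · rw [h.pow_kill m k hk]
      exact Submodule.zero_mem _
    · have h1 := total_single P g (⟨⟨m, by omega⟩, ⟨k, by simp only; omega⟩⟩ : Idx d) x
      exact ⟨_, h1⟩
  have c2 : ∀ m ≤ d + 1, ∀ x, (P.op ^ m) x = 0 → ∃ δ z : V,
      (∀ k, (P.op ^ k) δ ∈ LinearMap.range (total P g)) ∧ x = δ + P.op z := by
    intro m
    induction m with
    | zero =>
      intro _ x hx
      refine ⟨0, 0, fun k => by rw [map_zero]; exact Submodule.zero_mem _, ?_⟩
      rw [pow_zero, Module.End.one_apply] at hx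
      rw [hx, map_zero, add_zero]
    | succ m ih =>
      intro hm x hx
      obtain ⟨a, b, ha, hab⟩ := (h m).low_sub hx
      obtain ⟨δ, z, hδ, hz⟩ := ih (by omega) a ha
      refine ⟨g m x + δ, z + b, fun k => ?_, ?_⟩
      · rw [map_add]
        exact Submodule.add_mem _ (c1 m (by omega) k (prj (g m) x)) (hδ k)
      · have hab' : x - g m x = a + P.op b := hab
        rw [map_add]
        calc x = (x - g m x) + g m x := by abel
          _ = a + P.op b + g m x := by rw [hab']
          _ = _ := by rw [hz]; abel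
  have c3 : ∀ r, ∀ x, ∃ p ∈ LinearMap.range (total P g), ∃ z, x = p + (P.op ^ r) z := by
    intro r
    induction r with
    | zero => exact fun x => ⟨0, Submodule.zero_mem _, x, by simp⟩
    | succ r ih =>
      intro x
      obtain ⟨p, hp, z, hz⟩ := ih x
      obtain ⟨δ, z', hδ, hz'⟩ := c2 (d + 1) le_rfl z (by
        rw [P.op_pow_zero (Nat.lt_succ_self d), LinearMap.zero_apply])
      refine ⟨p + (P.op ^ r) δ, Submodule.add_mem _ hp (hδ r), z', ?_⟩
      rw [hz, hz', map_add, pow_succ, Module.End.mul_apply, add_assoc]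
  intro x
  obtain ⟨p, hp, z, hz⟩ := c3 (d + 1) x
  rw [P.op_pow_zero (Nat.lt_succ_self d), LinearMap.zero_apply, add_zero] at hz
  rw [hz]
  exact hp

/-- The primitive decomposition. -/
noncomputable def Fam.equiv {X : HL d V} {P : X.Nef} {g : ℕ → Module.End ℚ V} (h : Fam P g) :
    ((i : Idx d) → LinearMap.range (g i.1)) ≃ₗ[ℚ] V :=
  LinearEquiv.ofBijective (total P g) ⟨h.total_injective, h.total_surjective⟩

/-- The isomorphism assembled from isomorphisms of the primitive parts. -/
noncomputable def Fam.assemble {X : HL d V} {X' : HL d V'} {P : X.Nef} {P' : X'.Nef}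
    {g : ℕ → Module.End ℚ V} {g' : ℕ → Module.End ℚ V'} (h : Fam P g) (h' : Fam P' g')
    (F : ∀ m : Fin (d + 1), LinearMap.range (g m) ≃ₗ[ℚ] LinearMap.range (g' m)) : V ≃ₗ[ℚ] V' :=
  h.equiv.symm.trans ((LinearEquiv.piCongrRight (fun i : Idx d => F i.1)).trans h'.equiv)

theorem Fam.assemble_strand {X : HL d V} {X' : HL d V'} {P : X.Nef} {P' : X'.Nef}
    {g : ℕ → Module.End ℚ V} {g' : ℕ → Module.End ℚ V'} (h : Fam P g) (h' : Fam P' g')
    (F : ∀ m : Fin (d + 1), LinearMap.range (g m) ≃ₗ[ℚ] LinearMap.range (g' m)) (i : Idx d) :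
    (h.assemble h' F).toLinearMap ∘ₗ strand P g i = strand P' g' i ∘ₗ (F i.1).toLinearMap := by
  apply LinearMap.ext
  intro w
  rw [LinearMap.comp_apply, LinearMap.comp_apply, ← total_single, LinearEquiv.coe_coe,
    LinearEquiv.coe_coe]
  have h1 : h.equiv.symm (total P g (Pi.single i w)) = Pi.single i w := h.equiv.symm_apply_apply _
  unfold Fam.assemble
  rw [LinearEquiv.trans_apply, LinearEquiv.trans_apply, h1]
  have h2 : (LinearEquiv.piCongrRight (fun i : Idx d => F i.1)) (Pi.single i w) =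
      Pi.single i (F i.1 w) := by
    funext j
    rw [LinearEquiv.piCongrRight_apply]
    by_cases hj : j = i
    · subst hj
      rw [Pi.single_eq_same, Pi.single_eq_same]
    · rw [Pi.single_eq_of_ne hj, Pi.single_eq_of_ne hj, map_zero]
  rw [h2]
  exact total_single P' g' i (F i.1 w)

theorem Nef.hp_opC_pow {X : HL d V} (P : X.Nef) (k p q : ℕ) (hk : p < k ∨ q < k)
    (y : ℂ ⊗[ℚ] V) : X.hp p q (((P.op.baseChange ℂ) ^ k) y) = 0 := by
  have h1 : X.hp p q ∘ₗ ((P.op.baseChange ℂ) ^ k) = 0 := by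
    apply X.ext_hp
    intro a b z
    rw [LinearMap.comp_apply, P.opC_pow_hp, LinearMap.zero_apply]
    apply X.hp_ne
    intro h2
    rw [Prod.mk.injEq] at h2
    omega
  exact LinearMap.congr_fun h1 y

theorem strandC {X : HL d V} (P : X.Nef) (g : ℕ → Module.End ℚ V) (i : Idx d)
    (x : ℂ ⊗[ℚ] LinearMap.range (g i.1)) : (strand P g i).baseChange ℂ x =
      ((P.op.baseChange ℂ) ^ (i.2 : ℕ)) ((inc (g i.1)).baseChange ℂ x) := by
  unfold strand
  rw [LinearMap.baseChange_comp, LinearMap.comp_apply, baseChange_pow_apply]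

theorem Fam.hp_strandC {X : HL d V} {P : X.Nef} {g : ℕ → Module.End ℚ V} (h : Fam P g)
    (i : Idx d) (p q : ℕ) (x : ℂ ⊗[ℚ] LinearMap.range (g i.1)) :
    X.hp p q ((strand P g i).baseChange ℂ x) =
      if (i.2 : ℕ) ≤ p ∧ (i.2 : ℕ) ≤ q then
        (strand P g i).baseChange ℂ (hpU X (g i.1) (p - i.2) (q - i.2) x) else 0 := by
  rw [strandC, strandC]
  split_ifs with hk
  · rw [(h i.1).incC_hpU, P.opC_pow_hp, Nat.sub_add_cancel hk.1, Nat.sub_add_cancel hk.2]
  · apply P.hp_opC_pow
    omega

/-- The assembled isomorphism respects the Hodge decompositions. -/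
theorem Fam.assemble_hp {X : HL d V} {X' : HL d V'} {P : X.Nef} {P' : X'.Nef}
    {g : ℕ → Module.End ℚ V} {g' : ℕ → Module.End ℚ V'} (h : Fam P g) (h' : Fam P' g')
    (F : ∀ m : Fin (d + 1), LinearMap.range (g m) ≃ₗ[ℚ] LinearMap.range (g' m))
    (hF : ∀ m p q x, (F m).toLinearMap.baseChange ℂ (hpU X (g m) p q x) =
      hpU X' (g' m) p q ((F m).toLinearMap.baseChange ℂ x)) (p q : ℕ) (ξ : ℂ ⊗[ℚ] V) :
    (h.assemble h' F).toLinearMap.baseChange ℂ (X.hp p q ξ) =
      X'.hp p q ((h.assemble h' F).toLinearMap.baseChange ℂ ξ) := by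
  set φ := (h.assemble h' F).toLinearMap with hφ
  have hid : ∑ i : Idx d, strand P g i ∘ₗ (LinearMap.proj i ∘ₗ h.equiv.symm.toLinearMap) =
      LinearMap.id := by
    apply LinearMap.ext
    intro v
    rw [LinearMap.sum_apply, LinearMap.id_apply]
    have h1 : total P g (h.equiv.symm v) = v := h.equiv.apply_symm_apply v
    conv_rhs => rw [← h1, total_apply]
    rfl
  have hξ : ξ = ∑ i : Idx d, (strand P g i).baseChange ℂ
      ((LinearMap.proj i ∘ₗ h.equiv.symm.toLinearMap : V →ₗ[ℚ] _).baseChange ℂ ξ) := by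
    have h1 := congrArg (fun f => f.baseChange ℂ ξ) hid
    rw [baseChange_sum', LinearMap.baseChange_id, LinearMap.sum_apply, LinearMap.id_apply] at h1
    conv_lhs => rw [← h1]
    refine Finset.sum_congr rfl (fun i _ => ?_)
    rw [LinearMap.baseChange_comp, LinearMap.comp_apply]
  have key : ∀ (i : Idx d) (η : ℂ ⊗[ℚ] LinearMap.range (g i.1)),
      φ.baseChange ℂ (X.hp p q ((strand P g i).baseChange ℂ η)) =
        X'.hp p q (φ.baseChange ℂ ((strand P g i).baseChange ℂ η)) := by
    intro i η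
    have hs : ∀ ζ, φ.baseChange ℂ ((strand P g i).baseChange ℂ ζ) =
        (strand P' g' i).baseChange ℂ ((F i.1).toLinearMap.baseChange ℂ ζ) := by
      intro ζ
      rw [← LinearMap.comp_apply, ← LinearMap.baseChange_comp, hφ, h.assemble_strand h' F i,
        LinearMap.baseChange_comp, LinearMap.comp_apply]
    rw [h.hp_strandC, hs, h'.hp_strandC]
    split_ifs with hk
    · rw [hs, hF i.1]
    · rw [map_zero]
  rw [hξ, map_sum, map_sum, map_sum, map_sum]
  exact Finset.sum_congr rfl (fun i _ => key i _)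

/-- An isomorphism that respects the Hodge decompositions gives isomorphisms in all degrees. -/
theorem hodgeIso_of_equiv (X : HL d V) (X' : HL d V') (φ : V ≃ₗ[ℚ] V')
    (hφ : ∀ p q ξ, φ.toLinearMap.baseChange ℂ (X.hp p q ξ) =
      X'.hp p q (φ.toLinearMap.baseChange ℂ ξ)) (j : ℕ) : X.HodgeIso X' j := by
  have hpr : φ.toLinearMap ∘ₗ X.pr j = X'.pr j ∘ₗ φ.toLinearMap := by
    apply baseChange_inj
    rw [LinearMap.baseChange_comp, LinearMap.baseChange_comp]
    apply LinearMap.ext
    intro ξ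
    rw [LinearMap.comp_apply, LinearMap.comp_apply, ← X.hp_sum j, ← X'.hp_sum j,
      LinearMap.sum_apply, LinearMap.sum_apply, map_sum]
    exact Finset.sum_congr rfl (fun p _ => hφ _ _ _)
  have hpr' : ∀ x, φ (X.pr j x) = X'.pr j (φ x) := fun x => LinearMap.congr_fun hpr x
  refine ⟨φ.toLinearMap ∘ₗ X.pr j, φ.symm.toLinearMap ∘ₗ X'.pr j, ?_, ?_, ?_⟩
  · apply LinearMap.ext
    intro x
    simp only [LinearMap.comp_apply, LinearEquiv.coe_coe, hpr']
    rw [← Module.End.mul_apply, X'.pr_self, ← hpr', LinearEquiv.symm_apply_apply]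
  · apply LinearMap.ext
    intro x
    simp only [LinearMap.comp_apply, LinearEquiv.coe_coe, hpr', LinearEquiv.apply_symm_apply]
    exact LinearMap.congr_fun (X'.pr_self j) x
  · intro p q hpq x
    rw [hpr, LinearMap.baseChange_comp, LinearMap.comp_apply, LinearMap.comp_apply, hφ, X'.prC_hp,
      if_pos hpq, X'.hp_prC, if_pos hpq]

end HL

end Pool.Agent.Lib.OrlovNef
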