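import Mathlib

/-!
# Polarised Lefschetz modules over an ordered field: the primitive decomposition
-/

set_option autoImplicit false

namespace Pool.Agent.Lib.OrlovNef

/-- The sign `(-1) ^ (j (j + 1) / 2)`. -/
def sgn (K : Type*) [Ring K] (j : ℕ) : K := (-1) ^ (j * (j + 1) / 2)

theorem sgn_sq (K : Type*) [CommRing K] (j : ℕ) : sgn K j * sgn K j = 1 := by
  unfold sgn
  rw [← mul_pow]
  norm_num

theorem sgn_add_two (K : Type*) [CommRing K] (j : ℕ) : sgn K (j + 2) = -sgn K j := by
  unfold sgn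
  have h : (j + 2) * (j + 2 + 1) / 2 = j * (j + 1) / 2 + (2 * j + 3) := by
    have : (j + 2) * (j + 2 + 1) = j * (j + 1) + 2 * (2 * j + 3) := by ring
    rw [this, Nat.add_mul_div_left _ _ (by norm_num)]
  rw [h, pow_add, Odd.neg_one_pow (n := 2 * j + 3) ⟨j + 1, by ring⟩]
  ring

/-- A polarised Lefschetz module of dimension `d`. -/
structure Lefs (K E : Type*) [Field K] [LinearOrder K] [AddCommGroup E] [Module K E]
    (d : ℕ) where
  /-- the projector onto the part of degree `j` -/
  pr : ℕ → Module.End K E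
  /-- the Lefschetz operator -/
  L : Module.End K E
  /-- the form -/
  b : LinearMap.BilinForm K E
  pr_sum : ∑ j ∈ Finset.range (2 * d + 1), pr j = 1
  pr_self : ∀ j, pr j * pr j = pr j
  pr_ne : ∀ i j, i ≠ j → pr i * pr j = 0
  L_pr : ∀ j, L * pr j = pr (j + 2) * L
  b_symm : ∀ x y, b x y = b y x
  b_pr : ∀ i ≤ 2 * d, ∀ x y, b (pr i x) y = b x (pr (2 * d - i) y)
  b_nondeg : ∀ x, (∀ y, b x y = 0) → x = 0
  b_L : ∀ x y, b (L x) y = b x (L y)
  pos : ∀ j ≤ d, ∀ x, pr j x = x → (L ^ (d - j + 1)) x = 0 → x ≠ 0 →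
    0 < sgn K j * b x ((L ^ (d - j)) x)

namespace Lefs

variable {K E : Type*} [Field K] [LinearOrder K] [AddCommGroup E] [Module K E] {d : ℕ}
  (X : Lefs K E d)

theorem L_pow_pr (k j : ℕ) : X.L ^ k * X.pr j = X.pr (j + 2 * k) * X.L ^ k := by
  induction k with
  | zero => simp
  | succ k ih =>
    rw [pow_succ', mul_assoc, ih, ← mul_assoc, X.L_pr, mul_assoc]
    rfl

theorem L_pow_deg (k : ℕ) {j : ℕ} {x : E} (hx : X.pr j x = x) :
    X.pr (j + 2 * k) ((X.L ^ k) x) = (X.L ^ k) x := by
  have h := LinearMap.congr_fun (X.L_pow_pr k j) x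
  rw [Module.End.mul_apply, Module.End.mul_apply, hx] at h
  exact h.symm

theorem pr_pr (i j : ℕ) (x : E) : X.pr i (X.pr j x) = if i = j then X.pr j x else 0 := by
  rw [← Module.End.mul_apply]
  split_ifs with h
  · rw [h, X.pr_self]
  · rw [X.pr_ne i j h, LinearMap.zero_apply]

theorem pr_of {i j : ℕ} {x : E} (hx : X.pr j x = x) : X.pr i x = if i = j then x else 0 := by
  conv_lhs => rw [← hx]
  rw [X.pr_pr, hx]

theorem pr_top (j : ℕ) (h : 2 * d < j) : X.pr j = 0 := by
  have h1 : X.pr j * ∑ i ∈ Finset.range (2 * d + 1), X.pr i = X.pr j := by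
    rw [X.pr_sum, mul_one]
  rw [← h1, Finset.mul_sum]
  refine Finset.sum_eq_zero (fun i hi => X.pr_ne j i ?_)
  rw [Finset.mem_range] at hi
  omega

theorem eq_zero_of_deg {j : ℕ} {x : E} (hx : X.pr j x = x) (h : 2 * d < j) : x = 0 := by
  rw [← hx, X.pr_top j h, LinearMap.zero_apply]

theorem sum_pr (x : E) : ∑ j ∈ Finset.range (2 * d + 1), X.pr j x = x := by
  rw [← LinearMap.sum_apply, X.pr_sum, Module.End.one_apply]

theorem b_L_pow (k : ℕ) (x y : E) : X.b ((X.L ^ k) x) y = X.b x ((X.L ^ k) y) := by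
  induction k generalizing x y with
  | zero => rfl
  | succ k ih =>
    rw [pow_succ', Module.End.mul_apply, X.b_L, ih, ← Module.End.mul_apply, ← pow_succ, pow_succ']

theorem b_deg {i j : ℕ} {x y : E} (hx : X.pr i x = x) (hy : X.pr j y = y)
    (h : i + j ≠ 2 * d) : X.b x y = 0 := by
  by_cases hi : i ≤ 2 * d
  · rw [← hx, X.b_pr i hi, X.pr_of hy, if_neg (by omega), map_zero]
  · rw [X.eq_zero_of_deg hx (by omega), map_zero, LinearMap.zero_apply]

/-- Hard Lefschetz. -/
theorem hard {j : ℕ} (hj : j ≤ d) {x : E} (hx : X.pr j x = x) (h : (X.L ^ (d - j)) x = 0) :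
    x = 0 := by
  by_contra hne
  have h1 := X.pos j hj x hx (by rw [pow_succ', Module.End.mul_apply, h, map_zero]) hne
  rw [h, map_zero, mul_zero] at h1
  exact lt_irrefl _ h1

theorem finrank_pr_le [FiniteDimensional K E] (i : ℕ) (hi : i ≤ 2 * d) :
    Module.finrank K (LinearMap.range (X.pr i)) ≤
      Module.finrank K (LinearMap.range (X.pr (2 * d - i))) := by
  rw [← Subspace.dual_finrank_eq (V := LinearMap.range (X.pr (2 * d - i)))]
  set F : LinearMap.range (X.pr i) →ₗ[K] Module.Dual K (LinearMap.range (X.pr (2 * d - i))) :=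
    (LinearMap.range (X.pr (2 * d - i))).subtype.dualMap ∘ₗ X.b ∘ₗ
      (LinearMap.range (X.pr i)).subtype with hF
  apply LinearMap.finrank_le_finrank_of_injective (f := F)
  rw [injective_iff_map_eq_zero]
  rintro ⟨_, ⟨x, rfl⟩⟩ h
  apply Subtype.ext
  apply X.b_nondeg
  intro y
  have h1 := LinearMap.congr_fun h ⟨X.pr (2 * d - i) y, ⟨y, rfl⟩⟩
  have h2 : X.b (X.pr i x) (X.pr (2 * d - i) y) = 0 := by simpa [hF] using h1
  rw [← X.b_pr i hi, X.pr_pr, if_pos rfl] at h2
  exact h2

theorem finrank_pr_eq [FiniteDimensional K E] (i : ℕ) (hi : i ≤ 2 * d) :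
    Module.finrank K (LinearMap.range (X.pr i)) =
      Module.finrank K (LinearMap.range (X.pr (2 * d - i))) := by
  apply le_antisymm (X.finrank_pr_le i hi)
  have := X.finrank_pr_le (2 * d - i) (by omega)
  rwa [show 2 * d - (2 * d - i) = i by omega] at this

/-- inverse of the Lefschetz isomorphism -/
theorem exists_theta [FiniteDimensional K E] (j : ℕ) (hj : j ≤ d) :
    ∃ θ : Module.End K E, (∀ x, X.pr j x = x → θ ((X.L ^ (d - j)) x) = x) ∧
      (∀ x, X.pr j (θ x) = θ x) ∧
      (∀ x, X.pr (2 * d - j) x = x → (X.L ^ (d - j)) (θ x) = x) := by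
  have hL := X.L_pow_pr (d - j) j
  rw [show j + 2 * (d - j) = 2 * d - j by omega] at hL
  have hmem : ∀ x : LinearMap.range (X.pr j),
      ((X.L ^ (d - j)) ∘ₗ (LinearMap.range (X.pr j)).subtype) x ∈
        LinearMap.range (X.pr (2 * d - j)) := by
    rintro ⟨_, ⟨x, rfl⟩⟩
    refine ⟨(X.L ^ (d - j)) x, ?_⟩
    have := LinearMap.congr_fun hL x
    simpa using this.symm
  set F : LinearMap.range (X.pr j) →ₗ[K] LinearMap.range (X.pr (2 * d - j)) :=
    LinearMap.codRestrict _ ((X.L ^ (d - j)) ∘ₗ (LinearMap.range (X.pr j)).subtype) hmem with hF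
  have hFapp : ∀ x, ((F x : LinearMap.range (X.pr (2 * d - j))) : E) =
      (X.L ^ (d - j)) (x : E) := fun x => rfl
  have hFinj : Function.Injective F := by
    rw [injective_iff_map_eq_zero]
    rintro ⟨_, ⟨x, rfl⟩⟩ h
    apply Subtype.ext
    apply X.hard hj (by rw [X.pr_pr, if_pos rfl])
    have := congrArg Subtype.val h
    rw [hFapp] at this
    exact this
  set e := LinearMap.linearEquivOfInjective F hFinj (X.finrank_pr_eq j (by omega)) with he
  have heF : ∀ x, e x = F x := fun x => rfl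
  have hr : ∀ (i : ℕ) (x : E) (hx : X.pr i x = x), (X.pr i).rangeRestrict x = ⟨x, ⟨x, hx⟩⟩ := by
    intro i x hx
    apply Subtype.ext
    exact hx
  refine ⟨(LinearMap.range (X.pr j)).subtype ∘ₗ e.symm.toLinearMap ∘ₗ
    (X.pr (2 * d - j)).rangeRestrict, ?_, ?_, ?_⟩
  · intro x hx
    have h1 : (X.pr (2 * d - j)).rangeRestrict ((X.L ^ (d - j)) x) = e ⟨x, ⟨x, hx⟩⟩ := by
      apply Subtype.ext
      rw [heF, hFapp]
      have h2 := X.L_pow_deg (d - j) hx
      rw [show j + 2 * (d - j) = 2 * d - j by omega] at h2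
      exact h2
    simp only [LinearMap.comp_apply, h1, LinearEquiv.coe_coe, LinearEquiv.symm_apply_apply]
    rfl
  · intro x
    have h1 : ∀ w : LinearMap.range (X.pr j), X.pr j (w : E) = w := by
      rintro ⟨_, ⟨x, rfl⟩⟩
      exact LinearMap.congr_fun (X.pr_self j) x
    exact h1 _
  · intro x hx
    have h1 : ∀ w : LinearMap.range (X.pr (2 * d - j)),
        (X.L ^ (d - j)) ((e.symm w : LinearMap.range (X.pr j)) : E) = w := by
      intro w
      rw [← hFapp, ← heF, LinearEquiv.apply_symm_apply]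
    simp only [LinearMap.comp_apply, Submodule.subtype_apply]
    rw [LinearEquiv.coe_coe, h1]
    exact hx

/-- `x` is primitive of degree `j`. -/
structure IsPrim (j : ℕ) (x : E) : Prop where
  le : j ≤ d
  deg : X.pr j x = x
  kill : (X.L ^ (d - j + 1)) x = 0

theorem IsPrim.kill_of_lt {j : ℕ} {x : E} (h : X.IsPrim j x) {n : ℕ} (hn : d - j < n) :
    (X.L ^ n) x = 0 := by
  obtain ⟨m, rfl⟩ : ∃ m, n = m + (d - j + 1) := ⟨n - (d - j + 1), by omega⟩
  rw [pow_add, Module.End.mul_apply, h.kill, map_zero]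

theorem IsPrim.zero {j : ℕ} (hj : j ≤ d) : X.IsPrim j 0 := ⟨hj, map_zero _, map_zero _⟩

theorem IsPrim.add {j : ℕ} {x y : E} (hx : X.IsPrim j x) (hy : X.IsPrim j y) :
    X.IsPrim j (x + y) :=
  ⟨hx.le, by rw [map_add, hx.deg, hy.deg], by rw [map_add, hx.kill, hy.kill, add_zero]⟩

section Fin

variable [FiniteDimensional K E]

open Classical in
/-- The inverse of `L ^ (d - j)` on the part of degree `2 d - j`. -/
noncomputable def th (j : ℕ) : Module.End K E :=
  if h : j ≤ d then (X.exists_theta j h).choose else 0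

theorem th_L {j : ℕ} (hj : j ≤ d) {x : E} (hx : X.pr j x = x) :
    X.th j ((X.L ^ (d - j)) x) = x := by
  unfold th
  rw [dif_pos hj]
  exact (X.exists_theta j hj).choose_spec.1 x hx

theorem pr_th (j : ℕ) (x : E) : X.pr j (X.th j x) = X.th j x := by
  unfold th
  split_ifs with hj
  · exact (X.exists_theta j hj).choose_spec.2.1 x
  · rw [LinearMap.zero_apply, map_zero]

theorem L_th {j : ℕ} (hj : j ≤ d) {x : E} (hx : X.pr (2 * d - j) x = x) :
    (X.L ^ (d - j)) (X.th j x) = x := by
  unfold th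
  rw [dif_pos hj]
  exact (X.exists_theta j hj).choose_spec.2.2 x hx

/-- The projector onto the primitive part of degree `j`. -/
noncomputable def rho (j : ℕ) : Module.End K E :=
  if 2 ≤ j then X.pr j - X.L * X.th (j - 2) * X.L ^ (d - j + 1) * X.pr j else X.pr j

theorem rho_isPrim {j : ℕ} (hj : j ≤ d) {x : E} (hx : X.pr j x = x) : X.IsPrim j (X.rho j x) := by
  have h0 := X.L_pow_deg (d - j + 1) hx
  unfold rho
  split_ifs with h2
  · have h1 : X.pr (2 * d - (j - 2)) ((X.L ^ (d - j + 1)) x) = (X.L ^ (d - j + 1)) x := by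
      rwa [show 2 * d - (j - 2) = j + 2 * (d - j + 1) by omega]
    refine ⟨hj, ?_, ?_⟩
    · simp only [LinearMap.sub_apply, Module.End.mul_apply, hx, map_sub]
      congr 1
      have h3 := X.L_pow_deg 1 (X.pr_th (j - 2) ((X.L ^ (d - j + 1)) x))
      rw [pow_one, show j - 2 + 2 * 1 = j by omega] at h3
      exact h3
    · simp only [LinearMap.sub_apply, Module.End.mul_apply, hx, map_sub]
      rw [sub_eq_zero, ← Module.End.mul_apply, ← pow_succ,
        show d - j + 1 + 1 = d - (j - 2) by omega, X.L_th (by omega) h1]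
  · refine ⟨hj, by rw [hx, hx], ?_⟩
    rw [hx]
    exact X.eq_zero_of_deg h0 (by omega)

theorem rho_of_isPrim {j : ℕ} {x : E} (hx : X.IsPrim j x) : X.rho j x = x := by
  unfold rho
  split_ifs with h2
  · simp only [LinearMap.sub_apply, Module.End.mul_apply, hx.deg, hx.kill, map_zero, sub_zero]
  · exact hx.deg

theorem rho_L {j : ℕ} (hj : j + 2 ≤ d) {x : E} (hx : X.pr j x = x) :
    X.rho (j + 2) (X.L x) = 0 := by
  have h0 := X.L_pow_deg 1 hx
  rw [pow_one, mul_one] at h0
  unfold rho
  rw [if_pos (by omega)]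
  simp only [LinearMap.sub_apply, Module.End.mul_apply, h0]
  rw [← Module.End.mul_apply (X.L ^ (d - (j + 2) + 1)), ← pow_succ,
    show d - (j + 2) + 1 + 1 = d - j by omega, show j + 2 - 2 = j by omega,
    X.th_L (by omega) hx, sub_self]

/-- The component of `x` on the strand `(j, r)`, a primitive vector of degree `j`. -/
noncomputable def cmp (j r : ℕ) : Module.End K E :=
  if j + r ≤ d then X.rho j * X.th j * X.L ^ (d - j - r) * X.pr (j + 2 * r) else 0

theorem cmp_isPrim {j : ℕ} (hj : j ≤ d) (r : ℕ) (x : E) : X.IsPrim j (X.cmp j r x) := by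
  unfold cmp
  split_ifs with h
  · exact X.rho_isPrim hj (X.pr_th _ _)
  · exact IsPrim.zero X hj

theorem cmp_strand (i j r s : ℕ) {y : E} (hy : X.IsPrim i y) (hs : i + s ≤ d) :
    X.cmp j r ((X.L ^ s) y) = if i = j ∧ s = r then y else 0 := by
  have h0 := X.L_pow_deg s hy.deg
  unfold cmp
  by_cases h : j + r ≤ d
  · rw [if_pos h]
    simp only [Module.End.mul_apply]
    rw [X.pr_of h0]
    by_cases h1 : j + 2 * r = i + 2 * s
    · rw [if_pos h1, ← Module.End.mul_apply (X.L ^ (d - j - r)), ← pow_add]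
      rcases Nat.lt_trichotomy s r with h2 | h2 | h2
      · rw [hy.kill_of_lt X (by omega), map_zero, map_zero, if_neg (by omega)]
      · subst h2
        obtain rfl : i = j := by omega
        rw [if_pos ⟨rfl, rfl⟩, show d - i - s + s = d - i by omega, X.th_L hy.le hy.deg,
          X.rho_of_isPrim hy]
      · rw [if_neg (by omega)]
        obtain ⟨e, rfl⟩ : ∃ e, s = r + (e + 1) := ⟨s - r - 1, by omega⟩
        have h3 := X.L_pow_deg e hy.deg
        have h4 := X.L_pow_deg (e + 1) hy.deg
        rw [show i + 2 * (e + 1) = j by omega] at h4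
        rw [show d - j - r + (r + (e + 1)) = (d - j) + (e + 1) by omega, pow_add,
          Module.End.mul_apply, X.th_L (by omega) h4, pow_succ', Module.End.mul_apply]
        have h5 := X.rho_L (j := i + 2 * e) (by omega) h3
        rwa [show i + 2 * e + 2 = j by omega] at h5
    · rw [if_neg h1, map_zero, map_zero, map_zero, if_neg (by omega)]
  · rw [if_neg h, LinearMap.zero_apply, if_neg (by omega)]

/-- Every vector is a sum of vectors on strands. -/
theorem strand_induction {P : E → Prop} (h0 : P 0) (hadd : ∀ x y, P x → P y → P (x + y))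
    (hs : ∀ i s y, X.IsPrim i y → i + s ≤ d → P ((X.L ^ s) y)) (x : E) : P x := by
  have hs' : ∀ i s y, X.IsPrim i y → P ((X.L ^ s) y) := by
    intro i s y hy
    by_cases h : i + s ≤ d
    · exact hs i s y hy h
    · rw [hy.kill_of_lt X (by have := hy.le; omega)]
      exact h0
  have h1 : ∀ j ≤ d, ∀ x, X.pr j x = x → ∀ n, P ((X.L ^ n) x) := by
    intro j
    induction j using Nat.strong_induction_on with
    | _ j ih =>
      intro hj x hx n
      by_cases h2 : 2 ≤ j
      · have e1 : x = X.rho j x + X.L (X.th (j - 2) ((X.L ^ (d - j + 1)) x)) := by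
          unfold rho
          rw [if_pos h2]
          simp only [LinearMap.sub_apply, Module.End.mul_apply, hx]
          abel
        rw [e1, map_add]
        apply hadd
        · exact hs' j n _ (X.rho_isPrim hj hx)
        · rw [← Module.End.mul_apply, ← pow_succ]
          exact ih (j - 2) (by omega) (by omega) _ (X.pr_th _ _) _
      · have e1 : X.rho j x = x := by
          unfold rho
          rw [if_neg h2, hx]
        have h3 := X.rho_isPrim hj hx
        rw [e1] at h3
        exact hs' j n x h3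
  have h2 : ∀ j, ∀ x, X.pr j x = x → P x := by
    intro j x hx
    rcases Nat.le_total j d with hj | hj
    · exact h1 j hj x hx 0
    · by_cases hj' : j ≤ 2 * d
      · have h3 := X.L_th (j := 2 * d - j) (by omega) (x := x) (by
          rwa [show 2 * d - (2 * d - j) = j by omega])
        rw [← h3]
        exact h1 (2 * d - j) (by omega) _ (X.pr_th _ _) _
      · rw [X.eq_zero_of_deg hx (by omega)]
        exact h0
  rw [← X.sum_pr x]
  exact Finset.sum_induction _ P hadd h0 (fun j _ => h2 j _ (by rw [X.pr_pr, if_pos rfl]))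

theorem ext_strand {F : Type*} [AddCommGroup F] [Module K F] {f g : E →ₗ[K] F}
    (h : ∀ i s y, X.IsPrim i y → i + s ≤ d → f ((X.L ^ s) y) = g ((X.L ^ s) y)) : f = g := by
  ext x
  refine X.strand_induction (P := fun x => f x = g x) (by rw [map_zero, map_zero])
    (fun x y hx hy => by rw [map_add, map_add, hx, hy]) h x

/-- The linear operator which is `a j r • L ^ (e j r)` on the strand `(j, r)`. -/
noncomputable def stOp (a : ℕ → ℕ → K) (e : ℕ → ℕ → ℕ) : Module.End K E :=
  ∑ j ∈ Finset.range (d + 1), ∑ r ∈ Finset.range (d + 1), a j r • (X.L ^ (e j r) * X.cmp j r)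

theorem stOp_strand (a : ℕ → ℕ → K) (e : ℕ → ℕ → ℕ) {i s : ℕ} {y : E} (hy : X.IsPrim i y)
    (hs : i + s ≤ d) : X.stOp a e ((X.L ^ s) y) = a i s • (X.L ^ (e i s)) y := by
  unfold stOp
  rw [LinearMap.sum_apply, Finset.sum_eq_single_of_mem i (Finset.mem_range.2 (by omega))]
  · rw [LinearMap.sum_apply, Finset.sum_eq_single_of_mem s (Finset.mem_range.2 (by omega))]
    · rw [LinearMap.smul_apply, Module.End.mul_apply, X.cmp_strand i i s s hy hs,
        if_pos ⟨rfl, rfl⟩]
    · intro r _ hr
      rw [LinearMap.smul_apply, Module.End.mul_apply, X.cmp_strand i i r s hy hs,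
        if_neg (fun h => hr h.2.symm), map_zero, smul_zero]
  · intro j _ hj
    rw [LinearMap.sum_apply]
    refine Finset.sum_eq_zero (fun r _ => ?_)
    rw [LinearMap.smul_apply, Module.End.mul_apply, X.cmp_strand i j r s hy hs,
      if_neg (fun h => hj h.1.symm), map_zero, smul_zero]

theorem stOp_one : X.stOp (fun _ _ => 1) (fun _ r => r) = 1 := by
  apply X.ext_strand
  intro i s y hy hs
  rw [X.stOp_strand _ _ hy hs, one_smul, Module.End.one_apply]

/-- The primitive decomposition. -/
theorem sum_cmp (x : E) :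
    ∑ j ∈ Finset.range (d + 1), ∑ r ∈ Finset.range (d + 1), (X.L ^ r) (X.cmp j r x) = x := by
  have h := LinearMap.congr_fun X.stOp_one x
  unfold stOp at h
  rw [LinearMap.sum_apply] at h
  simp only [LinearMap.sum_apply, one_smul, Module.End.mul_apply, Module.End.one_apply] at h
  exact h

end Fin

end Lefs

end Pool.Agent.Lib.OrlovNef
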