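import Pool.Agent.Lib.OrlovNef.PrimIso

/-!
# The relative block theorem
-/

set_option autoImplicit false

open scoped TensorProduct ComplexOrder

namespace Pool.Agent.Lib.OrlovNef

open Pool.Agent.Lib.OrlovSig

namespace HL

variable {d : ℕ} {V V' : Type*} [AddCommGroup V] [Module ℚ V] [AddCommGroup V'] [Module ℚ V']

/-- Isomorphisms in all degrees can be glued. -/
theorem exists_equiv_of_hodgeIso {e : ℕ} {U U' : Type*} [AddCommGroup U] [Module ℚ U]
    [AddCommGroup U'] [Module ℚ U'] [FiniteDimensional ℚ U] [FiniteDimensional ℚ U']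
    (Y : HL e U) (Y' : HL e U') (hi : ∀ j, Y.HodgeIso Y' j) : ∃ F : U ≃ₗ[ℚ] U',
      ∀ p q x, F.toLinearMap.baseChange ℂ (Y.hp p q x) =
        Y'.hp p q (F.toLinearMap.baseChange ℂ x) := by
  have h := fun j => Y.maps_of_mvn Y' (Y.coe_π₁ Y' j) (Y.coe_π₂ Y' j)
    (Y.mvn_of_hodgeIso Y' j (hi j))
  choose f g hf _ ha hb hc hc' hk hk' using h
  have hpr : ∀ a b, Y.pr a ∘ₗ Y.pr b = if a = b then Y.pr a else 0 := by
    intro a b
    split_ifs with hab
    · subst hab; exact Y.pr_self a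
    · exact Y.pr_ne a b hab
  have hpr' : ∀ a b, Y'.pr a ∘ₗ Y'.pr b = if a = b then Y'.pr a else 0 := by
    intro a b
    split_ifs with hab
    · subst hab; exact Y'.pr_self a
    · exact Y'.pr_ne a b hab
  have m1 := glue (n := 2 * e + 1) Y'.pr_sum hpr hb hc hk'
  have m2 := glue (n := 2 * e + 1) Y.pr_sum hpr' ha hk hc'
  refine ⟨LinearEquiv.ofLinearMap _ _ m1 m2, fun p q x => ?_⟩
  have h1 : (LinearEquiv.ofLinearMap _ _ m1 m2).toLinearMap =
      ∑ a ∈ Finset.range (2 * e + 1), f a := rfl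
  rw [h1, baseChange_sum', LinearMap.sum_apply, LinearMap.sum_apply, map_sum]
  refine Finset.sum_congr rfl (fun j _ => ?_)
  by_cases hj : p + q = j
  · exact Y.hp_of_isHodge Y' (f j) (hf j) j (hc j) (hc' j) p q hj x
  · have e1 : (f j).baseChange ℂ (Y.hp p q x) = 0 := by
      rw [← hc j, LinearMap.baseChange_comp, LinearMap.comp_apply, Y.prC_hp, if_neg hj, map_zero]
    have e2 : Y'.hp p q ((f j).baseChange ℂ x) = 0 := by
      rw [← hc' j, LinearMap.baseChange_comp, LinearMap.comp_apply, Y'.hp_prC, if_neg hj]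
    rw [e1, e2]

variable [FiniteDimensional ℚ V] [FiniteDimensional ℚ V']

/-- If all parts of the primitive cohomology in degrees `≤ d - m` are isomorphic, then so is the
whole cohomology. -/
theorem hodgeIso_of_primIso (X : HL d V) (X' : HL d V') (P : X.Nef) (P' : X'.Nef)
    (u : V ≃ₗ[ℚ] V') (hu : X.IsHodge X' u.toLinearMap)
    (hm : ∀ x y, X'.mukai (u x) (u y) = X.mukai x y) (hN : ∀ x, u (P.op x) = P'.op (u x))
    (hi : ∀ m j, m + j ≤ d → PrimIso P P' m {j}) : ∀ j, X.HodgeIso X' j := by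
  obtain ⟨g, hg⟩ := exists_fam P
  obtain ⟨g', hg'⟩ := exists_fam P'
  have hall : ∀ (m : ℕ) (hmd : m ≤ d) (j : ℕ),
      (primHL (hg m) hmd).HodgeIso (primHL (hg' m) hmd) j := by
    intro m hmd j
    rcases Nat.lt_or_ge (2 * (d - m)) j with h1 | h1
    · exact hodgeIso_top _ _ j h1
    · rcases Nat.le_total j (d - m) with h2 | h2
      · exact (hi m j (by omega)).hodgeIso (hg m) (hg' m) hmd
      · have h3 := (hi m (2 * (d - m) - j) (by omega)).hodgeIso (hg m) (hg' m) hmd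
        have h4 := hodgeIso_dual _ _ (indEquiv (hg m) (hg' m) u hN)
          (indMap_isHodge (hg m) (hg' m) hmd hu) (indEquiv_mukai (hg m) (hg' m) hmd u hN hm)
          (2 * (d - m) - j) (by omega) h3
        rwa [show 2 * (d - m) - (2 * (d - m) - j) = j by omega] at h4
  choose F hF using fun (m : Fin (d + 1)) => exists_equiv_of_hodgeIso (primHL (hg m)
    (Nat.lt_succ_iff.1 m.2)) (primHL (hg' m) (Nat.lt_succ_iff.1 m.2))
      (hall m (Nat.lt_succ_iff.1 m.2))
  exact fun j => hodgeIso_of_equiv X X' (hg.assemble hg' F)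
    (fun p q ξ => hg.assemble_hp hg' F hF p q ξ) j

/-- The block theorem on the primitive cohomology. -/
theorem primIso_block (X : HL d V) (X' : HL d V') (P : X.Nef) (P' : X'.Nef)
    (u : V ≃ₗ[ℚ] V') (hu : X.IsHodge X' u.toLinearMap)
    (hm : ∀ x y, X'.mukai (u x) (u y) = X.mukai x y) (hN : ∀ x, u (P.op x) = P'.op (u x))
    (m : ℕ) (hmd : m ≤ d) (a : ℕ) : PrimIso P P' m (blockSet (d - m) a) := by
  obtain ⟨g, hg⟩ := exists_fam P
  obtain ⟨g', hg'⟩ := exists_fam P'
  exact primIso_of_block (hg m) (hg' m) hmd a ((core_hodge _ _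
    (indEquiv (hg m) (hg' m) u hN) (indMap_isHodge (hg m) (hg' m) hmd hu)
    (indEquiv_mukai (hg m) (hg' m) hmd u hN hm)).1 a)

/-- Cancellation inside a block of the primitive cohomology. -/
theorem primIso_cancel (X : HL d V) (X' : HL d V') (P : X.Nef) (P' : X'.Nef)
    (u : V ≃ₗ[ℚ] V') (hu : X.IsHodge X' u.toLinearMap)
    (hm : ∀ x y, X'.mukai (u x) (u y) = X.mukai x y) (hN : ∀ x, u (P.op x) = P'.op (u x))
    (m j : ℕ) (hmj : m + j ≤ d)
    (hi : ∀ i, m + i ≤ d → i ≠ j → block (d - m) i = block (d - m) j → PrimIso P P' m {i}) :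
    PrimIso P P' m {j} ∧ PrimIso P P' m {2 * (d - m) - j} := by
  obtain ⟨g, hg⟩ := exists_fam P
  obtain ⟨g', hg'⟩ := exists_fam P'
  have hmd : m ≤ d := by omega
  have h := cancel_block (primHL (hg m) hmd) (primHL (hg' m) hmd)
    (indEquiv (hg m) (hg' m) u hN) (indMap_isHodge (hg m) (hg' m) hmd hu)
    (indEquiv_mukai (hg m) (hg' m) hmd u hN hm) j (by omega)
    (fun i hid hij hb => (hi i (by omega) hij hb).hodgeIso (hg m) (hg' m) hmd)
  exact ⟨primIso_of_hodgeIso (hg m) (hg' m) hmd h.1, primIso_of_hodgeIso (hg m) (hg' m) hmd h.2⟩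

omit [FiniteDimensional ℚ V] in
theorem Nef.low_of_lefschetz {Y : HL d V} (Q : Y.Nef) (r : ℕ)
    (hQ : ∀ j, j + r ≤ d → ∀ x, (Q.op ^ (d - r - j)) (Y.pr j x) = 0 → Y.pr j x = 0)
    (m j : ℕ) (hmj : m + j + r < d) (x : V) (hx : (Q.op ^ (m + 1)) x = 0) :
    Low Q.op m (0 - Y.prOn {j} x) := by
  have h1 : Y.pr j x = 0 := by
    apply hQ j (by omega)
    obtain ⟨l, hl⟩ : ∃ l, d - r - j = l + (m + 1) := ⟨d - r - j - (m + 1), by omega⟩
    rw [hl, pow_add, Module.End.mul_apply, Q.op_pow_pr, hx, map_zero, map_zero]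
  unfold prOn
  rw [Finset.sum_singleton, h1, sub_zero]
  exact Low.zero _ _

omit [FiniteDimensional ℚ V] [FiniteDimensional ℚ V'] in
/-- If the nef class has the Lefschetz property of dimension `d - 2`, then the primitive parts
vanish in degrees `< d - m - 2`. -/
theorem primIso_of_lefschetz (X : HL d V) (X' : HL d V') (P : X.Nef) (P' : X'.Nef) (r : ℕ)
    (hP : ∀ j, j + r ≤ d → ∀ x, (P.op ^ (d - r - j)) (X.pr j x) = 0 → X.pr j x = 0)
    (hP' : ∀ j, j + r ≤ d → ∀ x, (P'.op ^ (d - r - j)) (X'.pr j x) = 0 → X'.pr j x = 0)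
    (m j : ℕ) (hmj : m + j + r < d) : PrimIso P P' m {j} := by
  refine ⟨0, 0, ?_, ?_, ?_, ?_⟩
  · intro c x
    rw [LinearMap.baseChange_zero, LinearMap.zero_apply, LinearMap.zero_apply, map_zero]
  · intro c x
    rw [LinearMap.baseChange_zero, LinearMap.zero_apply, LinearMap.zero_apply, map_zero]
  · intro x hx
    rw [LinearMap.zero_apply, LinearMap.zero_apply, map_zero]
    exact ⟨rfl, fun _ => Low.zero _ _, P.low_of_lefschetz r hP m j hmj x hx⟩
  · intro y hy
    rw [LinearMap.zero_apply, LinearMap.zero_apply, map_zero]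
    exact ⟨rfl, fun _ => Low.zero _ _, P'.low_of_lefschetz r hP' m j hmj y hy⟩

/-- If in every block of every primitive part at most one degree is not known to be isomorphic,
then the whole cohomology is isomorphic. -/
theorem hodgeIso_of_known (X : HL d V) (X' : HL d V') (P : X.Nef) (P' : X'.Nef)
    (u : V ≃ₗ[ℚ] V') (hu : X.IsHodge X' u.toLinearMap)
    (hm : ∀ x y, X'.mukai (u x) (u y) = X.mukai x y) (hN : ∀ x, u (P.op x) = P'.op (u x))
    (T : Set (ℕ × ℕ)) (hT : ∀ m j, (m, j) ∈ T → PrimIso P P' m {j})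
    (hone : ∀ m i j, m + i ≤ d → m + j ≤ d → block (d - m) i = block (d - m) j →
      (m, i) ∉ T → (m, j) ∉ T → i = j) : ∀ j, X.HodgeIso X' j := by
  apply hodgeIso_of_primIso X X' P P' u hu hm hN
  intro m j hmj
  by_cases h1 : (m, j) ∈ T
  · exact hT m j h1
  · refine (primIso_cancel X X' P P' u hu hm hN m j hmj (fun i hi hij hb => ?_)).1
    by_contra h2
    exact hij (hone m i j hi hmj hb (fun h3 => h2 (hT m i h3)) h1)

end HL

end Pool.Agent.Lib.OrlovNef
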