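import Pool.Agent.Lib.OrlovNef.Trans
import Pool.Agent.Lib.OrlovNef.Low

/-!
# Nef classes on a Hodge-Lefschetz datum
-/

set_option autoImplicit false

open scoped TensorProduct ComplexOrder

namespace Pool.Agent.Lib.OrlovNef

open Pool.Agent.Lib.OrlovSig

namespace HL

variable {d : ℕ} {V V' : Type*} [AddCommGroup V] [Module ℚ V] [AddCommGroup V'] [Module ℚ V']

/-- Cup product with a nef class `N`: the classes `L + t N`, `t ≥ 0`, are Kähler classes and
satisfy the classical Hodge-Riemann relations. -/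
structure Nef (X : HL d V) where
  /-- cup product with a nef class -/
  op : Module.End ℚ V
  op_hp : ∀ p q x, op.baseChange ℂ (X.hp p q x) = X.hp (p + 1) (q + 1) (op.baseChange ℂ x)
  op_pair : ∀ x y, X.pair (op x) y = X.pair x (op y)
  op_lef : ∀ x, op (X.lef x) = X.lef (op x)
  op_can : ∀ x, op (X.can x) = X.can (op x)
  riemann : ∀ t : ℝ, 0 ≤ t → ∀ p q, p + q ≤ d → ∀ x, X.hp p q x = x → x ≠ 0 →
    ((X.lef.baseChange ℂ + (t : ℂ) • op.baseChange ℂ) ^ (d - (p + q) + 1)) x = 0 →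
    0 < Complex.I ^ p * (-Complex.I) ^ q * (-1) ^ ((p + q) * (p + q - 1) / 2) *
      X.pair.baseChange ℂ x (((X.lef.baseChange ℂ + (t : ℂ) • op.baseChange ℂ) ^
        (d - (p + q))) (conj V x))

/-- `f` raises the degree by `2 k`. -/
def Deg (X : HL d V) (k : ℕ) (f : Module.End ℚ V) : Prop :=
  X.IsHodge X f ∧ ∀ j, f * X.pr j = X.pr (j + 2 * k) * f

/-- `f` lowers the degree by `2 k`. -/
def CoDeg (X : HL d V) (k : ℕ) (f : Module.End ℚ V) : Prop :=
  X.IsHodge X f ∧ (∀ j, f * X.pr (j + 2 * k) = X.pr j * f) ∧ ∀ j < 2 * k, f * X.pr j = 0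

theorem Nef.deg {X : HL d V} (P : X.Nef) : X.Deg 1 P.op := by
  constructor
  · intro c x
    have h : P.op.baseChange ℂ ∘ₗ X.col c = X.col c ∘ₗ P.op.baseChange ℂ := by
      apply X.ext_hp
      intro p q y
      rw [LinearMap.comp_apply, LinearMap.comp_apply, X.col_hp, P.op_hp, X.col_hp]
      split_ifs with h1 h2 h2
      · rw [P.op_hp]
      · exfalso; apply h2; push_cast; linarith
      · exfalso; apply h1; push_cast at h2; linarith
      · rw [map_zero]
    exact LinearMap.congr_fun h x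
  · intro j
    apply baseChange_inj
    rw [LinearMap.baseChange_mul, LinearMap.baseChange_mul]
    apply X.ext_hp
    intro p q x
    rw [Module.End.mul_apply, Module.End.mul_apply, X.prC_hp, P.op_hp, X.prC_hp]
    split_ifs with h1 h2 h2
    · rw [P.op_hp]
    · omega
    · omega
    · rw [map_zero]

theorem Deg.mul {X : HL d V} {k l : ℕ} {f g : Module.End ℚ V} (hf : X.Deg k f) (hg : X.Deg l g) :
    X.Deg (l + k) (f * g) := by
  refine ⟨IsHodge.comp hf.1 hg.1, fun j => ?_⟩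
  rw [mul_assoc, hg.2, ← mul_assoc, hf.2, mul_assoc]
  congr 2
  ring_nf

theorem Deg.pow {X : HL d V} {f : Module.End ℚ V} (hf : X.Deg 1 f) (k : ℕ) :
    X.Deg k (f ^ k) := by
  induction k with
  | zero => exact ⟨X.isHodge_id, fun j => by simp⟩
  | succ k ih =>
    rw [pow_succ]
    have := Deg.mul ih hf
    rwa [add_comm] at this

theorem Deg.one (X : HL d V) : X.Deg 0 (1 : Module.End ℚ V) := ⟨X.isHodge_id, fun j => by simp⟩

theorem IsHodge.neg' {X : HL d V} {X' : HL d V'} {f : V →ₗ[ℚ] V'} (hf : X.IsHodge X' f) :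
    X.IsHodge X' (-f) := by
  have := hf.smul (-1)
  rwa [neg_one_smul] at this

theorem Deg.sub {X : HL d V} {k : ℕ} {f g : Module.End ℚ V} (hf : X.Deg k f) (hg : X.Deg k g) :
    X.Deg k (f - g) := by
  refine ⟨?_, fun j => by rw [sub_mul, mul_sub, hf.2, hg.2]⟩
  rw [sub_eq_add_neg]
  exact hf.1.add hg.1.neg'

theorem CoDeg.mul_deg {X : HL d V} {k : ℕ} {f g : Module.End ℚ V} (hf : X.CoDeg k f)
    (hg : X.Deg k g) : X.Deg 0 (f * g) := by
  refine ⟨IsHodge.comp hf.1 hg.1, fun j => ?_⟩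
  rw [mul_assoc, hg.2, ← mul_assoc, hf.2.1, mul_assoc]
  rfl

theorem Deg.pr_mul {X : HL d V} {k : ℕ} {f : Module.End ℚ V} (hf : X.Deg k f) (i : ℕ)
    (hi : i < 2 * k) : X.pr i * f = 0 := by
  apply X.ext_pr
  intro j x
  have h1 : X.pr i * f * X.pr j = 0 := by
    rw [mul_assoc, hf.2, ← mul_assoc, X.pr_ne i _ (by omega), zero_mul]
  exact LinearMap.congr_fun h1 x

theorem Deg.mul_coDeg {X : HL d V} {k : ℕ} {f g : Module.End ℚ V} (hf : X.Deg k f)
    (hg : X.CoDeg k g) : X.Deg 0 (f * g) := by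
  refine ⟨IsHodge.comp hf.1 hg.1, fun j => ?_⟩
  rw [mul_zero, add_zero]
  rcases Nat.lt_or_ge j (2 * k) with hj | hj
  · rw [mul_assoc, hg.2.2 j hj, mul_zero, ← mul_assoc, hf.pr_mul j hj, zero_mul]
  · obtain ⟨i, rfl⟩ : ∃ i, j = i + 2 * k := ⟨j - 2 * k, by omega⟩
    rw [mul_assoc, hg.2.1, ← mul_assoc, hf.2, mul_assoc]

/-- A Hodge map of degree `2 k` has a Hodge generalised inverse of degree `-2 k`. -/
theorem exists_inverse [FiniteDimensional ℚ V] (X : HL d V) {k : ℕ} {f : Module.End ℚ V}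
    (hf : X.Deg k f) : ∃ z : Module.End ℚ V, X.CoDeg k z ∧ f * z * f = f := by
  obtain ⟨z, hz⟩ := X.regular X ⟨_, X.mem11 X f hf.1⟩
  set Z : Module.End ℚ V := LinearMap.fst ℚ V V ∘ₗ (z : Module.End ℚ (V × V)) ∘ₗ
    LinearMap.inl ℚ V V with hZ
  have hZH : X.IsHodge X Z := (mem_blockAlg.1 z.2).1
  have hZf : f * Z * f = f := by
    ext v
    have h1 := congrArg (fun y : X.blockAlg X => ((y : Module.End ℚ (V × V)) (v, 0)).1) hz
    simpa [Module.End.mul_apply, hZ] using h1
  set Z' : Module.End ℚ V := ∑ j ∈ Finset.range (2 * d + 1), X.pr j * Z * X.pr (j + 2 * k) with hZ'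
  have hpr : ∀ i, X.pr i * Z' = X.pr i * Z * X.pr (i + 2 * k) := by
    intro i
    rw [hZ', Finset.mul_sum]
    by_cases hi : i ≤ 2 * d
    · rw [Finset.sum_eq_single_of_mem i (Finset.mem_range.2 (by omega))]
      · rw [← mul_assoc, ← mul_assoc, X.pr_self]
      · intro j _ hj
        rw [← mul_assoc, ← mul_assoc, X.pr_ne i j (Ne.symm hj), zero_mul, zero_mul]
    · rw [X.pr_top i (by omega), zero_mul, zero_mul]
      exact Finset.sum_eq_zero (fun j _ => by rw [zero_mul])
  have hpr' : ∀ i, Z' * X.pr (i + 2 * k) = X.pr i * Z * X.pr (i + 2 * k) := by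
    intro i
    rw [hZ', Finset.sum_mul]
    by_cases hi : i ≤ 2 * d
    · rw [Finset.sum_eq_single_of_mem i (Finset.mem_range.2 (by omega))]
      · rw [mul_assoc, X.pr_self]
      · intro j _ hj
        rw [mul_assoc, X.pr_ne _ _ (by omega), mul_zero]
    · rw [X.pr_top i (by omega), zero_mul, zero_mul]
      refine Finset.sum_eq_zero (fun j hj => ?_)
      rw [Finset.mem_range] at hj
      rw [mul_assoc, X.pr_ne _ _ (by omega), mul_zero]
  have hpr0 : ∀ i < 2 * k, Z' * X.pr i = 0 := by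
    intro i hi
    rw [hZ', Finset.sum_mul]
    refine Finset.sum_eq_zero (fun j _ => ?_)
    rw [mul_assoc, X.pr_ne _ _ (by omega), mul_zero]
  refine ⟨Z', ⟨?_, fun j => by rw [hpr, hpr'], hpr0⟩, ?_⟩
  · exact isHodge_sum _ _ (fun j => IsHodge.comp (IsHodge.comp (X.isHodge_pr j) hZH)
      (X.isHodge_pr _))
  · -- compare in each degree
    apply X.ext_pr
    intro j x
    have h1 : f * Z' * f * X.pr j = f * X.pr j := by
      calc f * Z' * f * X.pr j = f * (Z' * X.pr (j + 2 * k)) * f := by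
            rw [mul_assoc, mul_assoc, hf.2, mul_assoc, mul_assoc]
        _ = f * (X.pr j * Z * X.pr (j + 2 * k)) * f := by rw [hpr']
        _ = X.pr (j + 2 * k) * (f * Z * f) * X.pr j := by
            calc f * (X.pr j * Z * X.pr (j + 2 * k)) * f
                = (f * X.pr j) * Z * (X.pr (j + 2 * k) * f) := by simp only [mul_assoc]
              _ = (X.pr (j + 2 * k) * f) * Z * (f * X.pr j) := by rw [hf.2]
              _ = X.pr (j + 2 * k) * (f * Z * f) * X.pr j := by simp only [mul_assoc]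
        _ = f * X.pr j := by rw [hZf, ← hf.2, mul_assoc, X.pr_self]
    exact LinearMap.congr_fun h1 x

end HL

end Pool.Agent.Lib.OrlovNef
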