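import Pool.Agent.Lib.OrlovNef.Trace

/-!
# Norm inequalities in a polarised Lefschetz module
-/

set_option autoImplicit false

namespace Pool.Agent.Lib.OrlovNef

namespace Lefs

variable {K E : Type*} [Field K] [LinearOrder K] [IsStrictOrderedRing K] [AddCommGroup E]
  [Module K E] {d : ℕ} {X : Lefs K E d} [FiniteDimensional K E]

omit [IsStrictOrderedRing K] [FiniteDimensional K E] in
theorem pow_pow_apply (a b : ℕ) (x : E) : (X.L ^ a) ((X.L ^ b) x) = (X.L ^ (a + b)) x := by
  rw [← Module.End.mul_apply, ← pow_add]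

omit [IsStrictOrderedRing K] in
theorem h_strand' {i j : ℕ} {x y : E} (hx : X.IsPrim i x) (hy : X.IsPrim j y) (a c : ℕ) :
    X.h ((X.L ^ a) x) ((X.L ^ c) y) =
      if i = j ∧ a = c then fr K (d - i) a * (sgn K i * X.b x ((X.L ^ (d - i)) y)) else 0 := by
  have hi := hx.le
  have hj := hy.le
  rw [X.h_apply]
  by_cases ha : i + a ≤ d
  · by_cases hc : j + c ≤ d
    · exact X.h_strand hx hy a c ha hc
    · rw [hy.kill_of_lt X (by omega), map_zero, map_zero]
      split_ifs with h
      · obtain ⟨rfl, rfl⟩ := h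
        exact absurd ha hc
      · rfl
  · rw [hx.kill_of_lt X (by omega), map_zero, LinearMap.zero_apply]
    split_ifs with h
    · rw [fr_of_lt K (by omega), zero_mul]
    · rfl

omit [IsStrictOrderedRing K] in
/-- The value of a bilinear form on two vectors, in terms of their components. -/
theorem collapse (B : LinearMap.BilinForm K E) (x y : E) (f : ℕ → ℕ → K)
    (hB : ∀ i < d + 1, ∀ r < d + 1, ∀ j < d + 1, ∀ s < d + 1,
      B ((X.L ^ r) (X.cmp i r x)) ((X.L ^ s) (X.cmp j s y)) =
        if i = j ∧ r = s then f i r else 0) :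
    B x y = ∑ i ∈ Finset.range (d + 1), ∑ r ∈ Finset.range (d + 1), f i r := by
  conv_lhs => rw [← X.sum_cmp x]
  rw [map_sum, LinearMap.sum_apply]
  refine Finset.sum_congr rfl (fun i hi => ?_)
  rw [map_sum, LinearMap.sum_apply]
  refine Finset.sum_congr rfl (fun r hr => ?_)
  conv_lhs => rw [← X.sum_cmp y]
  simp only [map_sum]
  rw [Finset.sum_congr rfl (fun j hj => Finset.sum_congr rfl (fun s hs =>
    hB i (Finset.mem_range.1 hi) r (Finset.mem_range.1 hr) j (Finset.mem_range.1 hj) s
      (Finset.mem_range.1 hs)))]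
  rw [Finset.sum_eq_single_of_mem i hi]
  · rw [Finset.sum_eq_single_of_mem r hr]
    · rw [if_pos ⟨rfl, rfl⟩]
    · intro s _ hs
      rw [if_neg (fun h => hs h.2.symm)]
  · intro j _ hj
    exact Finset.sum_eq_zero (fun s _ => if_neg (fun h => hj h.1.symm))

omit [IsStrictOrderedRing K] in
theorem h_pow_eq_sum (n : ℕ) (x : E) : X.h ((X.L ^ n) x) ((X.L ^ n) x) =
    ∑ i ∈ Finset.range (d + 1), ∑ r ∈ Finset.range (d + 1),
      fr K (d - i) (n + r) * X.q i (X.cmp i r x) := by
  have h := collapse (X := X) (X.h.compl₁₂ (X.L ^ n) (X.L ^ n)) x x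
    (fun i r => fr K (d - i) (n + r) * X.q i (X.cmp i r x)) ?_
  · exact h
  · intro i hi r hr j hj s hs
    rw [LinearMap.compl₁₂_apply, pow_pow_apply, pow_pow_apply, h_strand' (X.cmp_isPrim (by omega) _ _) (X.cmp_isPrim (by omega) _ _)]
    by_cases h : i = j ∧ r = s
    · obtain ⟨rfl, rfl⟩ := h
      rw [if_pos ⟨rfl, rfl⟩, if_pos ⟨rfl, rfl⟩]
      rfl
    · rw [if_neg h, if_neg]
      rintro ⟨h1, h2⟩
      exact h ⟨h1, by omega⟩

omit [IsStrictOrderedRing K] in
theorem cmp_deg {i r j : ℕ} {x : E} (hx : X.pr j x = x) (h : i + 2 * r ≠ j) :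
    X.cmp i r x = 0 := by
  unfold cmp
  split_ifs with h1
  · simp only [Module.End.mul_apply]
    rw [X.pr_of hx, if_neg h, map_zero, map_zero, map_zero]
  · rfl

omit [IsStrictOrderedRing K] in
theorem b_pow_eq_sum {j : ℕ} (hj : j ≤ d) {x : E} (hx : X.pr j x = x) :
    sgn K j * X.b x ((X.L ^ (d - j)) x) =
    ∑ i ∈ Finset.range (d + 1), ∑ r ∈ Finset.range (d + 1),
      (-1) ^ r * X.q i (X.cmp i r x) := by
  have h := collapse (X := X) (X.b.compl₂ (X.L ^ (d - j))) x x
    (fun i r => sgn K j * ((-1) ^ r * X.q i (X.cmp i r x))) ?_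
  · rw [LinearMap.compl₂_apply] at h
    rw [h, Finset.mul_sum]
    refine Finset.sum_congr rfl (fun i _ => ?_)
    rw [Finset.mul_sum]
    refine Finset.sum_congr rfl (fun r _ => ?_)
    rw [← mul_assoc, sgn_sq, one_mul]
  · intro i hi r hr k hk s hs
    rw [LinearMap.compl₂_apply, pow_pow_apply]
    by_cases h1 : i + 2 * r = j
    · by_cases h2 : k + 2 * s = j
      · rw [X.b_strand (X.cmp_isPrim (by omega) _ _) (X.cmp_isPrim (by omega) _ _)]
        by_cases h : i = k ∧ r = s
        · obtain ⟨rfl, rfl⟩ := h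
          rw [if_pos ⟨rfl, by omega⟩, if_pos ⟨rfl, rfl⟩]
          have e : sgn K j = (-1) ^ r * sgn K i := by
            rw [← h1]
            clear * -
            induction r with
            | zero => simp
            | succ r ih =>
              rw [show i + 2 * (r + 1) = i + 2 * r + 2 by ring, sgn_add_two, ih]
              ring
          unfold q
          rw [e]
          have e1 : ((-1 : K) ^ r) * (-1) ^ r = 1 := by rw [← mul_pow]; norm_num
          have e2 := sgn_sq K i
          linear_combination (-(X.b (X.cmp i r x) ((X.L ^ (d - i)) (X.cmp i r x)))) *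
            (e1 * (sgn K i * sgn K i) + e2)
        · rw [if_neg h, if_neg]
          rintro ⟨rfl, h3⟩
          exact h ⟨rfl, by omega⟩
      · rw [cmp_deg hx h2, map_zero, map_zero, if_neg]
        rintro ⟨rfl, rfl⟩
        exact h2 h1
    · rw [cmp_deg hx h1, map_zero, map_zero, LinearMap.zero_apply, X.q_zero, mul_zero, mul_zero,
        ite_self]

omit [FiniteDimensional K E] in
theorem fr_le_one {k r : ℕ} (h : 2 * r ≤ k) : fr K k r ≤ 1 := by
  unfold fr
  rw [if_pos (by omega), div_le_one (by positivity)]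
  exact_mod_cast Nat.factorial_le (by omega)

omit [FiniteDimensional K E] in
theorem one_le_fr {k r : ℕ} (h : k ≤ 2 * r) (hr : r ≤ k) : 1 ≤ fr K k r := by
  unfold fr
  rw [if_pos (by omega), one_le_div (by positivity)]
  exact_mod_cast Nat.factorial_le (by omega)

/-- The Lefschetz isomorphism does not decrease the norm. -/
theorem h_le_pow {j : ℕ} (hj : j ≤ d) {x : E} (hx : X.pr j x = x) :
    X.h x x ≤ X.h ((X.L ^ (d - j)) x) ((X.L ^ (d - j)) x) := by
  rw [h_pow_eq_sum]
  have h0 := h_pow_eq_sum (X := X) 0 x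
  rw [pow_zero, Module.End.one_apply] at h0
  rw [h0]
  refine Finset.sum_le_sum (fun i hi => Finset.sum_le_sum (fun r hr => ?_))
  rw [Finset.mem_range] at hi hr
  by_cases h1 : i + 2 * r = j
  · refine mul_le_mul_of_nonneg_right ?_ (X.q_nonneg (X.cmp_isPrim (by omega) _ _))
    rw [zero_add]
    exact (fr_le_one (by omega)).trans (one_le_fr (by omega) (by omega))
  · rw [cmp_deg hx h1, X.q_zero, mul_zero, mul_zero]

/-- The polarisation is positive on vectors which are nearly primitive. -/
theorem h_sub_le {j : ℕ} (hj : j ≤ d) {x : E} (hx : X.pr j x = x) :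
    X.h x x - 2 * X.h ((X.L ^ (d - j + 1)) x) ((X.L ^ (d - j + 1)) x) ≤
      sgn K j * X.b x ((X.L ^ (d - j)) x) := by
  rw [b_pow_eq_sum hj hx, h_pow_eq_sum]
  have h0 := h_pow_eq_sum (X := X) 0 x
  rw [pow_zero, Module.End.one_apply] at h0
  rw [h0, Finset.mul_sum, ← Finset.sum_sub_distrib]
  refine Finset.sum_le_sum (fun i hi => ?_)
  rw [Finset.mul_sum, ← Finset.sum_sub_distrib]
  refine Finset.sum_le_sum (fun r hr => ?_)
  rw [Finset.mem_range] at hi hr
  rw [zero_add]
  by_cases h1 : i + 2 * r = j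
  · have hq := X.q_nonneg (X.cmp_isPrim (by omega : i ≤ d) r x)
    rw [← mul_assoc, ← sub_mul]
    refine mul_le_mul_of_nonneg_right ?_ hq
    have h2 : fr K (d - i) r ≤ 1 := fr_le_one (by omega)
    rcases Nat.eq_zero_or_pos r with rfl | h3
    · rw [fr_of_lt K (k := d - i) (r := d - j + 1 + 0) (by omega), pow_zero]
      linarith
    · have h4 : 1 ≤ fr K (d - i) (d - j + 1 + r) := one_le_fr (by omega) (by omega)
      have h5 : (-1 : K) ≤ (-1) ^ r := by
        rcases Nat.even_or_odd r with h6 | h6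
        · rw [h6.neg_one_pow]; norm_num
        · rw [h6.neg_one_pow]
      linarith
  · rw [cmp_deg hx h1, X.q_zero]
    simp

/-- Cauchy-Schwarz. -/
theorem h_mul_le (x y : E) : X.h x y ^ 2 ≤ X.h x x * X.h y y := by
  by_cases hy : y = 0
  · rw [hy]
    simp
  have hp := X.h_pos hy
  set c := X.h y y with hc
  set a := X.h x y with ha
  have h1 := X.h_nonneg (c • x - a • y)
  have h2 : X.h (c • x - a • y) (c • x - a • y) = c * (c * X.h x x - a ^ 2) := by
    simp only [map_sub, map_smul, LinearMap.sub_apply, LinearMap.smul_apply, smul_eq_mul]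
    rw [X.h_symm y x, ← hc, ← ha]
    ring
  rw [h2] at h1
  have h3 := nonneg_of_mul_nonneg_right h1 hp
  linarith

/-- Duality. -/
theorem b_sq_le (x y : E) : X.b x y ^ 2 ≤ X.h x x * X.h y y := by
  have h1 : X.b x y = X.h x (X.S y) := by rw [X.h_apply, X.S_S]
  have h2 : X.h (X.S y) (X.S y) = X.h y y := by
    rw [X.h_apply, X.h_apply, X.S_S, X.b_S]
  rw [h1, ← h2]
  exact h_mul_le x _

theorem h_add_le (x y : E) : X.h (x + y) (x + y) ≤ 2 * X.h x x + 2 * X.h y y := by
  have h1 := X.h_nonneg (x - y)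
  simp only [map_sub, map_add, LinearMap.sub_apply, LinearMap.add_apply] at h1 ⊢
  rw [X.h_symm y x] at *
  linarith

end Lefs

end Pool.Agent.Lib.OrlovNef
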