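import Pool.Agent.Lib.OrlovNef.Proj

/-!
# The Hodge-Lefschetz datum on the primitive part
-/

set_option autoImplicit false

open scoped TensorProduct ComplexOrder

namespace Pool.Agent.Lib.OrlovNef

open Pool.Agent.Lib.OrlovSig

namespace HL

variable {d : ℕ} {V V' : Type*} [AddCommGroup V] [Module ℚ V] [AddCommGroup V'] [Module ℚ V']

theorem Deg.hp {X : HL d V} {g : Module.End ℚ V} (hg : X.Deg 0 g) (p q : ℕ) (x : ℂ ⊗[ℚ] V) :
    g.baseChange ℂ (X.hp p q x) = X.hp p q (g.baseChange ℂ x) := by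
  have h1 : g.baseChange ℂ ((X.pr (p + q)).baseChange ℂ x) =
      (X.pr (p + q)).baseChange ℂ (g.baseChange ℂ x) := by
    have h := hg.2 (p + q)
    rw [mul_zero, add_zero] at h
    rw [← LinearMap.comp_apply, ← LinearMap.baseChange_comp, ← LinearMap.comp_apply,
      ← LinearMap.baseChange_comp]
    exact congrArg (fun f : Module.End ℚ V => f.baseChange ℂ x) h
  rw [← X.col_prC rfl x, hg.1, h1, X.col_prC rfl]

theorem Nef.opC_pow_hp {X : HL d V} (P : X.Nef) (k p q : ℕ) (x : ℂ ⊗[ℚ] V) :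
    ((P.op.baseChange ℂ) ^ k) (X.hp p q x) =
      X.hp (p + k) (q + k) (((P.op.baseChange ℂ) ^ k) x) := by
  induction k with
  | zero => rfl
  | succ k ih =>
    rw [pow_succ', Module.End.mul_apply, ih, P.op_hp, ← Module.End.mul_apply]
    rfl

theorem Nef.op_pow_pair {X : HL d V} (P : X.Nef) (k : ℕ) (x y : V) :
    X.pair ((P.op ^ k) x) y = X.pair x ((P.op ^ k) y) := by
  induction k generalizing x y with
  | zero => rfl
  | succ k ih =>
    rw [pow_succ, Module.End.mul_apply, ih, P.op_pair, ← Module.End.mul_apply, ← pow_succ',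
      ← pow_succ]

theorem Nef.op_pow_lef {X : HL d V} (P : X.Nef) (k : ℕ) (x : V) :
    (P.op ^ k) (X.lef x) = X.lef ((P.op ^ k) x) := by
  induction k with
  | zero => rfl
  | succ k ih => rw [pow_succ', Module.End.mul_apply, ih, P.op_lef]; rfl

theorem Nef.op_pow_lef_pow {X : HL d V} (P : X.Nef) (k l : ℕ) (x : V) :
    (P.op ^ k) ((X.lef ^ l) x) = (X.lef ^ l) ((P.op ^ k) x) := by
  induction l with
  | zero => rfl
  | succ l ih =>
    rw [pow_succ', Module.End.mul_apply, P.op_pow_lef, ih, ← Module.End.mul_apply]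

theorem Nef.op_pow_can {X : HL d V} (P : X.Nef) (k : ℕ) (x : V) :
    (P.op ^ k) (X.can x) = X.can ((P.op ^ k) x) := by
  induction k with
  | zero => rfl
  | succ k ih => rw [pow_succ', Module.End.mul_apply, ih, P.op_can]; rfl

theorem Nef.op_pow_can_pow {X : HL d V} (P : X.Nef) (k l : ℕ) (x : V) :
    (P.op ^ k) ((X.can ^ l) x) = (X.can ^ l) ((P.op ^ k) x) := by
  induction l with
  | zero => rfl
  | succ l ih =>
    rw [pow_succ', Module.End.mul_apply, P.op_pow_can, ih, ← Module.End.mul_apply]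

theorem Nef.op_pow_pr {X : HL d V} (P : X.Nef) (k j : ℕ) (x : V) :
    (P.op ^ k) (X.pr j x) = X.pr (j + 2 * k) ((P.op ^ k) x) := by
  rw [← Module.End.mul_apply, (P.deg.pow k).2, Module.End.mul_apply]

theorem baseChange_pow_apply {U : Type*} [AddCommGroup U] [Module ℚ U] (f : Module.End ℚ U) (k : ℕ)
    (v : ℂ ⊗[ℚ] U) : (f ^ k).baseChange ℂ v = ((f.baseChange ℂ) ^ k) v := by
  rw [LinearMap.baseChange_pow]

/-- A low element pairs to zero with `N ^ m y`, if `N ^ (m + 1) y = 0`. -/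
theorem Nef.pair_low {X : HL d V} (P : X.Nef) {m : ℕ} {x y : V} (hx : Low P.op m x)
    (hy : (P.op ^ (m + 1)) y = 0) : X.pair x ((P.op ^ m) y) = 0 := by
  obtain ⟨a, b, ha, rfl⟩ := hx
  have e1 : X.pair a ((P.op ^ m) y) = 0 := by
    rw [← P.op_pow_pair]
    change X.pair ((P.op ^ m) • a) y = 0
    rw [ha, map_zero, LinearMap.zero_apply]
  have e2 : X.pair (P.op • b) ((P.op ^ m) y) = 0 := by
    change X.pair (P.op b) ((P.op ^ m) y) = 0
    rw [P.op_pair, ← Module.End.mul_apply, ← pow_succ', hy, map_zero]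
  rw [map_add, LinearMap.add_apply, e1, e2, add_zero]

theorem Nef.low_pair {X : HL d V} (P : X.Nef) {m : ℕ} {x y : V} (hx : Low P.op m x)
    (hy : (P.op ^ (m + 1)) y = 0) : X.pair y ((P.op ^ m) x) = 0 := by
  obtain ⟨a, b, ha, rfl⟩ := hx
  have e1 : (P.op ^ m) (a + P.op • b) = (P.op ^ (m + 1)) b := by
    rw [map_add, pow_succ]
    change (P.op ^ m) • a + (P.op ^ m) (P.op b) = _
    rw [ha, zero_add]
    rfl
  rw [e1, ← P.op_pow_pair, hy, map_zero, LinearMap.zero_apply]

section Proj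

variable {X : HL d V} {P : X.Nef} {m : ℕ} {g : Module.End ℚ V}

theorem IsProj.kill_apply (h : IsProj P m g) (x : V) : (P.op ^ (m + 1)) (g x) = 0 :=
  LinearMap.congr_fun h.kill x

theorem IsProj.idem_apply (h : IsProj P m g) (x : V) : g (g x) = g x :=
  LinearMap.congr_fun h.idem x

theorem IsProj.apply_coe (h : IsProj P m g) (x : LinearMap.range g) : g (x : V) = x := by
  obtain ⟨_, ⟨y, rfl⟩⟩ := x
  exact h.idem_apply y

theorem IsProj.kill_coe (h : IsProj P m g) (x : LinearMap.range g) :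
    (P.op ^ (m + 1)) (x : V) = 0 := by
  rw [← h.apply_coe, h.kill_apply]

/-- The difference between an element of `ker N ^ (m + 1)` and its projection is low. -/
theorem IsProj.low_sub (h : IsProj P m g) {x : V} (hx : (P.op ^ (m + 1)) x = 0) :
    Low P.op m (x - g x) := by
  rw [← h.low _ (by rw [map_sub, hx, h.kill_apply, sub_zero]), map_sub, h.idem_apply, sub_self]

theorem IsProj.pair_left (h : IsProj P m g) {x y : V} (hx : (P.op ^ (m + 1)) x = 0)
    (hy : (P.op ^ (m + 1)) y = 0) : X.pair (g x) ((P.op ^ m) y) = X.pair x ((P.op ^ m) y) := by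
  have h1 := P.pair_low (h.low_sub hx) hy
  rw [map_sub, LinearMap.sub_apply, sub_eq_zero] at h1
  exact h1.symm

theorem IsProj.pair_right (h : IsProj P m g) {x y : V} (hx : (P.op ^ (m + 1)) x = 0)
    (hy : (P.op ^ (m + 1)) y = 0) : X.pair x ((P.op ^ m) (g y)) = X.pair x ((P.op ^ m) y) := by
  have h1 := P.low_pair (h.low_sub hy) hx
  rw [map_sub, map_sub, sub_eq_zero] at h1
  exact h1.symm

/-- The inclusion of the primitive part. -/
noncomputable def inc (g : Module.End ℚ V) : LinearMap.range g →ₗ[ℚ] V :=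
  (LinearMap.range g).subtype

/-- The projection onto the primitive part. -/
noncomputable def prj (g : Module.End ℚ V) : V →ₗ[ℚ] LinearMap.range g := g.rangeRestrict

theorem inc_prj (g : Module.End ℚ V) (x : V) : inc g (prj g x) = g x := rfl

theorem inc_apply (g : Module.End ℚ V) (x : LinearMap.range g) : inc g x = (x : V) := rfl

theorem IsProj.g_inc (h : IsProj P m g) (x : LinearMap.range g) : g (inc g x) = inc g x :=
  h.apply_coe x

theorem IsProj.kill_inc (h : IsProj P m g) (x : LinearMap.range g) :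
    (P.op ^ (m + 1)) (inc g x) = 0 := h.kill_coe x

theorem IsProj.prj_inc (h : IsProj P m g) (x : LinearMap.range g) : prj g (inc g x) = x :=
  Subtype.ext (h.apply_coe x)

theorem incC_prjC (g : Module.End ℚ V) (x : ℂ ⊗[ℚ] V) :
    (inc g).baseChange ℂ ((prj g).baseChange ℂ x) = g.baseChange ℂ x := by
  rw [← LinearMap.comp_apply, ← LinearMap.baseChange_comp]
  rfl

theorem IsProj.prjC_incC (h : IsProj P m g) (x : ℂ ⊗[ℚ] LinearMap.range g) :
    (prj g).baseChange ℂ ((inc g).baseChange ℂ x) = x := by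
  have h1 : prj g ∘ₗ inc g = LinearMap.id := LinearMap.ext (fun x => h.prj_inc x)
  rw [← LinearMap.comp_apply, ← LinearMap.baseChange_comp, h1, LinearMap.baseChange_id]
  rfl

theorem IsProj.gC_incC (h : IsProj P m g) (x : ℂ ⊗[ℚ] LinearMap.range g) :
    g.baseChange ℂ ((inc g).baseChange ℂ x) = (inc g).baseChange ℂ x := by
  rw [← incC_prjC, h.prjC_incC]

theorem IsProj.prjC_gC (h : IsProj P m g) (x : ℂ ⊗[ℚ] V) :
    (prj g).baseChange ℂ (g.baseChange ℂ x) = (prj g).baseChange ℂ x := by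
  rw [← incC_prjC, h.prjC_incC]

theorem IsProj.incC_inj (h : IsProj P m g) {x y : ℂ ⊗[ℚ] LinearMap.range g}
    (hxy : (inc g).baseChange ℂ x = (inc g).baseChange ℂ y) : x = y := by
  rw [← h.prjC_incC x, hxy, h.prjC_incC]

/-- The Hodge projector of the primitive part. -/
noncomputable def hpU (X : HL d V) (g : Module.End ℚ V) (p q : ℕ) :
    (ℂ ⊗[ℚ] LinearMap.range g) →ₗ[ℂ] (ℂ ⊗[ℚ] LinearMap.range g) :=
  (prj g).baseChange ℂ ∘ₗ X.hp p q ∘ₗ (inc g).baseChange ℂ

theorem IsProj.incC_hpU (h : IsProj P m g) (p q : ℕ) (x : ℂ ⊗[ℚ] LinearMap.range g) :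
    (inc g).baseChange ℂ (hpU X g p q x) = X.hp p q ((inc g).baseChange ℂ x) := by
  unfold hpU
  rw [LinearMap.comp_apply, LinearMap.comp_apply, incC_prjC, h.deg.hp, h.gC_incC]

theorem IsProj.prjC_hp (h : IsProj P m g) (p q : ℕ) (x : ℂ ⊗[ℚ] V) :
    (prj g).baseChange ℂ (X.hp p q x) = hpU X g p q ((prj g).baseChange ℂ x) := by
  unfold hpU
  rw [LinearMap.comp_apply, LinearMap.comp_apply, incC_prjC, ← h.deg.hp, h.prjC_gC]

theorem IsProj.pr_g (h : IsProj P m g) (j : ℕ) (x : V) : g (X.pr j x) = X.pr j (g x) := by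
  have h1 := LinearMap.congr_fun (h.deg.2 j) x
  rwa [mul_zero, add_zero] at h1

/-- The operator on the primitive part induced by an operator of `V`. -/
noncomputable def ind (g : Module.End ℚ V) (f : Module.End ℚ V) : Module.End ℚ (LinearMap.range g) :=
  prj g ∘ₗ f ∘ₗ inc g

theorem inc_ind (g f : Module.End ℚ V) (x : LinearMap.range g) :
    inc g (ind g f x) = g (f (inc g x)) := rfl

theorem incC_indC (g f : Module.End ℚ V) (x : ℂ ⊗[ℚ] LinearMap.range g) :
    (inc g).baseChange ℂ ((ind g f).baseChange ℂ x) =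
      g.baseChange ℂ (f.baseChange ℂ ((inc g).baseChange ℂ x)) := by
  unfold ind
  rw [LinearMap.baseChange_comp, LinearMap.comp_apply, incC_prjC, LinearMap.baseChange_comp,
    LinearMap.comp_apply]

theorem IsProj.inc_pr (h : IsProj P m g) (j : ℕ) (x : LinearMap.range g) :
    inc g (ind g (X.pr j) x) = X.pr j (inc g x) := by
  rw [inc_ind, h.pr_g, inc_apply, h.apply_coe]

/-- Powers of induced operators. -/
theorem IsProj.inc_ind_pow (h : IsProj P m g) {f : Module.End ℚ V}
    (hf : ∀ x, P.op (f x) = f (P.op x)) (k : ℕ) (x : LinearMap.range g) :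
    inc g ((ind g f ^ k) x) = g ((f ^ k) (inc g x)) ∧
      (P.op ^ (m + 1)) ((f ^ k) (inc g x)) = 0 := by
  have hfp : ∀ k x, (P.op ^ k) (f x) = f ((P.op ^ k) x) := by
    intro k x
    induction k with
    | zero => rfl
    | succ k ih => rw [pow_succ', Module.End.mul_apply, ih, hf]; rfl
  induction k with
  | zero => exact ⟨(h.apply_coe x).symm, h.kill_coe x⟩
  | succ k ih =>
    have h1 : (P.op ^ (m + 1)) ((f ^ (k + 1)) (inc g x)) = 0 := by
      rw [pow_succ' f, Module.End.mul_apply, hfp, ih.2, map_zero]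
    refine ⟨?_, h1⟩
    rw [pow_succ' (ind g f), Module.End.mul_apply, inc_ind, ih.1]
    have h2 : Low P.op m ((f ^ k) (inc g x) - g ((f ^ k) (inc g x))) := h.low_sub ih.2
    have h3 : Low P.op m (f ((f ^ k) (inc g x) - g ((f ^ k) (inc g x)))) :=
      h2.map f.toAddMonoidHom (fun y => (hf y).symm)
    have h4 : (P.op ^ (m + 1)) (f ((f ^ k) (inc g x) - g ((f ^ k) (inc g x)))) = 0 := by
      rw [hfp, map_sub, ih.2, h.kill_apply, sub_zero, map_zero]
    have h5 := (h.low _ h4).2 h3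
    rw [map_sub, map_sub, sub_eq_zero] at h5
    rw [pow_succ' f, Module.End.mul_apply, h5]

theorem IsProj.indC_pow (h : IsProj P m g) {f : Module.End ℚ V}
    (hf : ∀ x, P.op (f x) = f (P.op x)) (k : ℕ) (x : ℂ ⊗[ℚ] LinearMap.range g) :
    (inc g).baseChange ℂ (((ind g f).baseChange ℂ ^ k) x) =
      g.baseChange ℂ (((f.baseChange ℂ) ^ k) ((inc g).baseChange ℂ x)) := by
  have h1 : inc g ∘ₗ (ind g f ^ k) = g ∘ₗ (f ^ k) ∘ₗ inc g :=
    LinearMap.ext (fun x => (h.inc_ind_pow hf k x).1)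
  have h2 := congrArg (fun φ => φ.baseChange ℂ x) h1
  simp only [LinearMap.baseChange_comp, LinearMap.comp_apply, LinearMap.baseChange_pow] at h2
  exact h2

theorem IsProj.killC (h : IsProj P m g) {f : Module.End ℚ V}
    (hf : ∀ x, P.op (f x) = f (P.op x)) (k : ℕ) (x : ℂ ⊗[ℚ] LinearMap.range g) :
    ((P.op.baseChange ℂ) ^ (m + 1)) (((f.baseChange ℂ) ^ k) ((inc g).baseChange ℂ x)) = 0 := by
  have h1 : (P.op ^ (m + 1)) ∘ₗ (f ^ k) ∘ₗ inc g = 0 :=
    LinearMap.ext (fun x => (h.inc_ind_pow hf k x).2)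
  have h2 := congrArg (fun φ => φ.baseChange ℂ x) h1
  simp only [LinearMap.baseChange_comp, LinearMap.comp_apply, LinearMap.baseChange_pow,
    LinearMap.baseChange_zero, LinearMap.zero_apply] at h2
  exact h2

end Proj

end HL

end Pool.Agent.Lib.OrlovNef
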