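import Pool.Agent.Lib.OrlovNef.Jordan

/-!
# Isomorphisms between parts of the primitive cohomology
-/

set_option autoImplicit false

open scoped TensorProduct ComplexOrder

namespace Pool.Agent.Lib.OrlovNef

open Pool.Agent.Lib.OrlovSig

/-- The degrees of a block of the primitive part `P_m`, which has dimension `e = d - m`. -/
def blockSet (e a : ℕ) : Finset ℕ := (Finset.range (2 * e + 1)).filter (fun j => block e j = a)

namespace HL

variable {d : ℕ} {V V' : Type*} [AddCommGroup V] [Module ℚ V] [AddCommGroup V'] [Module ℚ V']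

/-- The projector onto the sum of the `H^j` with `j ∈ s`. -/
noncomputable def prOn (X : HL d V) (s : Finset ℕ) : V →ₗ[ℚ] V := ∑ j ∈ s, X.pr j

/-- The parts of the primitive spaces `P_m = ker N ^ (m + 1) / (ker N ^ m + im N)` of `X` and `X'`
in the degrees of `s` are isomorphic, compatibly with `p - q`. -/
def PrimIso {X : HL d V} {X' : HL d V'} (P : X.Nef) (P' : X'.Nef) (m : ℕ) (s : Finset ℕ) : Prop :=
  ∃ (f : V →ₗ[ℚ] V') (g : V' →ₗ[ℚ] V),
    (∀ c x, f.baseChange ℂ (X.col c x) = X'.col c (f.baseChange ℂ x)) ∧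
    (∀ c y, g.baseChange ℂ (X'.col c y) = X.col c (g.baseChange ℂ y)) ∧
    (∀ x, (P.op ^ (m + 1)) x = 0 → (P'.op ^ (m + 1)) (f x) = 0 ∧
      (Low P.op m x → Low P'.op m (f x)) ∧ Low P.op m (g (f x) - X.prOn s x)) ∧
    (∀ y, (P'.op ^ (m + 1)) y = 0 → (P.op ^ (m + 1)) (g y) = 0 ∧
      (Low P'.op m y → Low P.op m (g y)) ∧ Low P'.op m (f (g y) - X'.prOn s y))

theorem Nef.op_pow_prOn {X : HL d V} (P : X.Nef) (s : Finset ℕ) (k : ℕ) {x : V}
    (hx : (P.op ^ k) x = 0) : (P.op ^ k) (X.prOn s x) = 0 := by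
  unfold prOn
  rw [LinearMap.sum_apply, map_sum]
  refine Finset.sum_eq_zero (fun j _ => ?_)
  rw [P.op_pow_pr, hx, map_zero]

section Proj

variable {X : HL d V} {P : X.Nef} {m : ℕ} {g : Module.End ℚ V}

theorem IsProj.g_prOn (h : IsProj P m g) (s : Finset ℕ) (x : V) :
    g (X.prOn s x) = X.prOn s (g x) := by
  unfold prOn
  rw [LinearMap.sum_apply, LinearMap.sum_apply, map_sum]
  exact Finset.sum_congr rfl (fun j _ => h.pr_g j x)

theorem IsProj.low_prOn (h : IsProj P m g) (s : Finset ℕ) {x : V}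
    (hx : (P.op ^ (m + 1)) x = 0) : Low P.op m (X.prOn s (g x) - X.prOn s x) := by
  have h1 : (P.op ^ (m + 1)) (X.prOn s (g x) - X.prOn s x) = 0 := by
    rw [map_sub, P.op_pow_prOn s _ hx, P.op_pow_prOn s _ (h.kill_apply x), sub_zero]
  rw [← h.low _ h1, map_sub, h.g_prOn, h.g_prOn, h.idem_apply, sub_self]

variable [FiniteDimensional ℚ V]

theorem IsProj.prjC_col (h : IsProj P m g) (hm : m ≤ d) (c : ℤ) (x : ℂ ⊗[ℚ] V) :
    (prj g).baseChange ℂ (X.col c x) = (primHL h hm).col c ((prj g).baseChange ℂ x) := by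
  apply h.incC_inj
  rw [h.incC_col hm, incC_prjC, incC_prjC, h.deg.1]

end Proj

section Two

variable {X : HL d V} {X' : HL d V'} {P : X.Nef} {P' : X'.Nef} {m : ℕ} {g : Module.End ℚ V}
  {g' : Module.End ℚ V'} [FiniteDimensional ℚ V] [FiniteDimensional ℚ V']

/-- From an isomorphism of parts of the primitive data to `PrimIso`. -/
theorem primIso_of_maps (h : IsProj P m g) (h' : IsProj P' m g') (hm : m ≤ d) (s : Finset ℕ)
    (F : LinearMap.range g →ₗ[ℚ] LinearMap.range g')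
    (G : LinearMap.range g' →ₗ[ℚ] LinearMap.range g)
    (hF : (primHL h hm).IsHodge (primHL h' hm) F) (hG : (primHL h' hm).IsHodge (primHL h hm) G)
    (hGF : ∀ x, inc g (G (F x)) = X.prOn s (inc g x))
    (hFG : ∀ y, inc g' (F (G y)) = X'.prOn s (inc g' y)) : PrimIso P P' m s := by
  refine ⟨inc g' ∘ₗ F ∘ₗ prj g, inc g ∘ₗ G ∘ₗ prj g', ?_, ?_, ?_, ?_⟩
  · intro c x
    simp only [LinearMap.baseChange_comp, LinearMap.comp_apply]
    rw [h.prjC_col hm, hF, h'.incC_col hm]
  · intro c x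
    simp only [LinearMap.baseChange_comp, LinearMap.comp_apply]
    rw [h'.prjC_col hm, hG, h.incC_col hm]
  · intro x hx
    simp only [LinearMap.comp_apply]
    refine ⟨h'.kill_inc _, fun hl => ?_, ?_⟩
    · have h1 : prj g x = 0 := Subtype.ext ((h.low x hx).2 hl)
      rw [h1, map_zero, map_zero]
      exact Low.zero _ _
    · rw [h'.prj_inc, hGF, inc_prj]
      exact h.low_prOn s hx
  · intro y hy
    simp only [LinearMap.comp_apply]
    refine ⟨h.kill_inc _, fun hl => ?_, ?_⟩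
    · have h1 : prj g' y = 0 := Subtype.ext ((h'.low y hy).2 hl)
      rw [h1, map_zero, map_zero]
      exact Low.zero _ _
    · rw [h.prj_inc, hFG, inc_prj]
      exact h'.low_prOn s hy

/-- A pair of Hodge maps which are inverse up to `pr j` gives an isomorphism in degree `j`. -/
theorem hodgeIso_of_pair {e : ℕ} {U U' : Type*} [AddCommGroup U] [Module ℚ U] [AddCommGroup U']
    [Module ℚ U'] (Y : HL e U) (Y' : HL e U') (j : ℕ) (f : U →ₗ[ℚ] U') (g : U' →ₗ[ℚ] U)
    (hf : Y.IsHodge Y' f) (hgf : g ∘ₗ f = Y.pr j) (hfg : f ∘ₗ g = Y'.pr j) : Y.HodgeIso Y' j := by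
  have p1 : Y.pr j ∘ₗ Y.pr j = Y.pr j := Y.pr_self j
  have p2 : Y'.pr j ∘ₗ Y'.pr j = Y'.pr j := Y'.pr_self j
  have hfpr : f ∘ₗ Y.pr j = Y'.pr j ∘ₗ f := by
    rw [← hgf, ← hfg, LinearMap.comp_assoc]
  have hgpr : g ∘ₗ Y'.pr j = Y.pr j ∘ₗ g := by
    rw [← hgf, ← hfg, LinearMap.comp_assoc]
  refine ⟨f ∘ₗ Y.pr j, g ∘ₗ Y'.pr j, ?_, ?_, ?_⟩
  · calc (g ∘ₗ Y'.pr j) ∘ₗ (f ∘ₗ Y.pr j) = g ∘ₗ (Y'.pr j ∘ₗ f) ∘ₗ Y.pr j := by
          simp only [LinearMap.comp_assoc]
      _ = (g ∘ₗ f) ∘ₗ (Y.pr j ∘ₗ Y.pr j) := by rw [← hfpr]; simp only [LinearMap.comp_assoc]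
      _ = Y.pr j := by rw [hgf, p1, p1]
  · calc (f ∘ₗ Y.pr j) ∘ₗ (g ∘ₗ Y'.pr j) = f ∘ₗ (Y.pr j ∘ₗ g) ∘ₗ Y'.pr j := by
          simp only [LinearMap.comp_assoc]
      _ = (f ∘ₗ g) ∘ₗ (Y'.pr j ∘ₗ Y'.pr j) := by rw [← hgpr]; simp only [LinearMap.comp_assoc]
      _ = Y'.pr j := by rw [hfg, p2, p2]
  · intro p q hpq x
    apply Y.hp_of_isHodge Y' _ (IsHodge.comp hf (Y.isHodge_pr j)) j _ _ p q hpq
    · rw [LinearMap.comp_assoc, p1]
    · rw [hfpr, ← LinearMap.comp_assoc, p2]

/-- From `PrimIso` in one degree to an isomorphism of the primitive data in this degree. -/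
theorem PrimIso.hodgeIso {j : ℕ} (hi : PrimIso P P' m {j}) (h : IsProj P m g)
    (h' : IsProj P' m g') (hm : m ≤ d) : (primHL h hm).HodgeIso (primHL h' hm) j := by
  obtain ⟨f, k, hf, hk, h1, h2⟩ := hi
  refine hodgeIso_of_pair _ _ j (indMap g g' f) (indMap g' g k) (indMap_isHodge h h' hm hf) ?_ ?_
  · apply LinearMap.ext
    intro x
    apply Subtype.ext
    have e : inc g (indMap g' g k (indMap g g' f x)) = X.pr j (inc g x) := by
      rw [inc_indMap, inc_indMap]
      obtain ⟨a1, -, a3⟩ := h1 (inc g x) (h.kill_inc x)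
      have a4 : g (k (f (inc g x) - g' (f (inc g x)))) = 0 := by
        have b1 := h2 (f (inc g x) - g' (f (inc g x))) (by
          rw [map_sub, a1, h'.kill_apply, sub_zero])
        exact (h.low _ b1.1).2 (b1.2.1 (h'.low_sub a1))
      have a5 : g (k (f (inc g x)) - X.prOn {j} (inc g x)) = 0 := by
        refine (h.low _ ?_).2 a3
        rw [map_sub, (h2 _ a1).1, P.op_pow_prOn _ _ (h.kill_inc x), sub_zero]
      have a6 : X.prOn {j} (inc g x) = X.pr j (inc g x) := by
        unfold prOn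
        rw [Finset.sum_singleton]
      rw [map_sub, map_sub, sub_eq_zero] at a4
      rw [map_sub, sub_eq_zero, a6, h.pr_g, h.g_inc] at a5
      rw [← a4, a5]
    exact e.trans (h.inc_pr j x).symm
  · apply LinearMap.ext
    intro y
    apply Subtype.ext
    have e : inc g' (indMap g g' f (indMap g' g k y)) = X'.pr j (inc g' y) := by
      rw [inc_indMap, inc_indMap]
      obtain ⟨a1, -, a3⟩ := h2 (inc g' y) (h'.kill_inc y)
      have a4 : g' (f (k (inc g' y) - g (k (inc g' y)))) = 0 := by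
        have b1 := h1 (k (inc g' y) - g (k (inc g' y))) (by
          rw [map_sub, a1, h.kill_apply, sub_zero])
        exact (h'.low _ b1.1).2 (b1.2.1 (h.low_sub a1))
      have a5 : g' (f (k (inc g' y)) - X'.prOn {j} (inc g' y)) = 0 := by
        refine (h'.low _ ?_).2 a3
        rw [map_sub, (h1 _ a1).1, P'.op_pow_prOn _ _ (h'.kill_inc y), sub_zero]
      have a6 : X'.prOn {j} (inc g' y) = X'.pr j (inc g' y) := by
        unfold prOn
        rw [Finset.sum_singleton]
      rw [map_sub, map_sub, sub_eq_zero] at a4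
      rw [map_sub, sub_eq_zero, a6, h'.pr_g, h'.g_inc] at a5
      rw [← a4, a5]
    exact e.trans (h'.inc_pr j y).symm

/-- Conversely an isomorphism of the primitive data in one degree gives `PrimIso`. -/
theorem primIso_of_hodgeIso {j : ℕ} (h : IsProj P m g) (h' : IsProj P' m g') (hm : m ≤ d)
    (hi : (primHL h hm).HodgeIso (primHL h' hm) j) : PrimIso P P' m {j} := by
  obtain ⟨f, k, hf, hk, hkf, hfk, -, -, -, -⟩ := (primHL h hm).maps_of_mvn (primHL h' hm)
    ((primHL h hm).coe_π₁ (primHL h' hm) j) ((primHL h hm).coe_π₂ (primHL h' hm) j)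
    ((primHL h hm).mvn_of_hodgeIso (primHL h' hm) j hi)
  refine primIso_of_maps h h' hm {j} f k hf hk (fun x => ?_) (fun y => ?_)
  · unfold prOn
    rw [Finset.sum_singleton, ← h.inc_pr]
    exact congrArg (inc g) (LinearMap.congr_fun hkf x)
  · unfold prOn
    rw [Finset.sum_singleton, ← h'.inc_pr]
    exact congrArg (inc g') (LinearMap.congr_fun hfk y)

theorem inc_prBlock (h : IsProj P m g) (hm : m ≤ d) (a : ℕ) (x : LinearMap.range g) :
    inc g ((primHL h hm).prBlock a x) = X.prOn (blockSet (d - m) a) (inc g x) := by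
  unfold prBlock prOn blockSet
  rw [Finset.sum_filter, LinearMap.sum_apply, LinearMap.sum_apply, map_sum]
  refine Finset.sum_congr rfl (fun j _ => ?_)
  split_ifs
  · exact h.inc_pr j x
  · rw [LinearMap.zero_apply, LinearMap.zero_apply, map_zero]

/-- Equivalent blocks of the primitive data give `PrimIso`. -/
theorem primIso_of_block (h : IsProj P m g) (h' : IsProj P' m g') (hm : m ≤ d) (a : ℕ)
    (hB : MvN (((primHL h hm).pkg₁ (primHL h' hm)).B a)
      (((primHL h hm).pkg₂ (primHL h' hm)).B a)) : PrimIso P P' m (blockSet (d - m) a) := by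
  obtain ⟨f, k, hf, hk, hkf, hfk, -, -, -, -⟩ := (primHL h hm).maps_of_mvn (primHL h' hm)
    ((primHL h hm).coe_B₁ (primHL h' hm) a) ((primHL h hm).coe_B₂ (primHL h' hm) a) hB
  refine primIso_of_maps h h' hm _ f k hf hk (fun x => ?_) (fun y => ?_)
  · rw [← inc_prBlock h hm]
    exact congrArg (inc g) (LinearMap.congr_fun hkf x)
  · rw [← inc_prBlock h' hm]
    exact congrArg (inc g') (LinearMap.congr_fun hfk y)

end Two

end HL

end Pool.Agent.Lib.OrlovNef
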