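import Pool.Agent.Lib.OrlovNef.Nef

/-!
# The Hodge projector onto a complement of `ker N ^ m + im N` inside `ker N ^ (m + 1)`
-/

set_option autoImplicit false

open scoped TensorProduct ComplexOrder

namespace Pool.Agent.Lib.OrlovNef

open Pool.Agent.Lib.OrlovSig

namespace HL

variable {d : ℕ} {V V' : Type*} [AddCommGroup V] [Module ℚ V] [AddCommGroup V'] [Module ℚ V']

/-- A Hodge projector of degree `0` onto a complement of `ker N ^ m + im N` in
`ker N ^ (m + 1)`. -/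
structure IsProj {X : HL d V} (P : X.Nef) (m : ℕ) (g : Module.End ℚ V) : Prop where
  deg : X.Deg 0 g
  idem : g * g = g
  kill : P.op ^ (m + 1) * g = 0
  low : ∀ x : V, (P.op ^ (m + 1)) x = 0 → (g x = 0 ↔ Low P.op m x)
  lowC : ∀ x : ℂ ⊗[ℚ] V, ((P.op.baseChange ℂ) ^ (m + 1)) x = 0 →
    (g.baseChange ℂ x = 0 ↔ Low (R := Module.End ℂ (ℂ ⊗[ℚ] V)) (P.op.baseChange ℂ) m x)

theorem baseChange_one' {U : Type*} [AddCommGroup U] [Module ℚ U] :
    (1 : Module.End ℚ U).baseChange ℂ = 1 := by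
  apply lin_ext
  intro v
  rfl

theorem exists_isProj [FiniteDimensional ℚ V] {X : HL d V} (P : X.Nef) (m : ℕ) :
    ∃ g : Module.End ℚ V, IsProj P m g := by
  set n := P.op with hn
  have hd : ∀ k, X.Deg k (n ^ k) := fun k => P.deg.pow k
  obtain ⟨z₁, hz₁, e₁⟩ := X.exists_inverse (hd (m + 1))
  obtain ⟨z₂, hz₂, -⟩ := X.exists_inverse (hd (m + 2))
  have hk₁ : X.Deg 0 (kEl n z₁ (m + 1)) := (Deg.one X).sub (hz₁.mul_deg (hd _))
  have hk₂ : X.Deg 0 (kEl n z₂ (m + 2)) := (Deg.one X).sub (hz₂.mul_deg (hd _))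
  have ha : X.Deg (m + 1) (aEl n z₂ m) := by
    have := (hd (m + 1)).mul hk₂
    rwa [zero_add] at this
  obtain ⟨za, hza, ea⟩ := X.exists_inverse ha
  have hw : X.Deg m (wEl n z₁ z₂ za m) := by
    have h1 : X.Deg m (n ^ m * kEl n z₁ (m + 1)) := by
      have := (hd m).mul hk₁
      rwa [zero_add] at this
    have h2 := ((Deg.one X).sub (ha.mul_coDeg hza)).mul h1
    rw [add_zero] at h2
    exact h2
  obtain ⟨zw, hzw, ew⟩ := X.exists_inverse hw
  have hg : X.Deg 0 (gEl n z₁ z₂ za zw m) := hk₁.mul (hzw.mul_deg hw)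
  refine ⟨gEl n z₁ z₂ za zw m, hg, gEl_mul_gEl e₁ ew, pow_mul_gEl e₁,
    fun x hx => gEl_smul_eq_zero_iff e₁ ea ew x hx, fun x hx => ?_⟩
  -- over `ℂ`
  let φ : Module.End ℚ V →+* Module.End ℂ (ℂ ⊗[ℚ] V) :=
    { toFun := fun f => f.baseChange ℂ
      map_one' := baseChange_one'
      map_mul' := fun f g => LinearMap.baseChange_mul f g
      map_zero' := LinearMap.baseChange_zero
      map_add' := fun f g => LinearMap.baseChange_add f g }
  have hφ : ∀ f, f.baseChange ℂ = φ f := fun f => rfl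
  have hk : ∀ z k, φ (kEl n z k) = kEl (φ n) (φ z) k := by
    intro z k
    unfold kEl
    rw [map_sub, map_one, map_mul, map_pow]
  have hφa : φ (aEl n z₂ m) = aEl (φ n) (φ z₂) m := by
    unfold aEl
    rw [map_mul, map_pow, hk]
  have hφw : φ (wEl n z₁ z₂ za m) = wEl (φ n) (φ z₁) (φ z₂) (φ za) m := by
    unfold wEl
    rw [map_mul, map_mul, map_sub, map_one, map_mul, map_pow, hk, hφa]
  have hφg : φ (gEl n z₁ z₂ za zw m) = gEl (φ n) (φ z₁) (φ z₂) (φ za) (φ zw) m := by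
    unfold gEl
    rw [map_mul, map_mul, hk, hφw]
  rw [hφ, hφg, hφ]
  refine gEl_smul_eq_zero_iff (R := Module.End ℂ (ℂ ⊗[ℚ] V)) ?_ ?_ ?_ x hx
  · rw [← map_pow, ← map_mul, ← map_mul, e₁]
  · rw [← hφa, ← map_mul, ← map_mul, ea]
  · rw [← hφw, ← map_mul, ← map_mul, ew]

end HL

end Pool.Agent.Lib.OrlovNef
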