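import Pool.Agent.Lib.OrlovNef.Main

/-!
# MP_5c0b30_ag: Hodge structures of varieties that are derived equivalent over a base

`X`, `X'` are the Hodge-Lefschetz data of the rational cohomology of two smooth projective complex
varieties of the same dimension `d`, and `P`, `P'` are cup products with nef classes.  A derived
equivalence that is compatible with the nef classes induces, through the Mukai vector of its
kernel, a linear isomorphism `u` that respects the sums of the `H^{p,q}` with `p - q = c` and the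
generalised Mukai pairing, and commutes with the nef classes.
-/

set_option autoImplicit false

open scoped TensorProduct

namespace Pool.Agent.Lib.OrlovNef.RelativeHodge

open Pool.Agent.Lib.OrlovSig Pool.Agent.Lib.OrlovNef

theorem result {d : ℕ} {V V' : Type*} [AddCommGroup V] [Module ℚ V] [FiniteDimensional ℚ V]
    [AddCommGroup V'] [Module ℚ V'] [FiniteDimensional ℚ V']
    (X : HL d V) (X' : HL d V') (P : X.Nef) (P' : X'.Nef) (u : V ≃ₗ[ℚ] V')
    (hu : ∀ (c : ℤ) (x : ℂ ⊗[ℚ] V), u.toLinearMap.baseChange ℂ (X.col c x) =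
      X'.col c (u.toLinearMap.baseChange ℂ x))
    (hm : ∀ x y : V, X'.mukai (u x) (u y) = X.mukai x y)
    (hN : ∀ x : V, u (P.op x) = P'.op (u x)) :
    (∀ m ≤ d, ∀ a, HL.PrimIso P P' m (blockSet (d - m) a)) ∧
    (∀ m j, m + j ≤ d → (∀ i, m + i ≤ d → i ≠ j → block (d - m) i = block (d - m) j →
      HL.PrimIso P P' m {i}) → HL.PrimIso P P' m {j} ∧ HL.PrimIso P P' m {2 * (d - m) - j}) ∧
    ∀ r, (∀ j, j + r ≤ d → ∀ x, (P.op ^ (d - r - j)) (X.pr j x) = 0 → X.pr j x = 0) →
      (∀ j, j + r ≤ d → ∀ x, (P'.op ^ (d - r - j)) (X'.pr j x) = 0 → X'.pr j x = 0) →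
      (∀ m j, d ≤ m + j + r → m + j + 2 < d → HL.PrimIso P P' m {j}) →
      ∀ j, X.HodgeIso X' j := by
  refine ⟨fun m hmd a => HL.primIso_block X X' P P' u hu hm hN m hmd a,
    fun m j hmj hi => HL.primIso_cancel X X' P P' u hu hm hN m j hmj hi, ?_⟩
  intro r hP hP' hi
  refine HL.hodgeIso_of_known X X' P P' u hu hm hN {t | t.1 + t.2 + 2 < d} ?_ ?_
  · intro m j hmj
    rw [Set.mem_ofPred_eq] at hmj
    rcases Nat.lt_or_ge (m + j + r) d with h1 | h1
    · exact HL.primIso_of_lefschetz X X' P P' r hP hP' m j h1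
    · exact hi m j h1 hmj
  · intro m i j hmi hmj hb h1 h2
    rw [Set.mem_ofPred_eq, not_lt] at h1 h2
    dsimp only at h1 h2
    unfold block at hb
    split_ifs at hb <;> omega

end Pool.Agent.Lib.OrlovNef.RelativeHodge
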