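import Pool.Agent.Lib.OrlovNef.Lefs

/-!
# The star operator of a polarised Lefschetz module
-/

set_option autoImplicit false

namespace Pool.Agent.Lib.OrlovNef

/-- `r! / (k - r)!`, and zero if `r > k`. -/
def fr (K : Type*) [Field K] (k r : ℕ) : K :=
  if r ≤ k then (r.factorial : K) / ((k - r).factorial : K) else 0

theorem fr_of_lt (K : Type*) [Field K] {k r : ℕ} (h : k < r) : fr K k r = 0 := by
  unfold fr
  rw [if_neg (by omega)]

section Char

variable (K : Type*) [Field K] [CharZero K]

theorem fact_ne (n : ℕ) : (n.factorial : K) ≠ 0 := by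
  exact_mod_cast n.factorial_ne_zero

theorem fr_mul (k r : ℕ) (h : r ≤ k) : fr K k r * fr K k (k - r) = 1 := by
  unfold fr
  rw [if_pos h, if_pos (by omega), show k - (k - r) = r by omega]
  have h1 := fact_ne K r
  have h2 := fact_ne K (k - r)
  field_simp

theorem fr_succ (k r : ℕ) (h : r ≤ k) : fr K k (r + 1) = (r + 1) * (k - r) * fr K k r := by
  rcases Nat.lt_or_ge r k with h1 | h1
  · obtain ⟨m, rfl⟩ : ∃ m, k = r + 1 + m := ⟨k - r - 1, by omega⟩
    unfold fr
    rw [if_pos (by omega), if_pos (by omega), show r + 1 + m - (r + 1) = m by omega,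
      show r + 1 + m - r = m + 1 by omega, Nat.factorial_succ, Nat.factorial_succ]
    have h2 := fact_ne K m
    have h3 : (m : K) + 1 ≠ 0 := by exact_mod_cast Nat.succ_ne_zero m
    push_cast
    field_simp
    ring
  · obtain rfl : r = k := by omega
    rw [fr_of_lt K (by omega)]
    ring

theorem fr_mul_two (k r : ℕ) (h : r ≤ k + 2) :
    fr K k r * fr K (k + 2) (k + 2 - r) = (k + 2 - r) * (k + 1 - r) := by
  rcases Nat.lt_or_ge k r with h1 | h1
  · rw [fr_of_lt K h1, zero_mul]
    obtain h2 | h2 : r = k + 1 ∨ r = k + 2 := by omega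
    · rw [h2]; push_cast; ring
    · rw [h2]; push_cast; ring
  · obtain ⟨m, rfl⟩ : ∃ m, k = r + m := ⟨k - r, by omega⟩
    unfold fr
    rw [if_pos (by omega), if_pos (by omega), show r + m - r = m by omega,
      show r + m + 2 - r = m + 2 by omega, show r + m + 2 - (m + 2) = r by omega,
      Nat.factorial_succ, Nat.factorial_succ]
    have h2 := fact_ne K m
    have h3 := fact_ne K r
    push_cast
    field_simp
    ring

end Char

namespace Lefs

variable {K E : Type*} [Field K] [LinearOrder K] [IsStrictOrderedRing K] [AddCommGroup E]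
  [Module K E] {d : ℕ} (X : Lefs K E d)

omit [IsStrictOrderedRing K] in
theorem b_strand {i j : ℕ} {x y : E} (hx : X.IsPrim i x) (hy : X.IsPrim j y) (a c : ℕ) :
    X.b ((X.L ^ a) x) ((X.L ^ c) y) =
      if i = j ∧ a + c = d - i then X.b x ((X.L ^ (d - i)) y) else 0 := by
  have hi := hx.le
  have hj := hy.le
  split_ifs with h
  · rw [X.b_L_pow, ← Module.End.mul_apply, ← pow_add, h.2]
  · by_cases h1 : i + 2 * a + (j + 2 * c) = 2 * d
    · rcases Nat.lt_or_ge (d - j) (a + c) with h2 | h2
      · rw [X.b_L_pow, ← Module.End.mul_apply, ← pow_add, hy.kill_of_lt X h2, map_zero]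
      · rw [← X.b_L_pow, ← Module.End.mul_apply, ← pow_add, hx.kill_of_lt X (by omega), map_zero,
          LinearMap.zero_apply]
    · exact X.b_deg (X.L_pow_deg a hx.deg) (X.L_pow_deg c hy.deg) h1

variable [FiniteDimensional K E]

/-- The star operator. -/
noncomputable def S : Module.End K E :=
  X.stOp (fun j r => sgn K j * fr K (d - j) r) (fun j r => d - j - r)

omit [IsStrictOrderedRing K] in
theorem S_strand {i : ℕ} {y : E} (hy : X.IsPrim i y) (s : ℕ) :
    X.S ((X.L ^ s) y) = (sgn K i * fr K (d - i) s) • (X.L ^ (d - i - s)) y := by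
  have hi := hy.le
  by_cases hs : i + s ≤ d
  · exact X.stOp_strand _ _ hy hs
  · rw [hy.kill_of_lt X (by omega), map_zero, fr_of_lt K (by omega), mul_zero, zero_smul]

theorem S_sq : X.S * X.S = 1 := by
  apply X.ext_strand
  intro i s y hy hs
  have hi := hy.le
  rw [Module.End.mul_apply, X.S_strand hy, map_smul, X.S_strand hy, smul_smul,
    Module.End.one_apply, show d - i - (d - i - s) = s by omega]
  have h1 : sgn K i * fr K (d - i) s * (sgn K i * fr K (d - i) (d - i - s)) = 1 := by
    calc sgn K i * fr K (d - i) s * (sgn K i * fr K (d - i) (d - i - s))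
        = (sgn K i * sgn K i) * (fr K (d - i) s * fr K (d - i) (d - i - s)) := by ring
      _ = 1 := by rw [sgn_sq, fr_mul K _ _ (by omega), mul_one]
  rw [h1, one_smul]

theorem S_S (x : E) : X.S (X.S x) = x := LinearMap.congr_fun X.S_sq x

omit [IsStrictOrderedRing K] in
/-- The value of the form on strands. -/
theorem h_strand {i j : ℕ} {x y : E} (hx : X.IsPrim i x) (hy : X.IsPrim j y) (a c : ℕ)
    (ha : i + a ≤ d) (hc : j + c ≤ d) :
    X.b ((X.L ^ a) x) (X.S ((X.L ^ c) y)) =
      if i = j ∧ a = c then fr K (d - i) a * (sgn K i * X.b x ((X.L ^ (d - i)) y)) else 0 := by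
  have hi := hx.le
  have hj := hy.le
  rw [X.S_strand hy, map_smul, smul_eq_mul, X.b_strand hx hy]
  by_cases h : i = j ∧ a = c
  · obtain ⟨rfl, rfl⟩ := h
    rw [if_pos ⟨rfl, by omega⟩, if_pos ⟨rfl, rfl⟩]
    ring
  · rw [if_neg h, if_neg, mul_zero]
    rintro ⟨h1, h2⟩
    apply h
    exact ⟨h1, by omega⟩

omit [IsStrictOrderedRing K] in
theorem b_S (x y : E) : X.b (X.S x) y = X.b x (X.S y) := by
  have h0 : ∀ x y, X.b x (X.S y) = X.b y (X.S x) := by
    intro x y
    refine X.strand_induction (P := fun x => X.b x (X.S y) = X.b y (X.S x)) (by simp)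
      (fun a b ha hb => by
        simp only [map_add, LinearMap.add_apply, ha, hb]) (fun i a x' hx' ha => ?_) x
    refine X.strand_induction (P := fun y => X.b ((X.L ^ a) x') (X.S y) =
      X.b y (X.S ((X.L ^ a) x'))) (by simp)
      (fun a b ha hb => by
        simp only [map_add, LinearMap.add_apply, ha, hb]) (fun j c y' hy' hc => ?_) y
    rw [X.h_strand hx' hy' a c ha hc, X.h_strand hy' hx' c a hc ha]
    by_cases h : i = j ∧ a = c
    · obtain ⟨rfl, rfl⟩ := h
      rw [if_pos ⟨rfl, rfl⟩, if_pos ⟨rfl, rfl⟩, ← X.b_L_pow, X.b_symm]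
    · rw [if_neg h, if_neg (fun h' => h ⟨h'.1.symm, h'.2.symm⟩)]
  rw [h0, X.b_symm]

/-- The hermitian form. -/
noncomputable def h : LinearMap.BilinForm K E := X.b.compl₂ X.S

omit [IsStrictOrderedRing K] in
theorem h_apply (x y : E) : X.h x y = X.b x (X.S y) := rfl

omit [IsStrictOrderedRing K] in
theorem h_symm (x y : E) : X.h x y = X.h y x := by
  rw [X.h_apply, X.h_apply, ← X.b_S, X.b_symm]

/-- The polarisation on the primitive part of degree `j`. -/
noncomputable def q (j : ℕ) (x : E) : K := sgn K j * X.b x ((X.L ^ (d - j)) x)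

omit [IsStrictOrderedRing K] [FiniteDimensional K E] in
theorem q_zero (j : ℕ) : X.q j 0 = 0 := by
  unfold q
  rw [map_zero, LinearMap.zero_apply, mul_zero]

omit [IsStrictOrderedRing K] [FiniteDimensional K E] in
theorem q_pos {j : ℕ} {x : E} (hx : X.IsPrim j x) (h0 : x ≠ 0) : 0 < X.q j x :=
  X.pos j hx.le x hx.deg hx.kill h0

omit [IsStrictOrderedRing K] [FiniteDimensional K E] in
theorem q_nonneg {j : ℕ} {x : E} (hx : X.IsPrim j x) : 0 ≤ X.q j x := by
  by_cases h : x = 0
  · rw [h, X.q_zero]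
  · exact (X.q_pos hx h).le

omit [IsStrictOrderedRing K] in
theorem cmp_of_lt {j r : ℕ} (h : d < j + r) : X.cmp j r = 0 := by
  unfold cmp
  rw [if_neg (by omega)]

omit [IsStrictOrderedRing K] in
theorem h_eq_sum (x y : E) : X.h x y = ∑ j ∈ Finset.range (d + 1), ∑ r ∈ Finset.range (d + 1),
    fr K (d - j) r * (sgn K j * X.b (X.cmp j r x) ((X.L ^ (d - j)) (X.cmp j r y))) := by
  rw [X.h_apply]
  conv_lhs => rw [← X.sum_cmp x]
  rw [map_sum, LinearMap.sum_apply]
  refine Finset.sum_congr rfl (fun i hi => ?_)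
  rw [map_sum, LinearMap.sum_apply]
  refine Finset.sum_congr rfl (fun a ha => ?_)
  rw [Finset.mem_range] at hi ha
  by_cases hia : i + a ≤ d
  · conv_lhs => rw [← X.sum_cmp y]
    simp only [map_sum]
    have h1 : ∀ j ∈ Finset.range (d + 1), ∀ c ∈ Finset.range (d + 1),
        X.b ((X.L ^ a) (X.cmp i a x)) (X.S ((X.L ^ c) (X.cmp j c y))) =
        if i = j ∧ a = c then fr K (d - i) a *
          (sgn K i * X.b (X.cmp i a x) ((X.L ^ (d - i)) (X.cmp j c y))) else 0 := by
      intro j hj c hc
      rw [Finset.mem_range] at hj hc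
      by_cases hjc : j + c ≤ d
      · exact X.h_strand (X.cmp_isPrim (by omega) _ _) (X.cmp_isPrim (by omega) _ _) a c hia hjc
      · rw [X.cmp_of_lt (j := j) (r := c) (by omega), if_neg]
        · simp
        · rintro ⟨rfl, rfl⟩
          exact hjc hia
    rw [Finset.sum_congr rfl (fun j hj => Finset.sum_congr rfl (fun c hc => h1 j hj c hc))]
    rw [Finset.sum_eq_single_of_mem i (Finset.mem_range.2 hi)]
    · rw [Finset.sum_eq_single_of_mem a (Finset.mem_range.2 ha)]
      · rw [if_pos ⟨rfl, rfl⟩]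
      · intro c _ hc
        rw [if_neg (fun h => hc h.2.symm)]
    · intro j _ hj
      exact Finset.sum_eq_zero (fun c _ => if_neg (fun h => hj h.1.symm))
  · rw [X.cmp_of_lt (j := i) (r := a) (by omega)]
    simp

omit [IsStrictOrderedRing K] in
theorem h_self (x : E) : X.h x x = ∑ j ∈ Finset.range (d + 1), ∑ r ∈ Finset.range (d + 1),
    fr K (d - j) r * X.q j (X.cmp j r x) := X.h_eq_sum x x

omit [FiniteDimensional K E] in
theorem fr_nonneg (k r : ℕ) : 0 ≤ fr K k r := by
  unfold fr
  split_ifs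
  · positivity
  · exact le_refl _

omit [FiniteDimensional K E] in
theorem fr_pos {k r : ℕ} (h : r ≤ k) : 0 < fr K k r := by
  unfold fr
  rw [if_pos h]
  positivity

theorem h_nonneg (x : E) : 0 ≤ X.h x x := by
  rw [X.h_self]
  refine Finset.sum_nonneg (fun j hj => Finset.sum_nonneg (fun r _ => ?_))
  rw [Finset.mem_range] at hj
  exact mul_nonneg (fr_nonneg _ _) (X.q_nonneg (X.cmp_isPrim (by omega) _ _))

theorem h_pos {x : E} (hx : x ≠ 0) : 0 < X.h x x := by
  have h1 : ∃ j ∈ Finset.range (d + 1), ∃ r ∈ Finset.range (d + 1), X.cmp j r x ≠ 0 := by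
    by_contra hcon
    push Not at hcon
    apply hx
    rw [← X.sum_cmp x]
    refine Finset.sum_eq_zero (fun j hj => Finset.sum_eq_zero (fun r hr => ?_))
    rw [hcon j hj r hr, map_zero]
  obtain ⟨j, hj, r, hr, hne⟩ := h1
  have hjr : j + r ≤ d := by
    by_contra h2
    exact hne (by rw [X.cmp_of_lt (by omega), LinearMap.zero_apply])
  rw [X.h_self]
  have hnn : ∀ i ∈ Finset.range (d + 1), ∀ s, 0 ≤ fr K (d - i) s * X.q i (X.cmp i s x) := by
    intro i hi s
    rw [Finset.mem_range] at hi
    exact mul_nonneg (fr_nonneg _ _) (X.q_nonneg (X.cmp_isPrim (by omega) _ _))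
  refine Finset.sum_pos' (fun i hi => Finset.sum_nonneg (fun s _ => hnn i hi s)) ⟨j, hj, ?_⟩
  refine Finset.sum_pos' (fun s _ => hnn j hj s) ⟨r, hr, ?_⟩
  exact mul_pos (fr_pos (by omega)) (X.q_pos (X.cmp_isPrim (by omega) _ _) hne)

omit [IsStrictOrderedRing K] in
theorem S_deg {i : ℕ} (hi : i ≤ 2 * d) {x : E} (hx : X.pr i x = x) :
    X.pr (2 * d - i) (X.S x) = X.S x := by
  have h1 : X.pr (2 * d - i) ∘ₗ X.S = X.S ∘ₗ X.pr i := by
    apply X.ext_strand
    intro j s y hy hs
    have hj := hy.le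
    rw [LinearMap.comp_apply, LinearMap.comp_apply, X.S_strand hy, map_smul,
      X.pr_of (X.L_pow_deg _ hy.deg), X.pr_of (X.L_pow_deg _ hy.deg)]
    by_cases h2 : i = j + 2 * s
    · rw [if_pos (by omega), if_pos h2, X.S_strand hy]
    · rw [if_neg (by omega), if_neg h2, smul_zero, map_zero]
  have h2 := LinearMap.congr_fun h1 x
  rw [LinearMap.comp_apply, LinearMap.comp_apply, hx] at h2
  exact h2

/-- The adjoint of the Lefschetz operator. -/
noncomputable def La : Module.End K E := X.S * X.L * X.S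

theorem La_strand {i : ℕ} {y : E} (hy : X.IsPrim i y) (s : ℕ) (hs : i + s ≤ d) :
    X.La ((X.L ^ s) y) = ((s : K) * ((d : K) - i - s + 1)) • (X.L ^ (s - 1)) y := by
  have hi := hy.le
  unfold La
  rw [Module.End.mul_apply, Module.End.mul_apply, X.S_strand hy, map_smul, map_smul,
    ← Module.End.mul_apply X.L, ← pow_succ', X.S_strand hy, smul_smul]
  rcases Nat.eq_zero_or_pos s with rfl | h0
  · rw [fr_of_lt K (k := d - i) (r := d - i - 0 + 1) (by omega)]
    simp
  · rw [show d - i - (d - i - s + 1) = s - 1 by omega]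
    congr 1
    obtain ⟨m, hm⟩ : ∃ m, d - i = m + s := ⟨d - i - s, by omega⟩
    have e1 : (d : K) - i = m + s := by
      rw [← Nat.cast_sub hi, hm]
      push_cast
      ring
    rw [hm, show m + s - s = m by omega, fr_succ K _ _ (by omega)]
    have h3 := fr_mul K (m + s) s (by omega)
    rw [show m + s - s = m by omega] at h3
    have h4 := sgn_sq K i
    rw [e1]
    push_cast
    linear_combination ((s : K) * (m + 1)) * (h3 * (sgn K i * sgn K i) + h4)

/-- The operator which is `d - i` on the part of degree `i`. -/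
noncomputable def H : Module.End K E :=
  ∑ i ∈ Finset.range (2 * d + 1), ((d : K) - i) • X.pr i

omit [IsStrictOrderedRing K] [FiniteDimensional K E] in
theorem H_apply {i : ℕ} {x : E} (hx : X.pr i x = x) : X.H x = ((d : K) - i) • x := by
  unfold H
  rw [LinearMap.sum_apply]
  by_cases hi : i ≤ 2 * d
  · rw [Finset.sum_eq_single_of_mem i (Finset.mem_range.2 (by omega))]
    · rw [LinearMap.smul_apply, hx]
    · intro j _ hj
      rw [LinearMap.smul_apply, X.pr_of hx, if_neg hj, smul_zero]
  · have h0 := X.eq_zero_of_deg hx (by omega)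
    rw [h0, smul_zero]
    exact Finset.sum_eq_zero (fun j _ => by rw [map_zero])

theorem La_L : X.La * X.L - X.L * X.La = X.H := by
  apply X.ext_strand
  intro i s y hy hs
  have hi := hy.le
  rw [LinearMap.sub_apply, Module.End.mul_apply, Module.End.mul_apply, X.La_strand hy s hs,
    map_smul, ← Module.End.mul_apply X.L, ← pow_succ', X.H_apply (X.L_pow_deg s hy.deg),
    ← Module.End.mul_apply X.L, ← pow_succ']
  have e1 : ((s : K) * ((d : K) - i - s + 1)) • (X.L ^ (s - 1 + 1)) y =
      ((s : K) * ((d : K) - i - s + 1)) • (X.L ^ s) y := by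
    rcases Nat.eq_zero_or_pos s with rfl | h0
    · simp
    · rw [show s - 1 + 1 = s by omega]
  have e2 : X.La ((X.L ^ (s + 1)) y) = (((s + 1 : ℕ) : K) * ((d : K) - i - ((s + 1 : ℕ) : K) + 1)) •
      (X.L ^ s) y := by
    by_cases h1 : i + (s + 1) ≤ d
    · exact X.La_strand hy (s + 1) h1
    · obtain rfl : d = i + s := by omega
      rw [hy.kill_of_lt X (by omega), map_zero]
      push_cast
      rw [show ((i : K) + s - i - (s + 1) + 1) = 0 by ring, mul_zero, zero_smul]
  rw [e1, e2, ← sub_smul]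
  congr 1
  push_cast
  ring

end Lefs

end Pool.Agent.Lib.OrlovNef
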