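import Pool.Agent.Lib.OrlovNef.Deriv

/-!
# Trace estimates
-/

set_option autoImplicit false

namespace Pool.Agent.Lib.OrlovNef

namespace Lefs

variable {K E : Type*} [Field K] [LinearOrder K] [IsStrictOrderedRing K] [AddCommGroup E]
  [Module K E] {d : ℕ} {X : Lefs K E d} {N : Module.End K E} {δ : K →+ K} {D : E →+ E}
  [FiniteDimensional K E]

/-- The trace. -/
noncomputable def tr (T : Module.End K E) : K := LinearMap.trace K E T

omit [LinearOrder K] [IsStrictOrderedRing K] [FiniteDimensional K E] in
theorem tr_comm (T U : Module.End K E) : tr (T * U) = tr (U * T) := LinearMap.trace_mul_comm K T U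

/-- The trace of a positive operator is nonnegative. -/
theorem tr_nonneg_of (X : Lefs K E d) {P : Module.End K E} (hP : ∀ x, 0 ≤ X.h x (P x)) :
    0 ≤ tr P := by
  have _ : Invertible (2 : K) := invertibleOfNonzero two_ne_zero
  obtain ⟨v, hv⟩ := LinearMap.BilinForm.exists_orthogonal_basis (B := X.h) ⟨X.h_symm⟩
  unfold tr
  rw [LinearMap.trace_eq_matrix_trace K v, Matrix.trace]
  refine Finset.sum_nonneg (fun i _ => ?_)
  rw [Matrix.diag_apply, LinearMap.toMatrix_apply]
  have h1 : X.h (v i) (P (v i)) = v.repr (P (v i)) i * X.h (v i) (v i) := by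
    conv_lhs => rw [← v.sum_repr (P (v i))]
    rw [map_sum, Finset.sum_eq_single_of_mem i (Finset.mem_univ i)]
    · rw [map_smul, smul_eq_mul]
    · intro j _ hj
      rw [map_smul, hv (Ne.symm hj), smul_zero]
  have h2 : 0 < X.h (v i) (v i) := X.h_pos (v.ne_zero i)
  have h3 := hP (v i)
  rw [h1] at h3
  exact nonneg_of_mul_nonneg_left h3 h2

theorem tr_adj_mul_nonneg (X : Lefs K E d) {T Ts : Module.End K E}
    (hT : ∀ x y, X.h (T x) y = X.h x (Ts y)) : 0 ≤ tr (Ts * T) := by
  apply tr_nonneg_of X
  intro x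
  rw [Module.End.mul_apply, ← hT]
  exact X.h_nonneg _

/-- Cauchy-Schwarz for the trace form on self-adjoint operators. -/
theorem tr_mul_sq_le (X : Lefs K E d) {T U : Module.End K E}
    (hT : ∀ x y, X.h (T x) y = X.h x (T y)) (hU : ∀ x y, X.h (U x) y = X.h x (U y)) :
    tr (T * U) ^ 2 ≤ (tr (U * U) + 1) * tr (T * T) := by
  set a := tr (T * U) with ha
  set c := tr (U * U) + 1 with hc
  have hc0 : 0 < c := by
    have := tr_adj_mul_nonneg X hU
    linarith
  have h1 : 0 ≤ tr ((c • T - a • U) * (c • T - a • U)) := by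
    apply tr_adj_mul_nonneg X
    intro x y
    simp only [LinearMap.sub_apply, LinearMap.smul_apply, map_sub, map_smul, hT, hU]
  have h2 : tr ((c • T - a • U) * (c • T - a • U)) =
      c ^ 2 * tr (T * T) - 2 * c * a ^ 2 + a ^ 2 * (c - 1) := by
    have e : (c • T - a • U) * (c • T - a • U) =
        (c ^ 2) • (T * T) - (c * a) • (T * U) - (c * a) • (U * T) + (a ^ 2) • (U * U) := by
      rw [sub_mul, mul_sub, mul_sub]
      simp only [smul_mul_smul_comm]
      rw [pow_two, pow_two, mul_comm a c]
      abel
    have e2 : tr (U * U) = c - 1 := by rw [hc]; ring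
    have e3 : tr (U * T) = a := by rw [ha, tr_comm]
    rw [e]
    unfold tr at *
    rw [map_add, map_sub, map_sub, map_smul, map_smul, map_smul, map_smul, e2, e3, ← ha]
    simp only [smul_eq_mul]
    ring
  rw [h2] at h1
  have h3 : 0 ≤ c * (c * tr (T * T) - a ^ 2) := by
    have : c ^ 2 * tr (T * T) - 2 * c * a ^ 2 + a ^ 2 * (c - 1) =
        c * (c * tr (T * T) - a ^ 2) - a ^ 2 := by ring
    rw [this] at h1
    have h4 := sq_nonneg a
    linarith
  have h4 := nonneg_of_mul_nonneg_right h3 hc0
  linarith

/-- The operator norm is bounded by the Hilbert-Schmidt norm. -/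
theorem h_le_tr (X : Lefs K E d) {T Ts : Module.End K E}
    (hT : ∀ x y, X.h (T x) y = X.h x (Ts y)) (x : E) :
    X.h (T x) (T x) ≤ tr (Ts * T) * X.h x x := by
  by_cases hx : x = 0
  · rw [hx]
    simp
  have hp := X.h_pos hx
  set c := X.h x x with hc
  set e := X.h (T x) (T x) with he
  set U : Module.End K E := (X.h x).smulRight (T x) with hU
  set Us : Module.End K E := (X.h (T x)).smulRight x with hUs
  have h1 : 0 ≤ tr ((c • Ts - Us) * (c • T - U)) := by
    apply tr_adj_mul_nonneg X
    intro y z
    simp only [LinearMap.sub_apply, LinearMap.smul_apply, map_sub, map_smul, hT, hU, hUs,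
      LinearMap.smulRight_apply, smul_eq_mul]
    rw [X.h_symm y x, mul_comm (X.h x y), ← hT]
  have e1 : tr (Ts * U) = e := by
    have : Ts * U = (X.h x).smulRight (Ts (T x)) := by
      ext y
      simp only [Module.End.mul_apply, hU, LinearMap.smulRight_apply, map_smul]
    rw [this]
    unfold tr
    rw [LinearMap.trace_smulRight, ← hT]
  have e2 : tr (Us * T) = e := by
    have : Us * T = ((X.h (T x)) ∘ₗ T).smulRight x := by
      ext y
      simp only [Module.End.mul_apply, hUs, LinearMap.smulRight_apply, LinearMap.comp_apply]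
    rw [this]
    unfold tr
    rw [LinearMap.trace_smulRight, LinearMap.comp_apply]
  have e3 : tr (Us * U) = c * e := by
    have : Us * U = (e • X.h x).smulRight x := by
      ext y
      simp only [Module.End.mul_apply, hUs, hU, LinearMap.smulRight_apply, map_smul,
        LinearMap.smul_apply, smul_eq_mul]
      rw [← he, mul_comm, smul_smul]
    rw [this]
    unfold tr
    rw [LinearMap.trace_smulRight, LinearMap.smul_apply, smul_eq_mul, ← hc, mul_comm]
  have h2 : tr ((c • Ts - Us) * (c • T - U)) = c * (c * tr (Ts * T) - e) := by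
    have e' : (c • Ts - Us) * (c • T - U) =
        (c * c) • (Ts * T) - c • (Ts * U) - c • (Us * T) + Us * U := by
      rw [sub_mul, mul_sub, mul_sub, smul_mul_smul_comm, smul_mul_assoc, mul_smul_comm]
      abel
    rw [e']
    unfold tr at *
    rw [map_add, map_sub, map_sub, map_smul, map_smul, map_smul, e1, e2, e3]
    simp only [smul_eq_mul]
    ring
  rw [h2] at h1
  have h3 := nonneg_of_mul_nonneg_right h1 hp
  linarith

omit [IsStrictOrderedRing K] [FiniteDimensional K E] in
/-- The trace commutes with differentiation. -/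
theorem Diff.tr_op (hD : X.Diff N δ D) {ι : Type*} [Finite ι] (v : Module.Basis ι K E)
    (hv : ∀ i, D (v i) = 0) (T : Module.End K E) : tr (hD.op T) = δ (tr T) := by
  classical
  have _ := Fintype.ofFinite ι
  have hc : ∀ x i, v.repr (D x) i = δ (v.repr x i) := by
    intro x i
    have e : D x = ∑ j, δ (v.repr x j) • v j := by
      conv_lhs => rw [← v.sum_repr x]
      rw [map_sum]
      refine Finset.sum_congr rfl (fun j _ => ?_)
      rw [hD.smul, hv, smul_zero, add_zero]
    rw [e, map_sum, Finsupp.finsetSum_apply, Finset.sum_eq_single_of_mem i (Finset.mem_univ i)]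
    · rw [map_smul, Module.Basis.repr_self, Finsupp.smul_apply, Finsupp.single_eq_same,
        smul_eq_mul, mul_one]
    · intro j _ hj
      rw [map_smul, Module.Basis.repr_self, Finsupp.smul_apply, Finsupp.single_eq_of_ne (Ne.symm hj),
        smul_zero]
  unfold tr
  rw [LinearMap.trace_eq_matrix_trace K v, LinearMap.trace_eq_matrix_trace K v, Matrix.trace,
    Matrix.trace, map_sum]
  refine Finset.sum_congr rfl (fun i _ => ?_)
  rw [Matrix.diag_apply, Matrix.diag_apply, LinearMap.toMatrix_apply, LinearMap.toMatrix_apply,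
    hD.op_apply, hv, map_zero, sub_zero, hc]

/-- The relations between the traces. -/
theorem Diff.traces (hD : X.Diff N δ D) (hN : X.IsNef N) {ι : Type*} [Finite ι]
    (v : Module.Basis ι K E) (hv : ∀ i, D (v i) = 0) :
    δ (tr (X.A N * X.H)) = -(2 * tr (X.Ns N * N)) ∧
    δ (tr (X.A N * X.A N) - 2 * tr (X.Ns N * N)) = 0 ∧
    δ (tr (X.H * X.H) + 1) = 0 ∧
    tr (X.A N * X.H) ^ 2 ≤ (tr (X.H * X.H) + 1) * tr (X.A N * X.A N) := by
  have hadd : ∀ T U : Module.End K E, tr (T + U) = tr T + tr U := fun T U => map_add _ T U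
  have hsub : ∀ T U : Module.End K E, tr (T - U) = tr T - tr U := fun T U => map_sub _ T U
  have hmul : ∀ (a : K) (T : Module.End K E), tr (a • T) = a * tr T := by
    intro a T
    unfold tr
    rw [map_smul, smul_eq_mul]
  have h0 : tr (0 : Module.End K E) = 0 := by
    unfold tr
    rw [map_zero]
  have hS1 : hD.op X.S = X.S * X.A N := (hD.main hN).2
  have hS2 : hD.op X.S = -(X.A N * X.S) := by
    have e := congrArg (fun T => T * X.S) hN.S_A
    simp only [mul_assoc, X.S_sq, mul_one, neg_mul] at e
    rw [hS1, e]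
  have hdNs : hD.op (X.Ns N) = X.Ns N * X.A N - X.A N * X.Ns N := by
    have e : hD.op (X.Ns N) = hD.op X.S * N * X.S + X.S * N * hD.op X.S := by
      unfold Ns
      rw [hD.op_mul, hD.op_mul, hD.op_N]
      noncomm_ring
    rw [e]
    conv_lhs => enter [1]; rw [hS2]
    conv_lhs => enter [2]; rw [hS1]
    unfold Ns
    noncomm_ring
  refine ⟨?_, ?_, ?_, ?_⟩
  · rw [← hD.tr_op v hv, hD.op_mul, hD.op_H, mul_zero, add_zero, hD.op_A hN, sub_mul, hsub]
    have e1 : tr (N * X.Ns N * X.H) = tr (X.Ns N * X.H * N) := by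
      rw [mul_assoc, tr_comm]
    have e2 : X.Ns N * N * X.H = X.Ns N * X.H * N + (2 : K) • (X.Ns N * N) := by
      rw [mul_assoc, hN.H_N, mul_add, mul_smul_comm, mul_assoc]
    rw [e1, e2, hadd, hmul]
    ring
  · rw [map_sub, ← hD.tr_op v hv, hD.leib, ← hD.tr_op v hv, hD.op_mul, hD.op_mul, hD.op_N,
      mul_zero, add_zero, hD.op_A hN, hdNs]
    have e0 : δ 2 = 0 := by
      have := hD.natCast 2
      exact_mod_cast this
    rw [e0, zero_mul, zero_add, hadd]
    have e1 : tr ((N * X.Ns N - X.Ns N * N) * X.A N) =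
        tr (X.A N * (N * X.Ns N)) - tr (X.A N * (X.Ns N * N)) := by
      rw [tr_comm, mul_sub, hsub]
    have e2 : tr (X.A N * (N * X.Ns N - X.Ns N * N)) =
        tr (X.A N * (N * X.Ns N)) - tr (X.A N * (X.Ns N * N)) := by
      rw [mul_sub, hsub]
    have e3 : tr ((X.Ns N * X.A N - X.A N * X.Ns N) * N) =
        tr (X.A N * (N * X.Ns N)) - tr (X.A N * (X.Ns N * N)) := by
      rw [sub_mul, hsub]
      congr 1
      rw [mul_assoc, tr_comm, mul_assoc]
    rw [e1, e2, e3]
    ring
  · rw [map_add, ← hD.tr_op v hv, hD.op_mul, hD.op_H, zero_mul, mul_zero, add_zero, h0, hD.one,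
      add_zero]
  · have hHs : ∀ x y, X.h (X.H x) y = X.h x (X.H y) := by
      have hSH : X.S * X.H = -(X.H * X.S) := by
        apply ext_deg (X := X)
        intro j x hx
        by_cases hj : j ≤ 2 * d
        · rw [Module.End.mul_apply, LinearMap.neg_apply, Module.End.mul_apply, X.H_apply hx,
            X.H_apply (X.S_deg hj hx), map_smul, ← neg_smul]
          congr 1
          rw [Nat.cast_sub hj]
          push_cast
          ring
        · rw [X.eq_zero_of_deg hx (by omega), map_zero, map_zero]
      have hbH : ∀ x y, X.b (X.H x) y = -X.b x (X.H y) := by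
        intro x y
        have e : ∀ i ∈ Finset.range (2 * d + 1), ∀ z,
            X.b (((d : K) - i) • X.pr i x) z = ((d : K) - i) * X.b x (X.pr (2 * d - i) z) := by
          intro i hi z
          rw [Finset.mem_range] at hi
          rw [map_smul, LinearMap.smul_apply, smul_eq_mul, X.b_pr i (by omega)]
        unfold H
        rw [LinearMap.sum_apply, LinearMap.sum_apply, map_sum, LinearMap.sum_apply, map_sum,
          ← Finset.sum_range_reflect, ← Finset.sum_neg_distrib]
        refine Finset.sum_congr rfl (fun i hi => ?_)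
        have hi' := Finset.mem_range.1 hi
        rw [LinearMap.smul_apply, e _ (Finset.mem_range.2 (by omega)), LinearMap.smul_apply,
          map_smul, smul_eq_mul, show 2 * d - (2 * d + 1 - 1 - i) = i by omega]
        rw [show 2 * d + 1 - 1 - i = 2 * d - i by omega, Nat.cast_sub (by omega)]
        push_cast
        ring
      intro x y
      rw [X.h_apply, X.h_apply, hbH]
      have e := LinearMap.congr_fun hSH y
      rw [Module.End.mul_apply, LinearMap.neg_apply, Module.End.mul_apply] at e
      rw [e, map_neg]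
    exact tr_mul_sq_le X hN.h_A hHs

end Lefs

end Pool.Agent.Lib.OrlovNef
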