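import Pool.Agent.Lib.OrlovNef.Apply

/-!
# From equivalences of idempotents to isomorphisms of Hodge structures
-/

set_option autoImplicit false

open scoped TensorProduct ComplexOrder

namespace Pool.Agent.Lib.OrlovNef

open Pool.Agent.Lib.OrlovSig

namespace HL

variable {d : ℕ} {V V' : Type*} [AddCommGroup V] [Module ℚ V] [AddCommGroup V'] [Module ℚ V']

set_option linter.unusedSectionVars false

theorem mul_apply_of {X : HL d V} {X' : HL d V'} {a b c : X.blockAlg X'}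
    (h : a * b = c) (w : V × V') :
    (a : Module.End ℚ (V × V')) ((b : Module.End ℚ (V × V')) w) =
      (c : Module.End ℚ (V × V')) w := by
  rw [← h]
  rfl

theorem isHodge_of_inv {X : HL d V} {X' : HL d V'} {F : V →ₗ[ℚ] V'}
    {G : V' →ₗ[ℚ] V} {e : V →ₗ[ℚ] V} {e' : V' →ₗ[ℚ] V'} (hF : X.IsHodge X' F)
    (he : X.IsHodge X e) (he' : X'.IsHodge X' e') (h1 : G ∘ₗ F = e) (h2 : F ∘ₗ G = e')
    (h3 : e ∘ₗ G = G) (h4 : G ∘ₗ e' = G) : X'.IsHodge X G := by
  intro c z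
  have k1 : ∀ w, G.baseChange ℂ (F.baseChange ℂ w) = e.baseChange ℂ w := by
    intro w
    rw [← h1, LinearMap.baseChange_comp, LinearMap.comp_apply]
  have k2 : ∀ w, F.baseChange ℂ (G.baseChange ℂ w) = e'.baseChange ℂ w := by
    intro w
    rw [← h2, LinearMap.baseChange_comp, LinearMap.comp_apply]
  have k3 : ∀ w, e.baseChange ℂ (G.baseChange ℂ w) = G.baseChange ℂ w := by
    intro w
    conv_rhs => rw [← h3]
    rw [LinearMap.baseChange_comp, LinearMap.comp_apply]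
  have k4 : ∀ w, G.baseChange ℂ (e'.baseChange ℂ w) = G.baseChange ℂ w := by
    intro w
    conv_rhs => rw [← h4]
    rw [LinearMap.baseChange_comp, LinearMap.comp_apply]
  rw [← k4, he', ← k2, ← hF, k1, he, k3]

variable [FiniteDimensional ℚ V] [FiniteDimensional ℚ V']

theorem coe_π₁ (X : HL d V) (X' : HL d V') (j : ℕ) :
    (((X.pkg₁ X').π j : X.blockAlg X') : Module.End ℚ (V × V')) =
      LinearMap.inl ℚ V V' ∘ₗ X.pr j ∘ₗ LinearMap.fst ℚ V V' := rfl

theorem coe_π₂ (X : HL d V) (X' : HL d V') (j : ℕ) :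
    (((X.pkg₂ X').π j : X.blockAlg X') : Module.End ℚ (V × V')) =
      LinearMap.inr ℚ V V' ∘ₗ X'.pr j ∘ₗ LinearMap.snd ℚ V V' := rfl

theorem isHodge_of_hodgeIso (X : HL d V) (X' : HL d V') (j : ℕ)
    (f : V →ₗ[ℚ] V')
    (h : ∀ p q, p + q = j → ∀ x, f.baseChange ℂ (X.hp p q x) = X'.hp p q (f.baseChange ℂ x)) :
    X.IsHodge X' (X'.pr j ∘ₗ f ∘ₗ X.pr j) := by
  intro c x
  rw [LinearMap.baseChange_comp, LinearMap.baseChange_comp]
  have key := X.ext_hp (f := ((X'.pr j).baseChange ℂ ∘ₗ f.baseChange ℂ ∘ₗ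
    (X.pr j).baseChange ℂ) ∘ₗ X.col c) (g := X'.col c ∘ₗ ((X'.pr j).baseChange ℂ ∘ₗ
      f.baseChange ℂ ∘ₗ (X.pr j).baseChange ℂ)) ?_
  · exact LinearMap.congr_fun key x
  · intro p q y
    simp only [LinearMap.comp_apply]
    rw [X.col_hp]
    by_cases hj : p + q = j
    · rw [X.prC_hp, if_pos hj, h p q hj, X'.prC_hp, if_pos hj, X'.col_hp]
      by_cases hc : (p : ℤ) - q = c
      · rw [if_pos hc, if_pos hc, X.prC_hp, if_pos hj, h p q hj, X'.prC_hp, if_pos hj]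
      · rw [if_neg hc, if_neg hc, map_zero, map_zero, map_zero]
    · rw [X.prC_hp, if_neg hj, map_zero, map_zero, map_zero]
      split_ifs
      · rw [X.prC_hp, if_neg hj, map_zero, map_zero]
      · rw [map_zero, map_zero, map_zero]

theorem mvn_of_hodgeIso (X : HL d V) (X' : HL d V') (j : ℕ)
    (h : HodgeIso X X' j) : MvN ((X.pkg₁ X').π j) ((X.pkg₂ X').π j) := by
  obtain ⟨f, g, hgf, hfg, hh⟩ := h
  have p1 : X.pr j ∘ₗ X.pr j = X.pr j := X.pr_self j
  have p2 : X'.pr j ∘ₗ X'.pr j = X'.pr j := X'.pr_self j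
  have hfpr : f ∘ₗ X.pr j = X'.pr j ∘ₗ f := by
    rw [← hgf, ← hfg, LinearMap.comp_assoc]
  set F : V →ₗ[ℚ] V' := X'.pr j ∘ₗ f ∘ₗ X.pr j with hF
  set G : V' →ₗ[ℚ] V := X.pr j ∘ₗ g ∘ₗ X'.pr j with hG
  have hFH : X.IsHodge X' F := X.isHodge_of_hodgeIso X' j f hh
  have hF' : F = f ∘ₗ X.pr j := by
    rw [hF, hfpr, ← LinearMap.comp_assoc, p2]
  have hGF : G ∘ₗ F = X.pr j := by
    calc G ∘ₗ F = X.pr j ∘ₗ (g ∘ₗ (X'.pr j ∘ₗ f ∘ₗ X.pr j)) := by
          rw [hG, hF']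
          simp only [LinearMap.comp_assoc]
      _ = X.pr j ∘ₗ (g ∘ₗ (f ∘ₗ X.pr j)) := by rw [← hF, hF']
      _ = X.pr j ∘ₗ ((g ∘ₗ f) ∘ₗ X.pr j) := by simp only [LinearMap.comp_assoc]
      _ = X.pr j := by rw [hgf, p1, p1]
  have hFG : F ∘ₗ G = X'.pr j := by
    calc F ∘ₗ G = f ∘ₗ ((X.pr j ∘ₗ X.pr j) ∘ₗ (g ∘ₗ X'.pr j)) := by
          rw [hF', hG]
          simp only [LinearMap.comp_assoc]
      _ = (f ∘ₗ X.pr j) ∘ₗ (g ∘ₗ X'.pr j) := by
          rw [p1]
          simp only [LinearMap.comp_assoc]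
      _ = X'.pr j ∘ₗ ((f ∘ₗ g) ∘ₗ X'.pr j) := by
          rw [hfpr]
          simp only [LinearMap.comp_assoc]
      _ = X'.pr j := by rw [hfg, p2, p2]
  have hprG : X.pr j ∘ₗ G = G := by
    rw [hG, ← LinearMap.comp_assoc, p1]
  have hGpr : G ∘ₗ X'.pr j = G := by
    rw [hG, LinearMap.comp_assoc, LinearMap.comp_assoc, p2]
  have hprF : X'.pr j ∘ₗ F = F := by
    rw [hF, ← LinearMap.comp_assoc, p2]
  have hFpr : F ∘ₗ X.pr j = F := by
    rw [hF, LinearMap.comp_assoc, LinearMap.comp_assoc, p1]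
  have hGH : X'.IsHodge X G := isHodge_of_inv hFH (X.isHodge_pr j) (X'.isHodge_pr j) hGF hFG
    hprG hGpr
  have hGF' := LinearMap.congr_fun hGF
  have hFG' := LinearMap.congr_fun hFG
  have hprG' := LinearMap.congr_fun hprG
  have hGpr' := LinearMap.congr_fun hGpr
  have hprF' := LinearMap.congr_fun hprF
  have hFpr' := LinearMap.congr_fun hFpr
  simp only [LinearMap.comp_apply] at hGF' hFG' hprG' hGpr' hprF' hFpr'
  refine ⟨⟨_, X.mem12 X' G hGH⟩, ⟨_, X.mem21 X' F hFH⟩, ?_, ?_, ?_, ?_, ?_, ?_⟩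
  · ext1
    refine LinearMap.ext (fun w => ?_)
    change (LinearMap.inl ℚ V V') (G ((LinearMap.inr ℚ V V' (F w.1)).2)) =
      LinearMap.inl ℚ V V' (X.pr j w.1)
    simp [hGF']
  · ext1
    refine LinearMap.ext (fun w => ?_)
    change (LinearMap.inr ℚ V V') (F ((LinearMap.inl ℚ V V' (G w.2)).1)) =
      LinearMap.inr ℚ V V' (X'.pr j w.2)
    simp [hFG']
  · ext1
    refine LinearMap.ext (fun w => ?_)
    change (LinearMap.inl ℚ V V') (X.pr j ((LinearMap.inl ℚ V V' (G w.2)).1)) =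
      LinearMap.inl ℚ V V' (G w.2)
    simp [hprG']
  · ext1
    refine LinearMap.ext (fun w => ?_)
    change (LinearMap.inl ℚ V V') (G ((LinearMap.inr ℚ V V' (X'.pr j w.2)).2)) =
      LinearMap.inl ℚ V V' (G w.2)
    simp [hGpr']
  · ext1
    refine LinearMap.ext (fun w => ?_)
    change (LinearMap.inr ℚ V V') (X'.pr j ((LinearMap.inr ℚ V V' (F w.1)).2)) =
      LinearMap.inr ℚ V V' (F w.1)
    simp [hprF']
  · ext1
    refine LinearMap.ext (fun w => ?_)
    change (LinearMap.inr ℚ V V') (F ((LinearMap.inl ℚ V V' (X.pr j w.1)).1)) =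
      LinearMap.inr ℚ V V' (F w.1)
    simp [hFpr']

/-- The data of an equivalence between two diagonal idempotents. -/
theorem maps_of_mvn (X : HL d V) (X' : HL d V') {e : V →ₗ[ℚ] V}
    {e' : V' →ₗ[ℚ] V'} {E E' : X.blockAlg X'}
    (hE : (E : Module.End ℚ (V × V')) = LinearMap.inl ℚ V V' ∘ₗ e ∘ₗ LinearMap.fst ℚ V V')
    (hE' : (E' : Module.End ℚ (V × V')) = LinearMap.inr ℚ V V' ∘ₗ e' ∘ₗ LinearMap.snd ℚ V V')
    (h : MvN E E') : ∃ (f : V →ₗ[ℚ] V') (g : V' →ₗ[ℚ] V), X.IsHodge X' f ∧ X'.IsHodge X g ∧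
      g ∘ₗ f = e ∧ f ∘ₗ g = e' ∧ f ∘ₗ e = f ∧ e' ∘ₗ f = f ∧ g ∘ₗ e' = g ∧ e ∘ₗ g = g := by
  obtain ⟨x, y, hxy, hyx, h1, h2, h3, h4⟩ := h
  have aE : ∀ w, (E : Module.End ℚ (V × V')) w = (e w.1, 0) := by
    intro w
    rw [hE]
    ext <;> simp
  have aE' : ∀ w, (E' : Module.End ℚ (V × V')) w = (0, e' w.2) := by
    intro w
    rw [hE']
    ext <;> simp
  have bxy := mul_apply_of hxy
  have byx := mul_apply_of hyx
  have b1 := mul_apply_of h1
  have b2 := mul_apply_of h2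
  have b3 := mul_apply_of h3
  have b4 := mul_apply_of h4
  simp only [aE, aE'] at bxy byx b1 b2 b3 b4
  have hy1 : ∀ w, ((y : Module.End ℚ (V × V')) w).1 = 0 := fun w =>
    (congrArg Prod.fst (b3 w)).symm
  have hx2 : ∀ w, ((x : Module.End ℚ (V × V')) w).2 = 0 := fun w =>
    (congrArg Prod.snd (b1 w)).symm
  refine ⟨LinearMap.snd ℚ V V' ∘ₗ (y : Module.End ℚ (V × V')) ∘ₗ LinearMap.inl ℚ V V',
    LinearMap.fst ℚ V V' ∘ₗ (x : Module.End ℚ (V × V')) ∘ₗ LinearMap.inr ℚ V V',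
    (mem_blockAlg.1 y.2).2.1, (mem_blockAlg.1 x.2).2.2.1, ?_, ?_, ?_, ?_, ?_, ?_⟩
  · ext v
    simp only [LinearMap.comp_apply, LinearMap.inl_apply, LinearMap.inr_apply,
      LinearMap.fst_apply, LinearMap.snd_apply]
    have : ((0, ((y : Module.End ℚ (V × V')) (v, 0)).2) : V × V') =
        (y : Module.End ℚ (V × V')) (v, 0) := by
      ext
      · exact (hy1 _).symm
      · rfl
    rw [this, bxy]
  · ext v
    simp only [LinearMap.comp_apply, LinearMap.inl_apply, LinearMap.inr_apply,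
      LinearMap.fst_apply, LinearMap.snd_apply]
    have : ((((x : Module.End ℚ (V × V')) (0, v)).1, 0) : V × V') =
        (x : Module.End ℚ (V × V')) (0, v) := by
      ext
      · rfl
      · exact (hx2 _).symm
    rw [this, byx]
  · ext v
    simp only [LinearMap.comp_apply, LinearMap.inl_apply, LinearMap.snd_apply]
    exact congrArg Prod.snd (b4 (v, 0))
  · ext v
    simp only [LinearMap.comp_apply, LinearMap.inl_apply, LinearMap.snd_apply]
    exact congrArg Prod.snd (b3 (v, 0))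
  · ext v
    simp only [LinearMap.comp_apply, LinearMap.inr_apply, LinearMap.fst_apply]
    exact congrArg Prod.fst (b2 (0, v))
  · ext v
    simp only [LinearMap.comp_apply, LinearMap.inr_apply, LinearMap.fst_apply]
    exact congrArg Prod.fst (b1 (0, v))

theorem hodgeIso_of_mvn (X : HL d V) (X' : HL d V') (j : ℕ)
    (h : MvN ((X.pkg₁ X').π j) ((X.pkg₂ X').π j)) : HodgeIso X X' j := by
  obtain ⟨f, g, hf, -, hgf, hfg, h1, h2, -, -⟩ :=
    X.maps_of_mvn X' (X.coe_π₁ X' j) (X.coe_π₂ X' j) h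
  exact ⟨f, g, hgf, hfg, fun p q hpq x => X.hp_of_isHodge X' f hf j h1 h2 p q hpq x⟩

theorem sum_prBlock (X : HL d V) :
    ∑ a ∈ Finset.range 5, X.prBlock a = LinearMap.id := by
  unfold prBlock
  rw [Finset.sum_comm, ← X.pr_sum]
  refine Finset.sum_congr rfl (fun i _ => ?_)
  rw [Finset.sum_ite_eq, if_pos]
  rw [Finset.mem_range]
  unfold block
  split_ifs <;> omega

theorem prBlock_comp (X : HL d V) (a b : ℕ) :
    X.prBlock a ∘ₗ X.prBlock b = if a = b then X.prBlock a else 0 := by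
  change X.prBlock a * X.prBlock b = _
  unfold prBlock
  rw [Finset.sum_mul]
  have h1 : ∀ i ∈ Finset.range (2 * d + 1), (if block d i = a then X.pr i else 0) *
      (∑ i ∈ Finset.range (2 * d + 1), if block d i = b then X.pr i else 0) =
      if a = b then (if block d i = a then X.pr i else 0) else 0 := by
    intro i hi
    rw [Finset.mul_sum, Finset.sum_eq_single_of_mem i hi]
    · by_cases h1 : block d i = a
      · by_cases h2 : a = b
        · rw [if_pos h1, if_pos (h1.trans h2), if_pos h2, X.pr_self]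
        · rw [if_pos h1, if_neg (fun h => h2 (h1.symm.trans h)), if_neg h2, mul_zero]
      · rw [if_neg h1, zero_mul]
        simp
    · intro j _ hj
      by_cases h1 : block d i = a <;> by_cases h2 : block d j = b <;>
        simp [h1, h2, X.pr_ne i j (Ne.symm hj)]
  rw [Finset.sum_congr rfl h1]
  split_ifs
  · rfl
  · exact Finset.sum_const_zero

theorem comp_zero_of {A B C : Type*} [AddCommGroup A] [Module ℚ A] [AddCommGroup B] [Module ℚ B]
    [AddCommGroup C] [Module ℚ C] {f : B →ₗ[ℚ] C} {e e' : B →ₗ[ℚ] B} {g : A →ₗ[ℚ] B}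
    (h1 : f ∘ₗ e = f) (h2 : e' ∘ₗ g = g) (h3 : e ∘ₗ e' = 0) : f ∘ₗ g = 0 := by
  rw [← h1, ← h2, LinearMap.comp_assoc, ← LinearMap.comp_assoc g, h3, LinearMap.zero_comp,
    LinearMap.comp_zero]

/-- Gluing isomorphisms between the images of complementary projectors. -/
theorem glue {n : ℕ} {e : ℕ → V →ₗ[ℚ] V} {e' : ℕ → V' →ₗ[ℚ] V'} {f : ℕ → V →ₗ[ℚ] V'}
    {g : ℕ → V' →ₗ[ℚ] V} (hs' : ∑ a ∈ Finset.range n, e' a = LinearMap.id)
    (he : ∀ a b, e a ∘ₗ e b = if a = b then e a else 0)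
    (b0 : ∀ a, f a ∘ₗ g a = e' a)
    (c0 : ∀ a, f a ∘ₗ e a = f a) (k0' : ∀ a, e a ∘ₗ g a = g a) :
    (∑ a ∈ Finset.range n, f a) ∘ₗ (∑ a ∈ Finset.range n, g a) = LinearMap.id := by
  rw [← hs']
  have h1 : (∑ a ∈ Finset.range n, f a) ∘ₗ (∑ a ∈ Finset.range n, g a) =
      ∑ a ∈ Finset.range n, ∑ b ∈ Finset.range n, f a ∘ₗ g b := by
    ext x
    simp only [LinearMap.comp_apply, LinearMap.sum_apply, map_sum]
    rw [Finset.sum_comm]
  rw [h1]
  refine Finset.sum_congr rfl (fun a ha => ?_)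
  rw [Finset.sum_eq_single_of_mem a ha, b0]
  intro b _ hb
  refine comp_zero_of (c0 a) (k0' b) ?_
  rw [he, if_neg (Ne.symm hb)]

/-- A Hodge isomorphism from equivalences of the blocks. -/
theorem exists_equiv_of_mvn (X : HL d V) (X' : HL d V')
    (hB : ∀ a, MvN ((X.pkg₁ X').B a) ((X.pkg₂ X').B a)) :
    ∃ φ : V ≃ₗ[ℚ] V', X.IsHodge X' φ.toLinearMap ∧
      ∀ a, φ.toLinearMap ∘ₗ X.prBlock a = X'.prBlock a ∘ₗ φ.toLinearMap := by
  have h := fun a => X.maps_of_mvn X' (X.coe_B₁ X' a) (X.coe_B₂ X' a) (hB a)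
  choose f g hf _ ha hb hc hc' hk hk' using h
  have m1 := glue (n := 5) X'.sum_prBlock X.prBlock_comp hb hc hk'
  have m2 := glue (n := 5) X.sum_prBlock X'.prBlock_comp ha hk hc'
  refine ⟨LinearEquiv.ofLinearMap _ _ m1 m2, ?_, ?_⟩
  · exact isHodge_sum _ _ hf
  · intro a
    have h1 : (LinearEquiv.ofLinearMap _ _ m1 m2).toLinearMap = ∑ a ∈ Finset.range 5, f a := rfl
    rw [h1]
    ext x
    simp only [LinearMap.comp_apply, LinearMap.sum_apply, map_sum]
    refine Finset.sum_congr rfl (fun b _ => ?_)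
    by_cases h2 : b = a
    · rw [h2]
      exact (LinearMap.congr_fun (hc a) x).trans (LinearMap.congr_fun (hc' a) x).symm
    · have h3 : f b ∘ₗ X.prBlock a = 0 :=
        comp_zero_of (hc b) (e' := X.prBlock a) (by rw [X.prBlock_comp, if_pos rfl])
          (by rw [X.prBlock_comp, if_neg h2])
      have h4 : X'.prBlock a ∘ₗ f b = 0 :=
        comp_zero_of (e := X'.prBlock a) (by rw [X'.prBlock_comp, if_pos rfl]) (hc' b)
          (by rw [X'.prBlock_comp, if_neg (Ne.symm h2)])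
      exact (LinearMap.congr_fun h3 x).trans (LinearMap.congr_fun h4 x).symm

theorem hodgeIso_top (X : HL d V) (X' : HL d V') (j : ℕ)
    (hj : 2 * d < j) : X.HodgeIso X' j := by
  refine ⟨0, 0, ?_, ?_, fun p q _ x => ?_⟩
  · rw [X.pr_top j hj, LinearMap.comp_zero]
  · rw [X'.pr_top j hj, LinearMap.comp_zero]
  · rw [LinearMap.baseChange_zero, LinearMap.zero_apply, LinearMap.zero_apply, map_zero]

theorem hodgeIso_dual (X : HL d V) (X' : HL d V') (u : V ≃ₗ[ℚ] V')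
    (hu : X.IsHodge X' u.toLinearMap) (hm : ∀ x y, X'.mukai (u x) (u y) = X.mukai x y) (j : ℕ)
    (hj : j ≤ d) (h : X.HodgeIso X' j) : X.HodgeIso X' (2 * d - j) :=
  X.hodgeIso_of_mvn X' _ ((X.core_hodge X' u hu hm).2.1 j hj (X.mvn_of_hodgeIso X' j h))

/-- Cancellation inside a block. -/
theorem cancel_block (X : HL d V) (X' : HL d V') (u : V ≃ₗ[ℚ] V')
    (hu : X.IsHodge X' u.toLinearMap) (hm : ∀ x y, X'.mukai (u x) (u y) = X.mukai x y) (j : ℕ)
    (hj : j ≤ d)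
    (h : ∀ i ≤ d, i ≠ j → block d i = block d j → X.HodgeIso X' i) :
    X.HodgeIso X' j ∧ X.HodgeIso X' (2 * d - j) := by
  obtain ⟨-, h2, h3⟩ := X.core_hodge X' u hu hm
  have key : MvN ((X.pkg₁ X').π j) ((X.pkg₂ X').π j) :=
    h3 j hj (fun i hi hij hb => X.mvn_of_hodgeIso X' i (h i hi hij hb))
  exact ⟨X.hodgeIso_of_mvn X' j key, X.hodgeIso_of_mvn X' _ (h2 j hj key)⟩

end HL

end Pool.Agent.Lib.OrlovNef
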