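import Pool.Agent.Lib.OrlovNef.Main

/-!
# The absolute case: the nef class zero
-/

set_option autoImplicit false

open scoped TensorProduct ComplexOrder

namespace Pool.Agent.Lib.OrlovNef

open Pool.Agent.Lib.OrlovSig

namespace HL

variable {d : ℕ} {V V' : Type*} [AddCommGroup V] [Module ℚ V] [AddCommGroup V'] [Module ℚ V']

theorem low_zero_iff {R : Type*} [Ring R] {E : Type*} [AddCommGroup E] [Module R E] (m : ℕ)
    (x : E) : Low (0 : R) m x ↔ m ≠ 0 ∨ x = 0 := by
  constructor
  · rintro ⟨y, z, hy, rfl⟩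
    rcases Nat.eq_zero_or_pos m with rfl | hm
    · rw [pow_zero, one_smul] at hy
      rw [hy, zero_smul, add_zero]
      exact Or.inr rfl
    · exact Or.inl (by omega)
  · rintro (h | h)
    · exact ⟨x, 0, by rw [zero_pow h, zero_smul], by rw [zero_smul, add_zero]⟩
    · rw [h]
      exact Low.zero _ _

/-- The class zero is nef. -/
noncomputable def zeroNef (X : HL d V) : X.Nef where
  op := 0
  op_hp := by
    intro p q x
    rw [LinearMap.baseChange_zero, LinearMap.zero_apply, LinearMap.zero_apply, map_zero]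
  op_pair := by
    intro x y
    rw [LinearMap.zero_apply, LinearMap.zero_apply, map_zero, map_zero, LinearMap.zero_apply]
  op_lef := by
    intro x
    rw [LinearMap.zero_apply, LinearMap.zero_apply, map_zero]
  op_can := by
    intro x
    rw [LinearMap.zero_apply, LinearMap.zero_apply, map_zero]
  riemann := by
    intro t _ p q hpq x hx hne h
    rw [LinearMap.baseChange_zero, smul_zero, add_zero] at h ⊢
    exact X.riemann p q hpq x hx hne h

theorem hodgeIso_of_primIso_zero (X : HL d V) (X' : HL d V') (j : ℕ)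
    (h : PrimIso X.zeroNef X'.zeroNef 0 {j}) : X.HodgeIso X' j := by
  obtain ⟨f, g, hf, hg, h1, h2⟩ := h
  refine hodgeIso_of_pair X X' j f g hf ?_ ?_
  · ext x
    have h3 := (h1 x (by
      change ((0 : Module.End ℚ V) ^ (0 + 1)) x = 0
      rw [pow_one, LinearMap.zero_apply])).2.2
    change Low (0 : Module.End ℚ V) 0 _ at h3
    rw [low_zero_iff] at h3
    rcases h3 with h3 | h3
    · exact absurd rfl h3
    · unfold prOn at h3
      rw [Finset.sum_singleton, sub_eq_zero] at h3
      exact h3
  · ext x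
    have h3 := (h2 x (by
      change ((0 : Module.End ℚ V') ^ (0 + 1)) x = 0
      rw [pow_one, LinearMap.zero_apply])).2.2
    change Low (0 : Module.End ℚ V') 0 _ at h3
    rw [low_zero_iff] at h3
    rcases h3 with h3 | h3
    · exact absurd rfl h3
    · unfold prOn at h3
      rw [Finset.sum_singleton, sub_eq_zero] at h3
      exact h3

theorem primIso_zero_of_hodgeIso (X : HL d V) (X' : HL d V') (j : ℕ)
    [FiniteDimensional ℚ V] [FiniteDimensional ℚ V']
    (h : X.HodgeIso X' j) : PrimIso X.zeroNef X'.zeroNef 0 {j} := by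
  obtain ⟨f, k, hf, hk, hkf, hfk, -, -, -, -⟩ := X.maps_of_mvn X'
    (X.coe_π₁ X' j) (X.coe_π₂ X' j) (X.mvn_of_hodgeIso X' j h)
  refine ⟨f, k, hf, hk, fun x _ => ⟨?_, fun h1 => ?_, ?_⟩, fun x _ => ⟨?_, fun h1 => ?_, ?_⟩⟩
  · change ((0 : Module.End ℚ V') ^ (0 + 1)) _ = 0
    rw [pow_one, LinearMap.zero_apply]
  · change Low (0 : Module.End ℚ V) 0 _ at h1
    change Low (0 : Module.End ℚ V') 0 _
    rw [low_zero_iff] at h1 ⊢
    rcases h1 with h1 | h1
    · exact absurd rfl h1
    · rw [h1, map_zero]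
      exact Or.inr rfl
  · change Low (0 : Module.End ℚ V) 0 _
    rw [low_zero_iff]
    refine Or.inr ?_
    unfold prOn
    rw [Finset.sum_singleton, sub_eq_zero]
    exact LinearMap.congr_fun hkf x
  · change ((0 : Module.End ℚ V) ^ (0 + 1)) _ = 0
    rw [pow_one, LinearMap.zero_apply]
  · change Low (0 : Module.End ℚ V') 0 _ at h1
    change Low (0 : Module.End ℚ V) 0 _
    rw [low_zero_iff] at h1 ⊢
    rcases h1 with h1 | h1
    · exact absurd rfl h1
    · rw [h1, map_zero]
      exact Or.inr rfl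
  · change Low (0 : Module.End ℚ V') 0 _
    rw [low_zero_iff]
    refine Or.inr ?_
    unfold prOn
    rw [Finset.sum_singleton, sub_eq_zero]
    exact LinearMap.congr_fun hfk x

theorem primIso_zero_pos (X : HL d V) (X' : HL d V') (m : ℕ) (hm : m ≠ 0) (s : Finset ℕ) :
    PrimIso X.zeroNef X'.zeroNef m s := by
  have h1 : ∀ x : V, Low (0 : Module.End ℚ V) m x := fun x => (low_zero_iff m x).2 (Or.inl hm)
  have h2 : ∀ x : V', Low (0 : Module.End ℚ V') m x := fun x => (low_zero_iff m x).2 (Or.inl hm)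
  refine ⟨0, 0, ?_, ?_, fun x _ => ⟨by rw [LinearMap.zero_apply, map_zero], fun _ => h2 _, h1 _⟩,
    fun y _ => ⟨by rw [LinearMap.zero_apply, map_zero], fun _ => h1 _, h2 _⟩⟩
  · intro c x
    rw [LinearMap.baseChange_zero, LinearMap.zero_apply, LinearMap.zero_apply, map_zero]
  · intro c x
    rw [LinearMap.baseChange_zero, LinearMap.zero_apply, LinearMap.zero_apply, map_zero]

/-- The absolute theorem: the cohomology in degrees `< d - 2` determines the rest. -/
theorem hodgeIso_of_low [FiniteDimensional ℚ V] [FiniteDimensional ℚ V'] (X : HL d V)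
    (X' : HL d V') (u : V ≃ₗ[ℚ] V') (hu : X.IsHodge X' u.toLinearMap)
    (hm : ∀ x y, X'.mukai (u x) (u y) = X.mukai x y)
    (h : ∀ j, j + 2 < d → X.HodgeIso X' j) : ∀ j, X.HodgeIso X' j := by
  refine hodgeIso_of_known X X' X.zeroNef X'.zeroNef u hu hm (fun x => ?_)
    {t | t.1 + t.2 + 2 < d} ?_ ?_
  · change u ((0 : Module.End ℚ V) x) = (0 : Module.End ℚ V') (u x)
    rw [LinearMap.zero_apply, LinearMap.zero_apply, map_zero]
  · intro m j hmj
    rw [Set.mem_ofPred_eq] at hmj
    dsimp only at hmj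
    by_cases hm0 : m = 0
    · subst hm0
      exact primIso_zero_of_hodgeIso X X' j (h j (by omega))
    · exact primIso_zero_pos X X' m hm0 _
  · intro m i j hmi hmj hb h1 h2
    rw [Set.mem_ofPred_eq, not_lt] at h1 h2
    dsimp only at h1 h2
    unfold block at hb
    split_ifs at hb <;> omega

end HL

end Pool.Agent.Lib.OrlovNef
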